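import Pool.Agent.H92.RamseyI

/-!
RamseyC: from the one-step theorem to the `T1` theorem (MP_28724c_co), by induction.
Author: helper34.
-/

set_option linter.unusedSectionVars false

open Finset

namespace Pool.Agent.H92

section basic
variable {V : Type} [DecidableEq V] {G : SimpleGraph V} [DecidableRel G.Adj]

lemma ex_le_one {q : ℝ} (hq : 0 ≤ q) (S : Finset V) (y : V) : ex G q S y ≤ 1 := by
  unfold ex sE
  rcases S.eq_empty_or_nonempty with h | h
  · subst h; simp
  · have hc : (0 : ℝ) < S.card := by exact_mod_cast h.card_pos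
    rw [div_le_one hc]
    calc ∑ x ∈ S, (ind G x y - q) ≤ ∑ _x ∈ S, (1 : ℝ) :=
          sum_le_sum (fun x _ => by linarith [ind_le_one (G := G) x y])
      _ = S.card := by simp

lemma pot_le {a q : ℝ} (hq : 0 ≤ q) (W : ℕ) (X Z : Finset V) :
    pot G a q W X Z ≤ (X.card : ℝ) ^ a * Z.card := by
  unfold pot
  refine mul_le_mul_of_nonneg_left ?_ (Real.rpow_nonneg (by positivity) _)
  calc ∑ y ∈ Z, (max (ex G q X y) 0) ^ W ≤ ∑ _y ∈ Z, (1 : ℝ) := by
        refine sum_le_sum (fun y _ => ?_)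
        exact pow_le_one₀ (le_max_right _ _) (max_le (ex_le_one hq X y) zero_le_one)
    _ = Z.card := by simp

lemma Phi_succ_le {q : ℝ} (hq : 0 ≤ q) (W : ℕ) (X Z : Finset V) :
    Phi G q (W + 1) X Z ≤ Phi G q W X Z := by
  unfold Phi
  refine sum_le_sum (fun y hy => ?_)
  have h0 := (ex_pos_of_mem hy).le
  have h1 := ex_le_one (G := G) hq X y
  exact pow_le_pow_of_le_one h0 h1 (Nat.le_succ W)

lemma NoR_mono {k : ℕ} {X Y : Finset V} (h : NoR G k X) (hY : Y ⊆ X) : NoR G k Y :=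
  fun S hS => h S (hS.trans hY)

lemma NoB_mono {k : ℕ} {X Y : Finset V} (h : NoB G k X) (hY : Y ⊆ X) : NoB G k Y :=
  fun S hS => h S (hS.trans hY)

lemma not_NoR_zero (X : Finset V) : ¬ NoR G 0 X := by
  intro h
  exact h ∅ (empty_subset _) (by simp)

lemma not_NoB_zero (X : Finset V) : ¬ NoB G 0 X := by
  intro h
  exact h ∅ (empty_subset _) (by simp)

lemma NoR_child {k : ℕ} {X Z : Finset V} {x : V} (hx : x ∈ X) (h : NoR G (k + 1) (X ∪ Z)) :
    NoR G k (rN G x X ∪ rN G x Z) := by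
  intro S hS hc
  have hadj : ∀ b ∈ S, G.Adj x b := by
    intro b hb
    have := hS hb
    simp only [rN, mem_union, mem_filter] at this
    rcases this with h | h <;> exact h.2
  refine h (insert x S) ?_ (hc.insert hadj)
  intro z hz
  rw [mem_insert] at hz
  rcases hz with rfl | hz
  · exact mem_union_left _ hx
  · have := hS hz
    simp only [rN, mem_union, mem_filter] at this ⊢
    rcases this with h | h
    · exact Or.inl h.1
    · exact Or.inr h.1

lemma NoB_child {l : ℕ} {X : Finset V} {x : V} (hx : x ∈ X) (h : NoB G (l + 1) X) :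
    NoB G l (bN G x X) := by
  intro S hS hc
  have hadj : ∀ b ∈ S, Gᶜ.Adj x b := by
    intro b hb
    have := hS hb
    simp only [bN, mem_filter] at this
    rw [SimpleGraph.compl_adj]
    exact ⟨this.2.1.symm, this.2.2⟩
  refine h (insert x S) ?_ (hc.insert hadj)
  intro z hz
  rw [mem_insert] at hz
  rcases hz with rfl | hz
  · exact hx
  · exact bN_subset _ _ (hS hz)

lemma pot_pos_of {a q : ℝ} {W : ℕ} (ha : 0 < a) (hW : 1 ≤ W) {X Z : Finset V}
    (h : 0 < pot G a q W X Z) : X.Nonempty ∧ 0 < Phi G q W X Z := by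
  have hX : X.Nonempty := by
    rw [nonempty_iff_ne_empty]
    rintro rfl
    unfold pot at h
    rw [card_empty, Nat.cast_zero, Real.zero_rpow ha.ne', zero_mul] at h
    exact lt_irrefl _ h
  refine ⟨hX, ?_⟩
  rw [pot_eq a q hW] at h
  have hn := Phi_nonneg (G := G) q W X Z
  rcases hn.eq_or_lt with h0 | h0
  · rw [← h0, mul_zero] at h; exact absurd h (lt_irrefl _)
  · exact h0

end basic

/-- the conclusion of `OneStep` for fixed parameters -/
def StepAt (a q L M : ℝ) (W0 : ℕ) (θ δ : ℝ) : Prop :=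
  ∀ (V : Type) [DecidableEq V] (G : SimpleGraph V) [DecidableRel G.Adj]
        (X Z : Finset V) (W : ℕ), W0 ≤ W → X.Nonempty → 0 < Phi G q W X Z →
        (∀ X' ⊆ X, pot G a q W X' Z ≤ pot G a q W X Z) →
        Phi G q (W + 1) X Z * Phi G q (W - 1) X Z ≤ (1 + θ ^ 2) * Phi G q W X Z ^ 2 →
        (W : ℝ) / X.card * (Phi G q (W - 1) X Z / Phi G q W X Z) ≤ δ →
        (∀ x ∈ X, pot G a q W (rN G x X) (rN G x Z) ≤ Real.exp (-L) * pot G a q W X Z) →
        (∀ x ∈ X, pot G a q W (bN G x X) Z ≤ Real.exp (-M) * pot G a q W X Z) →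
        False

theorem claim_of_step {a q L M : ℝ} (ha : 0 < a) (ha1 : a ≤ 1) (hq0 : 0 < q)
    (hM : 0 ≤ M) {W0 : ℕ} {θ δ : ℝ} (hW0 : 1 ≤ W0) (hδ : 0 < δ)
    (hstep : StepAt a q L M W0 θ δ) {ε : ℝ} (hε : 0 < ε) (hεθ : Real.exp ε ≤ 1 + θ ^ 2)
    {m : ℕ} {n0 : ℝ} (hn1 : 1 ≤ n0)
    (hn0 : ((W0 + m : ℕ) : ℝ) * Real.exp (ε * (m + 1)) / δ ≤ n0)
    {V : Type} [DecidableEq V] (G : SimpleGraph V) [DecidableRel G.Adj]
    {X Z : Finset V} {N k : ℕ} {E : ℝ} (hXN : X.card ≤ N) (hZN : Z.card ≤ N)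
    (hm : (N : ℝ) ^ 2 ≤ Real.exp (ε / 2 * (m : ℝ) ^ 2))
    (hE : ∀ j ≤ k, ∀ Z' ⊆ Z, NoR G j Z' → (Z'.card : ℝ) ≤ E * Real.exp (j * L)) :
    ∀ n k' l' : ℕ, k' + l' ≤ n → k' ≤ k → ∀ X' ⊆ X, ∀ Z' ⊆ Z,
      NoR G k' (X' ∪ Z') → NoB G l' X' → ∀ i ≤ m,
      pot G a q (W0 + (m - i)) X' Z' ≤
        Real.exp (ε / 2 * (i : ℝ) ^ 2) * (n0 ^ a * E * Real.exp (k' * L + l' * M)) := by
  intro n
  induction n with
  | zero =>
    intro k' l' hkl _ X' _ Z' _ hR _ i _
    have : k' = 0 := by omega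
    subst this
    exact absurd hR (not_NoR_zero _)
  | succ n ih =>
    intro k' l' hkl hk X' hX' Z' hZ' hR hB
    obtain _ | k'' := k'
    · exact absurd hR (not_NoR_zero _)
    obtain _ | l'' := l'
    · exact absurd hB (not_NoB_zero _)
    by_contra hcon
    simp only [not_forall, not_le] at hcon
    obtain ⟨i, him, hi⟩ := hcon
    set B : ℝ := n0 ^ a * E * Real.exp ((k'' + 1 : ℕ) * L + (l'' + 1 : ℕ) * M) with hBdef
    have hn0pos : 0 < n0 := lt_of_lt_of_le one_pos hn1
    have hE0 : 0 ≤ E := by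
      have h1 := hE (k'' + 1) hk ∅ (empty_subset _) (NoR_mono hR (empty_subset _))
      rw [card_empty, Nat.cast_zero] at h1
      exact nonneg_of_mul_nonneg_left h1 (Real.exp_pos _)
    have hna : 1 ≤ n0 ^ a := Real.one_le_rpow hn1 ha.le
    have hB0 : 0 ≤ B := by
      rw [hBdef]; positivity
    -- the maximiser
    obtain ⟨⟨j, Y⟩, hjY, hmax⟩ := Finset.exists_max_image ((range (m + 1)) ×ˢ X'.powerset)
      (fun p : ℕ × Finset V => pot G a q (W0 + (m - p.1)) p.2 Z' *
        Real.exp (-(ε / 2 * (p.1 : ℝ) ^ 2)))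
      ⟨(i, X'), by simp only [mem_product, mem_range, mem_powerset]; exact ⟨by omega, subset_rfl⟩⟩
    simp only [mem_product, mem_range, mem_powerset] at hjY
    obtain ⟨hj, hY⟩ := hjY
    have hmax' : ∀ i' ≤ m, ∀ Y' ⊆ X', pot G a q (W0 + (m - i')) Y' Z' *
        Real.exp (-(ε / 2 * (i' : ℝ) ^ 2)) ≤ pot G a q (W0 + (m - j)) Y Z' *
        Real.exp (-(ε / 2 * (j : ℝ) ^ 2)) := by
      intro i' hi' Y' hY'
      exact hmax (i', Y') (by simp only [mem_product, mem_range, mem_powerset]; exact ⟨by omega, hY'⟩)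
    clear hmax
    have hbig : B < pot G a q (W0 + (m - j)) Y Z' * Real.exp (-(ε / 2 * (j : ℝ) ^ 2)) := by
      refine lt_of_lt_of_le ?_ (hmax' i him X' subset_rfl)
      rw [Real.exp_neg, ← div_eq_mul_inv, lt_div_iff₀ (Real.exp_pos _), mul_comm]
      exact hi
    set W : ℕ := W0 + (m - j) with hWdef
    have hW1 : 1 ≤ W := by omega
    have hejle : Real.exp (-(ε / 2 * (j : ℝ) ^ 2)) ≤ 1 := by
      apply Real.exp_le_one_iff.mpr
      have : 0 ≤ ε / 2 * (j : ℝ) ^ 2 := by positivity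
      linarith
    have hpot0 : 0 ≤ pot G a q W Y Z' := by
      rw [pot_eq a q hW1]
      exact mul_nonneg (Real.rpow_nonneg (by positivity) _) (Phi_nonneg _ _ _ _)
    have hpotB : B < pot G a q W Y Z' := by
      refine lt_of_lt_of_le hbig ?_
      exact mul_le_of_le_one_right hpot0 hejle
    have hpotpos : 0 < pot G a q W Y Z' := lt_of_le_of_lt hB0 hpotB
    obtain ⟨hYne, hPhi⟩ := pot_pos_of ha hW1 hpotpos
    have hZcard : (Z'.card : ℝ) ≤ E * Real.exp ((k'' + 1 : ℕ) * L) :=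
      hE (k'' + 1) hk Z' hZ' (NoR_mono hR subset_union_right)
    have hZpos : (1 : ℝ) ≤ Z'.card := by
      have h1 := pot_le (G := G) (a := a) hq0.le W Y Z'
      have h2 : 0 < (Z'.card : ℝ) := by
        by_contra hc
        have h3 : (Z'.card : ℝ) = 0 := le_antisymm (not_lt.mp hc) (by positivity)
        rw [h3, mul_zero] at h1
        linarith
      exact_mod_cast h2
    have hElM : E * Real.exp ((k'' + 1 : ℕ) * L) ≤
        E * Real.exp ((k'' + 1 : ℕ) * L + (l'' + 1 : ℕ) * M) := by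
      apply mul_le_mul_of_nonneg_left _ hE0
      apply Real.exp_le_exp.mpr
      have : 0 ≤ ((l'' + 1 : ℕ) : ℝ) * M := by positivity
      linarith
    -- (1) the set Y is large
    have hYbig : n0 < Y.card := by
      by_contra hc
      rw [not_lt] at hc
      have h1 := pot_le (G := G) (a := a) hq0.le W Y Z'
      have h2 : (Y.card : ℝ) ^ a ≤ n0 ^ a := Real.rpow_le_rpow (by positivity) hc ha.le
      have h3 : (Y.card : ℝ) ^ a * Z'.card ≤ n0 ^ a * (E * Real.exp ((k'' + 1 : ℕ) * L + (l'' + 1 : ℕ) * M)) :=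
        mul_le_mul h2 (hZcard.trans hElM) (by positivity) (by positivity)
      rw [← mul_assoc, ← hBdef] at h3
      linarith
    have hYN : (Y.card : ℝ) ≤ N := by
      exact_mod_cast (card_le_card (hY.trans hX')).trans hXN
    have hZN' : (Z'.card : ℝ) ≤ N := by
      exact_mod_cast (card_le_card hZ').trans hZN
    have hYpos : (0 : ℝ) < Y.card := by exact_mod_cast hYne.card_pos
    have hN1 : (1 : ℝ) ≤ N := by
      have : (1 : ℝ) ≤ Y.card := by exact_mod_cast hYne.card_pos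
      linarith
    have hYa : 0 < (Y.card : ℝ) ^ a := Real.rpow_pos_of_pos hYpos _
    -- (2) j < m
    have hjm : j < m := by
      rcases Nat.lt_or_ge j m with h | h
      · exact h
      · exfalso
        have hjm' : j = m := by omega
        have h1 := pot_le (G := G) (a := a) hq0.le W Y Z'
        have h2 : (Y.card : ℝ) ^ a ≤ N := by
          calc (Y.card : ℝ) ^ a ≤ (N : ℝ) ^ a := Real.rpow_le_rpow hYpos.le hYN ha.le
            _ ≤ (N : ℝ) ^ (1 : ℝ) := Real.rpow_le_rpow_of_exponent_le hN1 ha1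
            _ = N := Real.rpow_one _
        have h3 : (Y.card : ℝ) ^ a * Z'.card ≤ N * N :=
          mul_le_mul h2 hZN' (by positivity) (by positivity)
        have h4 : pot G a q W Y Z' ≤ Real.exp (ε / 2 * (j : ℝ) ^ 2) := by
          rw [hjm']
          calc _ ≤ _ := h1
            _ ≤ (N : ℝ) * N := h3
            _ = (N : ℝ) ^ 2 := by ring
            _ ≤ _ := hm
        have h5 : pot G a q W Y Z' * Real.exp (-(ε / 2 * (j : ℝ) ^ 2)) ≤ 1 := by
          rw [Real.exp_neg, ← div_eq_mul_inv]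
          exact (div_le_one (Real.exp_pos _)).mpr h4
        have h6 : (1 : ℝ) ≤ B := by
          rw [hBdef, mul_assoc]
          have h7 : (1 : ℝ) ≤ E * Real.exp ((k'' + 1 : ℕ) * L + (l'' + 1 : ℕ) * M) :=
            hZpos.trans (hZcard.trans hElM)
          calc (1 : ℝ) = 1 * 1 := by ring
            _ ≤ _ := mul_le_mul hna h7 zero_le_one (by positivity)
        linarith
    -- comparison of moments at neighbouring levels
    have hW0W : W0 + 1 ≤ W := by omega
    have hdown : Phi G q (W - 1) Y Z' ≤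
        Real.exp (ε / 2 * (2 * (j : ℝ) + 1)) * Phi G q W Y Z' := by
      have h1 := hmax' (j + 1) (by omega) Y hY
      have h2 : W0 + (m - (j + 1)) = W - 1 := by omega
      rw [h2, pot_eq a q hW1, pot_eq a q (by omega : 1 ≤ W - 1)] at h1
      have h3 : Phi G q (W - 1) Y Z' * Real.exp (-(ε / 2 * ((j + 1 : ℕ) : ℝ) ^ 2)) ≤
          Phi G q W Y Z' * Real.exp (-(ε / 2 * (j : ℝ) ^ 2)) := by
        rw [mul_assoc, mul_assoc] at h1
        exact le_of_mul_le_mul_left h1 hYa
      have h4 : Real.exp (ε / 2 * (2 * (j : ℝ) + 1)) =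
          Real.exp (-(ε / 2 * (j : ℝ) ^ 2)) * Real.exp (ε / 2 * ((j + 1 : ℕ) : ℝ) ^ 2) := by
        rw [← Real.exp_add]; congr 1; push_cast; ring
      have h5 : Phi G q (W - 1) Y Z' = (Phi G q (W - 1) Y Z' *
          Real.exp (-(ε / 2 * ((j + 1 : ℕ) : ℝ) ^ 2))) * Real.exp (ε / 2 * ((j + 1 : ℕ) : ℝ) ^ 2) := by
        rw [mul_assoc, ← Real.exp_add, neg_add_cancel, Real.exp_zero, mul_one]
      rw [h4, h5]
      calc _ ≤ (Phi G q W Y Z' * Real.exp (-(ε / 2 * (j : ℝ) ^ 2))) *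
            Real.exp (ε / 2 * ((j + 1 : ℕ) : ℝ) ^ 2) :=
            mul_le_mul_of_nonneg_right h3 (Real.exp_pos _).le
        _ = _ := by ring
    have hup : Phi G q (W + 1) Y Z' ≤
        Real.exp (ε / 2 * (1 - 2 * (j : ℝ))) * Phi G q W Y Z' := by
      rcases Nat.eq_zero_or_pos j with h0 | h0
      · subst h0
        have h1 := Phi_succ_le (G := G) hq0.le W Y Z'
        refine h1.trans ?_
        have h2 : (1 : ℝ) ≤ Real.exp (ε / 2 * (1 - 2 * ((0 : ℕ) : ℝ))) := by
          apply Real.one_le_exp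
          push_cast; linarith
        exact le_mul_of_one_le_left hPhi.le h2
      · have h1 := hmax' (j - 1) (by omega) Y hY
        have h2 : W0 + (m - (j - 1)) = W + 1 := by omega
        rw [h2, pot_eq a q hW1, pot_eq a q (by omega : 1 ≤ W + 1)] at h1
        have h3 : Phi G q (W + 1) Y Z' * Real.exp (-(ε / 2 * ((j - 1 : ℕ) : ℝ) ^ 2)) ≤
            Phi G q W Y Z' * Real.exp (-(ε / 2 * (j : ℝ) ^ 2)) := by
          rw [mul_assoc, mul_assoc] at h1
          exact le_of_mul_le_mul_left h1 hYa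
        have hcast : ((j - 1 : ℕ) : ℝ) = (j : ℝ) - 1 := by
          rw [Nat.cast_sub (by omega : 1 ≤ j)]; simp
        rw [hcast] at h3
        have h4 : Real.exp (ε / 2 * (1 - 2 * (j : ℝ))) =
            Real.exp (-(ε / 2 * (j : ℝ) ^ 2)) * Real.exp (ε / 2 * ((j : ℝ) - 1) ^ 2) := by
          rw [← Real.exp_add]; congr 1; ring
        have h5 : Phi G q (W + 1) Y Z' = (Phi G q (W + 1) Y Z' *
            Real.exp (-(ε / 2 * ((j : ℝ) - 1) ^ 2))) * Real.exp (ε / 2 * ((j : ℝ) - 1) ^ 2) := by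
          rw [mul_assoc, ← Real.exp_add, neg_add_cancel, Real.exp_zero, mul_one]
        rw [h4, h5]
        calc _ ≤ (Phi G q W Y Z' * Real.exp (-(ε / 2 * (j : ℝ) ^ 2))) *
              Real.exp (ε / 2 * ((j : ℝ) - 1) ^ 2) :=
              mul_le_mul_of_nonneg_right h3 (Real.exp_pos _).le
          _ = _ := by ring
    -- apply the one step theorem
    refine hstep V G Y Z' W (by omega) hYne hPhi ?_ ?_ ?_ ?_ ?_
    · intro X'' hX''
      have h1 := hmax' j (by omega) X'' (hX''.trans hY)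
      exact le_of_mul_le_mul_right h1 (Real.exp_pos _)
    · calc Phi G q (W + 1) Y Z' * Phi G q (W - 1) Y Z'
          ≤ (Real.exp (ε / 2 * (1 - 2 * (j : ℝ))) * Phi G q W Y Z') *
            (Real.exp (ε / 2 * (2 * (j : ℝ) + 1)) * Phi G q W Y Z') :=
            mul_le_mul hup hdown (Phi_nonneg _ _ _ _) (by positivity)
        _ = Real.exp ε * Phi G q W Y Z' ^ 2 := by
            have : Real.exp ε = Real.exp (ε / 2 * (1 - 2 * (j : ℝ))) *
              Real.exp (ε / 2 * (2 * (j : ℝ) + 1)) := by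
              rw [← Real.exp_add]; congr 1; ring
            rw [this]; ring
        _ ≤ (1 + θ ^ 2) * Phi G q W Y Z' ^ 2 :=
            mul_le_mul_of_nonneg_right hεθ (by positivity)
    · have h1 : Phi G q (W - 1) Y Z' / Phi G q W Y Z' ≤ Real.exp (ε / 2 * (2 * (j : ℝ) + 1)) := by
        rw [div_le_iff₀ hPhi]; exact hdown
      have h2 : Real.exp (ε / 2 * (2 * (j : ℝ) + 1)) ≤ Real.exp (ε * (m + 1)) := by
        apply Real.exp_le_exp.mpr
        have : (j : ℝ) ≤ m := by exact_mod_cast hjm.le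
        have h9 : ε * (j : ℝ) ≤ ε * m := mul_le_mul_of_nonneg_left this hε.le
        linarith
      have h3 : (W : ℝ) ≤ ((W0 + m : ℕ) : ℝ) := by
        have : W ≤ W0 + m := by omega
        exact_mod_cast this
      have h4 : ((W0 + m : ℕ) : ℝ) * Real.exp (ε * (m + 1)) ≤ δ * Y.card := by
        rw [div_le_iff₀ hδ] at hn0
        calc _ ≤ n0 * δ := hn0
          _ ≤ δ * Y.card := by
            rw [mul_comm]; exact mul_le_mul_of_nonneg_left hYbig.le hδ.le
      rw [div_mul_eq_mul_div, div_le_iff₀ hYpos]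
      calc (W : ℝ) * (Phi G q (W - 1) Y Z' / Phi G q W Y Z')
          ≤ ((W0 + m : ℕ) : ℝ) * Real.exp (ε * (m + 1)) :=
            mul_le_mul h3 (h1.trans h2) (div_nonneg (Phi_nonneg _ _ _ _) hPhi.le) (by positivity)
        _ ≤ _ := h4
    · intro x hx
      have hR' : NoR G (k'' + 1) (Y ∪ Z') := NoR_mono hR (union_subset_union_left hY)
      have h1 := ih k'' (l'' + 1) (by omega) (by omega) (rN G x Y)
        ((rN_subset x Y).trans (hY.trans hX')) (rN G x Z') ((rN_subset x Z').trans hZ')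
        (NoR_child hx hR') (NoB_mono hB ((rN_subset x Y).trans hY)) j (by omega)
      have h2 : Real.exp (ε / 2 * (j : ℝ) ^ 2) * (n0 ^ a * E *
          Real.exp ((k'' : ℝ) * L + ((l'' + 1 : ℕ) : ℝ) * M)) =
          Real.exp (-L) * (Real.exp (ε / 2 * (j : ℝ) ^ 2) * B) := by
        rw [hBdef]
        have : Real.exp ((k'' : ℝ) * L + ((l'' + 1 : ℕ) : ℝ) * M) =
            Real.exp (-L) * Real.exp (((k'' + 1 : ℕ) : ℝ) * L + ((l'' + 1 : ℕ) : ℝ) * M) := by
          rw [← Real.exp_add]; congr 1; push_cast; ring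
        rw [this]; ring
      rw [h2] at h1
      refine h1.trans ?_
      refine mul_le_mul_of_nonneg_left ?_ (Real.exp_pos _).le
      rw [Real.exp_neg, ← div_eq_mul_inv, lt_div_iff₀ (Real.exp_pos _), mul_comm] at hbig
      exact hbig.le
    · intro x hx
      have hR' : NoR G (k'' + 1) (bN G x Y ∪ Z') :=
        NoR_mono hR (union_subset_union_left ((bN_subset x Y).trans hY))
      have h1 := ih (k'' + 1) l'' (by omega) hk (bN G x Y)
        ((bN_subset x Y).trans (hY.trans hX')) Z' hZ'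
        hR' (NoB_child hx (NoB_mono hB hY)) j (by omega)
      have h2 : Real.exp (ε / 2 * (j : ℝ) ^ 2) * (n0 ^ a * E *
          Real.exp (((k'' + 1 : ℕ) : ℝ) * L + (l'' : ℝ) * M)) =
          Real.exp (-M) * (Real.exp (ε / 2 * (j : ℝ) ^ 2) * B) := by
        rw [hBdef]
        have : Real.exp (((k'' + 1 : ℕ) : ℝ) * L + (l'' : ℝ) * M) =
            Real.exp (-M) * Real.exp (((k'' + 1 : ℕ) : ℝ) * L + ((l'' + 1 : ℕ) : ℝ) * M) := by
          rw [← Real.exp_add]; congr 1; push_cast; ring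
        rw [this]; ring
      rw [h2] at h1
      refine h1.trans ?_
      refine mul_le_mul_of_nonneg_left ?_ (Real.exp_pos _).le
      rw [Real.exp_neg, ← div_eq_mul_inv, lt_div_iff₀ (Real.exp_pos _), mul_comm] at hbig
      exact hbig.le


lemma pot_ge {V : Type} [DecidableEq V] {G : SimpleGraph V} [DecidableRel G.Adj]
    {a q η : ℝ} (hη : 0 < η) {W : ℕ} {X Z : Finset V} (hX : X.Nonempty) (hZ : Z.Nonempty)
    (hd : (q + η) * X.card * Z.card ≤ ∑ x ∈ X, ∑ y ∈ Z, ind G x y) :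
    (X.card : ℝ) ^ a * (Z.card * η ^ W) ≤ pot G a q W X Z := by
  have hXc : (0 : ℝ) < X.card := by exact_mod_cast hX.card_pos
  have hZc : (0 : ℝ) < Z.card := by exact_mod_cast hZ.card_pos
  unfold pot
  refine mul_le_mul_of_nonneg_left ?_ (Real.rpow_nonneg hXc.le _)
  have hsum : η * Z.card ≤ ∑ y ∈ Z, max (ex G q X y) 0 := by
    have h1 : ∑ y ∈ Z, ex G q X y ≤ ∑ y ∈ Z, max (ex G q X y) 0 :=
      sum_le_sum (fun y _ => le_max_left _ _)
    have h2 : ∑ y ∈ Z, ex G q X y = (∑ x ∈ X, ∑ y ∈ Z, ind G x y) / X.card - q * Z.card := by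
      unfold ex sE
      rw [← sum_div, sum_comm]
      simp only [sum_sub_distrib, sum_const, nsmul_eq_mul]
      field_simp
    have h3 : (q + η) * Z.card ≤ (∑ x ∈ X, ∑ y ∈ Z, ind G x y) / X.card := by
      rw [le_div_iff₀ hXc]
      calc _ = (q + η) * X.card * Z.card := by ring
        _ ≤ _ := hd
    have h4 : η * Z.card ≤ ∑ y ∈ Z, ex G q X y := by rw [h2]; linarith
    exact h4.trans h1
  have hpm := Real.pow_arith_mean_le_arith_mean_pow Z (fun _ => (1 : ℝ) / Z.card)
    (fun y => max (ex G q X y) 0) (fun _ _ => by positivity)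
    (by rw [sum_const, nsmul_eq_mul]; field_simp) (fun _ _ => le_max_right _ _) W
  rw [← mul_sum, ← mul_sum] at hpm
  have h5 : η ≤ 1 / Z.card * ∑ y ∈ Z, max (ex G q X y) 0 := by
    rw [one_div, ← div_eq_inv_mul, le_div_iff₀ hZc]; exact hsum
  have h6 : η ^ W ≤ 1 / Z.card * ∑ y ∈ Z, (max (ex G q X y) 0) ^ W :=
    (pow_le_pow_left₀ hη.le h5 W).trans hpm
  rw [one_div, ← div_eq_inv_mul, le_div_iff₀ hZc] at h6
  linarith

theorem t1_of_oneStep (h : OneStep) : T1 := by
  intro a q L M η ha ha1 hq0 hq1 hL hM hη hcert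
  obtain ⟨W0, θ, δ, hW0, hθ, hδ, hstep⟩ := h a q L M ha ha1 hq0 hq1 hcert
  set ε : ℝ := Real.log (1 + θ ^ 2) with hεdef
  have hθ2 : 0 < θ ^ 2 := by positivity
  have hε : 0 < ε := Real.log_pos (by linarith)
  have hεθ : Real.exp ε ≤ 1 + θ ^ 2 := by rw [hεdef, Real.exp_log (by linarith)]
  set B : ℝ := (1 + |Real.log η|) + ε with hB
  set A : ℝ := W0 * (1 + |Real.log η|) + ε + |Real.log δ| with hA
  have hB0 : 0 ≤ B := by rw [hB]; positivity
  have hA0 : 0 ≤ A := by rw [hA]; positivity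
  have hsε : 0 < Real.sqrt ε := Real.sqrt_pos.mpr hε
  refine ⟨A + B + B * (2 / Real.sqrt ε), by positivity, ?_⟩
  intro V _ G _ X Z N k l E hX hZ hXN hZN hR hBl hE hd
  have hXc : (1 : ℝ) ≤ X.card := by exact_mod_cast hX.card_pos
  have hZc : (1 : ℝ) ≤ Z.card := by exact_mod_cast hZ.card_pos
  have hN1 : (1 : ℝ) ≤ N := by
    have : (X.card : ℝ) ≤ N := by exact_mod_cast hXN
    linarith
  set lam : ℝ := Real.log N with hlam
  have hlam0 : 0 ≤ lam := Real.log_nonneg hN1
  set m : ℕ := ⌈2 * Real.sqrt (lam / ε)⌉₊ with hm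
  have hmge : 2 * Real.sqrt (lam / ε) ≤ m := Nat.le_ceil _
  have hmle : (m : ℝ) ≤ 1 + 2 / Real.sqrt ε * Real.sqrt lam := by
    have h1 : (m : ℝ) < 2 * Real.sqrt (lam / ε) + 1 := Nat.ceil_lt_add_one (by positivity)
    have h2 : Real.sqrt (lam / ε) = Real.sqrt lam / Real.sqrt ε := Real.sqrt_div hlam0 _
    rw [h2] at h1
    have h3 : 2 * (Real.sqrt lam / Real.sqrt ε) = 2 / Real.sqrt ε * Real.sqrt lam := by ring
    linarith
  have hmN : (N : ℝ) ^ 2 ≤ Real.exp (ε / 2 * (m : ℝ) ^ 2) := by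
    have h1 : (N : ℝ) ^ 2 = Real.exp (2 * lam) := by
      rw [hlam, mul_comm, Real.exp_mul, Real.exp_log (by linarith)]
      norm_cast
    rw [h1]
    apply Real.exp_le_exp.mpr
    have h2 : (2 * Real.sqrt (lam / ε)) ^ 2 ≤ (m : ℝ) ^ 2 :=
      pow_le_pow_left₀ (by positivity) hmge 2
    rw [mul_pow, Real.sq_sqrt (by positivity)] at h2
    have h3 : ε / 2 * (2 ^ 2 * (lam / ε)) ≤ ε / 2 * (m : ℝ) ^ 2 :=
      mul_le_mul_of_nonneg_left h2 (by positivity)
    have h4 : ε / 2 * (2 ^ 2 * (lam / ε)) = 2 * lam := by field_simp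
    linarith
  set t : ℝ := ((W0 + m : ℕ) : ℝ) * Real.exp (ε * (m + 1)) / δ with ht
  have hWm : (1 : ℝ) ≤ ((W0 + m : ℕ) : ℝ) := by
    have : 1 ≤ W0 + m := by omega
    exact_mod_cast this
  have htpos : 0 < t := by rw [ht]; positivity
  have hclaim := claim_of_step ha ha1 hq0 hM hW0 hδ hstep hε hεθ (m := m) (n0 := max 1 t)
    (le_max_left _ _) (le_max_right _ _) G hXN hZN hmN hE (k + l) k l le_rfl le_rfl
    X subset_rfl Z subset_rfl hR hBl 0 (Nat.zero_le _)
  have hlow := pot_ge (a := a) (W := W0 + (m - 0)) hη hX hZ hd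
  have hmain := hlow.trans hclaim
  have hk1 : 1 ≤ k := by
    rcases Nat.eq_zero_or_pos k with h0 | h0
    · subst h0; exact absurd hR (not_NoR_zero _)
    · exact h0
  have hEk : (Z.card : ℝ) ≤ E * Real.exp (k * L) :=
    hE k le_rfl Z subset_rfl (NoR_mono hR subset_union_right)
  have hEpos : 0 < E := by
    have h1 : 0 < E * Real.exp (k * L) := by linarith
    exact pos_of_mul_pos_left h1 (Real.exp_pos _).le
  have hn0 : 0 < max 1 t := lt_of_lt_of_le one_pos (le_max_left _ _)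
  have hXa : 0 < (X.card : ℝ) ^ a := Real.rpow_pos_of_pos (by linarith) _
  have hηW : 0 < η ^ (W0 + (m - 0)) := pow_pos hη _
  have hlog := Real.log_le_log (by positivity) hmain
  rw [Real.log_mul hXa.ne' (by positivity), Real.log_mul (by positivity) hηW.ne',
    Real.log_rpow (by linarith), Real.log_pow, Real.log_mul (by positivity) (by positivity),
    Real.log_exp, Real.log_mul (by positivity) (by positivity),
    Real.log_mul (by positivity) (by positivity), Real.log_exp, Real.log_rpow hn0] at hlog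
  have hlogt : Real.log (max 1 t) ≤ (W0 + m) + ε * (m + 1) + |Real.log δ| := by
    rcases le_total 1 t with h1 | h1
    · rw [max_eq_right h1, ht, Real.log_div (by positivity) hδ.ne',
        Real.log_mul (by positivity) (by positivity), Real.log_exp]
      have h2 := Real.log_le_sub_one_of_pos (lt_of_lt_of_le one_pos hWm)
      have h3 := neg_abs_le (Real.log δ)
      push_cast at h2 ⊢
      linarith
    · rw [max_eq_left h1, Real.log_one]; positivity
  have hlogt0 : 0 ≤ Real.log (max 1 t) := Real.log_nonneg (le_max_left _ _)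
  have h7 : a * Real.log (max 1 t) ≤ (W0 + m) + ε * (m + 1) + |Real.log δ| := by
    calc a * Real.log (max 1 t) ≤ 1 * Real.log (max 1 t) :=
          mul_le_mul_of_nonneg_right ha1 hlogt0
      _ ≤ _ := by rw [one_mul]; exact hlogt
  have h8 : -(((W0 + (m - 0) : ℕ) : ℝ) * Real.log η) ≤ (W0 + m) * |Real.log η| := by
    have h9 := neg_abs_le (Real.log η)
    have h10 : (0 : ℝ) ≤ (W0 + m : ℝ) := by positivity
    rw [Nat.sub_zero]
    push_cast
    have h9b := mul_le_mul_of_nonneg_left h9 h10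
    linarith
  have h11 : A + B * m ≤ (A + B + B * (2 / Real.sqrt ε)) * (1 + Real.sqrt lam) := by
    have h12 : B * m ≤ B * (1 + 2 / Real.sqrt ε * Real.sqrt lam) :=
      mul_le_mul_of_nonneg_left hmle hB0
    have h13 : 0 ≤ Real.sqrt lam := Real.sqrt_nonneg _
    have h14 : 0 ≤ B * (2 / Real.sqrt ε) := by positivity
    have h15 : 0 ≤ A * Real.sqrt lam := by positivity
    have h16 : 0 ≤ B * Real.sqrt lam := by positivity
    linarith
  have h17 : A + B * m = (W0 + m) * |Real.log η| + ((W0 + m) + ε * (m + 1) + |Real.log δ|) := by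
    rw [hA, hB]; ring
  have e1 : ε / 2 * ((0 : ℕ) : ℝ) ^ 2 = 0 := by simp
  rw [e1] at hlog
  linarith

end Pool.Agent.H92
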