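import Pool.Agent.H92.RamseyI

/-!
Numerical certificates for the Ramsey project MP_28724c_co: integer fixed point bounds for `exp`
and a Boolean checker whose success implies `Cert a q L M`.
Parameters have scale `10^6`, values of `exp` have scale `10^15`.
-/

open Finset

namespace Pool.Agent.H92.Num

/-! ### bounds for `exp` -/

/-- numerator of the Taylor polynomial of degree 10 of `exp` at `X / 64000000`,
with denominator `3628800 * 64000000 ^ 10` -/
def tayN (X : ℤ) : ℤ :=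
  ((((((((((X + 10 * 64000000) * X + 90 * 64000000 ^ 2) * X + 720 * 64000000 ^ 3) * X
    + 5040 * 64000000 ^ 4) * X + 30240 * 64000000 ^ 5) * X + 151200 * 64000000 ^ 6) * X
    + 604800 * 64000000 ^ 7) * X + 1814400 * 64000000 ^ 8) * X + 3628800 * 64000000 ^ 9) * X
    + 3628800 * 64000000 ^ 10)

/-- Taylor value with scale `10^15`, rounded down -/
def tayS (X : ℤ) : ℤ := tayN X * 1000000000000000 / (3628800 * 64000000 ^ 10)

def sqDn (h : ℕ) : ℕ := h * h / 1000000000000000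
def sqUp (h : ℕ) : ℕ := h * h / 1000000000000000 + 1

/-- lower bound for `10^15 * exp (X / 10^6)` when `|X| ≤ 16 * 10^6` -/
def expLo (X : ℤ) : ℕ :=
  sqDn (sqDn (sqDn (sqDn (sqDn (sqDn (tayS X - 10).toNat)))))

/-- upper bound for `10^15 * exp (X / 10^6)` when `|X| ≤ 16 * 10^6` -/
def expHi (X : ℤ) : ℕ :=
  sqUp (sqUp (sqUp (sqUp (sqUp (sqUp (tayS X + 11).toNat)))))

/-- range test -/
def rng (X : ℤ) : Bool := decide (-16000000 ≤ X) && decide (X ≤ 16000000)

lemma rng_spec {X : ℤ} (h : rng X = true) : -16000000 ≤ X ∧ X ≤ 16000000 := by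
  simpa [rng] using h

lemma tayN_eq (X : ℤ) : ((tayN X : ℤ) : ℝ) / (3628800 * 64000000 ^ 10)
    = ∑ m ∈ range 11, ((X : ℝ) / 64000000) ^ m / (m.factorial : ℝ) := by
  simp only [sum_range_succ, range_zero, sum_empty, Nat.factorial, tayN]
  push_cast
  field_simp
  ring

lemma tay_bound {X : ℤ} (h : rng X = true) :
    |Real.exp ((X : ℝ) / 64000000) - ((tayN X : ℤ) : ℝ) / (3628800 * 64000000 ^ 10)|
      ≤ 7 / 1000000000000000 := by
  obtain ⟨h1, h2⟩ := rng_spec h
  have h1' : (-16000000 : ℝ) ≤ X := by exact_mod_cast h1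
  have h2' : (X : ℝ) ≤ 16000000 := by exact_mod_cast h2
  have hx : |(X : ℝ) / 64000000| ≤ 1 / 4 := by
    rw [abs_le]; constructor <;> linarith
  rw [tayN_eq]
  refine (Real.exp_bound (by linarith) (n := 11) (by norm_num)).trans ?_
  have h3 : |(X : ℝ) / 64000000| ^ 11 ≤ (1 / 4 : ℝ) ^ 11 := by
    gcongr
  have h4 : (0 : ℝ) ≤ ((Nat.succ 11 : ℕ) : ℝ) / ((Nat.factorial 11 : ℕ) * ((11 : ℕ) : ℝ)) := by
    positivity
  refine (mul_le_mul_of_nonneg_right h3 h4).trans ?_
  norm_num [Nat.factorial]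

lemma tayS_bound {X : ℤ} (h : rng X = true) :
    ((tayS X : ℤ) : ℝ) - 7 ≤ 1000000000000000 * Real.exp ((X : ℝ) / 64000000) ∧
    1000000000000000 * Real.exp ((X : ℝ) / 64000000) ≤ ((tayS X : ℤ) : ℝ) + 8 := by
  have hb := abs_le.1 (tay_bound h)
  have hdef : tayS X = tayN X * 1000000000000000 / (3628800 * 64000000 ^ 10) := rfl
  generalize Real.exp ((X : ℝ) / 64000000) = E at hb ⊢
  obtain ⟨d, hd⟩ : ∃ d : ℤ, d = 3628800 * 64000000 ^ 10 := ⟨_, rfl⟩
  obtain ⟨s, hs⟩ : ∃ s : ℤ, s = 1000000000000000 := ⟨_, rfl⟩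
  have hd0 : (0 : ℤ) < d := by rw [hd]; norm_num
  have hdr : (0 : ℝ) < (d : ℝ) := by exact_mod_cast hd0
  have hdd : (d : ℝ) = 3628800 * 64000000 ^ 10 := by rw [hd]; push_cast; norm_num
  have hss : (s : ℝ) = 1000000000000000 := by rw [hs]; norm_num
  rw [← hd, ← hs] at hdef
  rw [← hdd] at hb
  rw [← hss] at hb ⊢
  have e1 : tayS X * d + tayN X * s % d = tayN X * s := by
    rw [hdef, Int.ediv_mul_add_emod]
  have e2 : 0 ≤ tayN X * s % d := Int.emod_nonneg _ hd0.ne'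
  have e3 : tayN X * s % d < d := Int.emod_lt_of_pos _ hd0
  generalize tayN X * s % d = m at e1 e2 e3
  have e1' : (tayS X : ℝ) * d + m = (tayN X : ℝ) * s := by exact_mod_cast e1
  have e2' : (0 : ℝ) ≤ (m : ℝ) := by exact_mod_cast e2
  have e3' : (m : ℝ) < (d : ℝ) := by exact_mod_cast e3
  have key : (tayN X : ℝ) / d * s = (tayS X : ℝ) + m / d := by
    field_simp
    linarith
  have e6 : (m : ℝ) / d < 1 := (div_lt_one hdr).2 e3'
  have e7 : 0 ≤ (m : ℝ) / d := div_nonneg e2' hdr.le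
  have hs0 : (0 : ℝ) < s := by rw [hss]; norm_num
  have h1 : (-7 : ℝ) ≤ s * (E - (tayN X : ℝ) / d) := by
    have := mul_le_mul_of_nonneg_left hb.1 hs0.le
    have e : (s : ℝ) * (-(7 / s)) = -7 := by field_simp
    linarith
  have h2 : s * (E - (tayN X : ℝ) / d) ≤ 7 := by
    have := mul_le_mul_of_nonneg_left hb.2 hs0.le
    have e : (s : ℝ) * (7 / s) = 7 := by field_simp
    linarith
  constructor <;> nlinarith

lemma sqDn_spec {h : ℕ} {e : ℝ} (he : 0 ≤ e) (h1 : (h : ℝ) ≤ 1000000000000000 * e) :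
    ((sqDn h : ℕ) : ℝ) ≤ 1000000000000000 * e ^ 2 := by
  have h2 : ((sqDn h : ℕ) : ℝ) ≤ ((h * h : ℕ) : ℝ) / ((1000000000000000 : ℕ) : ℝ) :=
    Nat.cast_div_le
  refine h2.trans ?_
  rw [div_le_iff₀ (by norm_num)]
  push_cast
  have h0 : (0 : ℝ) ≤ h := Nat.cast_nonneg h
  nlinarith [mul_le_mul h1 h1 h0 (by positivity)]

lemma sqUp_spec {h : ℕ} {e : ℝ} (he : 0 ≤ e) (h1 : 1000000000000000 * e ≤ (h : ℝ)) :
    1000000000000000 * e ^ 2 ≤ ((sqUp h : ℕ) : ℝ) := by
  have h2 : h * h < 1000000000000000 * (h * h / 1000000000000000 + 1) :=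
    Nat.lt_mul_div_succ _ (by norm_num)
  have h3 : ((h * h : ℕ) : ℝ) < ((1000000000000000 * sqUp h : ℕ) : ℝ) := by
    exact_mod_cast h2
  push_cast at h3
  have h0 : (0 : ℝ) ≤ 1000000000000000 * e := by positivity
  nlinarith [mul_le_mul h1 h1 h0 (Nat.cast_nonneg h)]

lemma exp_eq (X : ℤ) : Real.exp ((X : ℝ) / 1000000)
    = ((((((Real.exp ((X : ℝ) / 64000000)) ^ 2) ^ 2) ^ 2) ^ 2) ^ 2) ^ 2 := by
  rw [← pow_mul, ← pow_mul, ← pow_mul, ← pow_mul, ← pow_mul, ← Real.exp_nat_mul]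
  congr 1
  push_cast
  ring

lemma expLo_spec {X : ℤ} (h : rng X = true) :
    (expLo X : ℝ) ≤ 1000000000000000 * Real.exp ((X : ℝ) / 1000000) := by
  have hE := Real.exp_pos ((X : ℝ) / 64000000)
  have h0 : (((tayS X - 10).toNat : ℕ) : ℝ)
      ≤ 1000000000000000 * Real.exp ((X : ℝ) / 64000000) := by
    rcases le_total (tayS X - 10) 0 with hn | hn
    · rw [Int.toNat_of_nonpos hn]
      push_cast
      positivity
    · have h1 : (((tayS X - 10).toNat : ℤ) : ℝ) = ((tayS X - 10 : ℤ) : ℝ) := by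
        rw [Int.toNat_of_nonneg hn]
      rw [Int.cast_natCast] at h1
      rw [h1]
      push_cast
      linarith [(tayS_bound h).1]
  rw [exp_eq]
  exact sqDn_spec (by positivity) (sqDn_spec (by positivity) (sqDn_spec (by positivity)
    (sqDn_spec (by positivity) (sqDn_spec (by positivity) (sqDn_spec hE.le h0)))))

lemma expHi_spec {X : ℤ} (h : rng X = true) :
    1000000000000000 * Real.exp ((X : ℝ) / 1000000) ≤ (expHi X : ℝ) := by
  have hE := Real.exp_pos ((X : ℝ) / 64000000)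
  have h0 : 1000000000000000 * Real.exp ((X : ℝ) / 64000000)
      ≤ (((tayS X + 11).toNat : ℕ) : ℝ) := by
    have h1 : ((tayS X + 11 : ℤ) : ℝ) ≤ (((tayS X + 11).toNat : ℤ) : ℝ) := by
      exact_mod_cast Int.self_le_toNat _
    rw [Int.cast_natCast] at h1
    refine le_trans ?_ h1
    push_cast
    linarith [(tayS_bound h).2]
  rw [exp_eq]
  exact sqUp_spec (by positivity) (sqUp_spec (by positivity) (sqUp_spec (by positivity)
    (sqUp_spec (by positivity) (sqUp_spec (by positivity) (sqUp_spec hE.le h0)))))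

end Pool.Agent.H92.Num
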