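import Pool.Agent.H92.RamseyN1

/-!
Numerical certificates for the Ramsey project MP_28724c_co: the checker `chk`.
-/

open Finset

namespace Pool.Agent.H92.Num

/-- prepend a value to a sequence -/
def pre {α : Type} (x : α) (f : ℕ → α) : ℕ → α
  | 0 => x
  | n + 1 => f n

@[simp] lemma pre_zero {α : Type} (x : α) (f : ℕ → α) : pre x f 0 = x := rfl
@[simp] lemma pre_succ {α : Type} (x : α) (f : ℕ → α) (n : ℕ) : pre x f (n + 1) = f n := rfl

/-- a certificate for the interval `[t0, 1]` started with the value `G0`, total weight `s` -/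
def CertFrom (a q L M t0 G0 s : ℝ) : Prop :=
  ∃ (J : ℕ) (t τ1 τ2 τ3 ν A1 B1 A2 B2 : ℕ → ℝ),
    t 0 = t0 ∧ t J = 1 ∧
    (∀ j < J, t j ≤ t (j + 1)) ∧
    (∀ j < J, 0 ≤ τ2 j + τ3 j) ∧
    (∀ j < J, 0 ≤ A1 j ∧ 0 ≤ B1 j ∧ 0 ≤ A2 j ∧ 0 ≤ B2 j) ∧
    (∀ j < J, ∀ r : ℝ, 0 ≤ r → r ≤ 1 → r ^ (1 - a) ≤ A1 j + B1 j * r) ∧
    (∀ j < J, ∀ r : ℝ, 0 ≤ r → r ≤ 1 → r ^ (1 - a) ≤ A2 j + B2 j * r) ∧
    (∀ j < J, 0 ≤ cA (τ1 j) (τ2 j) (τ3 j) (t j)) ∧
    (∀ j < J, 0 ≤ cA (τ1 j) (τ2 j) (τ3 j) (t (j + 1))) ∧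
    (∀ j < J, G0 + ∑ i ∈ range j, a * (ν i - 1) * (t (i + 1) - t i)
      ≤ cD q L M (τ1 j) (τ2 j) (τ3 j) (A1 j) (B1 j) (A2 j) (B2 j) (t j)) ∧
    (∀ j < J, G0 + ∑ i ∈ range (j + 1), a * (ν i - 1) * (t (i + 1) - t i)
      ≤ cD q L M (τ1 j) (τ2 j) (τ3 j) (A1 j) (B1 j) (A2 j) (B2 j) (t (j + 1))) ∧
    ∑ i ∈ range J, a * Real.exp (-ν i) * (t (i + 1) - t i) ≤ s

lemma cert_of_certFrom {a q L M D0 s : ℝ} (h : CertFrom a q L M 0 D0 s) (hs : s < D0) :
    Cert a q L M := by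
  obtain ⟨J, t, τ1, τ2, τ3, ν, A1, B1, A2, B2, h1, h2, h3, h4, h5, h6, h7, h8, h9, h10, h11, h12⟩
    := h
  exact ⟨J, D0, t, τ1, τ2, τ3, ν, A1, B1, A2, B2, h1, h2, h3, h4, h5, h6, h7, h8, h9, h10, h11,
    h12.trans_lt hs⟩

lemma certFrom_nil (a q L M G0 : ℝ) : CertFrom a q L M 1 G0 0 :=
  ⟨0, fun _ => 1, fun _ => 0, fun _ => 0, fun _ => 0, fun _ => 0, fun _ => 0, fun _ => 0,
    fun _ => 0, fun _ => 0, rfl, rfl, by simp, by simp, by simp, by simp, by simp, by simp,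
    by simp, by simp, by simp, by simp⟩

lemma certFrom_cons {a q L M t0 t1 G0 s x1 x2 x3 n C1 E1 C2 E2 : ℝ}
    (h0 : t0 ≤ t1) (hw : 0 ≤ x2 + x3) (hc : 0 ≤ C1 ∧ 0 ≤ E1 ∧ 0 ≤ C2 ∧ 0 ≤ E2)
    (hr1 : ∀ r : ℝ, 0 ≤ r → r ≤ 1 → r ^ (1 - a) ≤ C1 + E1 * r)
    (hr2 : ∀ r : ℝ, 0 ≤ r → r ≤ 1 → r ^ (1 - a) ≤ C2 + E2 * r)
    (ha0 : 0 ≤ cA x1 x2 x3 t0) (ha1 : 0 ≤ cA x1 x2 x3 t1)
    (hd0 : G0 ≤ cD q L M x1 x2 x3 C1 E1 C2 E2 t0)
    (hd1 : G0 + a * (n - 1) * (t1 - t0) ≤ cD q L M x1 x2 x3 C1 E1 C2 E2 t1)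
    (h : CertFrom a q L M t1 (G0 + a * (n - 1) * (t1 - t0)) s) :
    CertFrom a q L M t0 G0 (a * Real.exp (-n) * (t1 - t0) + s) := by
  obtain ⟨J, t, τ1, τ2, τ3, ν, A1, B1, A2, B2, h1, h2, h3, h4, h5, h6, h7, h8, h9, h10, h11, h12⟩
    := h
  refine ⟨J + 1, pre t0 t, pre x1 τ1, pre x2 τ2, pre x3 τ3, pre n ν, pre C1 A1, pre E1 B1,
    pre C2 A2, pre E2 B2, rfl, ?_, ?_, ?_, ?_, ?_, ?_, ?_, ?_, ?_, ?_, ?_⟩
  · simpa using h2
  · rintro (_ | j) hj
    · simpa [h1] using h0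
    · simpa using h3 j (by omega)
  · rintro (_ | j) hj
    · simpa using hw
    · simpa using h4 j (by omega)
  · rintro (_ | j) hj
    · simpa using hc
    · simpa using h5 j (by omega)
  · rintro (_ | j) hj
    · simpa using hr1
    · simpa using h6 j (by omega)
  · rintro (_ | j) hj
    · simpa using hr2
    · simpa using h7 j (by omega)
  · rintro (_ | j) hj
    · simpa using ha0
    · simpa using h8 j (by omega)
  · rintro (_ | j) hj
    · simpa [h1] using ha1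
    · simpa using h9 j (by omega)
  · rintro (_ | j) hj
    · simpa using hd0
    · have := h10 j (by omega)
      rw [sum_range_succ']
      simp only [pre_succ, pre_zero, zero_add, h1]
      linarith
  · rintro (_ | j) hj
    · simpa [h1] using hd1
    · have := h11 j (by omega)
      rw [sum_range_succ']
      simp only [pre_succ, pre_zero, zero_add, h1]
      linarith
  · rw [sum_range_succ']
    simp only [pre_succ, pre_zero, zero_add, h1]
    linarith

lemma rpow_tangent {a : ℝ} (ha : 0 < a) (ha1 : a ≤ 1) (s r : ℝ) (hr : 0 ≤ r) :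
    r ^ (1 - a) ≤ a * Real.exp (-(s * (1 - a))) + (1 - a) * Real.exp (a * s) * r := by
  have h := Real.geom_mean_le_arith_mean2_weighted ha.le (sub_nonneg.2 ha1)
    (Real.exp_pos (-(s * (1 - a)))).le (mul_nonneg (Real.exp_pos (a * s)).le hr) (by ring)
  rw [Real.mul_rpow (Real.exp_pos _).le hr, ← Real.exp_mul, ← Real.exp_mul, ← mul_assoc,
    ← Real.exp_add] at h
  have e : -(s * (1 - a)) * a + a * s * (1 - a) = 0 := by ring
  rw [e, Real.exp_zero, one_mul] at h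
  linarith

/-- data for one interval, everything with scale `10^6`: right end point `t`, the three `τ`,
the two tangent parameters `s1, s2` and the slope parameter `ν` -/
structure Iv where
  t : ℤ
  x1 : ℤ
  x2 : ℤ
  x3 : ℤ
  s1 : ℤ
  s2 : ℤ
  n : ℤ

/-- `⌈u v / 10^6⌉` -/
def cmul (u v : ℤ) : ℤ := -((-(u * v)) / 1000000)

lemma cmul_spec (u v : ℤ) : (u : ℝ) / 1000000 * ((v : ℝ) / 1000000) ≤ (cmul u v : ℝ) / 1000000 := by
  have h1 : (-(u * v)) / 1000000 * 1000000 ≤ -(u * v) := Int.ediv_mul_le _ (by norm_num)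
  have h2 : (((-(u * v)) / 1000000 : ℤ) : ℝ) * 1000000 ≤ -((u : ℝ) * v) := by exact_mod_cast h1
  have h3 : (cmul u v : ℝ) = -(((-(u * v)) / 1000000 : ℤ) : ℝ) := by
    simp only [cmul]; push_cast; rfl
  rw [h3]
  linarith

/-- test of the condition `0 ≤ cA` at the point `r` -/
def chkA (d : Iv) (el eh r : ℤ) : Bool :=
  let X := (1000000 + d.x1) * r + (1000000 - d.x2) * (1000000 - r)
  let Y := 1000000000000000 * ((1000000 + d.x1) * r + (1000000 + d.x3) * (1000000 - r))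
  decide (Y ≤ el * X) && decide (Y ≤ eh * X)

/-- test of the condition `G ≤ cD` at the point `r` -/
def chkD (a q : ℤ) (d : Iv) (el eh u1 u2 v1 v2 r G : ℤ) : Bool :=
  let K := (1000000 + d.x1) * r * q
  let K2 := (1000000 - d.x2) * (1000000 - r) * q
  let K3 := (1000000 + d.x3) * (1000000 - r) * (1000000 - q)
  let U := a * u1 * 1000000 + (1000000 - a) * r * u2
  let V := a * v1 * 1000000 + (1000000 - a) * (1000000 - r) * v2
  let P := K * 1000000000000000 - U * 1000000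
  let Q := (K + K2) * 1000000000000000 - U * 1000000
  let Z := 1000000000000000 * (G * 1000000000000000 + P - K3 * 1000000000000000 + V * 1000000)
  decide (Z ≤ el * Q) && decide (Z ≤ eh * Q)

/-- all tests for one interval starting at `t` with value `G` -/
def chk1 (a q L M : ℤ) (d : Iv) (t G : ℤ) : Bool :=
  let w := d.x2 + d.x3
  let y1 := d.x1 - L + cmul (-d.s1) (1000000 - a)
  let y2 := d.x1 - L + cmul a d.s1
  let z1 := d.x3 - M + cmul (-d.s2) (1000000 - a)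
  let z2 := d.x3 - M + cmul a d.s2
  let el : ℤ := expLo w
  let eh : ℤ := expHi w
  decide (t ≤ d.t) && decide (0 ≤ w) && rng w && rng y1 && rng y2 && rng z1 && rng z2 &&
  rng (-d.n) && chkA d el eh t && chkA d el eh d.t &&
  chkD a q d el eh (expHi y1) (expHi y2) (expHi z1) (expHi z2) t G &&
  chkD a q d el eh (expHi y1) (expHi y2) (expHi z1) (expHi z2) d.t
    (G + a * (d.n - 1000000) * (d.t - t))

lemma lin_ge {el eh e X Y S : ℝ} (hS : 0 < S) (h1 : el ≤ S * e) (h2 : S * e ≤ eh)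
    (ha : S * Y ≤ el * X) (hb : S * Y ≤ eh * X) : Y ≤ e * X := by
  rcases le_total 0 X with hX | hX
  · have := mul_le_mul_of_nonneg_right h1 hX
    have h3 : S * Y ≤ S * (e * X) := by linarith
    exact le_of_mul_le_mul_left h3 hS
  · have := mul_le_mul_of_nonpos_right h2 hX
    have h3 : S * Y ≤ S * (e * X) := by linarith
    exact le_of_mul_le_mul_left h3 hS

lemma chkA_spec {d : Iv} {el eh r : ℤ} (h : chkA d el eh r = true)
    (h1 : (el : ℝ) ≤ 1000000000000000 * Real.exp ((d.x2 : ℝ) / 1000000 + (d.x3 : ℝ) / 1000000))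
    (h2 : 1000000000000000 * Real.exp ((d.x2 : ℝ) / 1000000 + (d.x3 : ℝ) / 1000000) ≤ (eh : ℝ)) :
    0 ≤ cA ((d.x1 : ℝ) / 1000000) ((d.x2 : ℝ) / 1000000) ((d.x3 : ℝ) / 1000000)
      ((r : ℝ) / 1000000) := by
  simp only [chkA, Bool.and_eq_true, decide_eq_true_eq] at h
  obtain ⟨ha, hb⟩ := h
  have ha' : 1000000000000000 * ((1000000 + (d.x1 : ℝ)) * r + (1000000 + (d.x3 : ℝ))
      * (1000000 - r)) ≤ el * ((1000000 + (d.x1 : ℝ)) * r + (1000000 - (d.x2 : ℝ))
      * (1000000 - r)) := by exact_mod_cast ha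
  have hb' : 1000000000000000 * ((1000000 + (d.x1 : ℝ)) * r + (1000000 + (d.x3 : ℝ))
      * (1000000 - r)) ≤ eh * ((1000000 + (d.x1 : ℝ)) * r + (1000000 - (d.x2 : ℝ))
      * (1000000 - r)) := by exact_mod_cast hb
  have key := lin_ge (by norm_num) h1 h2 ha' hb'
  unfold cA
  generalize Real.exp ((d.x2 : ℝ) / 1000000 + (d.x3 : ℝ) / 1000000) = e at key ⊢
  have e1 : (e - 1) * (1 + (d.x1 : ℝ) / 1000000) * ((r : ℝ) / 1000000)
      + e * (1 - (d.x2 : ℝ) / 1000000) * (1 - (r : ℝ) / 1000000)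
      - (1 + (d.x3 : ℝ) / 1000000) * (1 - (r : ℝ) / 1000000)
      = (e * ((1000000 + (d.x1 : ℝ)) * r + (1000000 - (d.x2 : ℝ)) * (1000000 - r))
        - ((1000000 + (d.x1 : ℝ)) * r + (1000000 + (d.x3 : ℝ)) * (1000000 - r)))
        / 1000000000000 := by
    ring
  rw [e1]
  apply div_nonneg _ (by norm_num)
  linarith

lemma chkD_spec {a q L M : ℤ} {d : Iv} {el eh u1 u2 v1 v2 r G : ℤ}
    (h : chkD a q d el eh u1 u2 v1 v2 r G = true) {A1 B1 A2 B2 : ℝ}
    (hr0 : 0 ≤ r) (hr1 : r ≤ 1000000)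
    (hw : 0 ≤ (d.x2 : ℝ) / 1000000 + (d.x3 : ℝ) / 1000000)
    (h1 : (el : ℝ) ≤ 1000000000000000 * Real.exp ((d.x2 : ℝ) / 1000000 + (d.x3 : ℝ) / 1000000))
    (h2 : 1000000000000000 * Real.exp ((d.x2 : ℝ) / 1000000 + (d.x3 : ℝ) / 1000000) ≤ (eh : ℝ))
    (hu1 : 1000000000000000 * (Real.exp ((d.x1 : ℝ) / 1000000 - (L : ℝ) / 1000000) * A1)
      ≤ (a : ℝ) / 1000000 * u1)
    (hu2 : 1000000000000000 * (Real.exp ((d.x1 : ℝ) / 1000000 - (L : ℝ) / 1000000) * B1)
      ≤ (1 - (a : ℝ) / 1000000) * u2)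
    (hv1 : 1000000000000000 * (Real.exp ((d.x3 : ℝ) / 1000000 - (M : ℝ) / 1000000) * A2)
      ≤ (a : ℝ) / 1000000 * v1)
    (hv2 : 1000000000000000 * (Real.exp ((d.x3 : ℝ) / 1000000 - (M : ℝ) / 1000000) * B2)
      ≤ (1 - (a : ℝ) / 1000000) * v2) :
    (G : ℝ) / 1000000000000000000 ≤ cD ((q : ℝ) / 1000000) ((L : ℝ) / 1000000)
      ((M : ℝ) / 1000000) ((d.x1 : ℝ) / 1000000) ((d.x2 : ℝ) / 1000000)
      ((d.x3 : ℝ) / 1000000) A1 B1 A2 B2 ((r : ℝ) / 1000000) := by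
  simp only [chkD, Bool.and_eq_true, decide_eq_true_eq] at h
  obtain ⟨ha, hb⟩ := h
  have hr0' : (0 : ℝ) ≤ (r : ℝ) / 1000000 := by
    have : (0 : ℝ) ≤ r := by exact_mod_cast hr0
    positivity
  have hr1' : (0 : ℝ) ≤ 1 - (r : ℝ) / 1000000 := by
    have : (r : ℝ) ≤ 1000000 := by exact_mod_cast hr1
    rw [sub_nonneg, div_le_one (by norm_num)]
    exact this
  have hE : 1 ≤ Real.exp ((d.x2 : ℝ) / 1000000 + (d.x3 : ℝ) / 1000000) := Real.one_le_exp hw
  unfold cD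
  generalize Real.exp ((d.x2 : ℝ) / 1000000 + (d.x3 : ℝ) / 1000000) = e at h1 h2 hE ⊢
  generalize Real.exp ((d.x1 : ℝ) / 1000000 - (L : ℝ) / 1000000) = e1 at hu1 hu2 ⊢
  generalize Real.exp ((d.x3 : ℝ) / 1000000 - (M : ℝ) / 1000000) = e3 at hv1 hv2 ⊢
  -- real upper bounds for the two subtracted terms
  have hU : e1 * (A1 + B1 * ((r : ℝ) / 1000000)) ≤
      ((a : ℝ) * u1 * 1000000 + (1000000 - a) * r * u2) / 1000000000000000000000000000 := by
    have := mul_le_mul_of_nonneg_right hu2 hr0'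
    have e : ((a : ℝ) * u1 * 1000000 + (1000000 - a) * r * u2) / 1000000000000000000000000000
      = ((a : ℝ) / 1000000 * u1 + (1 - (a : ℝ) / 1000000) * u2 * ((r : ℝ) / 1000000))
        / 1000000000000000 := by ring
    rw [e, le_div_iff₀ (by norm_num)]
    linarith
  have hV : e3 * (A2 + B2 * (1 - (r : ℝ) / 1000000)) ≤
      ((a : ℝ) * v1 * 1000000 + (1000000 - a) * (1000000 - r) * v2)
        / 1000000000000000000000000000 := by
    have := mul_le_mul_of_nonneg_right hv2 hr1'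
    have e : ((a : ℝ) * v1 * 1000000 + (1000000 - a) * (1000000 - r) * v2)
        / 1000000000000000000000000000
      = ((a : ℝ) / 1000000 * v1 + (1 - (a : ℝ) / 1000000) * v2 * (1 - (r : ℝ) / 1000000))
        / 1000000000000000 := by ring
    rw [e, le_div_iff₀ (by norm_num)]
    linarith
  have ha' : 1000000000000000 * ((G : ℝ) * 1000000000000000
      + ((1000000 + (d.x1 : ℝ)) * r * q * 1000000000000000
        - ((a : ℝ) * u1 * 1000000 + (1000000 - a) * r * u2) * 1000000)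
      - (1000000 + (d.x3 : ℝ)) * (1000000 - r) * (1000000 - q) * 1000000000000000
      + ((a : ℝ) * v1 * 1000000 + (1000000 - a) * (1000000 - r) * v2) * 1000000)
      ≤ el * (((1000000 + (d.x1 : ℝ)) * r * q + (1000000 - (d.x2 : ℝ)) * (1000000 - r) * q)
        * 1000000000000000 - ((a : ℝ) * u1 * 1000000 + (1000000 - a) * r * u2) * 1000000) := by
    exact_mod_cast ha
  have hb' : 1000000000000000 * ((G : ℝ) * 1000000000000000
      + ((1000000 + (d.x1 : ℝ)) * r * q * 1000000000000000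
        - ((a : ℝ) * u1 * 1000000 + (1000000 - a) * r * u2) * 1000000)
      - (1000000 + (d.x3 : ℝ)) * (1000000 - r) * (1000000 - q) * 1000000000000000
      + ((a : ℝ) * v1 * 1000000 + (1000000 - a) * (1000000 - r) * v2) * 1000000)
      ≤ eh * (((1000000 + (d.x1 : ℝ)) * r * q + (1000000 - (d.x2 : ℝ)) * (1000000 - r) * q)
        * 1000000000000000 - ((a : ℝ) * u1 * 1000000 + (1000000 - a) * r * u2) * 1000000) := by
    exact_mod_cast hb
  have key := lin_ge (by norm_num) h1 h2 ha' hb'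
  set U := ((a : ℝ) * u1 * 1000000 + (1000000 - a) * r * u2) with hUd
  set V := ((a : ℝ) * v1 * 1000000 + (1000000 - a) * (1000000 - r) * v2) with hVd
  have h3 : (e - 1) * (e1 * (A1 + B1 * ((r : ℝ) / 1000000)))
      ≤ (e - 1) * (U / 1000000000000000000000000000) :=
    mul_le_mul_of_nonneg_left hU (by linarith)
  have h4 : (G : ℝ) / 1000000000000000000 ≤
      (e - 1) * (1 + (d.x1 : ℝ) / 1000000) * ((r : ℝ) / 1000000) * ((q : ℝ) / 1000000)
      - (e - 1) * (U / 1000000000000000000000000000)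
      + e * (1 - (d.x2 : ℝ) / 1000000) * (1 - (r : ℝ) / 1000000) * ((q : ℝ) / 1000000)
      + (1 + (d.x3 : ℝ) / 1000000) * (1 - (r : ℝ) / 1000000) * (1 - (q : ℝ) / 1000000)
      - V / 1000000000000000000000000000 := by
    clear_value U V
    have e5 : (e - 1) * (1 + (d.x1 : ℝ) / 1000000) * ((r : ℝ) / 1000000) * ((q : ℝ) / 1000000)
      - (e - 1) * (U / 1000000000000000000000000000)
      + e * (1 - (d.x2 : ℝ) / 1000000) * (1 - (r : ℝ) / 1000000) * ((q : ℝ) / 1000000)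
      + (1 + (d.x3 : ℝ) / 1000000) * (1 - (r : ℝ) / 1000000) * (1 - (q : ℝ) / 1000000)
      - V / 1000000000000000000000000000 - (G : ℝ) / 1000000000000000000
      = (e * (((1000000 + (d.x1 : ℝ)) * r * q + (1000000 - (d.x2 : ℝ)) * (1000000 - r) * q)
        * 1000000000000000 - U * 1000000)
        - ((G : ℝ) * 1000000000000000
      + ((1000000 + (d.x1 : ℝ)) * r * q * 1000000000000000 - U * 1000000)
      - (1000000 + (d.x3 : ℝ)) * (1000000 - r) * (1000000 - q) * 1000000000000000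
      + V * 1000000)) / 1000000000000000000000000000000000 := by
      ring
    have : 0 ≤ (e * (((1000000 + (d.x1 : ℝ)) * r * q + (1000000 - (d.x2 : ℝ)) * (1000000 - r) * q)
        * 1000000000000000 - U * 1000000)
        - ((G : ℝ) * 1000000000000000
      + ((1000000 + (d.x1 : ℝ)) * r * q * 1000000000000000 - U * 1000000)
      - (1000000 + (d.x3 : ℝ)) * (1000000 - r) * (1000000 - q) * 1000000000000000
      + V * 1000000)) / 1000000000000000000000000000000000 :=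
      div_nonneg (by linarith) (by norm_num)
    linarith
  have h5 : (e - 1) * e1 * (A1 + B1 * ((r : ℝ) / 1000000))
      = (e - 1) * (e1 * (A1 + B1 * ((r : ℝ) / 1000000))) := by ring
  rw [h5]
  linarith

/-- bound for the exponent in the first tangent coefficient -/
lemma exp_coef1 {a x L s : ℤ} (ha0 : 0 ≤ a)
    (h : rng (x - L + cmul (-s) (1000000 - a)) = true) :
    1000000000000000 * (Real.exp ((x : ℝ) / 1000000 - (L : ℝ) / 1000000)
      * ((a : ℝ) / 1000000 * Real.exp (-((s : ℝ) / 1000000 * (1 - (a : ℝ) / 1000000)))))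
      ≤ (a : ℝ) / 1000000 * (((expHi (x - L + cmul (-s) (1000000 - a)) : ℕ) : ℤ) : ℝ) := by
  have h1 := expHi_spec h
  have h2 := cmul_spec (-s) (1000000 - a)
  have ha : (0 : ℝ) ≤ (a : ℝ) / 1000000 := by
    have : (0 : ℝ) ≤ a := by exact_mod_cast ha0
    positivity
  have h3 : Real.exp ((x : ℝ) / 1000000 - (L : ℝ) / 1000000)
      * Real.exp (-((s : ℝ) / 1000000 * (1 - (a : ℝ) / 1000000)))
      ≤ Real.exp (((x - L + cmul (-s) (1000000 - a) : ℤ) : ℝ) / 1000000) := by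
    rw [← Real.exp_add]
    apply Real.exp_le_exp.2
    push_cast at h2 ⊢
    have e : (x : ℝ) / 1000000 - (L : ℝ) / 1000000
      + -((s : ℝ) / 1000000 * (1 - (a : ℝ) / 1000000))
      = (x : ℝ) / 1000000 - (L : ℝ) / 1000000 + -(s : ℝ) / 1000000 * ((1000000 - a) / 1000000) := by
      ring
    rw [e]
    have e' : ((x : ℝ) - L + (cmul (-s) (1000000 - a) : ℝ)) / 1000000
      = (x : ℝ) / 1000000 - (L : ℝ) / 1000000 + (cmul (-s) (1000000 - a) : ℝ) / 1000000 := by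
      ring
    rw [e']
    linarith
  rw [Int.cast_natCast]
  calc _ = (a : ℝ) / 1000000 * (1000000000000000 * (Real.exp ((x : ℝ) / 1000000
        - (L : ℝ) / 1000000) * Real.exp (-((s : ℝ) / 1000000 * (1 - (a : ℝ) / 1000000))))) := by
        ring
    _ ≤ (a : ℝ) / 1000000 * (1000000000000000 *
        Real.exp (((x - L + cmul (-s) (1000000 - a) : ℤ) : ℝ) / 1000000)) := by gcongr
    _ ≤ _ := by gcongr

/-- bound for the exponent in the second tangent coefficient -/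
lemma exp_coef2 {a x L s : ℤ} (ha1 : a ≤ 1000000)
    (h : rng (x - L + cmul a s) = true) :
    1000000000000000 * (Real.exp ((x : ℝ) / 1000000 - (L : ℝ) / 1000000)
      * ((1 - (a : ℝ) / 1000000) * Real.exp ((a : ℝ) / 1000000 * ((s : ℝ) / 1000000))))
      ≤ (1 - (a : ℝ) / 1000000) * (((expHi (x - L + cmul a s) : ℕ) : ℤ) : ℝ) := by
  have h1 := expHi_spec h
  have h2 := cmul_spec a s
  have ha : (0 : ℝ) ≤ 1 - (a : ℝ) / 1000000 := by
    have : (a : ℝ) ≤ 1000000 := by exact_mod_cast ha1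
    rw [sub_nonneg, div_le_one (by norm_num)]
    exact this
  have h3 : Real.exp ((x : ℝ) / 1000000 - (L : ℝ) / 1000000)
      * Real.exp ((a : ℝ) / 1000000 * ((s : ℝ) / 1000000))
      ≤ Real.exp (((x - L + cmul a s : ℤ) : ℝ) / 1000000) := by
    rw [← Real.exp_add]
    apply Real.exp_le_exp.2
    push_cast at h2 ⊢
    have e' : ((x : ℝ) - L + (cmul a s : ℝ)) / 1000000
      = (x : ℝ) / 1000000 - (L : ℝ) / 1000000 + (cmul a s : ℝ) / 1000000 := by
      ring
    rw [e']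
    linarith
  rw [Int.cast_natCast]
  calc _ = (1 - (a : ℝ) / 1000000) * (1000000000000000 * (Real.exp ((x : ℝ) / 1000000
        - (L : ℝ) / 1000000) * Real.exp ((a : ℝ) / 1000000 * ((s : ℝ) / 1000000)))) := by
        ring
    _ ≤ (1 - (a : ℝ) / 1000000) * (1000000000000000 *
        Real.exp (((x - L + cmul a s : ℤ) : ℝ) / 1000000)) := by gcongr
    _ ≤ _ := by gcongr

/-- checker for the list of intervals, started at `t` with value `G` -/
def chkL (a q L M : ℤ) : List Iv → ℤ → ℤ → Bool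
  | [], t, _ => decide (t = 1000000)
  | d :: ds, t, G => chk1 a q L M d t G && chkL a q L M ds d.t (G + a * (d.n - 1000000) * (d.t - t))

/-- upper bound, with scale `10^27`, of the sum of `a exp (-ν) (t' - t)` -/
def sumL (a : ℤ) : List Iv → ℤ → ℤ
  | [], _ => 0
  | d :: ds, t => a * expHi (-d.n) * (d.t - t) + sumL a ds d.t

/-- the full checker -/
def chk (a q L M D0 : ℤ) (ds : List Iv) : Bool :=
  decide (0 ≤ a) && decide (a ≤ 1000000) && chkL a q L M ds 0 (D0 * 1000000000000) &&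
  decide (sumL a ds 0 < D0 * 1000000000000000000000)

theorem chkL_spec {a q L M : ℤ} (ha0 : 0 < a) (ha1 : a ≤ 1000000) :
    ∀ (ds : List Iv) (t G : ℤ), 0 ≤ t → chkL a q L M ds t G = true →
      CertFrom ((a : ℝ) / 1000000) ((q : ℝ) / 1000000) ((L : ℝ) / 1000000) ((M : ℝ) / 1000000)
        ((t : ℝ) / 1000000) ((G : ℝ) / 1000000000000000000)
        ((sumL a ds t : ℝ) / 1000000000000000000000000000) ∧ t ≤ 1000000 := by
  intro ds
  induction ds with
  | nil =>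
    intro t G ht h
    have ht' : t = 1000000 := by simpa [chkL] using h
    subst ht'
    refine ⟨?_, le_rfl⟩
    have := certFrom_nil ((a : ℝ) / 1000000) ((q : ℝ) / 1000000) ((L : ℝ) / 1000000)
      ((M : ℝ) / 1000000) ((G : ℝ) / 1000000000000000000)
    simpa [sumL] using this
  | cons d ds ih =>
    intro t G ht h
    simp only [chkL, Bool.and_eq_true] at h
    obtain ⟨hc, hr⟩ := h
    simp only [chk1, Bool.and_eq_true, decide_eq_true_eq] at hc
    obtain ⟨⟨⟨⟨⟨⟨⟨⟨⟨⟨⟨c1, c2⟩, c3⟩, c4⟩, c5⟩, c6⟩, c7⟩, c8⟩, c9⟩, c10⟩, c11⟩, c12⟩ := hc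
    obtain ⟨hcf, hd1⟩ := ih d.t _ (ht.trans c1) hr
    have ha0' : (0 : ℝ) < (a : ℝ) / 1000000 := by
      have : (0 : ℝ) < a := by exact_mod_cast ha0
      positivity
    have ha1' : (a : ℝ) / 1000000 ≤ 1 := by
      have : (a : ℝ) ≤ 1000000 := by exact_mod_cast ha1
      rw [div_le_one (by norm_num)]
      exact this
    have hw : 0 ≤ (d.x2 : ℝ) / 1000000 + (d.x3 : ℝ) / 1000000 := by
      have : (0 : ℝ) ≤ (d.x2 : ℝ) + d.x3 := by exact_mod_cast c2
      have e : (d.x2 : ℝ) / 1000000 + (d.x3 : ℝ) / 1000000 = ((d.x2 : ℝ) + d.x3) / 1000000 := by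
        ring
      rw [e]; positivity
    have hww : (((d.x2 + d.x3 : ℤ) : ℝ)) / 1000000
        = (d.x2 : ℝ) / 1000000 + (d.x3 : ℝ) / 1000000 := by
      push_cast; ring
    have hel := expLo_spec c3
    have heh := expHi_spec c3
    rw [hww] at hel heh
    have hel' : (((expLo (d.x2 + d.x3) : ℕ) : ℤ) : ℝ) ≤ 1000000000000000
        * Real.exp ((d.x2 : ℝ) / 1000000 + (d.x3 : ℝ) / 1000000) := by
      rw [Int.cast_natCast]; exact hel
    have heh' : 1000000000000000 * Real.exp ((d.x2 : ℝ) / 1000000 + (d.x3 : ℝ) / 1000000)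
        ≤ (((expHi (d.x2 + d.x3) : ℕ) : ℤ) : ℝ) := by
      rw [Int.cast_natCast]; exact heh
    have hy1 := exp_coef1 (a := a) ha0.le c4
    have hy2 := exp_coef2 (a := a) ha1 c5
    have hz1 := exp_coef1 (a := a) ha0.le c6
    have hz2 := exp_coef2 (a := a) ha1 c7
    have hD0 := chkD_spec (L := L) (M := M) c11 ht (c1.trans hd1) hw hel' heh' hy1 hy2 hz1 hz2
    have hD1 := chkD_spec (L := L) (M := M) c12 (ht.trans c1) hd1 hw hel' heh' hy1 hy2 hz1 hz2
    have hG : ((G + a * (d.n - 1000000) * (d.t - t) : ℤ) : ℝ) / 1000000000000000000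
        = (G : ℝ) / 1000000000000000000 + (a : ℝ) / 1000000 * ((d.n : ℝ) / 1000000 - 1)
          * ((d.t : ℝ) / 1000000 - (t : ℝ) / 1000000) := by
      push_cast; ring
    rw [hG] at hD1 hcf
    have htt : (t : ℝ) / 1000000 ≤ (d.t : ℝ) / 1000000 := by
      have : (t : ℝ) ≤ d.t := by exact_mod_cast c1
      gcongr
    have hfin := certFrom_cons htt hw ⟨by positivity, mul_nonneg (by linarith) (by positivity),
      by positivity, mul_nonneg (by linarith) (by positivity)⟩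
      (fun r hr _ => rpow_tangent ha0' ha1' ((d.s1 : ℝ) / 1000000) r hr)
      (fun r hr _ => rpow_tangent ha0' ha1' ((d.s2 : ℝ) / 1000000) r hr)
      (chkA_spec c9 hel' heh') (chkA_spec c10 hel' heh') hD0 hD1 hcf
    refine ⟨?_, c1.trans hd1⟩
    -- enlarge the total weight
    have hs := expHi_spec c8
    obtain ⟨J, f1, f2, f3, f4, f5, f6, f7, f8, f9, g1, g2, g3, g4, g5, g6, g7, g8, g9, g10, g11,
      g12⟩ := hfin
    refine ⟨J, f1, f2, f3, f4, f5, f6, f7, f8, f9, g1, g2, g3, g4, g5, g6, g7, g8, g9, g10, g11,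
      g12.trans ?_⟩
    have e1 : ((sumL a (d :: ds) t : ℤ) : ℝ) / 1000000000000000000000000000
        = (a : ℝ) / 1000000 * ((expHi (-d.n) : ℝ) / 1000000000000000)
          * ((d.t : ℝ) / 1000000 - (t : ℝ) / 1000000)
          + (sumL a ds d.t : ℝ) / 1000000000000000000000000000 := by
      simp only [sumL]
      push_cast
      ring
    rw [e1]
    have e2 : Real.exp (-((d.n : ℝ) / 1000000)) ≤ (expHi (-d.n) : ℝ) / 1000000000000000 := by
      rw [le_div_iff₀ (by norm_num)]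
      have e3 : ((-d.n : ℤ) : ℝ) / 1000000 = -((d.n : ℝ) / 1000000) := by push_cast; ring
      rw [e3] at hs
      linarith
    have e4 : 0 ≤ (d.t : ℝ) / 1000000 - (t : ℝ) / 1000000 := sub_nonneg.2 htt
    gcongr

theorem chk_spec {a q L M D0 : ℤ} {ds : List Iv} (ha0 : 0 < a) (h : chk a q L M D0 ds = true) :
    Cert ((a : ℝ) / 1000000) ((q : ℝ) / 1000000) ((L : ℝ) / 1000000) ((M : ℝ) / 1000000) := by
  simp only [chk, Bool.and_eq_true, decide_eq_true_eq] at h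
  obtain ⟨⟨⟨_, h2⟩, h3⟩, h4⟩ := h
  obtain ⟨hc, -⟩ := chkL_spec ha0 h2 ds 0 _ le_rfl h3
  have e1 : ((D0 * 1000000000000 : ℤ) : ℝ) / 1000000000000000000 = (D0 : ℝ) / 1000000 := by
    push_cast; ring
  rw [e1] at hc
  have e2 : ((0 : ℤ) : ℝ) / 1000000 = 0 := by norm_num
  rw [e2] at hc
  refine cert_of_certFrom hc ?_
  have h5 : (sumL a ds 0 : ℝ) < (D0 : ℝ) * 1000000000000000000000 := by exact_mod_cast h4
  rw [div_lt_div_iff₀ (by norm_num) (by norm_num)]
  linarith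

end Pool.Agent.H92.Num
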