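import Pool.Agent.H92.RamseyG
import Pool.Agent.H92.RamseyN2

/-!
Checker for mirror symmetric families of lines (Ramsey project MP_28724c_co): integer data with
scale `10^6` whose verification implies the hypotheses of `BootstrapP P`.
-/

open Finset

namespace Pool.Agent.H92.Num

/-- reindexing of a step condition -/
lemma stepCP_equiv {P : ℝ → ℝ → ℝ → ℝ → Prop} {ι : Type} [Fintype ι] (σ : ι ≃ ι)
    {u v u' v' : ι → ℝ} (hu : ∀ m, u' m = u (σ m)) (hv : ∀ m, v' m = v (σ m)) {x y q : ℝ}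
    (h : StepCP P u v x y q) : StepCP P u' v' x y q := by
  obtain ⟨a, L, M, vv, w, s, h1, h2, h3, h4, h5, h6, h7, h8, h9, h10, h11, h12, h13, h14⟩ := h
  refine ⟨a, L, M, vv, fun m => w (σ m), fun m => s (σ m), h1, h2, h3, h4, h5, h6, h7,
    fun m => h8 _, ?_, ?_, ?_, fun m => h12 _, ?_, ?_⟩
  · rw [Equiv.sum_comp σ w]; exact h9
  · have : ∑ m, w (σ m) * u' m = ∑ m, w m * u m := by
      rw [← Equiv.sum_comp σ (fun m => w m * u m)]
      exact Finset.sum_congr rfl fun m _ => by rw [hu]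
    rw [this]; exact h10
  · have : ∑ m, w (σ m) * v' m = ∑ m, w m * v m := by
      rw [← Equiv.sum_comp σ (fun m => w m * v m)]
      exact Finset.sum_congr rfl fun m _ => by rw [hv]
    rw [this]; exact h11
  · have e1 : ∑ m, s (σ m) * u' m = ∑ m, s m * u m := by
      rw [← Equiv.sum_comp σ (fun m => s m * u m)]
      exact Finset.sum_congr rfl fun m _ => by rw [hu]
    have e2 : ∑ m, s (σ m) = ∑ m, s m := Equiv.sum_comp σ s
    rw [e1, e2]; exact h13
  · have e1 : ∑ m, s (σ m) * v' m = ∑ m, s m * v m := by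
      rw [← Equiv.sum_comp σ (fun m => s m * v m)]
      exact Finset.sum_congr rfl fun m _ => by rw [hv]
    have e2 : ∑ m, s (σ m) = ∑ m, s m := Equiv.sum_comp σ s
    rw [e1, e2]; exact h14

/-- two point sums -/
lemma sum_two {ι : Type} [Fintype ι] [DecidableEq ι] (i j : ι) (x y : ℝ) (f : ι → ℝ) :
    ∑ m, ((if m = i then x else 0) + (if m = j then y else 0)) * f m = x * f i + y * f j := by
  simp only [add_mul, Finset.sum_add_distrib, ite_mul, zero_mul, Finset.sum_ite_eq',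
    Finset.mem_univ, if_true]

lemma sum_two' {ι : Type} [Fintype ι] [DecidableEq ι] (i j : ι) (x y : ℝ) :
    ∑ m, ((if m = i then x else 0) + (if m = j then y else 0)) = x + y := by
  have := sum_two i j x y (fun _ => 1)
  simpa using this

/-- a step condition from two point weights -/
lemma stepCP_two {P : ℝ → ℝ → ℝ → ℝ → Prop} {ι : Type} [Fintype ι] [DecidableEq ι]
    {u v : ι → ℝ} {x y q a L M vv w1 w2 s1 s2 : ℝ} {i1 i2 j1 j2 : ι}
    (ha : 0 < a) (ha1 : a ≤ 1) (hq : 0 < q) (hq1 : q < 1) (hL : 0 ≤ L) (hM : 0 ≤ M)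
    (hP : P a q L M) (hw1 : 0 ≤ w1) (hw2 : 0 ≤ w2) (hw : w1 + w2 = 1)
    (hwu : w1 * u i1 + w2 * u i2 ≤ L) (hwv : w1 * v i1 + w2 * v i2 ≤ vv)
    (hs1 : 0 ≤ s1) (hs2 : 0 ≤ s2)
    (h1 : L + (s1 * u j1 + s2 * u j2) ≤ (1 + a + (s1 + s2)) * x)
    (h2 : M + vv + (s1 * v j1 + s2 * v j2) ≤ (1 + a + (s1 + s2)) * y) :
    StepCP P u v x y q := by
  refine ⟨a, L, M, vv, fun m => (if m = i1 then w1 else 0) + (if m = i2 then w2 else 0),
    fun m => (if m = j1 then s1 else 0) + (if m = j2 then s2 else 0), ha, ha1, hq, hq1, hL, hM,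
    hP, ?_, ?_, ?_, ?_, ?_, ?_, ?_⟩
  · intro m
    apply add_nonneg <;> split_ifs <;> simp [hw1, hw2]
  · rw [sum_two']; exact hw
  · rw [sum_two]; exact hwu
  · rw [sum_two]; exact hwv
  · intro m
    apply add_nonneg <;> split_ifs <;> simp [hs1, hs2]
  · rw [sum_two, sum_two']; exact h1
  · rw [sum_two, sum_two']; exact h2

/-- Mirror symmetric bootstrap. The family consists of the lines `(U i, V i)` and their mirrors. -/
theorem bootstrap_mirror {P : ℝ → ℝ → ℝ → ℝ → Prop} (hB : BootstrapP P) {n : ℕ}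
    (U V : Fin n → ℝ) (hU : ∀ i, 0 ≤ U i) (hV : ∀ i, 0 ≤ V i)
    (h : ∀ i, Real.exp (-U i) + Real.exp (-V i) ≤ 1 ∨
      ∃ qr qb : ℝ, qr + qb < 1 ∧
        (Real.exp (-U i) ≤ qr ∨ StepCP P (fun m : Fin n × Bool => if m.2 then V m.1 else U m.1)
          (fun m => if m.2 then U m.1 else V m.1) (U i) (V i) qr) ∧
        (Real.exp (-V i) ≤ qb ∨ StepCP P (fun m : Fin n × Bool => if m.2 then U m.1 else V m.1)
          (fun m => if m.2 then V m.1 else U m.1) (V i) (U i) qb)) :
    ∀ i, Good (U i) (V i) := by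
  let σ : (Fin n × Bool) ≃ (Fin n × Bool) := Equiv.prodCongr (Equiv.refl _) Equiv.boolNot
  have hσ1 : ∀ m : Fin n × Bool, (σ m).1 = m.1 := fun m => rfl
  have hσ2 : ∀ m : Fin n × Bool, (σ m).2 = !m.2 := fun m => rfl
  have key := hB (Fin n × Bool) (fun m => if m.2 then V m.1 else U m.1)
    (fun m => if m.2 then U m.1 else V m.1) ?_ ?_ ?_
  · intro i
    have := key (i, false)
    simpa using this
  · rintro ⟨i, b⟩
    cases b
    · simpa using hU i
    · simpa using hV i
  · rintro ⟨i, b⟩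
    cases b
    · simpa using hV i
    · simpa using hU i
  · rintro ⟨i, b⟩
    cases b
    · simpa using h i
    · rcases h i with h1 | ⟨qr, qb, h1, h2, h3⟩
      · left
        simp only [if_true]
        linarith
      · right
        refine ⟨qb, qr, by linarith, ?_, ?_⟩
        · rcases h3 with h3 | h3
          · left; simpa using h3
          · right
            simp only [if_true]
            refine stepCP_equiv σ (fun m => ?_) (fun m => ?_) h3
            · rw [hσ1, hσ2]; cases m.2 <;> simp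
            · rw [hσ1, hσ2]; cases m.2 <;> simp
        · rcases h2 with h2 | h2
          · left; simpa using h2
          · right
            simp only [if_true]
            refine stepCP_equiv σ (fun m => ?_) (fun m => ?_) h2
            · rw [hσ1, hσ2]; cases m.2 <;> simp
            · rw [hσ1, hσ2]; cases m.2 <;> simp

/-! ### combining good lines -/

lemma good_mono {u v u' v' : ℝ} (h : Good u v) (hu : u ≤ u') (hv : v ≤ v') : Good u' v' := by
  intro ε hε
  obtain ⟨C, hC, hG⟩ := h ε hε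
  refine ⟨C, hC, fun V _ G X k l hR hB => (hG V G X k l hR hB).trans ?_⟩
  have h1 : (k : ℝ) * u ≤ k * u' := mul_le_mul_of_nonneg_left hu (Nat.cast_nonneg k)
  have h2 : (l : ℝ) * v ≤ l * v' := mul_le_mul_of_nonneg_left hv (Nat.cast_nonneg l)
  have h3 : Real.exp (ε * (k + l) + k * u + l * v) ≤ Real.exp (ε * (k + l) + k * u' + l * v') := by
    apply Real.exp_le_exp.2; linarith
  gcongr

lemma good_swap {u v : ℝ} (h : Good u v) : Good v u := by
  intro ε hε
  obtain ⟨C, hC, hG⟩ := h ε hε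
  refine ⟨C, hC, fun V _ G X k l hR hB => ?_⟩
  classical
  have h1 := hG V Gᶜ X l k hB (D.NoR_iff.1 hR)
  refine h1.trans (le_of_eq ?_)
  congr 2; ring

lemma good_convex {u1 v1 u2 v2 w1 w2 : ℝ} (h1 : Good u1 v1) (h2 : Good u2 v2) (hw1 : 0 ≤ w1)
    (hw2 : 0 ≤ w2) (hw : w1 + w2 = 1) : Good (w1 * u1 + w2 * u2) (w1 * v1 + w2 * v2) := by
  intro ε hε
  obtain ⟨C1, hC1, hG1⟩ := h1 ε hε
  obtain ⟨C2, hC2, hG2⟩ := h2 ε hε
  refine ⟨max C1 C2, lt_max_of_lt_left hC1, fun V _ G X k l hR hB => ?_⟩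
  have e1 := hG1 V G X k l hR hB
  have e2 := hG2 V G X k l hR hB
  have f1 : (X.card : ℝ) ≤ max C1 C2 * Real.exp (ε * (k + l) + k * u1 + l * v1) :=
    e1.trans (by gcongr; exact le_max_left _ _)
  have f2 : (X.card : ℝ) ≤ max C1 C2 * Real.exp (ε * (k + l) + k * u2 + l * v2) :=
    e2.trans (by gcongr; exact le_max_right _ _)
  have hC : 0 < max C1 C2 := lt_max_of_lt_left hC1
  have g : ∀ x y : ℝ, min x y ≤ w1 * x + w2 * y := by
    intro x y
    have h1 := min_le_left x y
    have h2 := min_le_right x y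
    calc min x y = w1 * min x y + w2 * min x y := by rw [← add_mul, hw, one_mul]
      _ ≤ w1 * x + w2 * y := by gcongr
  rcases le_total (ε * (k + l) + k * u1 + l * v1) (ε * (k + l) + k * u2 + l * v2) with hle | hle
  · refine f1.trans ?_
    have := g (ε * (k + l) + k * u1 + l * v1) (ε * (k + l) + k * u2 + l * v2)
    rw [min_eq_left hle] at this
    have h3 : Real.exp (ε * (k + l) + k * u1 + l * v1)
        ≤ Real.exp (ε * (k + l) + k * (w1 * u1 + w2 * u2) + l * (w1 * v1 + w2 * v2)) := by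
      apply Real.exp_le_exp.2
      refine this.trans (le_of_eq ?_)
      have : w1 = 1 - w2 := by linarith
      subst this; ring
    gcongr
  · refine f2.trans ?_
    have := g (ε * (k + l) + k * u1 + l * v1) (ε * (k + l) + k * u2 + l * v2)
    rw [min_eq_right hle] at this
    have h3 : Real.exp (ε * (k + l) + k * u2 + l * v2)
        ≤ Real.exp (ε * (k + l) + k * (w1 * u1 + w2 * u2) + l * (w1 * v1 + w2 * v2)) := by
      apply Real.exp_le_exp.2
      refine this.trans (le_of_eq ?_)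
      have : w1 = 1 - w2 := by linarith
      subst this; ring
    gcongr

/-! ### the checker -/

/-- data of a step: certificate parameters, `v'`, two weights (`w1` at line `i1`, the rest at
line `i2`), two multipliers; the `Bool` says whether the mirrored line is meant -/
structure St where
  a : ℤ
  L : ℤ
  M : ℤ
  D0 : ℤ
  vv : ℤ
  i1 : ℕ
  b1 : Bool
  i2 : ℕ
  b2 : Bool
  w1 : ℤ
  j1 : ℕ
  c1 : Bool
  s1 : ℤ
  j2 : ℕ
  c2 : Bool
  s2 : ℤ
  ds : List Iv

/-- coordinate `u` (if `b = false`) or `v` (if `b = true`) of the line number `i` -/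
def crd (fam : List (ℤ × ℤ)) (i : ℕ) (b : Bool) : ℤ :=
  let p := fam.getD i (0, 0)
  if b then p.2 else p.1

/-- test of a step for the line `(x, y)` with density `q`; `f = false`: red, `f = true`: blue.
`C` is the certificate checker. -/
def chkSt (C : ℤ → ℤ → ℤ → ℤ → ℤ → List Iv → Bool) (fam : List (ℤ × ℤ)) (f : Bool)
    (x y q : ℤ) (d : St) : Bool :=
  decide (0 < d.a) && decide (d.a ≤ 1000000) && decide (0 < q) && decide (q < 1000000) &&
  decide (0 ≤ d.L) && decide (0 ≤ d.M) && C d.a q d.L d.M d.D0 d.ds &&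
  decide (0 ≤ d.w1) && decide (d.w1 ≤ 1000000) && decide (0 ≤ d.s1) && decide (0 ≤ d.s2) &&
  decide (d.i1 < fam.length) && decide (d.i2 < fam.length) &&
  decide (d.j1 < fam.length) && decide (d.j2 < fam.length) &&
  decide (d.w1 * crd fam d.i1 (xor f d.b1) + (1000000 - d.w1) * crd fam d.i2 (xor f d.b2)
    ≤ d.L * 1000000) &&
  decide (d.w1 * crd fam d.i1 (!(xor f d.b1)) + (1000000 - d.w1) * crd fam d.i2 (!(xor f d.b2))
    ≤ d.vv * 1000000) &&
  decide (d.L * 1000000 + (d.s1 * crd fam d.j1 (xor f d.c1) + d.s2 * crd fam d.j2 (xor f d.c2))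
    ≤ (1000000 + d.a + (d.s1 + d.s2)) * x) &&
  decide ((d.M + d.vv) * 1000000 + (d.s1 * crd fam d.j1 (!(xor f d.c1))
    + d.s2 * crd fam d.j2 (!(xor f d.c2))) ≤ (1000000 + d.a + (d.s1 + d.s2)) * y)

/-- real coordinate -/
noncomputable def rcrd (fam : List (ℤ × ℤ)) (i : ℕ) (b : Bool) : ℝ := (crd fam i b : ℝ) / 1000000

theorem chkSt_spec {P : ℝ → ℝ → ℝ → ℝ → Prop} {C : ℤ → ℤ → ℤ → ℤ → ℤ → List Iv → Bool}
    (hC : ∀ a q L M D0 ds, 0 < a → C a q L M D0 ds = true →
      P ((a : ℝ) / 1000000) ((q : ℝ) / 1000000) ((L : ℝ) / 1000000) ((M : ℝ) / 1000000))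
    {fam : List (ℤ × ℤ)} {f : Bool} {x y q : ℤ} {d : St} (h : chkSt C fam f x y q d = true) :
    StepCP P (fun m : Fin fam.length × Bool => rcrd fam m.1 (xor f m.2))
      (fun m => rcrd fam m.1 (!(xor f m.2))) ((x : ℝ) / 1000000) ((y : ℝ) / 1000000)
      ((q : ℝ) / 1000000) := by
  simp only [chkSt, Bool.and_eq_true, decide_eq_true_eq] at h
  obtain ⟨⟨⟨⟨⟨⟨⟨⟨⟨⟨⟨⟨⟨⟨⟨⟨⟨⟨h1, h2⟩, h3⟩, h4⟩, h5⟩, h6⟩, h7⟩, h8⟩, h9⟩, h10⟩, h11⟩, h12⟩, h13⟩, h14⟩,
    h15⟩, h16⟩, h17⟩, h18⟩, h19⟩ := h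
  have T0 : (0 : ℝ) < 1000000 := by norm_num
  have r1 : (0 : ℝ) < d.a := by exact_mod_cast h1
  have r2 : (d.a : ℝ) ≤ 1000000 := by exact_mod_cast h2
  have r3 : (0 : ℝ) < q := by exact_mod_cast h3
  have r4 : (q : ℝ) < 1000000 := by exact_mod_cast h4
  have r5 : (0 : ℝ) ≤ d.L := by exact_mod_cast h5
  have r6 : (0 : ℝ) ≤ d.M := by exact_mod_cast h6
  have r8 : (0 : ℝ) ≤ d.w1 := by exact_mod_cast h8
  have r9 : (d.w1 : ℝ) ≤ 1000000 := by exact_mod_cast h9
  have r10 : (0 : ℝ) ≤ d.s1 := by exact_mod_cast h10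
  have r11 : (0 : ℝ) ≤ d.s2 := by exact_mod_cast h11
  have r16 : (d.w1 : ℝ) * crd fam d.i1 (xor f d.b1) + (1000000 - d.w1)
      * crd fam d.i2 (xor f d.b2) ≤ d.L * 1000000 := by exact_mod_cast h16
  have r17 : (d.w1 : ℝ) * crd fam d.i1 (!(xor f d.b1)) + (1000000 - d.w1)
      * crd fam d.i2 (!(xor f d.b2)) ≤ d.vv * 1000000 := by exact_mod_cast h17
  have r18 : (d.L : ℝ) * 1000000 + (d.s1 * crd fam d.j1 (xor f d.c1)
      + d.s2 * crd fam d.j2 (xor f d.c2)) ≤ (1000000 + d.a + (d.s1 + d.s2)) * x := by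
    exact_mod_cast h18
  have r19 : ((d.M : ℝ) + d.vv) * 1000000 + (d.s1 * crd fam d.j1 (!(xor f d.c1))
      + d.s2 * crd fam d.j2 (!(xor f d.c2))) ≤ (1000000 + d.a + (d.s1 + d.s2)) * y := by
    exact_mod_cast h19
  refine stepCP_two (a := (d.a : ℝ) / 1000000) (L := (d.L : ℝ) / 1000000)
    (M := (d.M : ℝ) / 1000000) (vv := (d.vv : ℝ) / 1000000) (w1 := (d.w1 : ℝ) / 1000000)
    (w2 := 1 - (d.w1 : ℝ) / 1000000) (s1 := (d.s1 : ℝ) / 1000000) (s2 := (d.s2 : ℝ) / 1000000)
    (i1 := (⟨d.i1, h12⟩, d.b1)) (i2 := (⟨d.i2, h13⟩, d.b2)) (j1 := (⟨d.j1, h14⟩, d.c1))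
    (j2 := (⟨d.j2, h15⟩, d.c2)) (by positivity) ?_ (by positivity) ?_ (by positivity)
    (by positivity) (hC _ _ _ _ _ _ h1 h7) (by positivity) ?_ (by ring) ?_ ?_ (by positivity)
    (by positivity) ?_ ?_
  · rw [div_le_one T0]; exact r2
  · rw [div_lt_one T0]; exact r4
  · rw [sub_nonneg, div_le_one T0]; exact r9
  · simp only [rcrd]
    rw [← sub_nonneg] at r16 ⊢
    have : 0 ≤ ((d.L : ℝ) * 1000000 - ((d.w1 : ℝ) * crd fam d.i1 (xor f d.b1)
      + (1000000 - d.w1) * crd fam d.i2 (xor f d.b2))) / 1000000000000 := by positivity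
    refine this.trans (le_of_eq ?_)
    ring
  · simp only [rcrd]
    rw [← sub_nonneg] at r17 ⊢
    have : 0 ≤ ((d.vv : ℝ) * 1000000 - ((d.w1 : ℝ) * crd fam d.i1 (!(xor f d.b1))
      + (1000000 - d.w1) * crd fam d.i2 (!(xor f d.b2)))) / 1000000000000 := by positivity
    refine this.trans (le_of_eq ?_)
    ring
  · simp only [rcrd]
    rw [← sub_nonneg] at r18 ⊢
    have : 0 ≤ ((1000000 + (d.a : ℝ) + (d.s1 + d.s2)) * x - ((d.L : ℝ) * 1000000
      + (d.s1 * crd fam d.j1 (xor f d.c1) + d.s2 * crd fam d.j2 (xor f d.c2))))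
      / 1000000000000 := by positivity
    refine this.trans (le_of_eq ?_)
    ring
  · simp only [rcrd]
    rw [← sub_nonneg] at r19 ⊢
    have : 0 ≤ ((1000000 + (d.a : ℝ) + (d.s1 + d.s2)) * y - (((d.M : ℝ) + d.vv) * 1000000
      + (d.s1 * crd fam d.j1 (!(xor f d.c1)) + d.s2 * crd fam d.j2 (!(xor f d.c2)))))
      / 1000000000000 := by positivity
    refine this.trans (le_of_eq ?_)
    ring

/-- certificate of a line: densities and the two optional steps -/
structure Ln where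
  qr : ℤ
  qb : ℤ
  red : Option St
  blue : Option St

/-- bound for `exp (-x)` by `q` -/
def chkE (x q : ℤ) : Bool := rng (-x) && decide ((expHi (-x) : ℤ) ≤ q * 1000000000)

lemma chkE_spec {x q : ℤ} (h : chkE x q = true) :
    Real.exp (-((x : ℝ) / 1000000)) ≤ (q : ℝ) / 1000000 := by
  simp only [chkE, Bool.and_eq_true, decide_eq_true_eq] at h
  have h1 := expHi_spec h.1
  have h2 : (expHi (-x) : ℝ) ≤ q * 1000000000 := by exact_mod_cast h.2
  push_cast at h1
  rw [neg_div] at h1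
  rw [le_div_iff₀ (by norm_num)]
  linarith

/-- test of the line number `i` -/
def chkLn (C : ℤ → ℤ → ℤ → ℤ → ℤ → List Iv → Bool) (fam : List (ℤ × ℤ)) (x y : ℤ)
    (d : Ln) : Bool :=
  decide (0 ≤ x) && decide (0 ≤ y) && decide (d.qr + d.qb < 1000000) &&
  (match d.red with
    | none => chkE x d.qr
    | some st => chkSt C fam false x y d.qr st) &&
  (match d.blue with
    | none => chkE y d.qb
    | some st => chkSt C fam true y x d.qb st)

/-- test of an Erdős–Szekeres line -/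
def chkES (x y : ℤ) : Bool :=
  decide (0 ≤ x) && decide (0 ≤ y) && rng (-x) && rng (-y) &&
    decide (expHi (-x) + expHi (-y) ≤ 1000000000000000)

/-- test of a whole family: `none` means an Erdős–Szekeres line -/
def chkFam (C : ℤ → ℤ → ℤ → ℤ → ℤ → List Iv → Bool) (fam : List (ℤ × ℤ))
    (cert : List (Option Ln)) : Bool :=
  (List.range fam.length).all fun i =>
    let p := fam.getD i (0, 0)
    match cert.getD i none with
    | none => chkES p.1 p.2
    | some d => chkLn C fam p.1 p.2 d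

theorem good_of_chkFam {P : ℝ → ℝ → ℝ → ℝ → Prop} (hB : BootstrapP P)
    {C : ℤ → ℤ → ℤ → ℤ → ℤ → List Iv → Bool}
    (hC : ∀ a q L M D0 ds, 0 < a → C a q L M D0 ds = true →
      P ((a : ℝ) / 1000000) ((q : ℝ) / 1000000) ((L : ℝ) / 1000000) ((M : ℝ) / 1000000))
    {fam : List (ℤ × ℤ)} {cert : List (Option Ln)} (h : chkFam C fam cert = true) :
    ∀ i < fam.length, Good (rcrd fam i false) (rcrd fam i true) := by
  simp only [chkFam, List.all_eq_true, List.mem_range] at h
  have hnn : ∀ i < fam.length, 0 ≤ (fam.getD i (0, 0)).1 ∧ 0 ≤ (fam.getD i (0, 0)).2 := by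
    intro i hi
    have := h i hi
    cases hc : cert.getD i none with
    | none =>
      simp only [hc, chkES, Bool.and_eq_true, decide_eq_true_eq] at this
      exact ⟨this.1.1.1.1, this.1.1.1.2⟩
    | some d =>
      simp only [hc, chkLn, Bool.and_eq_true, decide_eq_true_eq] at this
      exact ⟨this.1.1.1.1, this.1.1.1.2⟩
  have key := bootstrap_mirror hB (n := fam.length) (fun i => rcrd fam i false)
    (fun i => rcrd fam i true) ?_ ?_ ?_
  · intro i hi
    exact key ⟨i, hi⟩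
  · intro i
    have := (hnn i i.2).1
    simp only [rcrd, crd]
    have h2 : (0 : ℝ) ≤ ((fam.getD i (0, 0)).1 : ℤ) := by exact_mod_cast this
    simpa using div_nonneg h2 (by norm_num)
  · intro i
    have := (hnn i i.2).2
    simp only [rcrd, crd]
    have h2 : (0 : ℝ) ≤ ((fam.getD i (0, 0)).2 : ℤ) := by exact_mod_cast this
    simpa using div_nonneg h2 (by norm_num)
  · intro i
    have hi := h i i.2
    have e1 : rcrd fam i false = ((fam.getD i (0, 0)).1 : ℝ) / 1000000 := by simp [rcrd, crd]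
    have e2 : rcrd fam i true = ((fam.getD i (0, 0)).2 : ℝ) / 1000000 := by simp [rcrd, crd]
    have g1 : (fun m : Fin fam.length × Bool => if m.2 then rcrd fam m.1 true
        else rcrd fam m.1 false) = fun m => rcrd fam m.1 (xor false m.2) := by
      funext m; cases m.2 <;> simp
    have g2 : (fun m : Fin fam.length × Bool => if m.2 then rcrd fam m.1 false
        else rcrd fam m.1 true) = fun m => rcrd fam m.1 (!(xor false m.2)) := by
      funext m; cases m.2 <;> simp
    have g3 : (fun m : Fin fam.length × Bool => rcrd fam m.1 (!(xor false m.2)))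
        = fun m => rcrd fam m.1 (xor true m.2) := by
      funext m; cases m.2 <;> simp
    have g4 : (fun m : Fin fam.length × Bool => rcrd fam m.1 (xor false m.2))
        = fun m => rcrd fam m.1 (!(xor true m.2)) := by
      funext m; cases m.2 <;> simp
    cases hc : cert.getD i none with
    | none =>
      left
      simp only [hc, chkES, Bool.and_eq_true, decide_eq_true_eq] at hi
      obtain ⟨⟨⟨⟨_, _⟩, i3⟩, i4⟩, i5⟩ := hi
      have k1 := expHi_spec i3
      have k2 := expHi_spec i4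
      have k3 : (expHi (-(fam.getD i (0, 0)).1) : ℝ) + expHi (-(fam.getD i (0, 0)).2)
          ≤ 1000000000000000 := by exact_mod_cast i5
      push_cast at k1 k2
      rw [neg_div] at k1 k2
      rw [e1, e2]
      linarith
    | some d =>
      right
      simp only [hc, chkLn, Bool.and_eq_true, decide_eq_true_eq] at hi
      obtain ⟨⟨⟨⟨_, _⟩, i3⟩, i4⟩, i5⟩ := hi
      refine ⟨(d.qr : ℝ) / 1000000, (d.qb : ℝ) / 1000000, ?_, ?_, ?_⟩
      · have : (d.qr : ℝ) + d.qb < 1000000 := by exact_mod_cast i3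
        rw [← add_div, div_lt_one (by norm_num)]
        exact this
      · cases hr : d.red with
        | none =>
          left
          rw [hr] at i4
          rw [e1]
          exact chkE_spec i4
        | some st =>
          right
          rw [hr] at i4
          have := chkSt_spec hC i4
          rw [g1, g2, e1, e2]
          exact this
      · cases hr : d.blue with
        | none =>
          left
          rw [hr] at i5
          rw [e2]
          exact chkE_spec i5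
        | some st =>
          right
          rw [hr] at i5
          have := chkSt_spec hC i5
          rw [g1, g2, e1, e2, g3, g4]
          exact this

/-- test of the diagonal step with density `q` and conclusion `c` -/
def chkDiag (C : ℤ → ℤ → ℤ → ℤ → ℤ → List Iv → Bool) (fam : List (ℤ × ℤ)) (q c : ℤ)
    (d : St) : Bool :=
  decide (0 < d.a) && decide (d.a ≤ 1000000) && decide (0 < q) && decide (q < 500000) &&
  decide (0 ≤ d.L) && decide (0 ≤ d.M) && C d.a q d.L d.M d.D0 d.ds &&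
  decide (0 ≤ d.w1) && decide (d.w1 ≤ 1000000) &&
  decide (d.i1 < fam.length) && decide (d.i2 < fam.length) &&
  decide (d.w1 * crd fam d.i1 d.b1 + (1000000 - d.w1) * crd fam d.i2 d.b2 ≤ d.L * 1000000) &&
  decide (d.w1 * crd fam d.i1 (!d.b1) + (1000000 - d.w1) * crd fam d.i2 (!d.b2)
    ≤ d.vv * 1000000) &&
  decide ((d.L + d.M + d.vv) * 1000000 ≤ (1000000 + d.a) * c)

theorem goodDiag_of_chkDiag {P : ℝ → ℝ → ℝ → ℝ → Prop} (hD : DiagStepP P)
    {C : ℤ → ℤ → ℤ → ℤ → ℤ → List Iv → Bool}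
    (hC : ∀ a q L M D0 ds, 0 < a → C a q L M D0 ds = true →
      P ((a : ℝ) / 1000000) ((q : ℝ) / 1000000) ((L : ℝ) / 1000000) ((M : ℝ) / 1000000))
    {fam : List (ℤ × ℤ)}
    (hgood : ∀ i < fam.length, Good (rcrd fam i false) (rcrd fam i true))
    {q c : ℤ} {d : St} (h : chkDiag C fam q c d = true) : GoodDiag ((c : ℝ) / 1000000) := by
  simp only [chkDiag, Bool.and_eq_true, decide_eq_true_eq] at h
  obtain ⟨⟨⟨⟨⟨⟨⟨⟨⟨⟨⟨⟨⟨h1, h2⟩, h3⟩, h4⟩, h5⟩, h6⟩, h7⟩, h8⟩, h9⟩, h10⟩, h11⟩, h12⟩, h13⟩, h14⟩ := h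
  have T0 : (0 : ℝ) < 1000000 := by norm_num
  have r1 : (0 : ℝ) < d.a := by exact_mod_cast h1
  have r2 : (d.a : ℝ) ≤ 1000000 := by exact_mod_cast h2
  have r3 : (0 : ℝ) < q := by exact_mod_cast h3
  have r4 : (q : ℝ) < 500000 := by exact_mod_cast h4
  have r5 : (0 : ℝ) ≤ d.L := by exact_mod_cast h5
  have r6 : (0 : ℝ) ≤ d.M := by exact_mod_cast h6
  have r8 : (0 : ℝ) ≤ d.w1 := by exact_mod_cast h8
  have r9 : (d.w1 : ℝ) ≤ 1000000 := by exact_mod_cast h9
  have r12 : (d.w1 : ℝ) * crd fam d.i1 d.b1 + (1000000 - d.w1) * crd fam d.i2 d.b2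
      ≤ d.L * 1000000 := by exact_mod_cast h12
  have r13 : (d.w1 : ℝ) * crd fam d.i1 (!d.b1) + (1000000 - d.w1) * crd fam d.i2 (!d.b2)
      ≤ d.vv * 1000000 := by exact_mod_cast h13
  have r14 : ((d.L : ℝ) + d.M + d.vv) * 1000000 ≤ (1000000 + d.a) * c := by exact_mod_cast h14
  have hgd : ∀ (i : ℕ) (b : Bool), i < fam.length → Good (rcrd fam i b) (rcrd fam i (!b)) := by
    intro i b hi
    cases b
    · exact hgood i hi
    · exact good_swap (hgood i hi)
  have hw : 0 ≤ 1 - (d.w1 : ℝ) / 1000000 := by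
    rw [sub_nonneg, div_le_one T0]; exact r9
  have hG := good_convex (hgd d.i1 d.b1 h10) (hgd d.i2 d.b2 h11)
    (w1 := (d.w1 : ℝ) / 1000000) (w2 := 1 - (d.w1 : ℝ) / 1000000) (by positivity) hw (by ring)
  have hG' : Good ((d.L : ℝ) / 1000000) ((d.vv : ℝ) / 1000000) := by
    refine good_mono hG ?_ ?_
    · simp only [rcrd]
      rw [← sub_nonneg] at r12 ⊢
      have : 0 ≤ ((d.L : ℝ) * 1000000 - ((d.w1 : ℝ) * crd fam d.i1 d.b1
        + (1000000 - d.w1) * crd fam d.i2 d.b2)) / 1000000000000 := by positivity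
      refine this.trans (le_of_eq ?_)
      ring
    · simp only [rcrd]
      rw [← sub_nonneg] at r13 ⊢
      have : 0 ≤ ((d.vv : ℝ) * 1000000 - ((d.w1 : ℝ) * crd fam d.i1 (!d.b1)
        + (1000000 - d.w1) * crd fam d.i2 (!d.b2))) / 1000000000000 := by positivity
      refine this.trans (le_of_eq ?_)
      ring
  refine hD ((d.a : ℝ) / 1000000) ((q : ℝ) / 1000000) ((d.L : ℝ) / 1000000)
    ((d.M : ℝ) / 1000000) ((d.vv : ℝ) / 1000000) ((c : ℝ) / 1000000) (by positivity) ?_
    (by positivity) ?_ (by positivity) (by positivity) (hC _ _ _ _ _ _ h1 h7) hG' ?_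
  · rw [div_le_one T0]; exact r2
  · rw [div_lt_div_iff₀ T0 (by norm_num)]; linarith
  · rw [← sub_nonneg] at r14 ⊢
    have : 0 ≤ ((1000000 + (d.a : ℝ)) * c - ((d.L : ℝ) + d.M + d.vv) * 1000000)
      / 1000000000000 := by positivity
    refine this.trans (le_of_eq ?_)
    ring

/-- the whole thing for the certificate `Cert` -/
theorem cert_hC : ∀ a q L M D0 ds, 0 < a → chk a q L M D0 ds = true →
    Cert ((a : ℝ) / 1000000) ((q : ℝ) / 1000000) ((L : ℝ) / 1000000) ((M : ℝ) / 1000000) :=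
  fun _ _ _ _ _ _ ha h => chk_spec ha h

end Pool.Agent.H92.Num
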