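import Pool.Agent.H92.RamseyI

/-!
The one-step theorem `OneStep`.
-/

open Finset Filter Topology

namespace Pool.Agent.H92

lemma lim_lin (t : ℝ) : Tendsto (fun W : ℕ => 1 + t / (W : ℝ)) atTop (𝓝 1) := by
  have h := (tendsto_const_div_atTop_nhds_zero_nat t).const_add 1
  simpa using h

lemma lim_pow (t : ℝ) :
    Tendsto (fun W : ℕ => (1 + t / (W : ℝ)) ^ (W - 1)) atTop (𝓝 (Real.exp t)) := by
  have h1 := Real.tendsto_one_add_div_pow_exp t
  have h2 := h1.div (lim_lin t) one_ne_zero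
  rw [div_one] at h2
  refine h2.congr' ?_
  have h3 : ∀ᶠ W : ℕ in atTop, 0 < 1 + t / (W : ℝ) := (lim_lin t).eventually (lt_mem_nhds one_pos)
  filter_upwards [h3, eventually_ge_atTop 1] with W hW hW1
  obtain ⟨m, rfl⟩ : ∃ m, W = m + 1 := ⟨W - 1, by omega⟩
  simp only [Pi.div_apply, Nat.add_sub_cancel]
  rw [pow_succ, mul_div_assoc, div_self hW.ne', mul_one]

lemma lim_s (t : ℝ) :
    Tendsto (fun W : ℕ => (1 + t / (W : ℝ)) + W * (1 - (1 + t / (W : ℝ)))) atTop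
      (𝓝 (1 - t)) := by
  have h := (lim_lin t).sub_const t
  refine h.congr' ?_
  filter_upwards [eventually_ge_atTop 1] with W hW1
  have : (W : ℝ) ≠ 0 := by positivity
  field_simp
  ring

lemma ev_close {f : ℕ → ℝ} {x e : ℝ} (h : Tendsto f atTop (𝓝 x)) (he : 0 < e) :
    ∀ᶠ W : ℕ in atTop, |f W - x| ≤ e := by
  have := (Metric.tendsto_nhds.mp h) e he
  filter_upwards [this] with W hW
  rw [Real.dist_eq] at hW
  exact hW.le

/-- finite `W` coefficients are close to their limits -/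
lemma coef_close (τ1 τ2 τ3 : ℝ) {e : ℝ} (he : 0 < e) :
    ∀ᶠ W : ℕ in atTop,
      0 < 1 + -τ1 / (W : ℝ) ∧ 0 < 1 + τ2 / (W : ℝ) ∧ 0 < 1 + -τ3 / (W : ℝ) ∧
      |((1 + τ2 / (W : ℝ)) ^ (W - 1) / (1 + -τ3 / (W : ℝ)) ^ (W - 1) - 1) *
        ((1 + -τ1 / (W : ℝ)) + W * (1 - (1 + -τ1 / (W : ℝ))))
        - (Real.exp (τ2 + τ3) - 1) * (1 + τ1)| ≤ e ∧
      |((1 + τ2 / (W : ℝ)) ^ (W - 1) / (1 + -τ3 / (W : ℝ)) ^ (W - 1) - 1) *
        ((1 + -τ1 / (W : ℝ)) ^ (W - 1))⁻¹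
        - (Real.exp (τ2 + τ3) - 1) * Real.exp τ1| ≤ e ∧
      |((1 + τ2 / (W : ℝ)) ^ (W - 1) / (1 + -τ3 / (W : ℝ)) ^ (W - 1)) *
        ((1 + τ2 / (W : ℝ)) + W * (1 - (1 + τ2 / (W : ℝ))))
        - Real.exp (τ2 + τ3) * (1 - τ2)| ≤ e ∧
      |((1 + -τ3 / (W : ℝ)) + W * (1 - (1 + -τ3 / (W : ℝ)))) - (1 + τ3)| ≤ e ∧
      |((1 + -τ3 / (W : ℝ)) ^ (W - 1))⁻¹ - Real.exp τ3| ≤ e ∧
      |((1 + τ2 / (W : ℝ)) ^ (W - 1) / (1 + -τ3 / (W : ℝ)) ^ (W - 1) + 1)
        - (Real.exp (τ2 + τ3) + 1)| ≤ e := by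
  have hγ : Tendsto (fun W : ℕ => (1 + τ2 / (W : ℝ)) ^ (W - 1) / (1 + -τ3 / (W : ℝ)) ^ (W - 1))
      atTop (𝓝 (Real.exp (τ2 + τ3))) := by
    have h := (lim_pow τ2).div (lim_pow (-τ3)) (Real.exp_ne_zero _)
    rw [← Real.exp_sub] at h
    rw [show τ2 + τ3 = τ2 - -τ3 by ring]
    exact h
  have hs1 : Tendsto (fun W : ℕ => (1 + -τ1 / (W : ℝ)) + W * (1 - (1 + -τ1 / (W : ℝ)))) atTop
      (𝓝 (1 + τ1)) := by
    have h := lim_s (-τ1)
    rwa [sub_neg_eq_add] at h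
  have hs3 : Tendsto (fun W : ℕ => (1 + -τ3 / (W : ℝ)) + W * (1 - (1 + -τ3 / (W : ℝ)))) atTop
      (𝓝 (1 + τ3)) := by
    have h := lim_s (-τ3)
    rwa [sub_neg_eq_add] at h
  have hc1 : Tendsto (fun W : ℕ => ((1 + -τ1 / (W : ℝ)) ^ (W - 1))⁻¹) atTop
      (𝓝 (Real.exp τ1)) := by
    have h := (lim_pow (-τ1)).inv₀ (Real.exp_ne_zero _)
    rwa [← Real.exp_neg, neg_neg] at h
  have hc3 : Tendsto (fun W : ℕ => ((1 + -τ3 / (W : ℝ)) ^ (W - 1))⁻¹) atTop
      (𝓝 (Real.exp τ3)) := by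
    have h := (lim_pow (-τ3)).inv₀ (Real.exp_ne_zero _)
    rwa [← Real.exp_neg, neg_neg] at h
  filter_upwards [(lim_lin (-τ1)).eventually (lt_mem_nhds one_pos),
    (lim_lin τ2).eventually (lt_mem_nhds one_pos),
    (lim_lin (-τ3)).eventually (lt_mem_nhds one_pos),
    ev_close ((hγ.sub_const 1).mul hs1) he, ev_close ((hγ.sub_const 1).mul hc1) he,
    ev_close (hγ.mul (lim_s τ2)) he, ev_close hs3 he, ev_close hc3 he,
    ev_close (hγ.add_const 1) he] with W h1 h2 h3 h4 h5 h6 h7 h8 h9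
  exact ⟨h1, h2, h3, h4, h5, h6, h7, h8, h9⟩

/-- finite `W` slope and intercept in the subset bound are close to their limits -/
lemma slope_close (a ν : ℝ) {e : ℝ} (he : 0 < e) :
    ∀ᶠ W : ℕ in atTop,
      0 < 1 + (a * ν) / (W : ℝ) ∧
      |(W * (1 + (a * ν) / (W : ℝ)) - W - (1 + (a * ν) / (W : ℝ)) +
        ((1 + (a * ν) / (W : ℝ)) ^ (W - 1))⁻¹ * ((1 - a) * (Real.exp (-ν)) ^ (-a)))
        - a * (ν - 1)| ≤ e ∧
      |((1 + (a * ν) / (W : ℝ)) ^ (W - 1))⁻¹ * (a * (Real.exp (-ν)) ^ (1 - a))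
        - a * Real.exp (-ν)| ≤ e := by
  have hinv : Tendsto (fun W : ℕ => ((1 + (a * ν) / (W : ℝ)) ^ (W - 1))⁻¹) atTop
      (𝓝 (Real.exp (-(a * ν)))) := by
    have h := (lim_pow (a * ν)).inv₀ (Real.exp_ne_zero _)
    rwa [← Real.exp_neg] at h
  have h1 : Tendsto (fun W : ℕ => W * (1 + (a * ν) / (W : ℝ)) - W - (1 + (a * ν) / (W : ℝ)))
      atTop (𝓝 (a * ν - 1)) := by
    have h := (lim_lin (a * ν)).const_sub (a * ν)
    refine h.congr' ?_
    filter_upwards [eventually_ge_atTop 1] with W hW1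
    have : (W : ℝ) ≠ 0 := by positivity
    field_simp
    ring
  have h2 := h1.add (hinv.mul_const ((1 - a) * (Real.exp (-ν)) ^ (-a)))
  have e2 : a * ν - 1 + Real.exp (-(a * ν)) * ((1 - a) * (Real.exp (-ν)) ^ (-a))
      = a * (ν - 1) := by
    rw [← Real.exp_mul]
    have : Real.exp (-(a * ν)) * ((1 - a) * Real.exp (-ν * -a)) = 1 - a := by
      calc _ = (1 - a) * (Real.exp (-(a * ν)) * Real.exp (-ν * -a)) := by ring
        _ = (1 - a) * 1 := by rw [← Real.exp_add]; congr 1; rw [Real.exp_eq_one_iff]; ring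
        _ = _ := by ring
    rw [this]; ring
  rw [e2] at h2
  have h3 := hinv.mul_const (a * (Real.exp (-ν)) ^ (1 - a))
  have e3 : Real.exp (-(a * ν)) * (a * (Real.exp (-ν)) ^ (1 - a)) = a * Real.exp (-ν) := by
    rw [← Real.exp_mul]
    calc _ = a * (Real.exp (-(a * ν)) * Real.exp (-ν * (1 - a))) := by ring
      _ = _ := by rw [← Real.exp_add]; congr 2; ring
  rw [e3] at h3
  filter_upwards [(lim_lin (a * ν)).eventually (lt_mem_nhds one_pos), ev_close h2 he,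
    ev_close h3 he] with W h4 h5 h6
  exact ⟨h4, h5, h6⟩

/-- the real-number computation behind the lower bound for `g_x` -/
lemma piece_real {K1 K2 K3 K4 K5 K6 k1 k2 k3 k4 k5 k6 xh yh A1 B1 A2 B2 r b qx q e p δ R1 R2 g : ℝ}
    (h1 : |K1 - k1| ≤ e) (h2 : |K2 - k2| ≤ e) (h3 : |K3 - k3| ≤ e) (h4 : |K4 - k4| ≤ e)
    (h5 : |K5 - k5| ≤ e) (h6 : |K6 - k6| ≤ e)
    (hK2 : 0 ≤ K2) (hK5 : 0 ≤ K5) (hk6 : 0 ≤ k6) (hxh : 0 ≤ xh) (hyh : 0 ≤ yh)
    (hA1 : 0 ≤ A1) (hB1 : 0 ≤ B1) (hA2 : 0 ≤ A2) (hB2 : 0 ≤ B2)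
    (hr0 : 0 ≤ r) (hr1 : r ≤ 1) (hb0 : 0 ≤ b) (hb : b = 1 - r - p) (hp0 : 0 ≤ p) (hp : p ≤ e)
    (hδ0 : 0 ≤ δ) (hδ : δ ≤ e) (he1 : e ≤ 1) (hqx0 : 0 ≤ qx) (hqx1 : qx ≤ 1)
    (hqx : q - e ≤ qx)
    (hR1 : R1 ≤ A1 + B1 * r) (hR2 : R2 ≤ A2 + B2 * b)
    (hcoef : 0 ≤ k1 * r + k3 * (1 - r) - k4 * (1 - r))
    (hg : K1 * r * qx - K2 * (xh * R1) + K3 * b * qx + K4 * b * (1 - qx) - K5 * (yh * R2)
      - K6 * δ ≤ g) :
    k1 * r * q - k2 * xh * (A1 + B1 * r) + k3 * (1 - r) * q + k4 * (1 - r) * (1 - q)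
      - k5 * yh * (A2 + B2 * (1 - r))
      - e * (4 + xh * (A1 + B1) + yh * (A2 + B2) + 2 * |k3| + 2 * |k4| + |k1| + k6) ≤ g := by
  have he0 : 0 ≤ e := (abs_nonneg _).trans h1
  have hb1 : b ≤ 1 := by linarith
  rw [abs_le] at h1 h2 h3 h4 h5 h6
  -- step 1
  have s1 : (k1 - e) * (r * qx) ≤ K1 * (r * qx) :=
    mul_le_mul_of_nonneg_right (by linarith) (mul_nonneg hr0 hqx0)
  have s1' : r * qx ≤ 1 := mul_le_one₀ hr1 hqx0 hqx1
  have s2 : K2 * (xh * R1) ≤ (k2 + e) * (xh * (A1 + B1 * r)) := by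
    have t1 : xh * R1 ≤ xh * (A1 + B1 * r) := mul_le_mul_of_nonneg_left hR1 hxh
    have t2 : 0 ≤ xh * (A1 + B1 * r) := by positivity
    calc K2 * (xh * R1) ≤ K2 * (xh * (A1 + B1 * r)) := mul_le_mul_of_nonneg_left t1 hK2
      _ ≤ _ := mul_le_mul_of_nonneg_right (by linarith) t2
  have s2' : xh * (A1 + B1 * r) ≤ xh * (A1 + B1) := by
    apply mul_le_mul_of_nonneg_left _ hxh
    have t1 := mul_le_of_le_one_right hB1 hr1
    linarith
  have s3 : (k3 - e) * (b * qx) ≤ K3 * (b * qx) :=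
    mul_le_mul_of_nonneg_right (by linarith) (mul_nonneg hb0 hqx0)
  have s3' : b * qx ≤ 1 := mul_le_one₀ hb1 hqx0 hqx1
  have s4 : (k4 - e) * (b * (1 - qx)) ≤ K4 * (b * (1 - qx)) :=
    mul_le_mul_of_nonneg_right (by linarith) (mul_nonneg hb0 (by linarith))
  have s4' : b * (1 - qx) ≤ 1 := mul_le_one₀ hb1 (by linarith) (by linarith)
  have s5 : K5 * (yh * R2) ≤ (k5 + e) * (yh * (A2 + B2 * (1 - r))) := by
    have t0 : A2 + B2 * b ≤ A2 + B2 * (1 - r) := by
      have t00 := mul_le_mul_of_nonneg_left (by linarith : b ≤ 1 - r) hB2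
      linarith
    have t1 : yh * R2 ≤ yh * (A2 + B2 * (1 - r)) :=
      mul_le_mul_of_nonneg_left (hR2.trans t0) hyh
    have t2 : 0 ≤ yh * (A2 + B2 * (1 - r)) := by
      have : 0 ≤ 1 - r := by linarith
      positivity
    calc K5 * (yh * R2) ≤ K5 * (yh * (A2 + B2 * (1 - r))) := mul_le_mul_of_nonneg_left t1 hK5
      _ ≤ _ := mul_le_mul_of_nonneg_right (by linarith) t2
  have s5' : yh * (A2 + B2 * (1 - r)) ≤ yh * (A2 + B2) := by
    apply mul_le_mul_of_nonneg_left _ hyh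
    have t1 := mul_le_of_le_one_right hB2 (by linarith : 1 - r ≤ 1)
    linarith
  have s6 : K6 * δ ≤ (k6 + 1) * e := by
    have : K6 * δ ≤ (k6 + 1) * δ := mul_le_mul_of_nonneg_right (by linarith) hδ0
    have : (k6 + 1) * δ ≤ (k6 + 1) * e := mul_le_mul_of_nonneg_left hδ (by linarith)
    linarith
  have a3 := abs_le.mp (le_refl |k3|)
  have a4 := abs_le.mp (le_refl |k4|)
  have a1 := abs_le.mp (le_refl |k1|)
  -- replace `b` by `1 - r`
  have s7 : k3 * ((1 - r) * qx) - e * |k3| ≤ k3 * (b * qx) := by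
    have : k3 * (b * qx) = k3 * ((1 - r) * qx) - k3 * (p * qx) := by rw [hb]; ring
    rw [this]
    have t1 : k3 * (p * qx) ≤ |k3| * (p * qx) :=
      mul_le_mul_of_nonneg_right a3.2 (mul_nonneg hp0 hqx0)
    have t2 : p * qx ≤ e := (mul_le_of_le_one_right hp0 hqx1).trans hp
    have t3 : |k3| * (p * qx) ≤ |k3| * e := mul_le_mul_of_nonneg_left t2 (abs_nonneg _)
    linarith
  have s8 : k4 * ((1 - r) * (1 - qx)) - e * |k4| ≤ k4 * (b * (1 - qx)) := by
    have : k4 * (b * (1 - qx)) = k4 * ((1 - r) * (1 - qx)) - k4 * (p * (1 - qx)) := by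
      rw [hb]; ring
    rw [this]
    have t1 : k4 * (p * (1 - qx)) ≤ |k4| * (p * (1 - qx)) :=
      mul_le_mul_of_nonneg_right a4.2 (mul_nonneg hp0 (by linarith))
    have t2 : p * (1 - qx) ≤ e := (mul_le_of_le_one_right hp0 (by linarith)).trans hp
    have t3 : |k4| * (p * (1 - qx)) ≤ |k4| * e := mul_le_mul_of_nonneg_left t2 (abs_nonneg _)
    linarith
  -- replace `qx` by `q`
  set co := k1 * r + k3 * (1 - r) - k4 * (1 - r) with hco
  have hco1 : co ≤ |k1| + |k3| + |k4| := by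
    have t1 : k1 * r ≤ |k1| * 1 := by
      calc k1 * r ≤ |k1| * r := mul_le_mul_of_nonneg_right a1.2 hr0
        _ ≤ _ := mul_le_mul_of_nonneg_left hr1 (abs_nonneg _)
    have hr' : 0 ≤ 1 - r := by linarith
    have t2 : k3 * (1 - r) ≤ |k3| * 1 := by
      calc k3 * (1 - r) ≤ |k3| * (1 - r) := mul_le_mul_of_nonneg_right a3.2 hr'
        _ ≤ _ := mul_le_mul_of_nonneg_left (by linarith) (abs_nonneg _)
    have t3 : -(k4 * (1 - r)) ≤ |k4| * 1 := by
      calc -(k4 * (1 - r)) = (-k4) * (1 - r) := by ring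
        _ ≤ |k4| * (1 - r) := mul_le_mul_of_nonneg_right (neg_le_abs k4) hr'
        _ ≤ _ := mul_le_mul_of_nonneg_left (by linarith) (abs_nonneg _)
    rw [hco]; linarith
  have s9 : co * q - e * (|k1| + |k3| + |k4|) ≤ co * qx := by
    have t1 : co * (q - e) ≤ co * qx := mul_le_mul_of_nonneg_left hqx hcoef
    have t2 : co * e ≤ (|k1| + |k3| + |k4|) * e := mul_le_mul_of_nonneg_right hco1 he0
    linarith
  have s10 : e * (r * qx) ≤ e := mul_le_of_le_one_right he0 s1'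
  have s11 : e * (b * qx) + e * (b * (1 - qx)) ≤ e := by
    have t1 := mul_le_of_le_one_right he0 hb1
    linarith
  have s12 : e * (xh * (A1 + B1 * r)) ≤ e * (xh * (A1 + B1)) :=
    mul_le_mul_of_nonneg_left s2' he0
  have s13 : e * (yh * (A2 + B2 * (1 - r))) ≤ e * (yh * (A2 + B2)) :=
    mul_le_mul_of_nonneg_left s5' he0
  have e1 : co * qx = k1 * (r * qx) + k3 * ((1 - r) * qx) - k4 * ((1 - r) * qx) := by
    rw [hco]; ring
  have e2 : co * q = k1 * r * q + k3 * (1 - r) * q - k4 * (1 - r) * q := by rw [hco]; ring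
  have e3 : k4 * ((1 - r) * (1 - qx)) = k4 * (1 - r) - k4 * ((1 - r) * qx) := by ring
  have e4 : k4 * (1 - r) * (1 - q) = k4 * (1 - r) - k4 * (1 - r) * q := by ring
  have f1 : K1 * r * qx = K1 * (r * qx) := by ring
  have f3 : K3 * b * qx = K3 * (b * qx) := by ring
  have f4 : K4 * b * (1 - qx) = K4 * (b * (1 - qx)) := by ring
  rw [f1, f3, f4] at hg
  have f5 : (k2 + e) * (xh * (A1 + B1 * r)) = k2 * xh * (A1 + B1 * r)
    + e * (xh * (A1 + B1 * r)) := by ring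
  have f6 : (k5 + e) * (yh * (A2 + B2 * (1 - r))) = k5 * yh * (A2 + B2 * (1 - r))
    + e * (yh * (A2 + B2 * (1 - r))) := by ring
  have f7 : (k1 - e) * (r * qx) = k1 * (r * qx) - e * (r * qx) := by ring
  have f8 : (k3 - e) * (b * qx) = k3 * (b * qx) - e * (b * qx) := by ring
  have f9 : (k4 - e) * (b * (1 - qx)) = k4 * (b * (1 - qx)) - e * (b * (1 - qx)) := by ring
  rw [f5] at s2; rw [f6] at s5; rw [f7] at s1; rw [f8] at s3; rw [f9] at s4
  rw [e4]
  have f10 : e * (4 + xh * (A1 + B1) + yh * (A2 + B2) + 2 * |k3| + 2 * |k4| + |k1| + k6)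
    = 4 * e + e * (xh * (A1 + B1)) + e * (yh * (A2 + B2)) + 2 * (e * |k3|) + 2 * (e * |k4|)
      + e * |k1| + e * k6 := by ring
  rw [f10]
  have f11 : e * (|k1| + |k3| + |k4|) = e * |k1| + e * |k3| + e * |k4| := by ring
  rw [f11] at s9
  have f12 : (k6 + 1) * e = e * k6 + e := by ring
  rw [f12] at s6
  linarith

/-- breakpoints: every `r ∈ [t 0, t J]` lies in one of the intervals -/
lemma exists_piece (t : ℕ → ℝ) (r : ℝ) : ∀ J : ℕ, t 0 ≤ r → r ≤ t J → 0 < J →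
    ∃ j < J, t j ≤ r ∧ r ≤ t (j + 1) := by
  intro J
  induction J with
  | zero => intro _ _ h; omega
  | succ J ih =>
    intro h0 h1 _
    by_cases h : 0 < J ∧ r ≤ t J
    · obtain ⟨j, hj, h2⟩ := ih h0 h.2 h.1
      exact ⟨j, by omega, h2⟩
    · refine ⟨J, by omega, ?_, h1⟩
      rcases Nat.eq_zero_or_pos J with h2 | h2
      · rw [h2]; exact h0
      · by_contra h3
        push Not at h3
        exact h ⟨h2, h3.le⟩

lemma mono_pieces {t : ℕ → ℝ} {J : ℕ} (ht : ∀ j < J, t j ≤ t (j + 1)) :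
    ∀ i j, i ≤ j → j ≤ J → t i ≤ t j := by
  intro i j hij
  induction j, hij using Nat.le_induction with
  | base => intro _; exact le_rfl
  | succ j hij ih => intro hj; exact (ih (by omega)).trans (ht j (by omega))

/-- box functions -/
noncomputable def phij (t : ℕ → ℝ) (j : ℕ) (r : ℝ) : ℝ := min r (t (j + 1)) - min r (t j)

lemma phij_nonneg {t : ℕ → ℝ} {J : ℕ} (ht : ∀ j < J, t j ≤ t (j + 1)) {j : ℕ} (hj : j < J)
    (r : ℝ) : 0 ≤ phij t j r := by
  unfold phij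
  have := min_le_min_left r (ht j hj)
  linarith

lemma phij_le {t : ℕ → ℝ} {J : ℕ} (ht : ∀ j < J, t j ≤ t (j + 1)) {j : ℕ} (hj : j < J)
    (r : ℝ) : phij t j r ≤ t (j + 1) - t j := by
  unfold phij
  rcases le_total r (t j) with h | h
  · rw [min_eq_left h, min_eq_left (h.trans (ht j hj))]
    have := ht j hj
    linarith
  · rw [min_eq_right h]
    have := min_le_right r (t (j + 1))
    linarith

lemma phij_sum (t : ℕ → ℝ) (J : ℕ) (r : ℝ) :
    ∑ j ∈ range J, phij t j r = min r (t J) - min r (t 0) := by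
  unfold phij
  exact Finset.sum_range_sub (fun j => min r (t j)) J

lemma phij_weighted {t m : ℕ → ℝ} {J : ℕ} (ht : ∀ j < J, t j ≤ t (j + 1)) {j : ℕ} (hj : j < J)
    {r : ℝ} (h1 : t j ≤ r) (h2 : r ≤ t (j + 1)) :
    ∑ i ∈ range J, m i * phij t i r
      = ∑ i ∈ range j, m i * (t (i + 1) - t i) + m j * (r - t j) := by
  obtain ⟨d, rfl⟩ : ∃ d, J = (j + 1) + d := ⟨J - (j + 1), by omega⟩
  rw [Finset.sum_range_add, Finset.sum_range_succ]
  have e1 : ∑ i ∈ range j, m i * phij t i r = ∑ i ∈ range j, m i * (t (i + 1) - t i) := by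
    apply Finset.sum_congr rfl
    intro i hi
    rw [Finset.mem_range] at hi
    have a1 : t (i + 1) ≤ t j := mono_pieces ht (i + 1) j (by omega) (by omega)
    have a2 : t i ≤ t j := mono_pieces ht i j (by omega) (by omega)
    unfold phij
    rw [min_eq_right (a1.trans h1), min_eq_right (a2.trans h1)]
  have e2 : m j * phij t j r = m j * (r - t j) := by
    unfold phij
    rw [min_eq_left h2, min_eq_right h1]
  have e3 : ∑ i ∈ range d, m (j + 1 + i) * phij t (j + 1 + i) r = 0 := by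
    apply Finset.sum_eq_zero
    intro i hi
    rw [Finset.mem_range] at hi
    have a1 : t (j + 1) ≤ t (j + 1 + i) := mono_pieces ht _ _ (by omega) (by omega)
    have a2 : t (j + 1) ≤ t (j + 1 + i + 1) := mono_pieces ht _ _ (by omega) (by omega)
    unfold phij
    rw [min_eq_left (h2.trans a1), min_eq_left (h2.trans a2)]
    ring
  rw [e1, e2, e3, add_zero]

/-- an affine function is above another one on an interval if so at the end points -/
lemma affine_ge {α β γ δ s t r : ℝ} (h1 : s ≤ r) (h2 : r ≤ t)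
    (hs : γ + δ * s ≤ α + β * s) (ht : γ + δ * t ≤ α + β * t) : γ + δ * r ≤ α + β * r := by
  rcases le_total δ β with h | h
  · have h3 := mul_le_mul_of_nonneg_left h1 (sub_nonneg.mpr h)
    linarith
  · have h3 := mul_le_mul_of_nonneg_left h2 (sub_nonneg.mpr h)
    linarith

section
variable {V : Type*} [DecidableEq V] {G : SimpleGraph V} [DecidableRel G.Adj]

lemma exB_le_one {q : ℝ} (hq0 : 0 ≤ q) (X : Finset V) (y : V) : ex G q X y ≤ 1 := by
  unfold ex sE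
  rcases X.eq_empty_or_nonempty with rfl | hX
  · simp
  have hn : (0:ℝ) < X.card := by exact_mod_cast hX.card_pos
  rw [div_le_one hn]
  calc ∑ x ∈ X, (ind G x y - q) ≤ ∑ _x ∈ X, (1:ℝ) := by
        apply Finset.sum_le_sum
        intro x _
        have := ind_le_one (G := G) x y
        linarith
    _ = X.card := by simp

lemma Phi_anti {q : ℝ} (hq0 : 0 ≤ q) {W : ℕ} (X Z : Finset V) :
    Phi G q (W + 1) X Z ≤ Phi G q W X Z := by
  unfold Phi
  apply Finset.sum_le_sum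
  intro y hy
  have he := ex_pos_of_mem hy
  have := exB_le_one (G := G) hq0 X y
  rw [pow_succ]
  have := pow_nonneg he.le W
  exact mul_le_of_le_one_right (pow_nonneg he.le W) (exB_le_one (G := G) hq0 X y)

/-- `g_lower` divided by `t3 ^ (W - 1)` -/
lemma g_lower_div {a q xh yh : ℝ} (hq0 : 0 ≤ q)
    (hxh : 0 ≤ xh) (hyh : 0 ≤ yh) {W : ℕ} (hW : 1 ≤ W)
    {X Z : Finset V} (hΦ : 0 < Phi G q W X Z) {x : V} (hx : x ∈ X)
    (hred : pot G a q W (rN G x X) (rN G x Z) ≤ xh * pot G a q W X Z)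
    (hblue : pot G a q W (bN G x X) Z ≤ yh * pot G a q W X Z)
    {t1 t2 t3 : ℝ} (ht1 : 0 < t1) (ht2 : 0 < t2) (ht3 : 0 < t3)
    (hc : t3 ^ (W - 1) ≤ t2 ^ (W - 1)) :
    ((t2 ^ (W - 1) / t3 ^ (W - 1) - 1) * (t1 + W * (1 - t1))) * (((rN G x X).card : ℝ) / X.card)
        * (∑ y ∈ Zp G q X Z, rho G q W X Z y * ind G x y)
      - ((t2 ^ (W - 1) / t3 ^ (W - 1) - 1) * (t1 ^ (W - 1))⁻¹) *
        (xh * (((rN G x X).card : ℝ) / X.card) ^ (1 - a))
      + (t2 ^ (W - 1) / t3 ^ (W - 1) * (t2 + W * (1 - t2))) * (((bN G x X).card : ℝ) / X.card)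
        * (∑ y ∈ Zp G q X Z, rho G q W X Z y * ind G x y)
      + (t3 + W * (1 - t3)) * (((bN G x X).card : ℝ) / X.card)
        * (1 - ∑ y ∈ Zp G q X Z, rho G q W X Z y * ind G x y)
      - (t3 ^ (W - 1))⁻¹ * (yh * (((bN G x X).card : ℝ) / X.card) ^ (1 - a))
      - (t2 ^ (W - 1) / t3 ^ (W - 1) + 1) * (W / X.card *
          (Phi G q (W - 1) X Z / Phi G q W X Z))
      ≤ gx G q W X Z x := by
  have h := g_lower hq0 hxh hyh hW hΦ hx hred hblue ht1 ht2 ht3 hc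
  have hc3 : 0 < t3 ^ (W - 1) := pow_pos ht3 _
  refine le_of_mul_le_mul_left (le_trans (le_of_eq ?_) h) hc3
  field_simp

end

lemma abs_sub_le_iff' {x y e : ℝ} (h : |x - y| ≤ e) : x ≤ y + e := by
  have := (abs_le.mp h).2; linarith

theorem oneStep : OneStep := by
  intro a q L M ha0 ha1 hq0 hq1 hcert
  obtain ⟨J, D0, t, τ1, τ2, τ3, ν, A1, B1, A2, B2, ht0, htJ, htm, hτ, hAB, hp1, hp2, hcA0, hcA1,
    hD0, hD1, hfin⟩ := hcert
  set xh := Real.exp (-L) with hxh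
  set yh := Real.exp (-M) with hyh
  have hxh0 : 0 ≤ xh := (Real.exp_pos _).le
  have hyh0 : 0 ≤ yh := (Real.exp_pos _).le
  -- limit coefficients
  set k1 : ℕ → ℝ := fun j => (Real.exp (τ2 j + τ3 j) - 1) * (1 + τ1 j) with hk1
  set k3 : ℕ → ℝ := fun j => Real.exp (τ2 j + τ3 j) * (1 - τ2 j) with hk3
  set k4 : ℕ → ℝ := fun j => 1 + τ3 j with hk4
  set k6 : ℕ → ℝ := fun j => Real.exp (τ2 j + τ3 j) + 1 with hk6
  set Ct : ℕ → ℝ := fun j => 4 + xh * (A1 j + B1 j) + yh * (A2 j + B2 j) + 2 * |k3 j| + 2 * |k4 j|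
    + |k1 j| + k6 j with hCt
  have hk6pos : ∀ j, 0 ≤ k6 j := fun j => by
    have := Real.exp_pos (τ2 j + τ3 j)
    simp only [hk6]; linarith
  have hCt0 : ∀ j ∈ range J, 0 ≤ Ct j := by
    intro j hj
    rw [Finset.mem_range] at hj
    obtain ⟨a1, a2, a3, a4⟩ := hAB j hj
    have := hk6pos j
    simp only [hCt]; positivity
  set Cst := ∑ j ∈ range J, Ct j with hCst
  have hCst0 : 0 ≤ Cst := Finset.sum_nonneg hCt0
  have hCle : ∀ j < J, Ct j ≤ Cst := by
    intro j hj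
    exact Finset.single_le_sum hCt0 (Finset.mem_range.mpr hj)
  set S := ∑ i ∈ range J, a * Real.exp (-ν i) * (t (i + 1) - t i) with hS
  set gap := D0 - S with hgap
  have hgap0 : 0 < gap := by rw [hgap]; linarith
  set e := min 1 (gap / (2 * (Cst + 3))) with he
  have he0 : 0 < e := lt_min one_pos (by positivity)
  have he1 : e ≤ 1 := min_le_left _ _
  have he2 : e * (Cst + 3) ≤ gap / 2 := by
    have : e ≤ gap / (2 * (Cst + 3)) := min_le_right _ _
    calc e * (Cst + 3) ≤ gap / (2 * (Cst + 3)) * (Cst + 3) :=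
          mul_le_mul_of_nonneg_right this (by positivity)
      _ = gap / 2 := by field_simp
  -- choose `W0`
  have hev : ∀ᶠ W : ℕ in atTop, ∀ j ∈ range J, _ ∧ _ :=
    (Filter.eventually_all_finset (range J)).mpr
      (fun j _ => (coef_close (τ1 j) (τ2 j) (τ3 j) he0).and (slope_close a (ν j) he0))
  obtain ⟨W0, hW0⟩ := Filter.eventually_atTop.mp hev
  refine ⟨max W0 1, e, e, le_max_right _ _, he0, he0, ?_⟩
  intro V _ G _ X Z W hW hX hΦ hmax hconc hδ hred hblue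
  have hWW0 : W0 ≤ W := (le_max_left _ _).trans hW
  have hW1 : 1 ≤ W := (le_max_right _ _).trans hW
  have hn : (0:ℝ) < X.card := by exact_mod_cast hX.card_pos
  have hWr : (1:ℝ) ≤ W := by exact_mod_cast hW1
  set n : ℝ := (X.card : ℝ) with hnn
  set δ := (W : ℝ) / n * (Phi G q (W - 1) X Z / Phi G q W X Z) with hδd
  have hratio : 1 ≤ Phi G q (W - 1) X Z / Phi G q W X Z := by
    rw [one_le_div hΦ]
    obtain ⟨m, hm⟩ : ∃ m, W = m + 1 := ⟨W - 1, by omega⟩
    rw [hm, Nat.add_sub_cancel]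
    exact Phi_anti hq0.le X Z
  have hp : 1 / n ≤ e := by
    refine le_trans ?_ hδ
    rw [hδd]
    have h1 : 1 / n ≤ (W:ℝ) / n := div_le_div_of_nonneg_right hWr hn.le
    calc 1 / n ≤ (W:ℝ) / n := h1
      _ = (W:ℝ) / n * 1 := (mul_one _).symm
      _ ≤ _ := mul_le_mul_of_nonneg_left hratio (by positivity)
  have hδ0 : 0 ≤ δ := by rw [hδd]; positivity
  -- data for `x`
  set r : V → ℝ := fun x => ((rN G x X).card : ℝ) / n with hr
  set f : V → ℝ := fun x => (W:ℝ) * (kap G q W X Z x - 1) with hf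
  set m : ℕ → ℝ := fun i => a * (ν i - 1) with hm
  have hr0 : ∀ x, 0 ≤ r x := fun x => by simp only [hr]; positivity
  have hr1 : ∀ x ∈ X, r x ≤ 1 := by
    intro x _
    simp only [hr]
    rw [div_le_one hn]
    rw [hnn]
    exact_mod_cast Finset.card_le_card (rN_subset (G := G) x X)
  have hJ : 0 < J := by
    rcases Nat.eq_zero_or_pos J with h | h
    · rw [h, ht0] at htJ; norm_num at htJ
    · exact h
  -- pointwise lower bound
  have hpt : ∀ x ∈ X, D0 + ∑ i ∈ range J, m i * phij t i (r x) - e * Cst ≤ gx G q W X Z x := by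
    intro x hx
    obtain ⟨j, hj, hj1, hj2⟩ := exists_piece t (r x) J (by rw [ht0]; exact hr0 x)
      (by rw [htJ]; exact hr1 x hx) hJ
    rw [phij_weighted htm hj hj1 hj2]
    obtain ⟨⟨c1, c2, c3, c4, c5, c6, c7, c8, c9⟩, _⟩ := hW0 W hWW0 j (Finset.mem_range.mpr hj)
    have hc32 : (1 + -τ3 j / (W:ℝ)) ^ (W - 1) ≤ (1 + τ2 j / (W:ℝ)) ^ (W - 1) := by
      apply pow_le_pow_left₀ c3.le
      have : -τ3 j / (W:ℝ) ≤ τ2 j / (W:ℝ) := by
        apply div_le_div_of_nonneg_right _ (by linarith)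
        have := hτ j hj
        linarith
      linarith
    have hg := g_lower_div hq0.le hxh0 hyh0 hW1 hΦ hx (hred x hx) (hblue x hx) c1 c2 c3 hc32
    rw [← hnn, ← hδd] at hg
    have hqx0 : 0 ≤ ∑ y ∈ Zp G q X Z, rho G q W X Z y * ind G x y :=
      Finset.sum_nonneg (fun y hy => mul_nonneg (rho_nonneg hy) (ind_nonneg x y))
    have hqx1 : ∑ y ∈ Zp G q X Z, rho G q W X Z y * ind G x y ≤ 1 := by
      rw [← rho_sum hΦ]
      apply Finset.sum_le_sum
      intro y hy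
      have := rho_nonneg (G := G) (W := W) hy
      have := ind_le_one (G := G) x y
      exact mul_le_of_le_one_right (rho_nonneg (G := G) (W := W) hy) (ind_le_one (G := G) x y)
    have hqx := qx_ge ha0 ha1 hq0.le hq1.le hW1 hΦ hmax he0 hconc hx
    have hrb : ((bN G x X).card : ℝ) / n = 1 - ((rN G x X).card : ℝ) / n - 1 / n := by
      have := card_split (G := G) hx
      rw [← hnn] at this
      field_simp
      linarith
    have hb0 : 0 ≤ ((bN G x X).card : ℝ) / n := by positivity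
    have hb1 : ((bN G x X).card : ℝ) / n ≤ 1 := by
      rw [div_le_one hn]
      rw [hnn]
      exact_mod_cast Finset.card_le_card (bN_subset (G := G) x X)
    obtain ⟨a1, a2, a3, a4⟩ := hAB j hj
    have hK2 : 0 ≤ ((1 + τ2 j / (W:ℝ)) ^ (W - 1) / (1 + -τ3 j / (W:ℝ)) ^ (W - 1) - 1) *
        ((1 + -τ1 j / (W:ℝ)) ^ (W - 1))⁻¹ := by
      apply mul_nonneg
      · rw [sub_nonneg, one_le_div (pow_pos c3 _)]; exact hc32
      · exact inv_nonneg.mpr (pow_pos c1 _).le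
    have hcoef : 0 ≤ k1 j * r x + k3 j * (1 - r x) - k4 j * (1 - r x) := by
      have h0 := hcA0 j hj
      have h1 := hcA1 j hj
      unfold cA at h0 h1
      have := affine_ge (α := k3 j - k4 j) (β := k1 j - k3 j + k4 j) (γ := 0) (δ := 0)
        hj1 hj2 (by simp only [hk1, hk3, hk4]; linarith) (by simp only [hk1, hk3, hk4]; linarith)
      linarith
    have hmain := piece_real c4 c5 c6 c7 c8 c9 hK2 (inv_nonneg.mpr (pow_pos c3 _).le) (hk6pos j)
      hxh0 hyh0 a1 a2 a3 a4 (hr0 x) (hr1 x hx) hb0 hrb (by positivity) hp hδ0 hδ he1 hqx0 hqx1 hqx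
      (hp1 j hj _ (hr0 x) (hr1 x hx)) (hp2 j hj _ hb0 hb1) hcoef hg
    -- affine comparison
    have hx0 := hD0 j hj
    have hx1 := hD1 j hj
    rw [Finset.sum_range_succ] at hx1
    unfold cD at hx0 hx1
    have ex1 : Real.exp (τ1 j - L) = Real.exp (τ1 j) * xh := by
      rw [hxh, ← Real.exp_add]; rfl
    have ex3 : Real.exp (τ3 j - M) = Real.exp (τ3 j) * yh := by
      rw [hyh, ← Real.exp_add]; rfl
    rw [ex1, ex3] at hx0 hx1
    have haff := affine_ge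
      (α := - (Real.exp (τ2 j + τ3 j) - 1) * (Real.exp (τ1 j) * xh) * A1 j
        + Real.exp (τ2 j + τ3 j) * (1 - τ2 j) * q + (1 + τ3 j) * (1 - q)
        - Real.exp (τ3 j) * yh * (A2 j + B2 j))
      (β := (Real.exp (τ2 j + τ3 j) - 1) * (1 + τ1 j) * q
        - (Real.exp (τ2 j + τ3 j) - 1) * (Real.exp (τ1 j) * xh) * B1 j
        - Real.exp (τ2 j + τ3 j) * (1 - τ2 j) * q - (1 + τ3 j) * (1 - q)
        + Real.exp (τ3 j) * yh * B2 j)
      (γ := D0 + ∑ i ∈ range j, a * (ν i - 1) * (t (i + 1) - t i) - m j * t j)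
      (δ := m j) hj1 hj2
      (by simp only [hm]; linarith) (by simp only [hm]; linarith)
    have hCj := hCle j hj
    have hCe : e * Ct j ≤ e * Cst := mul_le_mul_of_nonneg_left hCj he0.le
    simp only [hCt] at hCe
    have hmj : ∑ i ∈ range j, m i * (t (i + 1) - t i)
        = ∑ i ∈ range j, a * (ν i - 1) * (t (i + 1) - t i) := rfl
    rw [hmj]
    have hmain' := hmain
    simp only [hk1, hk3, hk4, hk6] at hmain' hCe
    linarith
  -- sum over `x`
  have hsum := Finset.sum_le_sum hpt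
  rw [gx_sum hΦ] at hsum
  have hL : ∑ x ∈ X, (D0 + ∑ i ∈ range J, m i * phij t i (r x) - e * Cst)
      = n * D0 + ∑ i ∈ range J, m i * ∑ x ∈ X, phij t i (r x) - n * (e * Cst) := by
    rw [Finset.sum_sub_distrib, Finset.sum_add_distrib, Finset.sum_const, Finset.sum_const,
      nsmul_eq_mul, nsmul_eq_mul, Finset.sum_comm]
    congr 2
    apply Finset.sum_congr rfl
    intro i _
    rw [Finset.mul_sum]
  rw [hL] at hsum
  have hR : ∑ x ∈ X, ((rN G x X).card : ℝ) / (X.card : ℝ) * (W * (kap G q W X Z x - 1))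
      = ∑ i ∈ range J, ∑ x ∈ X, phij t i (r x) * f x := by
    rw [Finset.sum_comm]
    apply Finset.sum_congr rfl
    intro x hx
    rw [← Finset.sum_mul, phij_sum, htJ, ht0, min_eq_left (hr1 x hx), min_eq_right (hr0 x),
      sub_zero]
  rw [hR] at hsum
  have hbox : ∀ i ∈ range J, ∑ x ∈ X, phij t i (r x) * f x
      ≤ m i * ∑ x ∈ X, phij t i (r x) + (a * Real.exp (-ν i) + 2 * e) * n * (t (i + 1) - t i) := by
    intro i hi
    have hi' := Finset.mem_range.mp hi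
    obtain ⟨_, c1, c2, c3⟩ := hW0 W hWW0 i hi
    apply box_bound (by have := htm i hi'; linarith) _ (fun x _ => phij_nonneg htm hi' _)
      (fun x _ => phij_le htm hi' _)
    intro X' hX'
    have h1 := subset_bound ha0 ha1 hW1 hΦ hmax hX' c1 (Real.exp_pos (-ν i))
    have hcard : (X'.card : ℝ) ≤ n := by
      rw [hnn]; exact_mod_cast Finset.card_le_card hX'
    have hcard0 : (0:ℝ) ≤ X'.card := by positivity
    refine h1.trans ?_
    have h2 := mul_le_mul_of_nonneg_right (abs_sub_le_iff' c2) hcard0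
    have h3 := mul_le_mul_of_nonneg_right (abs_sub_le_iff' c3) hn.le
    have h4 : e * (X'.card : ℝ) ≤ e * n := mul_le_mul_of_nonneg_left hcard he0.le
    simp only [hm]
    rw [← hnn]
    linarith
  have hsum2 := hsum.trans (Finset.sum_le_sum hbox)
  rw [Finset.sum_add_distrib] at hsum2
  have hfin2 : ∑ i ∈ range J, (a * Real.exp (-ν i) + 2 * e) * n * (t (i + 1) - t i)
      = n * S + 2 * e * n := by
    have h1 : ∀ i ∈ range J, (a * Real.exp (-ν i) + 2 * e) * n * (t (i + 1) - t i)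
        = n * (a * Real.exp (-ν i) * (t (i + 1) - t i)) + 2 * e * n * (t (i + 1) - t i) := by
      intro i _; ring
    rw [Finset.sum_congr rfl h1, Finset.sum_add_distrib, ← Finset.mul_sum, ← Finset.mul_sum,
      Finset.sum_range_sub, htJ, ht0, hS]
    ring
  rw [hfin2] at hsum2
  have h5 : n * (D0 - S) ≤ n * (e * (Cst + 2)) := by linarith
  have h6 : D0 - S ≤ e * (Cst + 2) := le_of_mul_le_mul_left h5 hn
  have h7 : e * (Cst + 2) ≤ e * (Cst + 3) := mul_le_mul_of_nonneg_left (by linarith) he0.le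
  rw [← hgap] at h6
  linarith

end Pool.Agent.H92
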