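import Pool.Agent.H92.RamseyJ
import Pool.Agent.H92.RamseyB

/-!
The entropic one-step theorem `OneStepW`.
-/

set_option linter.unusedSectionVars false

open Finset Filter Topology

namespace Pool.Agent.H92

/-! ### uniform limits -/

lemma tendsto_pow_unif {ι : Type*} {l : Filter ι} {Wf : ι → ℕ} {s : ι → ℝ} {S : ℝ}
    (hW : Tendsto Wf l atTop) (hs : ∀ᶠ i in l, |s i| ≤ S) :
    Tendsto (fun i => Real.exp (-s i) * (1 + s i / (Wf i : ℝ)) ^ (Wf i - 1)) l (𝓝 1) := by
  rcases l.eq_or_neBot with hl | hl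
  · subst hl; exact tendsto_bot
  have hS : 0 ≤ S := by
    obtain ⟨i, hi⟩ := hs.exists
    exact (abs_nonneg _).trans hi
  have hWr : Tendsto (fun i => (Wf i : ℝ)) l atTop := tendsto_natCast_atTop_atTop.comp hW
  have hlow : Tendsto (fun i => Real.exp (-(S * (1 + S)) / ((Wf i : ℝ) - S))) l (𝓝 1) := by
    have h1 : Tendsto (fun i => (Wf i : ℝ) - S) l atTop :=
      tendsto_atTop_add_const_right l (-S) hWr
    have h2 := h1.const_div_atTop (-(S * (1 + S)))
    have h3 := (Real.continuous_exp.tendsto 0).comp h2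
    simpa [Function.comp_def] using h3
  have hupp : Tendsto (fun i => Real.exp (S / (Wf i : ℝ))) l (𝓝 1) := by
    have h2 := hWr.const_div_atTop S
    have h3 := (Real.continuous_exp.tendsto 0).comp h2
    simpa [Function.comp_def] using h3
  have hbig : ∀ᶠ i in l, 2 * S + 2 ≤ (Wf i : ℝ) := hWr.eventually_ge_atTop _
  refine tendsto_of_tendsto_of_tendsto_of_le_of_le' hlow hupp ?_ ?_
  · filter_upwards [hs, hbig] with i h1 h2
    have hWp : (0:ℝ) < Wf i := by linarith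
    rw [abs_le] at h1
    have hW1 : 1 ≤ Wf i := by
      have : (1:ℝ) ≤ Wf i := by linarith
      exact_mod_cast this
    have hpos : 0 < 1 + s i / (Wf i : ℝ) := by
      have : -(1/2) ≤ s i / (Wf i : ℝ) := by
        rw [le_div_iff₀ hWp]; linarith
      linarith
    have hWs : 0 < (Wf i : ℝ) + s i := by linarith
    have h3 : 1 - (1 + s i / (Wf i : ℝ))⁻¹ ≤ Real.log (1 + s i / (Wf i : ℝ)) :=
      Real.one_sub_inv_le_log_of_pos hpos
    have h4 : 1 - (1 + s i / (Wf i : ℝ))⁻¹ = s i / ((Wf i : ℝ) + s i) := by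
      field_simp
      ring
    rw [h4] at h3
    have h5 : Real.exp (((Wf i - 1 : ℕ) : ℝ) * (s i / ((Wf i : ℝ) + s i)))
        ≤ (1 + s i / (Wf i : ℝ)) ^ (Wf i - 1) := by
      rw [← Real.exp_log hpos, ← Real.exp_nat_mul]
      apply Real.exp_le_exp.mpr
      exact mul_le_mul_of_nonneg_left h3 (by positivity)
    have h6 := mul_le_mul_of_nonneg_left h5 (Real.exp_pos (-s i)).le
    rw [← Real.exp_add] at h6
    refine le_trans (Real.exp_le_exp.mpr ?_) h6
    have hc : ((Wf i - 1 : ℕ) : ℝ) = (Wf i : ℝ) - 1 := by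
      rw [Nat.cast_sub hW1, Nat.cast_one]
    rw [hc]
    have h7 : -s i + ((Wf i : ℝ) - 1) * (s i / ((Wf i : ℝ) + s i))
        = -(s i * (1 + s i)) / ((Wf i : ℝ) + s i) := by
      field_simp
      ring
    rw [h7, div_le_div_iff₀ (by linarith) hWs]
    have h8 : s i * (1 + s i) ≤ S * (1 + S) := by
      have h8a := sq_le_sq' h1.1 h1.2
      linarith [h1.2]
    have h9 : 0 ≤ S * (1 + S) := by positivity
    have e1 := mul_le_mul_of_nonneg_right h8 (by linarith : 0 ≤ (Wf i : ℝ) - S)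
    have e2 := mul_le_mul_of_nonneg_left
      (by linarith : (Wf i : ℝ) - S ≤ (Wf i : ℝ) + s i) h9
    linarith
  · filter_upwards [hs, hbig] with i h1 h2
    have hWp : (0:ℝ) < Wf i := by linarith
    rw [abs_le] at h1
    have hW1 : 1 ≤ Wf i := by
      have : (1:ℝ) ≤ Wf i := by linarith
      exact_mod_cast this
    have hpos : 0 < 1 + s i / (Wf i : ℝ) := by
      have : -(1/2) ≤ s i / (Wf i : ℝ) := by
        rw [le_div_iff₀ hWp]; linarith
      linarith
    have h5 : (1 + s i / (Wf i : ℝ)) ^ (Wf i - 1)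
        ≤ Real.exp (((Wf i - 1 : ℕ) : ℝ) * (s i / (Wf i : ℝ))) := by
      rw [Real.exp_nat_mul]
      apply pow_le_pow_left₀ hpos.le
      have := Real.add_one_le_exp (s i / (Wf i : ℝ))
      linarith
    have h6 := mul_le_mul_of_nonneg_left h5 (Real.exp_pos (-s i)).le
    rw [← Real.exp_add] at h6
    refine h6.trans (Real.exp_le_exp.mpr ?_)
    have hc : ((Wf i - 1 : ℕ) : ℝ) = (Wf i : ℝ) - 1 := by
      rw [Nat.cast_sub hW1, Nat.cast_one]
    rw [hc]
    have h7 : -s i + ((Wf i : ℝ) - 1) * (s i / (Wf i : ℝ)) = -s i / (Wf i : ℝ) := by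
      field_simp
      ring
    rw [h7]
    exact div_le_div_of_nonneg_right (by linarith) hWp.le

/-- version with a shift: `exp c * (1 + (σ - c)/W)^(W-1) → exp σ` uniformly for bounded `c` -/
lemma tendsto_shift {ι : Type*} {l : Filter ι} {Wf : ι → ℕ} {c : ι → ℝ} {K σ : ℝ}
    (hW : Tendsto Wf l atTop) (hc : ∀ᶠ i in l, |c i| ≤ K) :
    Tendsto (fun i => Real.exp (c i) * (1 + (σ - c i) / (Wf i : ℝ)) ^ (Wf i - 1)) l
      (𝓝 (Real.exp σ)) := by
  have h1 : ∀ᶠ i in l, |σ - c i| ≤ |σ| + K := by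
    filter_upwards [hc] with i hi
    calc |σ - c i| ≤ |σ| + |c i| := abs_sub _ _
      _ ≤ _ := by linarith
  have h2 := (tendsto_pow_unif hW h1).const_mul (Real.exp σ)
  rw [mul_one] at h2
  refine h2.congr ?_
  intro i
  rw [← mul_assoc, ← Real.exp_add]
  congr 2
  ring

/-- all coefficients of the entropic one-step inequality are close to their limits, uniformly in
the shifts `cR, cB ∈ [-K, K]` -/
lemma coefW_close (a τ1 τ2 τ3 K : ℝ) {e : ℝ} (he : 0 < e) :
    ∀ᶠ W : ℕ in atTop, ∀ cR cB : ℝ, |cR| ≤ K → |cB| ≤ K →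
      0 < 1 + (-τ1 - a * cR) / (W : ℝ) ∧ 0 < 1 + (τ2 - a * cB) / (W : ℝ) ∧
      0 < 1 + (-τ3 - a * cB) / (W : ℝ) ∧
      |((Real.exp (a * cB) * (1 + (τ2 - a * cB) / (W : ℝ)) ^ (W - 1)) /
        (Real.exp (a * cB) * (1 + (-τ3 - a * cB) / (W : ℝ)) ^ (W - 1)) - 1) *
        ((1 + (-τ1 - a * cR) / (W : ℝ)) + W * (1 - (1 + (-τ1 - a * cR) / (W : ℝ))) - a * cR)
        - (Real.exp (τ2 + τ3) - 1) * (1 + τ1)| ≤ e ∧
      |((Real.exp (a * cB) * (1 + (τ2 - a * cB) / (W : ℝ)) ^ (W - 1)) /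
        (Real.exp (a * cB) * (1 + (-τ3 - a * cB) / (W : ℝ)) ^ (W - 1)) - 1) *
        (Real.exp (a * cR) * (1 + (-τ1 - a * cR) / (W : ℝ)) ^ (W - 1))⁻¹
        - (Real.exp (τ2 + τ3) - 1) * Real.exp τ1| ≤ e ∧
      |((Real.exp (a * cB) * (1 + (τ2 - a * cB) / (W : ℝ)) ^ (W - 1)) /
        (Real.exp (a * cB) * (1 + (-τ3 - a * cB) / (W : ℝ)) ^ (W - 1))) *
        ((1 + (τ2 - a * cB) / (W : ℝ)) + W * (1 - (1 + (τ2 - a * cB) / (W : ℝ))) - a * cB)
        - Real.exp (τ2 + τ3) * (1 - τ2)| ≤ e ∧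
      |((1 + (-τ3 - a * cB) / (W : ℝ)) + W * (1 - (1 + (-τ3 - a * cB) / (W : ℝ))) - a * cB)
        - (1 + τ3)| ≤ e ∧
      |(Real.exp (a * cB) * (1 + (-τ3 - a * cB) / (W : ℝ)) ^ (W - 1))⁻¹ - Real.exp τ3| ≤ e ∧
      |((Real.exp (a * cB) * (1 + (τ2 - a * cB) / (W : ℝ)) ^ (W - 1)) /
        (Real.exp (a * cB) * (1 + (-τ3 - a * cB) / (W : ℝ)) ^ (W - 1)) + 1)
        - (Real.exp (τ2 + τ3) + 1)| ≤ e := by
  set l : Filter (ℕ × (ℝ × ℝ)) := atTop ×ˢ 𝓟 (Set.Icc (-K) K ×ˢ Set.Icc (-K) K) with hl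
  have hW : Tendsto (fun p : ℕ × (ℝ × ℝ) => p.1) l atTop := tendsto_fst
  have hWr : Tendsto (fun p : ℕ × (ℝ × ℝ) => (p.1 : ℝ)) l atTop :=
    tendsto_natCast_atTop_atTop.comp hW
  have hmem : ∀ᶠ p : ℕ × (ℝ × ℝ) in l, p.2 ∈ Set.Icc (-K) K ×ˢ Set.Icc (-K) K := by
    rw [hl]
    exact (Filter.tendsto_snd (f := (atTop : Filter ℕ))
      (g := 𝓟 (Set.Icc (-K) K ×ˢ Set.Icc (-K) K))).eventually (Filter.mem_principal_self _)
  have hcR : ∀ᶠ p : ℕ × (ℝ × ℝ) in l, |a * p.2.1| ≤ |a| * K := by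
    filter_upwards [hmem] with p hp
    rw [abs_mul]
    exact mul_le_mul_of_nonneg_left (abs_le.mpr ⟨hp.1.1, hp.1.2⟩) (abs_nonneg _)
  have hcB : ∀ᶠ p : ℕ × (ℝ × ℝ) in l, |a * p.2.2| ≤ |a| * K := by
    filter_upwards [hmem] with p hp
    rw [abs_mul]
    exact mul_le_mul_of_nonneg_left (abs_le.mpr ⟨hp.2.1, hp.2.2⟩) (abs_nonneg _)
  have hE1 : Tendsto (fun p : ℕ × (ℝ × ℝ) => Real.exp (a * p.2.1) *
      (1 + (-τ1 - a * p.2.1) / (p.1 : ℝ)) ^ (p.1 - 1)) l (𝓝 (Real.exp (-τ1))) :=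
    tendsto_shift hW hcR
  have hE2 : Tendsto (fun p : ℕ × (ℝ × ℝ) => Real.exp (a * p.2.2) *
      (1 + (τ2 - a * p.2.2) / (p.1 : ℝ)) ^ (p.1 - 1)) l (𝓝 (Real.exp τ2)) :=
    tendsto_shift hW hcB
  have hE3 : Tendsto (fun p : ℕ × (ℝ × ℝ) => Real.exp (a * p.2.2) *
      (1 + (-τ3 - a * p.2.2) / (p.1 : ℝ)) ^ (p.1 - 1)) l (𝓝 (Real.exp (-τ3))) :=
    tendsto_shift hW hcB
  have hdiv : ∀ (σ : ℝ) (c : ℕ × (ℝ × ℝ) → ℝ), (∀ᶠ p in l, |c p| ≤ |a| * K) →
      Tendsto (fun p : ℕ × (ℝ × ℝ) => (σ - c p) / (p.1 : ℝ)) l (𝓝 0) := by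
    intro σ c hc
    have h1 : Tendsto (fun p : ℕ × (ℝ × ℝ) => (|σ| + |a| * K) / (p.1 : ℝ)) l (𝓝 0) :=
      hWr.const_div_atTop _
    refine squeeze_zero_norm' ?_ h1
    filter_upwards [hc, hWr.eventually_gt_atTop 0] with p hp hp0
    rw [Real.norm_eq_abs, abs_div, abs_of_pos hp0]
    apply div_le_div_of_nonneg_right _ hp0.le
    calc |σ - c p| ≤ |σ| + |c p| := abs_sub _ _
      _ ≤ _ := by linarith
  have hs : ∀ (σ : ℝ) (c : ℕ × (ℝ × ℝ) → ℝ), (∀ᶠ p in l, |c p| ≤ |a| * K) →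
      Tendsto (fun p : ℕ × (ℝ × ℝ) => (1 + (σ - c p) / (p.1 : ℝ)) +
        (p.1 : ℝ) * (1 - (1 + (σ - c p) / (p.1 : ℝ))) - c p) l (𝓝 (1 - σ)) := by
    intro σ c hc
    have h1 := (hdiv σ c hc).const_add (1 - σ)
    rw [add_zero] at h1
    refine h1.congr' ?_
    filter_upwards [hWr.eventually_gt_atTop 0] with p hp0
    field_simp
    ring
  have hs1 := hs (-τ1) (fun p => a * p.2.1) hcR
  have hs2 := hs τ2 (fun p => a * p.2.2) hcB
  have hs3 := hs (-τ3) (fun p => a * p.2.2) hcB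
  rw [sub_neg_eq_add] at hs1 hs3
  have hγ : Tendsto (fun p : ℕ × (ℝ × ℝ) => (Real.exp (a * p.2.2) *
      (1 + (τ2 - a * p.2.2) / (p.1 : ℝ)) ^ (p.1 - 1)) / (Real.exp (a * p.2.2) *
      (1 + (-τ3 - a * p.2.2) / (p.1 : ℝ)) ^ (p.1 - 1))) l (𝓝 (Real.exp (τ2 + τ3))) := by
    have h := hE2.div hE3 (Real.exp_ne_zero _)
    rw [← Real.exp_sub, sub_neg_eq_add] at h
    exact h
  have hi1 := hE1.inv₀ (Real.exp_ne_zero _)
  rw [← Real.exp_neg, neg_neg] at hi1
  have hi3 := hE3.inv₀ (Real.exp_ne_zero _)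
  rw [← Real.exp_neg, neg_neg] at hi3
  have hclose : ∀ {f : ℕ × (ℝ × ℝ) → ℝ} {x : ℝ}, Tendsto f l (𝓝 x) →
      ∀ᶠ p in l, |f p - x| ≤ e := by
    intro f x h
    have := (Metric.tendsto_nhds.mp h) e he
    filter_upwards [this] with W hW
    rw [Real.dist_eq] at hW
    exact hW.le
  have hpos : ∀ (σ : ℝ) (c : ℕ × (ℝ × ℝ) → ℝ), (∀ᶠ p in l, |c p| ≤ |a| * K) →
      ∀ᶠ p : ℕ × (ℝ × ℝ) in l, 0 < 1 + (σ - c p) / (p.1 : ℝ) := by
    intro σ c hc
    have h1 := (hdiv σ c hc).const_add 1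
    rw [add_zero] at h1
    exact h1.eventually (lt_mem_nhds one_pos)
  have hall : ∀ᶠ p : ℕ × (ℝ × ℝ) in l, _ :=
    (hpos (-τ1) (fun p => a * p.2.1) hcR).and <|
    (hpos τ2 (fun p => a * p.2.2) hcB).and <|
    (hpos (-τ3) (fun p => a * p.2.2) hcB).and <|
    (hclose ((hγ.sub_const 1).mul hs1)).and <|
    (hclose ((hγ.sub_const 1).mul hi1)).and <|
    (hclose (hγ.mul hs2)).and <|
    (hclose hs3).and <|
    (hclose hi3).and (hclose (hγ.add_const 1))
  rw [hl, Filter.eventually_prod_principal_iff] at hall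
  filter_upwards [hall] with W h cR cB h1 h2
  have := h (cR, cB) ⟨abs_le.mp h1, abs_le.mp h2⟩
  exact this

/-! ### weighted identities -/

section weighted

variable {V : Type*} [DecidableEq V] {G : SimpleGraph V} [DecidableRel G.Adj]

/-- the set of `y` with positive weighted excess -/
noncomputable def ZpW (G : SimpleGraph V) [DecidableRel G.Adj] (q : ℝ) (w : V → ℝ)
    (X Z : Finset V) : Finset V := Z.filter (fun y => 0 < exW G q w X y)

lemma ZpW_pos {q : ℝ} {w : V → ℝ} {X Z : Finset V} {y : V} (hy : y ∈ ZpW G q w X Z) :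
    0 < exW G q w X y := (mem_filter.mp hy).2

lemma PhiW_eq {q : ℝ} {W : ℕ} (hW : 1 ≤ W) (w : V → ℝ) (X Z : Finset V) :
    PhiW G q W w X Z = ∑ y ∈ ZpW G q w X Z, (exW G q w X y) ^ W := by
  unfold PhiW ZpW
  rw [Finset.sum_filter]
  apply Finset.sum_congr rfl
  intro y _
  split_ifs with h
  · rw [max_eq_left h.le]
  · rw [max_eq_right (not_lt.mp h), zero_pow (by omega)]

/-- normalised measure on `Z` -/
noncomputable def rhoW (G : SimpleGraph V) [DecidableRel G.Adj] (q : ℝ) (W : ℕ) (w : V → ℝ)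
    (X Z : Finset V) (y : V) : ℝ := (exW G q w X y) ^ W / PhiW G q W w X Z

lemma rhoW_nonneg {q : ℝ} {W : ℕ} {w : V → ℝ} {X Z : Finset V} (hΦ : 0 < PhiW G q W w X Z)
    {y : V} (hy : y ∈ ZpW G q w X Z) : 0 ≤ rhoW G q W w X Z y :=
  div_nonneg (pow_nonneg (ZpW_pos hy).le _) hΦ.le

lemma rhoW_sum {q : ℝ} {W : ℕ} (hW : 1 ≤ W) {w : V → ℝ} {X Z : Finset V}
    (hΦ : 0 < PhiW G q W w X Z) : ∑ y ∈ ZpW G q w X Z, rhoW G q W w X Z y = 1 := by
  unfold rhoW
  rw [← Finset.sum_div, ← PhiW_eq hW]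
  exact div_self hΦ.ne'

lemma PhiW_mul_rhoW {q : ℝ} {W : ℕ} {w : V → ℝ} {X Z : Finset V}
    (hΦ : 0 < PhiW G q W w X Z) (y : V) :
    PhiW G q W w X Z * rhoW G q W w X Z y = (exW G q w X y) ^ W := by
  unfold rhoW; field_simp

/-- normalised coordinate of a subset -/
noncomputable def ccW (G : SimpleGraph V) [DecidableRel G.Adj] (q : ℝ) (w : V → ℝ)
    (X S : Finset V) (y : V) : ℝ :=
  (∑ x ∈ S, w x * (ind G x y - q)) / (totW w X * exW G q w X y)

/-- `κ_x` -/
noncomputable def kapW (G : SimpleGraph V) [DecidableRel G.Adj] (q : ℝ) (W : ℕ) (w : V → ℝ)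
    (X Z : Finset V) (x : V) : ℝ :=
  (∑ y ∈ Z, (max (exW G q w X y) 0) ^ (W - 1) * (ind G x y - q)) / PhiW G q W w X Z

lemma fW_eq {q : ℝ} {W : ℕ} {w : V → ℝ} {X Z : Finset V} {x : V} :
    fW G q W w X Z x = W * (kapW G q W w X Z x - 1) := rfl

lemma kapW_eq {q : ℝ} {W : ℕ} (hW : 2 ≤ W) {w : V → ℝ} {X Z : Finset V} (x : V) :
    kapW G q W w X Z x
      = ∑ y ∈ ZpW G q w X Z, rhoW G q W w X Z y * ((ind G x y - q) / exW G q w X y) := by
  unfold kapW rhoW
  rw [Finset.sum_div, ZpW, Finset.sum_filter]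
  apply Finset.sum_congr rfl
  intro y _
  split_ifs with h
  · rw [max_eq_left h.le]
    obtain ⟨m, rfl⟩ : ∃ m, W = m + 1 := ⟨W - 1, by omega⟩
    rw [Nat.add_sub_cancel, pow_succ]
    field_simp
  · rw [max_eq_right (not_lt.mp h), zero_pow (by omega)]
    simp

/-- the sum of coordinates against `ρ` -/
lemma ccW_sum {q : ℝ} {W : ℕ} (hW : 2 ≤ W) {w : V → ℝ} {X Z S : Finset V} :
    ∑ y ∈ ZpW G q w X Z, rhoW G q W w X Z y * ccW G q w X S y
      = ∑ x ∈ S, (w x / totW w X) * kapW G q W w X Z x := by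
  simp_rw [kapW_eq hW, Finset.mul_sum]
  rw [Finset.sum_comm]
  apply Finset.sum_congr rfl
  intro y hy
  have he := ZpW_pos hy
  unfold ccW
  rw [Finset.sum_div, Finset.mul_sum]
  apply Finset.sum_congr rfl
  intro x _
  rw [mul_div_mul_comm]
  ring

lemma totW_pos {w : V → ℝ} {X : Finset V} (hX : X.Nonempty) (hw : ∀ x ∈ X, 0 < w x) :
    0 < totW w X := Finset.sum_pos hw hX

lemma totW_nonneg {w : V → ℝ} {X : Finset V} (hw : ∀ x ∈ X, 0 < w x) :
    0 ≤ totW w X := Finset.sum_nonneg (fun x hx => (hw x hx).le)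

/-- total mass one: `∑ μ_x κ_x = 1` -/
lemma kapW_sum {q : ℝ} {W : ℕ} (hW : 2 ≤ W) {w : V → ℝ} {X Z : Finset V} (hX : X.Nonempty)
    (hw : ∀ x ∈ X, 0 < w x) (hΦ : 0 < PhiW G q W w X Z) :
    ∑ x ∈ X, (w x / totW w X) * kapW G q W w X Z x = 1 := by
  rw [← ccW_sum hW, ← rhoW_sum (by omega) hΦ]
  apply Finset.sum_congr rfl
  intro y hy
  have he := ZpW_pos hy
  have hS := totW_pos hX hw
  have : ccW G q w X X y = 1 := by
    unfold ccW
    have h1 : ∑ x ∈ X, w x * (ind G x y - q) = totW w X * exW G q w X y := by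
      unfold exW; field_simp
    rw [h1]; exact div_self (by positivity)
  rw [this, mul_one]

lemma mu_sum {w : V → ℝ} {X : Finset V} (hX : X.Nonempty)
    (hw : ∀ x ∈ X, 0 < w x) : ∑ x ∈ X, w x / totW w X = 1 := by
  rw [← Finset.sum_div]
  exact div_self (totW_pos hX hw).ne'

/-- `∑_T w k` in closed form -/
lemma wk_sum {w : V → ℝ} {X S : Finset V} (hX : X.Nonempty) (hw : ∀ x ∈ X, 0 < w x)
    (hS : S ⊆ X) :
    ∑ x ∈ S, w x * kW w X x
      = ∑ x ∈ S, w x * Real.log (w x) + (entW w X - Real.log (totW w X)) * totW w S := by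
  have hX0 := totW_pos hX hw
  have : ∀ x ∈ S, w x * kW w X x
      = w x * Real.log (w x) + (entW w X - Real.log (totW w X)) * w x := by
    intro x hx
    unfold kW
    rw [Real.log_div (hw x (hS hx)).ne' hX0.ne']
    ring
  rw [Finset.sum_congr rfl this, Finset.sum_add_distrib, ← Finset.mul_sum]
  rfl

lemma muk_sum {w : V → ℝ} {X : Finset V} (hX : X.Nonempty) (hw : ∀ x ∈ X, 0 < w x) :
    ∑ x ∈ X, w x * kW w X x = 0 := by
  rw [wk_sum hX hw (Finset.Subset.refl X)]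
  have hX0 := totW_pos hX hw
  unfold entW
  field_simp
  ring

/-- entropy of a restriction -/
lemma entW_subset {w : V → ℝ} {X S : Finset V} (hX : X.Nonempty) (hw : ∀ x ∈ X, 0 < w x)
    (hS : S ⊆ X) (hne : S.Nonempty) :
    entW w S = entW w X + Real.log (totW w S / totW w X)
      + -((∑ x ∈ S, w x * kW w X x) / totW w S) := by
  have hX0 := totW_pos hX hw
  have hS0 := totW_pos hne (fun x hx => hw x (hS hx))
  rw [wk_sum hX hw hS, Real.log_div hS0.ne' hX0.ne']
  rw [show entW w S = Real.log (totW w S) - (∑ x ∈ S, w x * Real.log (w x)) / totW w S from rfl]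
  field_simp
  ring

/-- the shift `c_S` -/
noncomputable def cS (w : V → ℝ) (X S : Finset V) : ℝ := -((∑ x ∈ S, w x * kW w X x) / totW w S)

lemma cS_abs {w : V → ℝ} {X S : Finset V} (hw : ∀ x ∈ X, 0 < w x)
    (hS : S ⊆ X) {K : ℝ} (hK0 : 0 ≤ K) (hK : ∀ x ∈ X, |kW w X x| ≤ K) : |cS w X S| ≤ K := by
  unfold cS
  rw [abs_neg, abs_div]
  have h0 : 0 ≤ totW w S := totW_nonneg (fun x hx => hw x (hS hx))
  rw [abs_of_nonneg h0]
  apply div_le_of_le_mul₀ h0 hK0
  calc |∑ x ∈ S, w x * kW w X x| ≤ ∑ x ∈ S, |w x * kW w X x| := Finset.abs_sum_le_sum_abs _ _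
    _ ≤ ∑ x ∈ S, w x * K := by
        apply Finset.sum_le_sum
        intro x hx
        rw [abs_mul, abs_of_pos (hw x (hS hx))]
        exact mul_le_mul_of_nonneg_left (hK x (hS hx)) (hw x (hS hx)).le
    _ = K * totW w S := by rw [← Finset.sum_mul]; unfold totW; ring

lemma cS_mul {w : V → ℝ} {X S : Finset V} (hX : X.Nonempty) (hw : ∀ x ∈ X, 0 < w x)
    (hS : S ⊆ X) :
    (totW w S / totW w X) * cS w X S = - ∑ x ∈ S, (w x / totW w X) * kW w X x := by
  have hX0 := totW_pos hX hw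
  rcases S.eq_empty_or_nonempty with rfl | hne
  · simp [cS, totW]
  have hS0 := totW_pos hne (fun x hx => hw x (hS hx))
  unfold cS
  have : ∑ x ∈ S, (w x / totW w X) * kW w X x = (∑ x ∈ S, w x * kW w X x) / totW w X := by
    rw [Finset.sum_div]
    apply Finset.sum_congr rfl
    intro x _; ring
  rw [this]
  field_simp

/-- consequence of the child inequality, normalised -/
lemma childW {a q xh : ℝ} (hxh : 0 ≤ xh) {W : ℕ} {w : V → ℝ}
    {X Z Z' S : Finset V} (hX : X.Nonempty) (hw : ∀ x ∈ X, 0 < w x) (hS : S ⊆ X)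
    (hΦ : 0 < PhiW G q W w X Z) {i : V → ℝ}
    (hi : ∀ y ∈ ZpW G q w X Z, i y ≤ if y ∈ Z' then 1 else 0) (hZ : Z' ⊆ Z)
    (h : potW G a q W w S Z' ≤ xh * potW G a q W w X Z) :
    Real.exp (a * cS w X S) * ∑ y ∈ ZpW G q w X Z, rhoW G q W w X Z y * i y *
      ((totW w S / totW w X) * (max (ccW G q w X S y / (totW w S / totW w X)) 0) ^ W)
      ≤ xh * (totW w S / totW w X) ^ (1 - a) := by
  have hX0 := totW_pos hX hw
  rcases S.eq_empty_or_nonempty with rfl | hne
  · have : totW w (∅ : Finset V) = 0 := by simp [totW]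
    rw [this]
    simp only [zero_div, zero_mul, mul_zero, Finset.sum_const_zero]
    exact mul_nonneg hxh (Real.rpow_nonneg le_rfl _)
  have hS0 := totW_pos hne (fun x hx => hw x (hS hx))
  have hr : 0 < totW w S / totW w X := div_pos hS0 hX0
  unfold potW at h
  rw [entW_subset hX hw hS hne] at h
  have e1 : Real.exp (a * (entW w X + Real.log (totW w S / totW w X)
      + -((∑ x ∈ S, w x * kW w X x) / totW w S)))
      = Real.exp (a * entW w X) * ((totW w S / totW w X) ^ a * Real.exp (a * cS w X S)) := by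
    rw [show a * (entW w X + Real.log (totW w S / totW w X)
      + -((∑ x ∈ S, w x * kW w X x) / totW w S)) = a * entW w X +
        (Real.log (totW w S / totW w X) * a + a * cS w X S) by unfold cS; ring]
    rw [Real.exp_add, Real.exp_add, Real.rpow_def_of_pos hr]
  rw [e1] at h
  have h2 : (totW w S / totW w X) ^ a * Real.exp (a * cS w X S) * PhiW G q W w S Z'
      ≤ xh * PhiW G q W w X Z := by
    have hpos := Real.exp_pos (a * entW w X)
    refine le_of_mul_le_mul_left ?_ hpos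
    calc _ = Real.exp (a * entW w X) * ((totW w S / totW w X) ^ a * Real.exp (a * cS w X S))
          * PhiW G q W w S Z' := by ring
      _ ≤ _ := h
      _ = _ := by ring
  -- compare the moment sums
  have h3 : PhiW G q W w X Z * ∑ y ∈ ZpW G q w X Z, rhoW G q W w X Z y * i y *
      (max (ccW G q w X S y / (totW w S / totW w X)) 0) ^ W ≤ PhiW G q W w S Z' := by
    rw [Finset.mul_sum]
    have h4 : ∀ y ∈ ZpW G q w X Z, PhiW G q W w X Z * (rhoW G q W w X Z y * i y *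
        (max (ccW G q w X S y / (totW w S / totW w X)) 0) ^ W)
        ≤ (if y ∈ Z' then (1:ℝ) else 0) * (max (exW G q w S y) 0) ^ W := by
      intro y hy
      have he := ZpW_pos hy
      have h5 : max (exW G q w S y) 0
          = exW G q w X y * max (ccW G q w X S y / (totW w S / totW w X)) 0 := by
        rw [mul_max_of_nonneg _ _ he.le, mul_zero]
        congr 1
        unfold ccW
        rw [show exW G q w S y = (∑ x ∈ S, w x * (ind G x y - q)) / totW w S from rfl]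
        field_simp
      rw [h5, mul_pow, ← PhiW_mul_rhoW hΦ y]
      have h6 := hi y hy
      have h7 := rhoW_nonneg hΦ hy
      have h8 : 0 ≤ (max (ccW G q w X S y / (totW w S / totW w X)) 0) ^ W := by positivity
      calc _ = i y * (PhiW G q W w X Z * rhoW G q W w X Z y *
            (max (ccW G q w X S y / (totW w S / totW w X)) 0) ^ W) := by ring
        _ ≤ _ := mul_le_mul_of_nonneg_right h6 (by positivity)
    refine (Finset.sum_le_sum h4).trans ?_
    have h9 : ∑ y ∈ ZpW G q w X Z, (if y ∈ Z' then (1:ℝ) else 0) * (max (exW G q w S y) 0) ^ W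
        ≤ ∑ y ∈ Z, (if y ∈ Z' then (1:ℝ) else 0) * (max (exW G q w S y) 0) ^ W := by
      apply Finset.sum_le_sum_of_subset_of_nonneg (filter_subset _ _)
      intro y _ _
      split_ifs
      · rw [one_mul]; positivity
      · rw [zero_mul]
    refine h9.trans (le_of_eq ?_)
    unfold PhiW
    simp only [ite_mul, one_mul, zero_mul]
    rw [← Finset.sum_filter]
    apply Finset.sum_congr _ (fun _ _ => rfl)
    ext y; simp only [mem_filter]
    exact ⟨fun h => h.2, fun h => ⟨hZ h, h⟩⟩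
  have h10 : (totW w S / totW w X) ^ a * Real.exp (a * cS w X S) *
      ∑ y ∈ ZpW G q w X Z, rhoW G q W w X Z y * i y *
      (max (ccW G q w X S y / (totW w S / totW w X)) 0) ^ W ≤ xh := by
    have h11 : (0:ℝ) ≤ (totW w S / totW w X) ^ a * Real.exp (a * cS w X S) :=
      mul_nonneg (Real.rpow_nonneg hr.le _) (Real.exp_pos _).le
    have h12 := mul_le_mul_of_nonneg_left h3 h11
    refine le_of_mul_le_mul_left ?_ hΦ
    calc _ = (totW w S / totW w X) ^ a * Real.exp (a * cS w X S) * (PhiW G q W w X Z *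
        ∑ y ∈ ZpW G q w X Z, rhoW G q W w X Z y * i y *
        (max (ccW G q w X S y / (totW w S / totW w X)) 0) ^ W) := by ring
      _ ≤ _ := h12
      _ ≤ xh * PhiW G q W w X Z := h2
      _ = _ := by ring
  have h13 : ∑ y ∈ ZpW G q w X Z, rhoW G q W w X Z y * i y *
      ((totW w S / totW w X) * (max (ccW G q w X S y / (totW w S / totW w X)) 0) ^ W)
      = (totW w S / totW w X) * ∑ y ∈ ZpW G q w X Z, rhoW G q W w X Z y * i y *
        (max (ccW G q w X S y / (totW w S / totW w X)) 0) ^ W := by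
    rw [Finset.mul_sum]
    apply Finset.sum_congr rfl
    intro y _; ring
  rw [h13]
  have h14 : totW w S / totW w X
      = (totW w S / totW w X) ^ (1 - a) * (totW w S / totW w X) ^ a := by
    rw [← Real.rpow_add hr]; simp
  generalize ∑ y ∈ ZpW G q w X Z, rhoW G q W w X Z y * i y *
        (max (ccW G q w X S y / (totW w S / totW w X)) 0) ^ W = T at h10 ⊢
  generalize totW w S / totW w X = r at *
  calc Real.exp (a * cS w X S) * (r * T)
      = Real.exp (a * cS w X S) * ((r ^ (1 - a) * r ^ a) * T) := by rw [← h14]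
    _ = r ^ (1 - a) * (r ^ a * Real.exp (a * cS w X S) * T) := by ring
    _ ≤ r ^ (1 - a) * xh :=
        mul_le_mul_of_nonneg_left h10 (Real.rpow_nonneg hr.le _)
    _ = _ := mul_comm _ _

lemma rhoW_ex_sum {q : ℝ} {W : ℕ} {w : V → ℝ} {X Z : Finset V} :
    ∑ y ∈ ZpW G q w X Z, rhoW G q W w X Z y * exW G q w X y
      = PhiW G q (W + 1) w X Z / PhiW G q W w X Z := by
  rw [PhiW_eq (by omega : 1 ≤ W + 1), Finset.sum_div]
  apply Finset.sum_congr rfl
  intro y _
  unfold rhoW; rw [pow_succ]; ring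

lemma rhoW_inv_sum {q : ℝ} {W : ℕ} (hW : 2 ≤ W) {w : V → ℝ} {X Z : Finset V} :
    ∑ y ∈ ZpW G q w X Z, rhoW G q W w X Z y / exW G q w X y
      = PhiW G q (W - 1) w X Z / PhiW G q W w X Z := by
  rw [PhiW_eq (by omega : 1 ≤ W - 1), Finset.sum_div]
  apply Finset.sum_congr rfl
  intro y hy
  have he := ZpW_pos hy
  obtain ⟨m, rfl⟩ : ∃ m, W = m + 1 := ⟨W - 1, by omega⟩
  unfold rhoW; rw [pow_succ, Nat.add_sub_cancel]; field_simp

/-- the `ρ`-measure of the red neighbourhood is at least `q - θ` -/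
lemma qxW_ge {q : ℝ} (hq0 : 0 ≤ q) (hq1 : q ≤ 1)
    {W : ℕ} (hW : 2 ≤ W) {w : V → ℝ} {X Z : Finset V}
    (hΦ : 0 < PhiW G q W w X Z) {θ : ℝ} (hθ : 0 < θ)
    (hconc : PhiW G q (W + 1) w X Z * PhiW G q (W - 1) w X Z
      ≤ (1 + θ ^ 2) * PhiW G q W w X Z ^ 2)
    {x : V} (hk : 0 ≤ kapW G q W w X Z x) :
    q - θ ≤ ∑ y ∈ ZpW G q w X Z, rhoW G q W w X Z y * ind G x y := by
  set M := PhiW G q (W - 1) w X Z / PhiW G q W w X Z with hM
  have hMsum := rhoW_inv_sum (G := G) (q := q) (w := w) hW (X := X) (Z := Z)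
  have hEsum := rhoW_ex_sum (G := G) (q := q) (W := W) (w := w) (X := X) (Z := Z)
  have hne : (ZpW G q w X Z).Nonempty := by
    by_contra h
    rw [Finset.not_nonempty_iff_eq_empty] at h
    rw [PhiW_eq (by omega), h] at hΦ
    simp at hΦ
  have hrpos : ∀ y ∈ ZpW G q w X Z, 0 < rhoW G q W w X Z y := by
    intro y hy
    exact div_pos (pow_pos (ZpW_pos hy) _) hΦ
  have hMpos : 0 < M := by
    rw [hM, ← hMsum]
    exact Finset.sum_pos (fun y hy => div_pos (hrpos y hy) (ZpW_pos hy)) hne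
  have hME : M * (PhiW G q (W + 1) w X Z / PhiW G q W w X Z) ≤ 1 + θ ^ 2 := by
    rw [hM, div_mul_div_comm, div_le_iff₀ (by positivity)]
    linarith
  -- termwise
  have hterm : ∀ y ∈ ZpW G q w X Z,
      rhoW G q W w X Z y * ((ind G x y - q) / exW G q w X y) / M
      - rhoW G q W w X Z y * (θ / 2 * (1 / (M * exW G q w X y)) +
        (M * exW G q w X y - 2 + 1 / (M * exW G q w X y)) / (2 * θ))
      ≤ rhoW G q W w X Z y * (ind G x y - q) := by
    intro y hy
    have he := ZpW_pos hy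
    have hu : 0 < 1 / (M * exW G q w X y) := by positivity
    have habs : |ind G x y - q| ≤ 1 := by
      have h1 := ind_nonneg (G := G) x y
      have h2 := ind_le_one (G := G) x y
      rw [abs_le]; constructor <;> linarith
    have h1 := conc_ineq hu hθ habs
    have h2 : 1 / (1 / (M * exW G q w X y)) = M * exW G q w X y := by field_simp
    rw [h2] at h1
    have h3 := mul_le_mul_of_nonneg_left h1 (hrpos y hy).le
    have h4 : rhoW G q W w X Z y * ((ind G x y - q) * (1 - 1 / (M * exW G q w X y)))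
        = rhoW G q W w X Z y * (ind G x y - q)
          - rhoW G q W w X Z y * ((ind G x y - q) / exW G q w X y) / M := by
      field_simp
    rw [h4] at h3
    linarith
  have hsum := Finset.sum_le_sum hterm
  rw [Finset.sum_sub_distrib, ← Finset.sum_div] at hsum
  have e1 : ∑ y ∈ ZpW G q w X Z, rhoW G q W w X Z y * ((ind G x y - q) / exW G q w X y)
      = kapW G q W w X Z x := (kapW_eq hW x).symm
  have e2 : ∑ y ∈ ZpW G q w X Z, rhoW G q W w X Z y * (θ / 2 * (1 / (M * exW G q w X y)) +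
        (M * exW G q w X y - 2 + 1 / (M * exW G q w X y)) / (2 * θ))
      = (θ / 2 + 1 / (2 * θ)) * (1 / M) *
        (∑ y ∈ ZpW G q w X Z, rhoW G q W w X Z y / exW G q w X y)
        + 1 / (2 * θ) * M * (∑ y ∈ ZpW G q w X Z, rhoW G q W w X Z y * exW G q w X y)
        - 1 / θ * (∑ y ∈ ZpW G q w X Z, rhoW G q W w X Z y) := by
    rw [Finset.mul_sum, Finset.mul_sum, Finset.mul_sum, ← Finset.sum_add_distrib,
      ← Finset.sum_sub_distrib]
    apply Finset.sum_congr rfl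
    intro y hy
    have he := ZpW_pos hy
    field_simp
    ring
  rw [e1, e2, hMsum, hEsum, rhoW_sum (by omega) hΦ, ← hM] at hsum
  have e3 : ∑ y ∈ ZpW G q w X Z, rhoW G q W w X Z y * (ind G x y - q)
      = ∑ y ∈ ZpW G q w X Z, rhoW G q W w X Z y * ind G x y - q := by
    have : ∀ y ∈ ZpW G q w X Z, rhoW G q W w X Z y * (ind G x y - q)
        = rhoW G q W w X Z y * ind G x y - rhoW G q W w X Z y * q := by intro y _; ring
    rw [Finset.sum_congr rfl this, Finset.sum_sub_distrib, ← Finset.sum_mul,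
      rhoW_sum (by omega) hΦ, one_mul]
  rw [e3] at hsum
  have h5 : (θ / 2 + 1 / (2 * θ)) * (1 / M) * M = θ / 2 + 1 / (2 * θ) := by field_simp
  rw [h5] at hsum
  have h6 : 1 / (2 * θ) * M * (PhiW G q (W + 1) w X Z / PhiW G q W w X Z)
      ≤ 1 / (2 * θ) * (1 + θ ^ 2) := by
    rw [mul_assoc]
    exact mul_le_mul_of_nonneg_left hME (by positivity)
  have h7 : 0 ≤ kapW G q W w X Z x / M := div_nonneg hk hMpos.le
  have h8 : θ / 2 + 1 / (2 * θ) + 1 / (2 * θ) * (1 + θ ^ 2) - 1 / θ * 1 = θ := by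
    field_simp
    ring
  linarith

lemma totW_split (w : V → ℝ) {x : V} {X : Finset V} (hx : x ∈ X) :
    totW w X = totW w (rN G x X) + totW w (bN G x X) + w x := by
  unfold totW; exact sum_split (G := G) w hx

/-- the core inequality of the entropic one-step argument -/
lemma coreW {a q xh yh : ℝ} (hq0 : 0 ≤ q)
    (hxh : 0 ≤ xh) (hyh : 0 ≤ yh) {W : ℕ} (hW : 2 ≤ W) {w : V → ℝ}
    {X Z : Finset V} (hw : ∀ x ∈ X, 0 < w x)
    (hΦ : 0 < PhiW G q W w X Z) {x : V} (hx : x ∈ X)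
    (hred : potW G a q W w (rN G x X) (rN G x Z) ≤ xh * potW G a q W w X Z)
    (hblue : potW G a q W w (bN G x X) Z ≤ yh * potW G a q W w X Z)
    {t1 t2 t3 : ℝ} (ht1 : 0 < t1) (ht2 : 0 < t2) (ht3 : 0 < t3)
    (hc : t3 ^ (W - 1) ≤ t2 ^ (W - 1)) {r b qx m cR cB E1 E2 E3 δ ε2 : ℝ}
    (hr : r = totW w (rN G x X) / totW w X) (hb : b = totW w (bN G x X) / totW w X)
    (hm : m = w x / totW w X)
    (hqx : qx = ∑ y ∈ ZpW G q w X Z, rhoW G q W w X Z y * ind G x y)
    (hcR : cR = cS w X (rN G x X)) (hcB : cB = cS w X (bN G x X))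
    (hE1 : E1 = Real.exp (a * cR) * t1 ^ (W - 1)) (hE2 : E2 = Real.exp (a * cB) * t2 ^ (W - 1))
    (hE3 : E3 = Real.exp (a * cB) * t3 ^ (W - 1))
    (hδ : δ = W * m * (PhiW G q (W - 1) w X Z / PhiW G q W w X Z))
    (herr : ∑ z ∈ rN G x X, (w z / totW w X) * (fW G q W w X Z z - a * kW w X z) ≤ ε2) :
    ((E2 / E3 - 1) * (t1 + W * (1 - t1) - a * cR)) * r * qx
      - ((E2 / E3 - 1) * E1⁻¹) * (xh * r ^ (1 - a))
      + (E2 / E3 * (t2 + W * (1 - t2) - a * cB)) * b * qx
      + (t3 + W * (1 - t3) - a * cB) * b * (1 - qx)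
      - E3⁻¹ * (yh * b ^ (1 - a))
      - (E2 / E3 + 1) * δ
      ≤ ε2 - ((E2 / E3 - 1) * qx + 1) * (a * (m * kW w X x)) := by
  have hX : X.Nonempty := ⟨x, hx⟩
  have hX0 := totW_pos hX hw
  have hE1p : 0 < E1 := by rw [hE1]; exact mul_pos (Real.exp_pos _) (pow_pos ht1 _)
  have hE2p : 0 < E2 := by rw [hE2]; exact mul_pos (Real.exp_pos _) (pow_pos ht2 _)
  have hE3p : 0 < E3 := by rw [hE3]; exact mul_pos (Real.exp_pos _) (pow_pos ht3 _)
  have hE32 : E3 ≤ E2 := by
    rw [hE2, hE3]; exact mul_le_mul_of_nonneg_left hc (Real.exp_pos _).le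
  have hrN : rN G x X ⊆ X := rN_subset _ _
  have hbN : bN G x X ⊆ X := bN_subset _ _
  have hr0 : 0 ≤ r := by
    rw [hr]; exact div_nonneg (totW_nonneg (fun z hz => hw z (hrN hz))) hX0.le
  have hb0 : 0 ≤ b := by
    rw [hb]; exact div_nonneg (totW_nonneg (fun z hz => hw z (hbN hz))) hX0.le
  have hsplit := totW_split (G := G) w hx
  have hrbm : r + b + m = 1 := by
    rw [hr, hb, hm, ← add_div, ← add_div, ← hsplit]
    exact div_self hX0.ne'
  have hm0 : 0 ≤ m := by rw [hm]; exact div_nonneg (hw x hx).le hX0.le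
  -- `k` relation
  have hkrel : r * cR + b * cB = m * kW w X x := by
    rw [hr, hb, hm, hcR, hcB, cS_mul hX hw hrN, cS_mul hX hw hbN]
    have h1 := sum_split (G := G) (fun z => (w z / totW w X) * kW w X z) hx
    have h2 : ∑ z ∈ X, (w z / totW w X) * kW w X z = 0 := by
      have : ∑ z ∈ X, (w z / totW w X) * kW w X z = (∑ z ∈ X, w z * kW w X z) / totW w X := by
        rw [Finset.sum_div]
        apply Finset.sum_congr rfl
        intro z _; ring
      rw [this, muk_sum hX hw, zero_div]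
    rw [h2] at h1
    linarith
  -- red child
  set G1 := ∑ y ∈ ZpW G q w X Z, rhoW G q W w X Z y * ind G x y *
    (W * (ccW G q w X (rN G x X) y - r)) with hG1
  set G2 := ∑ y ∈ ZpW G q w X Z, rhoW G q W w X Z y * (1 - ind G x y) *
    (W * (ccW G q w X (rN G x X) y - r)) with hG2
  set H1 := ∑ y ∈ ZpW G q w X Z, rhoW G q W w X Z y * ind G x y *
    (W * (ccW G q w X (bN G x X) y - b)) with hH1
  set H2 := ∑ y ∈ ZpW G q w X Z, rhoW G q W w X Z y * (1 - ind G x y) *
    (W * (ccW G q w X (bN G x X) y - b)) with hH2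
  have hzero : ∀ (S : Finset V) (s : ℝ), S ⊆ X → s = totW w S / totW w X → s = 0 →
      ∀ y, ccW G q w X S y ≤ 0 := by
    intro S s hS hs hs0 y
    have h5 : S = ∅ := by
      by_contra hne
      have hne' := Finset.nonempty_iff_ne_empty.mpr hne
      have := totW_pos hne' (fun z hz => hw z (hS hz))
      have h6 : 0 < totW w S / totW w X := div_pos this hX0
      rw [← hs, hs0] at h6
      exact lt_irrefl _ h6
    rw [h5]; unfold ccW; simp
  have hI : E1 * ((t1 + W * (1 - t1)) * r * qx + G1) ≤ xh * r ^ (1 - a) := by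
    have h1 := childW (i := fun y => ind G x y) hxh hX hw hrN hΦ
      (fun y hy => by
        unfold ind
        split_ifs with h2 h3 h3
        · exact le_rfl
        · exact absurd (mem_filter.mpr ⟨(mem_filter.mp hy).1, h2⟩) h3
        · norm_num
        · exact le_rfl) (rN_subset x Z) hred
    rw [← hr, ← hcR] at h1
    refine le_trans ?_ h1
    rw [hE1, mul_assoc]
    apply mul_le_mul_of_nonneg_left _ (Real.exp_pos _).le
    have h4 : t1 ^ (W - 1) * ((t1 + W * (1 - t1)) * r * qx + G1)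
      = ∑ y ∈ ZpW G q w X Z, rhoW G q W w X Z y * ind G x y *
        (t1 ^ (W - 1) * ((t1 + W * (1 - t1)) * r + W * (ccW G q w X (rN G x X) y - r))) := by
      rw [hqx, hG1, Finset.mul_sum, ← Finset.sum_add_distrib, Finset.mul_sum]
      apply Finset.sum_congr rfl
      intro y _; ring
    rw [h4]
    apply Finset.sum_le_sum
    intro y hy
    apply mul_le_mul_of_nonneg_left _ (mul_nonneg (rhoW_nonneg hΦ hy) (ind_nonneg _ _))
    exact tangent_persp (by omega) ht1 hr0 (fun h0 => hzero _ r hrN hr h0 y)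
  -- blue child
  have h1q : (1 - qx) = ∑ y ∈ ZpW G q w X Z, rhoW G q W w X Z y * (1 - ind G x y) := by
    have : ∀ y ∈ ZpW G q w X Z, rhoW G q W w X Z y * (1 - ind G x y)
      = rhoW G q W w X Z y - rhoW G q W w X Z y * ind G x y := by intro y _; ring
    rw [Finset.sum_congr rfl this, Finset.sum_sub_distrib, rhoW_sum (by omega) hΦ, hqx]
  have hII : E2 * ((t2 + W * (1 - t2)) * b * qx + H1)
      + E3 * ((t3 + W * (1 - t3)) * b * (1 - qx) + H2) ≤ yh * b ^ (1 - a) := by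
    have h1 := childW (i := fun _ => (1:ℝ)) hyh hX hw hbN hΦ
      (fun y hy => by
        rw [if_pos (mem_filter.mp hy).1]) (Finset.Subset.refl Z) hblue
    rw [← hb, ← hcB] at h1
    refine le_trans ?_ h1
    rw [hE2, hE3]
    have hh : Real.exp (a * cB) * t2 ^ (W - 1) * ((t2 + W * (1 - t2)) * b * qx + H1)
        + Real.exp (a * cB) * t3 ^ (W - 1) * ((t3 + W * (1 - t3)) * b * (1 - qx) + H2)
        = Real.exp (a * cB) * (t2 ^ (W - 1) * ((t2 + W * (1 - t2)) * b * qx + H1)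
          + t3 ^ (W - 1) * ((t3 + W * (1 - t3)) * b * (1 - qx) + H2)) := by ring
    rw [hh]
    apply mul_le_mul_of_nonneg_left _ (Real.exp_pos _).le
    have h4 : t2 ^ (W - 1) * ((t2 + W * (1 - t2)) * b * qx + H1)
      + t3 ^ (W - 1) * ((t3 + W * (1 - t3)) * b * (1 - qx) + H2)
      = ∑ y ∈ ZpW G q w X Z, rhoW G q W w X Z y * (ind G x y *
        (t2 ^ (W - 1) * ((t2 + W * (1 - t2)) * b + W * (ccW G q w X (bN G x X) y - b)))
        + (1 - ind G x y) *
        (t3 ^ (W - 1) * ((t3 + W * (1 - t3)) * b + W * (ccW G q w X (bN G x X) y - b)))) := by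
      rw [h1q, hqx, hH1, hH2, Finset.mul_sum, Finset.mul_sum, ← Finset.sum_add_distrib,
        ← Finset.sum_add_distrib, Finset.mul_sum, Finset.mul_sum, ← Finset.sum_add_distrib]
      apply Finset.sum_congr rfl
      intro y _; ring
    rw [h4]
    apply Finset.sum_le_sum
    intro y hy
    have e2 := tangent_persp (W := W) (by omega) ht2 hb0 (fun h0 => hzero _ b hbN hb h0 y)
    have e3 := tangent_persp (W := W) (by omega) ht3 hb0 (fun h0 => hzero _ b hbN hb h0 y)
    rw [mul_one]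
    apply mul_le_mul_of_nonneg_left _ (rhoW_nonneg hΦ hy)
    have i0 := ind_nonneg (G := G) x y
    have i1 := ind_le_one (G := G) x y
    calc _ ≤ ind G x y * (b * (max (ccW G q w X (bN G x X) y / b) 0) ^ W)
        + (1 - ind G x y) * (b * (max (ccW G q w X (bN G x X) y / b) 0) ^ W) :=
          add_le_add (mul_le_mul_of_nonneg_left e2 i0)
            (mul_le_mul_of_nonneg_left e3 (by linarith))
      _ = _ := by ring
  -- relation between the two coordinates
  have hrel : ∀ y ∈ ZpW G q w X Z, (W:ℝ) * (r - ccW G q w X (rN G x X) y)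
      - W * m * (1 / exW G q w X y) ≤ W * (ccW G q w X (bN G x X) y - b) := by
    intro y hy
    have he := ZpW_pos hy
    have h1 : ccW G q w X (rN G x X) y + ccW G q w X (bN G x X) y
        + w x * (ind G x y - q) / (totW w X * exW G q w X y) = 1 := by
      unfold ccW
      rw [← add_div, ← add_div, ← sum_split (G := G) (fun z => w z * (ind G z y - q)) hx]
      have h7 : ∑ z ∈ X, w z * (ind G z y - q) = totW w X * exW G q w X y := by
        unfold exW; field_simp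
      rw [h7]; exact div_self (by positivity)
    have h3 : w x * (ind G x y - q) / (totW w X * exW G q w X y)
        ≤ m * (1 / exW G q w X y) := by
      have h8 : w x * (ind G x y - q) ≤ w x * 1 := by
        apply mul_le_mul_of_nonneg_left _ (hw x hx).le
        have := ind_le_one (G := G) x y
        linarith
      calc _ ≤ w x * 1 / (totW w X * exW G q w X y) :=
            div_le_div_of_nonneg_right h8 (by positivity)
        _ = _ := by rw [hm]; field_simp
    have hW' : (0:ℝ) ≤ W := by positivity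
    have h5 : (r - ccW G q w X (rN G x X) y) - m * (1 / exW G q w X y)
        ≤ ccW G q w X (bN G x X) y - b := by
      linarith
    calc _ = W * ((r - ccW G q w X (rN G x X) y) - m * (1 / exW G q w X y)) := by ring
      _ ≤ _ := mul_le_mul_of_nonneg_left h5 hW'
  have hδsum : ∑ y ∈ ZpW G q w X Z, rhoW G q W w X Z y * (W * m * (1 / exW G q w X y)) = δ := by
    rw [hδ, ← rhoW_inv_sum hW, Finset.mul_sum]
    apply Finset.sum_congr rfl
    intro y _; ring
  have hδterm : ∀ y ∈ ZpW G q w X Z,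
      0 ≤ rhoW G q W w X Z y * (W * m * (1 / exW G q w X y)) := by
    intro y hy
    have he := ZpW_pos hy
    exact mul_nonneg (rhoW_nonneg hΦ hy) (by positivity)
  have hH1G : -G1 - δ ≤ H1 := by
    rw [hG1, hH1, ← hδsum, ← Finset.sum_neg_distrib, ← Finset.sum_sub_distrib]
    apply Finset.sum_le_sum
    intro y hy
    have e1 := mul_le_mul_of_nonneg_left (hrel y hy)
      (mul_nonneg (rhoW_nonneg hΦ hy) (ind_nonneg (G := G) x y))
    have e2 := hδterm y hy
    have i1 := ind_le_one (G := G) x y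
    linarith [mul_nonneg e2 (sub_nonneg.mpr i1)]
  have hH2G : -G2 - δ ≤ H2 := by
    rw [hG2, hH2, ← hδsum, ← Finset.sum_neg_distrib, ← Finset.sum_sub_distrib]
    apply Finset.sum_le_sum
    intro y hy
    have i1 := ind_le_one (G := G) x y
    have i0 := ind_nonneg (G := G) x y
    have e1 := mul_le_mul_of_nonneg_left (hrel y hy)
      (mul_nonneg (rhoW_nonneg hΦ hy) (sub_nonneg.mpr i1))
    have e2 := hδterm y hy
    linarith [mul_nonneg e2 i0]
  -- `G1 + G2`
  have hG12 : G1 + G2 ≤ ε2 - a * (r * cR) := by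
    have e1 : G1 + G2 = W * (∑ y ∈ ZpW G q w X Z, rhoW G q W w X Z y *
        ccW G q w X (rN G x X) y) - W * r := by
      rw [hG1, hG2, ← Finset.sum_add_distrib, Finset.mul_sum]
      have h1 : (W:ℝ) * r = ∑ y ∈ ZpW G q w X Z, rhoW G q W w X Z y * (W * r) := by
        rw [← Finset.sum_mul, rhoW_sum (by omega) hΦ, one_mul]
      conv_rhs => rw [h1]
      rw [← Finset.sum_sub_distrib]
      apply Finset.sum_congr rfl
      intro y _; ring
    have e2 : W * (∑ y ∈ ZpW G q w X Z, rhoW G q W w X Z y * ccW G q w X (rN G x X) y) - W * r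
        = ∑ z ∈ rN G x X, (w z / totW w X) * fW G q W w X Z z := by
      rw [ccW_sum hW, hr]
      unfold totW
      rw [Finset.sum_div, Finset.mul_sum, Finset.mul_sum, ← Finset.sum_sub_distrib]
      apply Finset.sum_congr rfl
      intro z _
      rw [fW_eq]; ring
    have e3 : ∑ z ∈ rN G x X, (w z / totW w X) * fW G q W w X Z z
        = ∑ z ∈ rN G x X, (w z / totW w X) * (fW G q W w X Z z - a * kW w X z)
          - a * (r * cR) := by
      rw [hr, hcR, cS_mul hX hw hrN, mul_neg, sub_neg_eq_add, Finset.mul_sum,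
        ← Finset.sum_add_distrib]
      apply Finset.sum_congr rfl
      intro z _; ring
    rw [e1, e2, e3]
    linarith
  -- combine
  have hE23 : 0 ≤ E2 - E3 := by linarith
  have hG1le : G1 ≤ E1⁻¹ * (xh * r ^ (1 - a)) - (t1 + W * (1 - t1)) * r * qx := by
    have : (t1 + W * (1 - t1)) * r * qx + G1 ≤ E1⁻¹ * (xh * r ^ (1 - a)) := by
      rw [inv_mul_eq_div, le_div_iff₀ hE1p, mul_comm]
      exact hI
    linarith
  have h1 := mul_le_mul_of_nonneg_left hG1le hE23
  have h2 := mul_le_mul_of_nonneg_left hH1G hE2p.le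
  have h3 := mul_le_mul_of_nonneg_left hH2G hE3p.le
  have h4 := mul_le_mul_of_nonneg_left hG12 hE3p.le
  -- inequality multiplied by `E3`
  have hfin : (E2 - E3) * ((t1 + W * (1 - t1)) * r * qx) - (E2 - E3) * (E1⁻¹ * (xh * r ^ (1 - a)))
      + E2 * ((t2 + W * (1 - t2)) * b * qx) + E3 * ((t3 + W * (1 - t3)) * b * (1 - qx))
      - yh * b ^ (1 - a) - (E2 + E3) * δ ≤ E3 * (ε2 - a * (r * cR)) := by
    linarith
  refine le_of_mul_le_mul_left ?_ hE3p
  have hrw : E3 * (((E2 / E3 - 1) * (t1 + W * (1 - t1) - a * cR)) * r * qx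
      - ((E2 / E3 - 1) * E1⁻¹) * (xh * r ^ (1 - a))
      + (E2 / E3 * (t2 + W * (1 - t2) - a * cB)) * b * qx
      + (t3 + W * (1 - t3) - a * cB) * b * (1 - qx)
      - E3⁻¹ * (yh * b ^ (1 - a))
      - (E2 / E3 + 1) * δ)
      = ((E2 - E3) * ((t1 + W * (1 - t1)) * r * qx) - (E2 - E3) * (E1⁻¹ * (xh * r ^ (1 - a)))
      + E2 * ((t2 + W * (1 - t2)) * b * qx) + E3 * ((t3 + W * (1 - t3)) * b * (1 - qx))
      - yh * b ^ (1 - a) - (E2 + E3) * δ)
      - (E2 - E3) * a * qx * (r * cR + b * cB) - E3 * a * (b * cB) := by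
    field_simp
    ring
  have hrw2 : E3 * (ε2 - ((E2 / E3 - 1) * qx + 1) * (a * (m * kW w X x)))
      = E3 * ε2 - ((E2 - E3) * qx + E3) * (a * (m * kW w X x)) := by
    field_simp
  rw [hrw, hrw2, hkrel]
  have hcBe : b * cB = m * kW w X x - r * cR := by linarith
  rw [hcBe]
  linarith

lemma exW_le_one {q : ℝ} (hq0 : 0 ≤ q) {w : V → ℝ} {X : Finset V}
    (hw : ∀ x ∈ X, 0 < w x) (y : V) : exW G q w X y ≤ 1 := by
  unfold exW
  apply div_le_one_of_le₀ _ (totW_nonneg hw)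
  unfold totW
  apply Finset.sum_le_sum
  intro x hx
  have := ind_le_one (G := G) x y
  have := hw x hx
  exact mul_le_of_le_one_right (hw x hx).le (by linarith [ind_le_one (G := G) x y])

lemma PhiW_anti {q : ℝ} (hq0 : 0 ≤ q) {W : ℕ} {w : V → ℝ} {X Z : Finset V}
    (hw : ∀ x ∈ X, 0 < w x) : PhiW G q (W + 1) w X Z ≤ PhiW G q W w X Z := by
  unfold PhiW
  apply Finset.sum_le_sum
  intro y _
  have h1 : max (exW G q w X y) 0 ≤ 1 := max_le (exW_le_one hq0 hw y) zero_le_one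
  have h0 : 0 ≤ max (exW G q w X y) 0 := le_max_right _ _
  rw [pow_succ]
  exact mul_le_of_le_one_right (pow_nonneg h0 _) h1

end weighted

theorem oneStepW : OneStepW := by
  intro a q L M ha0 ha1 hq0 hq1 hcert
  obtain ⟨J, D0, t, τ1, τ2, τ3, A1, B1, A2, B2, ht0, htJ, hD0p, htm, hτ, hAB, hp1, hp2, hcA0,
    hcA1, hD0, hD1⟩ := hcert
  set xh := Real.exp (-L) with hxh
  set yh := Real.exp (-M) with hyh
  have hxh0 : 0 ≤ xh := (Real.exp_pos _).le
  have hyh0 : 0 ≤ yh := (Real.exp_pos _).le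
  set k1 : ℕ → ℝ := fun j => (Real.exp (τ2 j + τ3 j) - 1) * (1 + τ1 j) with hk1
  set k3 : ℕ → ℝ := fun j => Real.exp (τ2 j + τ3 j) * (1 - τ2 j) with hk3
  set k4 : ℕ → ℝ := fun j => 1 + τ3 j with hk4
  set k6 : ℕ → ℝ := fun j => Real.exp (τ2 j + τ3 j) + 1 with hk6
  set Ct : ℕ → ℝ := fun j => 4 + xh * (A1 j + B1 j) + yh * (A2 j + B2 j) + 2 * |k3 j| + 2 * |k4 j|
    + |k1 j| + k6 j with hCt
  have hk6pos : ∀ j, 0 ≤ k6 j := fun j => by
    have := Real.exp_pos (τ2 j + τ3 j)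
    simp only [hk6]; linarith
  have hCt0 : ∀ j ∈ range J, 0 ≤ Ct j := by
    intro j hj
    rw [Finset.mem_range] at hj
    obtain ⟨a1, a2, a3, a4⟩ := hAB j hj
    have := hk6pos j
    simp only [hCt]; positivity
  set Cst := ∑ j ∈ range J, Ct j with hCst
  have hCst0 : 0 ≤ Cst := Finset.sum_nonneg hCt0
  have hCle : ∀ j < J, Ct j ≤ Cst := by
    intro j hj
    exact Finset.single_le_sum hCt0 (Finset.mem_range.mpr hj)
  have hk6C : ∀ j < J, k6 j ≤ Cst := by
    intro j hj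
    refine le_trans ?_ (hCle j hj)
    obtain ⟨a1, a2, a3, a4⟩ := hAB j hj
    simp only [hCt]
    have h1 : 0 ≤ xh * (A1 j + B1 j) := by positivity
    have h2 : 0 ≤ yh * (A2 j + B2 j) := by positivity
    have h3 := abs_nonneg (k3 j)
    have h4 := abs_nonneg (k4 j)
    have h5 := abs_nonneg (k1 j)
    linarith
  refine ⟨min (1 / 2) (D0 / 8), lt_min (by norm_num) (by positivity), ?_⟩
  intro K0
  set K := |K0| with hK
  have hK0 : 0 ≤ K := abs_nonneg _
  set e := min 1 (D0 / (4 * (Cst + 1))) with he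
  have he0 : 0 < e := lt_min one_pos (by positivity)
  have he1 : e ≤ 1 := min_le_left _ _
  have he2 : e * Cst ≤ D0 / 4 := by
    have h1 : e ≤ D0 / (4 * (Cst + 1)) := min_le_right _ _
    calc e * Cst ≤ D0 / (4 * (Cst + 1)) * Cst := mul_le_mul_of_nonneg_right h1 hCst0
      _ ≤ D0 / (4 * (Cst + 1)) * (Cst + 1) :=
          mul_le_mul_of_nonneg_left (by linarith) (by positivity)
      _ = D0 / 4 := by field_simp
  set δ0 := min e (D0 / (8 * (Cst * a * K + 1))) with hδ0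
  have hCaK : 0 ≤ Cst * a * K := by positivity
  have hδ0p : 0 < δ0 := lt_min he0 (by positivity)
  have hδ0e : δ0 ≤ e := min_le_left _ _
  have hδ02 : Cst * a * K * δ0 ≤ D0 / 8 := by
    have h1 : δ0 ≤ D0 / (8 * (Cst * a * K + 1)) := min_le_right _ _
    calc Cst * a * K * δ0 ≤ Cst * a * K * (D0 / (8 * (Cst * a * K + 1))) :=
          mul_le_mul_of_nonneg_left h1 hCaK
      _ ≤ (Cst * a * K + 1) * (D0 / (8 * (Cst * a * K + 1))) :=
          mul_le_mul_of_nonneg_right (by linarith) (by positivity)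
      _ = D0 / 8 := by field_simp
  have hev : ∀ᶠ W : ℕ in atTop, ∀ j ∈ range J, _ :=
    (Filter.eventually_all_finset (range J)).mpr
      (fun j _ => coefW_close a (τ1 j) (τ2 j) (τ3 j) K he0)
  obtain ⟨W0, hW0⟩ := Filter.eventually_atTop.mp hev
  obtain ⟨W1, hW1⟩ := exists_nat_ge (1 + a * K)
  refine ⟨max W0 (max 2 W1), e, δ0, (le_max_left _ _).trans (le_max_right _ _), he0, hδ0p, ?_⟩
  intro V _ G _ w X Z W hW hX hw hΦ hk hT hconc hδ hred hblue
  have hWW0 : W0 ≤ W := (le_max_left _ _).trans hW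
  have hW2 : 2 ≤ W := ((le_max_left _ _).trans (le_max_right _ _)).trans hW
  have hWK : 1 + a * K ≤ (W : ℝ) := by
    have : (W1 : ℝ) ≤ W := by
      exact_mod_cast ((le_max_right _ _).trans (le_max_right _ _)).trans hW
    linarith
  have hWr : (0:ℝ) < W := by
    have : 0 < W := by omega
    exact_mod_cast this
  have hX0 := totW_pos hX hw
  have hk' : ∀ x ∈ X, |kW w X x| ≤ K := fun x hx => (hk x hx).trans (le_abs_self _)
  -- choose `x`
  obtain ⟨x, hx, hfx⟩ : ∃ x ∈ X, -1 ≤ fW G q W w X Z x - a * kW w X x := by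
    by_contra hcon
    push Not at hcon
    have h1 : ∑ x ∈ X, (w x / totW w X) * (fW G q W w X Z x - a * kW w X x)
        ≤ ∑ x ∈ X, (w x / totW w X) * (-1) := by
      apply Finset.sum_le_sum
      intro x hx
      exact mul_le_mul_of_nonneg_left (hcon x hx).le (div_nonneg (hw x hx).le hX0.le)
    rw [← Finset.sum_mul, mu_sum hX hw] at h1
    have h2 := (abs_le.mp (hT X (Finset.Subset.refl X))).1
    have h3 : min (1 / 2) (D0 / 8) ≤ 1 / 2 := min_le_left _ _
    linarith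
  have hkap : 0 ≤ kapW G q W w X Z x := by
    rw [fW_eq] at hfx
    have h1 := (abs_le.mp (hk' x hx)).1
    have h2 : a * (-K) ≤ a * kW w X x := mul_le_mul_of_nonneg_left h1 ha0.le
    by_contra hneg
    push Not at hneg
    have h3 := mul_neg_of_pos_of_neg hWr hneg
    linarith
  -- data
  set r := totW w (rN G x X) / totW w X with hr
  set b := totW w (bN G x X) / totW w X with hb
  set m := w x / totW w X with hm
  set qx := ∑ y ∈ ZpW G q w X Z, rhoW G q W w X Z y * ind G x y with hqx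
  have hrN : rN G x X ⊆ X := rN_subset _ _
  have hbN : bN G x X ⊆ X := bN_subset _ _
  have hr0 : 0 ≤ r := div_nonneg (totW_nonneg (fun z hz => hw z (hrN hz))) hX0.le
  have hb0 : 0 ≤ b := div_nonneg (totW_nonneg (fun z hz => hw z (hbN hz))) hX0.le
  have hm0 : 0 ≤ m := div_nonneg (hw x hx).le hX0.le
  have hrbm : r + b + m = 1 := by
    rw [hr, hb, hm, ← add_div, ← add_div, ← totW_split (G := G) w hx]
    exact div_self hX0.ne'
  have hr1 : r ≤ 1 := by linarith
  have hb1 : b ≤ 1 := by linarith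
  have hqx0 : 0 ≤ qx :=
    Finset.sum_nonneg (fun y hy => mul_nonneg (rhoW_nonneg hΦ hy) (ind_nonneg x y))
  have hqx1 : qx ≤ 1 := by
    rw [hqx, ← rhoW_sum (by omega : 1 ≤ W) hΦ]
    apply Finset.sum_le_sum
    intro y hy
    have := rhoW_nonneg hΦ hy
    have := ind_le_one (G := G) x y
    exact mul_le_of_le_one_right ‹_› ‹_›
  have hqxge := qxW_ge hq0.le hq1.le hW2 hΦ he0 hconc hkap
  rw [← hqx] at hqxge
  have hratio : 1 ≤ PhiW G q (W - 1) w X Z / PhiW G q W w X Z := by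
    rw [one_le_div hΦ]
    obtain ⟨n, hn⟩ : ∃ n, W = n + 1 := ⟨W - 1, by omega⟩
    rw [hn, Nat.add_sub_cancel]
    exact PhiW_anti hq0.le hw
  have hδx := hδ x hx
  rw [← hm] at hδx
  set δ := (W : ℝ) * m * (PhiW G q (W - 1) w X Z / PhiW G q W w X Z) with hδd
  have hδnn : 0 ≤ δ := by rw [hδd]; positivity
  have hmδ : m ≤ δ0 := by
    refine le_trans ?_ hδx
    rw [hδd]
    have h1 : (1:ℝ) ≤ W := by
      have : 1 ≤ W := by omega
      exact_mod_cast this
    calc m = 1 * m * 1 := by ring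
      _ ≤ (W:ℝ) * m * (PhiW G q (W - 1) w X Z / PhiW G q W w X Z) := by
          apply mul_le_mul _ hratio zero_le_one (by positivity)
          exact mul_le_mul_of_nonneg_right h1 hm0
  -- the piece
  have hJ : 0 < J := by
    rcases Nat.eq_zero_or_pos J with h | h
    · rw [h, ht0] at htJ; norm_num at htJ
    · exact h
  obtain ⟨j, hj, hj1, hj2⟩ := exists_piece t r J (by rw [ht0]; exact hr0)
    (by rw [htJ]; exact hr1) hJ
  set cR := cS w X (rN G x X) with hcR
  set cB := cS w X (bN G x X) with hcB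
  have hcRK : |cR| ≤ K := cS_abs hw hrN hK0 hk'
  have hcBK : |cB| ≤ K := cS_abs hw hbN hK0 hk'
  obtain ⟨c1, c2, c3, c4, c5, c6, c7, c8, c9⟩ :=
    hW0 W hWW0 j (Finset.mem_range.mpr hj) cR cB hcRK hcBK
  have hc32 : (1 + (-τ3 j - a * cB) / (W:ℝ)) ^ (W - 1)
      ≤ (1 + (τ2 j - a * cB) / (W:ℝ)) ^ (W - 1) := by
    apply pow_le_pow_left₀ c3.le
    have : (-τ3 j - a * cB) / (W:ℝ) ≤ (τ2 j - a * cB) / (W:ℝ) := by
      apply div_le_div_of_nonneg_right _ hWr.le
      have := hτ j hj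
      linarith
    linarith
  have herr := (abs_le.mp (hT (rN G x X) hrN)).2
  have hcore := coreW hq0.le hxh0 hyh0 hW2 hw hΦ hx (hred x hx) (hblue x hx) c1 c2 c3 hc32
    hr hb hm hqx hcR hcB rfl rfl rfl hδd herr
  set E1 := Real.exp (a * cR) * (1 + (-τ1 j - a * cR) / (W:ℝ)) ^ (W - 1) with hE1
  set E2 := Real.exp (a * cB) * (1 + (τ2 j - a * cB) / (W:ℝ)) ^ (W - 1) with hE2
  set E3 := Real.exp (a * cB) * (1 + (-τ3 j - a * cB) / (W:ℝ)) ^ (W - 1) with hE3
  have hE1p : 0 < E1 := mul_pos (Real.exp_pos _) (pow_pos c1 _)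
  have hE3p : 0 < E3 := mul_pos (Real.exp_pos _) (pow_pos c3 _)
  have hE32 : E3 ≤ E2 := mul_le_mul_of_nonneg_left hc32 (Real.exp_pos _).le
  have hγ1 : 1 ≤ E2 / E3 := (one_le_div hE3p).mpr hE32
  obtain ⟨a1, a2, a3, a4⟩ := hAB j hj
  have hK2 : 0 ≤ (E2 / E3 - 1) * E1⁻¹ :=
    mul_nonneg (by linarith) (inv_nonneg.mpr hE1p.le)
  have hcoef : 0 ≤ k1 j * r + k3 j * (1 - r) - k4 j * (1 - r) := by
    have h0 := hcA0 j hj
    have h1 := hcA1 j hj
    unfold cA at h0 h1
    have := affine_ge (α := k3 j - k4 j) (β := k1 j - k3 j + k4 j) (γ := 0) (δ := 0)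
      hj1 hj2 (by simp only [hk1, hk3, hk4]; linarith) (by simp only [hk1, hk3, hk4]; linarith)
    linarith
  have hmain := piece_real c4 c5 c6 c7 c8 c9 hK2 (inv_nonneg.mpr hE3p.le) (hk6pos j)
    hxh0 hyh0 a1 a2 a3 a4 hr0 hr1 hb0 (by linarith : b = 1 - r - m) hm0 (hmδ.trans hδ0e) hδnn
    (hδx.trans hδ0e) he1 hqx0 hqx1 hqxge
    (hp1 j hj _ hr0 hr1) (hp2 j hj _ hb0 hb1) hcoef hcore
  -- bound the right hand side
  have hg : min (1 / 2) (D0 / 8) - ((E2 / E3 - 1) * qx + 1) * (a * (m * kW w X x))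
      ≤ D0 / 8 + D0 / 8 := by
    have h1 : min (1 / 2) (D0 / 8) ≤ D0 / 8 := min_le_right _ _
    have h2 : (E2 / E3 - 1) * qx + 1 ≤ Cst := by
      have h3 := (abs_le.mp c9).2
      have h4 := hk6C j hj
      simp only [hk6] at h4
      have h5 : (E2 / E3 - 1) * qx ≤ E2 / E3 - 1 :=
        mul_le_of_le_one_right (by linarith) hqx1
      linarith
    have h2' : 0 ≤ (E2 / E3 - 1) * qx + 1 := by
      have : 0 ≤ (E2 / E3 - 1) * qx := mul_nonneg (by linarith) hqx0
      linarith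
    have h5 : -(a * (m * kW w X x)) ≤ a * (δ0 * K) := by
      have h6 := (abs_le.mp (hk' x hx)).1
      have h7 : -(m * kW w X x) ≤ δ0 * K := by
        calc -(m * kW w X x) = m * (-kW w X x) := by ring
          _ ≤ m * K := mul_le_mul_of_nonneg_left (by linarith) hm0
          _ ≤ δ0 * K := mul_le_mul_of_nonneg_right hmδ hK0
      calc -(a * (m * kW w X x)) = a * (-(m * kW w X x)) := by ring
        _ ≤ _ := mul_le_mul_of_nonneg_left h7 ha0.le
    have h8 : ((E2 / E3 - 1) * qx + 1) * (-(a * (m * kW w X x))) ≤ Cst * (a * (δ0 * K)) := by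
      calc _ ≤ ((E2 / E3 - 1) * qx + 1) * (a * (δ0 * K)) := mul_le_mul_of_nonneg_left h5 h2'
        _ ≤ _ := mul_le_mul_of_nonneg_right h2 (by positivity)
    have h9 : Cst * (a * (δ0 * K)) = Cst * a * K * δ0 := by ring
    rw [h9] at h8
    linarith
  have hmain2 := hmain.trans hg
  have hCj := hCle j hj
  have hCe : e * Ct j ≤ e * Cst := mul_le_mul_of_nonneg_left hCj he0.le
  simp only [hCt] at hCe
  -- affine comparison
  have hx0 := hD0 j hj
  have hx1 := hD1 j hj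
  unfold cD at hx0 hx1
  have ex1 : Real.exp (τ1 j - L) = Real.exp (τ1 j) * xh := by
    rw [hxh, ← Real.exp_add]; rfl
  have ex3 : Real.exp (τ3 j - M) = Real.exp (τ3 j) * yh := by
    rw [hyh, ← Real.exp_add]; rfl
  rw [ex1, ex3] at hx0 hx1
  have haff := affine_ge
    (α := - (Real.exp (τ2 j + τ3 j) - 1) * (Real.exp (τ1 j) * xh) * A1 j
      + Real.exp (τ2 j + τ3 j) * (1 - τ2 j) * q + (1 + τ3 j) * (1 - q)
      - Real.exp (τ3 j) * yh * (A2 j + B2 j))
    (β := (Real.exp (τ2 j + τ3 j) - 1) * (1 + τ1 j) * q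
      - (Real.exp (τ2 j + τ3 j) - 1) * (Real.exp (τ1 j) * xh) * B1 j
      - Real.exp (τ2 j + τ3 j) * (1 - τ2 j) * q - (1 + τ3 j) * (1 - q)
      + Real.exp (τ3 j) * yh * B2 j)
    (γ := D0)
    (δ := 0) hj1 hj2
    (by linarith) (by linarith)
  simp only [hk1, hk3, hk4, hk6] at hmain2 hCe
  linarith

end Pool.Agent.H92
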