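import Pool.Agent.H92.RamseyJ

/-!
The tilt bound (MP_28724c_co): consequence of near maximality of the entropic potential under a
tilt of the weights by `1 + δ` on a subset `T`.
-/

open Finset

namespace Pool.Agent.H92

/-- `D ≤ p δ² / (1 + δ p)` after clearing the denominator. -/
theorem tilt_D_le {δ p : ℝ} (hδ : 0 < δ) (hp : 0 ≤ p) (hp1 : p ≤ 1) :
    p * ((1 + δ) * Real.log (1 + δ)) - (1 + δ * p) * Real.log (1 + δ * p) ≤ δ ^ 2 := by
  have h1 : Real.log (1 + δ) ≤ δ := by
    have := Real.log_le_sub_one_of_pos (show (0:ℝ) < 1 + δ by linarith)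
    linarith
  have hpos : 0 < 1 + δ * p := by positivity
  have h2 : δ * p ≤ (1 + δ * p) * Real.log (1 + δ * p) := by
    have h3 := Real.one_sub_inv_le_log_of_pos hpos
    have h4 : (1 + δ * p) * (1 - (1 + δ * p)⁻¹) = δ * p := by
      field_simp
      ring
    nlinarith
  have h5 : p * ((1 + δ) * Real.log (1 + δ)) ≤ p * ((1 + δ) * δ) := by
    apply mul_le_mul_of_nonneg_left _ hp
    apply mul_le_mul_of_nonneg_left h1 (by linarith)
  nlinarith [sq_nonneg δ]

/-- Second order bound for the exponential in the form needed. -/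
theorem tilt_exp_le {y Y ζ : ℝ} {W : ℕ} (hY : |y| ≤ Y) (hW1 : Y ≤ W) (hW0 : 0 < W)
    (hζ : 0 < ζ) (hW2 : Y ^ 2 / ζ ≤ W) :
    (W : ℝ) * (Real.exp (y / W) - 1) ≤ y + ζ := by
  have hWp : (0:ℝ) < W := by exact_mod_cast hW0
  have h1 : |y / W| ≤ 1 := by
    rw [abs_div, abs_of_pos hWp, div_le_one hWp]
    linarith
  have h2 := Real.abs_exp_sub_one_sub_id_le h1
  have h3 := (abs_le.mp h2).2
  have h4 : (W:ℝ) * (Real.exp (y / W) - 1 - y / W) ≤ W * (y / W) ^ 2 :=
    mul_le_mul_of_nonneg_left h3 hWp.le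
  have h5 : (W:ℝ) * (y / W) ^ 2 = y ^ 2 / W := by
    field_simp
  have h6 : y ^ 2 / W ≤ ζ := by
    rw [div_le_iff₀ hWp]
    rw [div_le_iff₀ hζ] at hW2
    have h7 : y ^ 2 ≤ Y ^ 2 := by
      rw [← sq_abs y]
      exact pow_le_pow_left₀ (abs_nonneg y) hY 2
    nlinarith
  have h8 : (W:ℝ) * (y / W) = y := by
    field_simp
  nlinarith

theorem tiltBound : TiltBound := by
  intro a δ ε K ζ ha ha1 hδ hδ1 hε hζ
  obtain ⟨W1, hW1⟩ := exists_nat_ge (ε + |K| + 2 + (ε + |K| + 2) ^ 2 / ζ)
  refine ⟨W1 + 1, ?_⟩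
  intro V _ w f X T W hW hX hw hk hT hf hhyp
  have hWp : 0 < W := by omega
  have hWr : (0:ℝ) < W := by exact_mod_cast hWp
  have hW1' : (W1:ℝ) ≤ W := by exact_mod_cast (by omega : W1 ≤ W)
  set S := totW w X with hS
  have hSpos : 0 < S := Finset.sum_pos hw hX
  -- sums over `X` of the tilted weights
  have key : ∀ g : V → ℝ, ∑ x ∈ X, (if x ∈ T then (1 + δ) * w x else w x) * g x
      = ∑ x ∈ X, w x * g x + δ * ∑ x ∈ T, w x * g x := by
    intro g
    have h1 : ∑ x ∈ T, w x * g x = ∑ x ∈ X, if x ∈ T then w x * g x else 0 := by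
      rw [← Finset.sum_filter]
      congr 1
      ext x
      simp only [Finset.mem_filter]
      exact ⟨fun h => ⟨hT h, h⟩, fun h => h.2⟩
    rw [h1, Finset.mul_sum, ← Finset.sum_add_distrib]
    apply Finset.sum_congr rfl
    intro x _
    split_ifs <;> ring
  set p := (∑ x ∈ T, w x) / S with hp
  have hTnn : 0 ≤ ∑ x ∈ T, w x := Finset.sum_nonneg (fun x hx => (hw x (hT hx)).le)
  have hTle : ∑ x ∈ T, w x ≤ S :=
    Finset.sum_le_sum_of_subset_of_nonneg hT (fun x hx _ => (hw x hx).le)
  have hp0 : 0 ≤ p := div_nonneg hTnn hSpos.le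
  have hp1 : p ≤ 1 := by
    rw [hp, div_le_one hSpos]
    exact hTle
  have hTp : ∑ x ∈ T, w x = p * S := by
    rw [hp]
    field_simp
  have hpos : 0 < 1 + δ * p := by positivity
  have hS' : totW (fun x => if x ∈ T then (1 + δ) * w x else w x) X = S * (1 + δ * p) := by
    have := key (fun _ => 1)
    simp only [mul_one] at this
    unfold totW
    rw [this, hTp]
    rw [hS]
    unfold totW
    ring
  set A := (∑ x ∈ X, w x * Real.log (w x)) / S with hA
  set B := (∑ x ∈ T, w x * Real.log (w x)) / S with hB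
  have hH : entW w X = Real.log S - A := rfl
  have hlogsum : ∑ x ∈ X, (if x ∈ T then (1 + δ) * w x else w x) *
      Real.log (if x ∈ T then (1 + δ) * w x else w x)
      = S * (A + δ * B + (1 + δ) * Real.log (1 + δ) * p) := by
    have h1 : ∑ x ∈ X, (if x ∈ T then (1 + δ) * w x else w x) *
      Real.log (if x ∈ T then (1 + δ) * w x else w x)
      = ∑ x ∈ X, (if x ∈ T then (1 + δ) * w x else w x) *
        (Real.log (w x) + if x ∈ T then Real.log (1 + δ) else 0) := by
      apply Finset.sum_congr rfl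
      intro x hx
      split_ifs with h
      · rw [Real.log_mul (by linarith) (hw x hx).ne']
        ring
      · ring
    rw [h1, key]
    have h2 : ∑ x ∈ X, w x * (Real.log (w x) + if x ∈ T then Real.log (1 + δ) else 0)
        = ∑ x ∈ X, w x * Real.log (w x) + Real.log (1 + δ) * ∑ x ∈ T, w x := by
      have h3 : ∑ x ∈ T, w x = ∑ x ∈ X, if x ∈ T then w x else 0 := by
        rw [← Finset.sum_filter]
        congr 1
        ext x
        simp only [Finset.mem_filter]
        exact ⟨fun h => ⟨hT h, h⟩, fun h => h.2⟩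
      rw [h3, Finset.mul_sum, ← Finset.sum_add_distrib]
      apply Finset.sum_congr rfl
      intro x _
      split_ifs <;> ring
    have h4 : ∑ x ∈ T, w x * (Real.log (w x) + if x ∈ T then Real.log (1 + δ) else 0)
        = ∑ x ∈ T, w x * Real.log (w x) + Real.log (1 + δ) * ∑ x ∈ T, w x := by
      rw [Finset.mul_sum, ← Finset.sum_add_distrib]
      apply Finset.sum_congr rfl
      intro x hx
      rw [if_pos hx]
      ring
    rw [h2, h4, hTp, hA, hB]
    field_simp
    ring
  have hH' : entW (fun x => if x ∈ T then (1 + δ) * w x else w x) X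
      = Real.log S + Real.log (1 + δ * p)
        - (A + δ * B + (1 + δ) * Real.log (1 + δ) * p) / (1 + δ * p) := by
    unfold entW
    rw [hS', hlogsum, Real.log_mul hSpos.ne' hpos.ne']
    congr 1
    field_simp
  have hkx : ∀ x ∈ X, kW w X x = Real.log (w x) - A := by
    intro x hx
    unfold kW
    rw [hH, ← hS, Real.log_div (hw x hx).ne' hSpos.ne']
    ring
  set KT := ∑ x ∈ T, (w x / S) * kW w X x with hKT
  have hKT' : KT = B - A * p := by
    rw [hKT, hB, hp]
    rw [Finset.sum_congr rfl (fun x hx => by rw [hkx x (hT hx)])]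
    simp only [mul_sub, Finset.sum_sub_distrib, div_mul_eq_mul_div, ← Finset.sum_div]
    rw [← Finset.sum_mul]
    ring
  have hK0 : 0 ≤ K := by
    obtain ⟨x, hx⟩ := hX
    exact le_trans (abs_nonneg _) (hk x hx)
  have hKTabs : |KT| ≤ K := by
    rw [hKT]
    calc |∑ x ∈ T, (w x / S) * kW w X x| ≤ ∑ x ∈ T, |(w x / S) * kW w X x| :=
          Finset.abs_sum_le_sum_abs _ _
      _ ≤ ∑ x ∈ T, (w x / S) * K := by
          apply Finset.sum_le_sum
          intro x hx
          rw [abs_mul, abs_of_nonneg (div_nonneg (hw x (hT hx)).le hSpos.le)]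
          exact mul_le_mul_of_nonneg_left (hk x (hT hx))
            (div_nonneg (hw x (hT hx)).le hSpos.le)
      _ = p * K := by rw [← Finset.sum_mul, ← Finset.sum_div]
      _ ≤ 1 * K := mul_le_mul_of_nonneg_right hp1 hK0
      _ = K := one_mul K
  set FT := ∑ x ∈ T, (w x / S) * f x with hFT
  have hFT' : ∑ x ∈ T, w x * f x = S * FT := by
    rw [hFT, Finset.mul_sum]
    apply Finset.sum_congr rfl
    intro x _
    field_simp
  have hm : (∑ x ∈ X, (if x ∈ T then (1 + δ) * w x else w x) * (1 + f x / W)) /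
      totW (fun x => if x ∈ T then (1 + δ) * w x else w x) X
      = 1 + (δ * FT / (1 + δ * p)) / W := by
    rw [hS', key]
    have h1 : ∑ x ∈ X, w x * (1 + f x / W) = S := by
      have : ∑ x ∈ X, w x * (1 + f x / W) = ∑ x ∈ X, w x + (∑ x ∈ X, w x * f x) / W := by
        rw [Finset.sum_div, ← Finset.sum_add_distrib]
        apply Finset.sum_congr rfl
        intro x _
        ring
      rw [this, hf]
      simp [hS, totW]
    have h2 : ∑ x ∈ T, w x * (1 + f x / W) = p * S + S * FT / W := by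
      rw [← hFT', ← hTp, Finset.sum_div, ← Finset.sum_add_distrib]
      apply Finset.sum_congr rfl
      intro x _
      ring
    rw [h1, h2]
    field_simp
    ring
  rw [hm] at hhyp
  set H := entW w X with hHdef
  set H' := entW (fun x => if x ∈ T then (1 + δ) * w x else w x) X with hH'def
  set y := ε + a * (H - H') with hy
  have hHH : (1 + δ * p) * (H - H') = δ * KT +
      (p * ((1 + δ) * Real.log (1 + δ)) - (1 + δ * p) * Real.log (1 + δ * p)) := by
    rw [hH, hH', hKT']
    field_simp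
    ring
  have hD := tilt_D_le hδ hp0 hp1
  have hDlow : -2 ≤ p * ((1 + δ) * Real.log (1 + δ)) - (1 + δ * p) * Real.log (1 + δ * p) := by
    have h1 : Real.log (1 + δ * p) ≤ δ * p := by
      have := Real.log_le_sub_one_of_pos hpos
      linarith
    have h2 : 0 ≤ Real.log (1 + δ) := Real.log_nonneg (by linarith)
    have h3 : δ * p ≤ 1 := mul_le_one₀ hδ1 hp0 hp1
    have h4 : (1 + δ * p) * Real.log (1 + δ * p) ≤ (1 + δ * p) * (δ * p) :=
      mul_le_mul_of_nonneg_left h1 hpos.le
    have h5 : 0 ≤ p * ((1 + δ) * Real.log (1 + δ)) := by positivity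
    have h6 : 0 ≤ δ * p := by positivity
    have h7 : (1 + δ * p) * (δ * p) ≤ 2 * 1 :=
      mul_le_mul (by linarith) h3 h6 (by norm_num)
    linarith
  have hyabs : |y| ≤ ε + K + 2 := by
    set D' := p * ((1 + δ) * Real.log (1 + δ)) - (1 + δ * p) * Real.log (1 + δ * p) with hD'
    have h1 : |(1 + δ * p) * (H - H')| ≤ K + 2 := by
      rw [hHH, abs_le]
      have h2 := abs_le.mp hKTabs
      have h3 : δ * KT ≤ K := by
        calc δ * KT ≤ δ * K := mul_le_mul_of_nonneg_left h2.2 hδ.le
          _ ≤ 1 * K := mul_le_mul_of_nonneg_right hδ1 hK0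
          _ = K := one_mul K
      have h4 : -K ≤ δ * KT := by
        have h41 : δ * (-KT) ≤ K := by
          calc δ * (-KT) ≤ δ * K := mul_le_mul_of_nonneg_left (by linarith [h2.1]) hδ.le
            _ ≤ 1 * K := mul_le_mul_of_nonneg_right hδ1 hK0
            _ = K := one_mul K
        have h42 : δ * (-KT) = -(δ * KT) := mul_neg _ _
        linarith
      have h5 : δ ^ 2 ≤ 1 := pow_le_one₀ hδ.le hδ1
      constructor <;> linarith
    have h6 : |H - H'| ≤ K + 2 := by
      rw [abs_mul, abs_of_pos hpos] at h1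
      have : |H - H'| ≤ (1 + δ * p) * |H - H'| := by
        have h7 : 0 ≤ δ * p := by positivity
        exact le_mul_of_one_le_left (abs_nonneg _) (by linarith)
      linarith
    rw [hy]
    calc |ε + a * (H - H')| ≤ |ε| + |a * (H - H')| := abs_add_le _ _
      _ ≤ ε + (K + 2) := by
          rw [abs_of_nonneg hε, abs_mul, abs_of_pos ha]
          have : a * |H - H'| ≤ 1 * |H - H'| := mul_le_mul_of_nonneg_right ha1 (abs_nonneg _)
          linarith
      _ = ε + K + 2 := by ring
  have hpow : (max (1 + (δ * FT / (1 + δ * p)) / W) 0) ^ W ≤ Real.exp y := by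
    have h1 : Real.exp (a * H') * (max (1 + (δ * FT / (1 + δ * p)) / W) 0) ^ W
        ≤ Real.exp (a * H') * Real.exp y := by
      refine hhyp.trans (le_of_eq ?_)
      rw [← Real.exp_add, ← Real.exp_add, hy]
      congr 1
      ring
    exact le_of_mul_le_mul_left h1 (Real.exp_pos _)
  have hroot : 1 + (δ * FT / (1 + δ * p)) / W ≤ Real.exp (y / W) := by
    have h1 : Real.exp y = (Real.exp (y / W)) ^ W := by
      rw [← Real.exp_nat_mul]
      congr 1
      field_simp
    rw [h1] at hpow
    have h2 := le_of_pow_le_pow_left₀ hWp.ne' (Real.exp_pos _).le hpow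
    exact (le_max_left _ _).trans h2
  have hexp := tilt_exp_le (y := y) (Y := ε + K + 2) (ζ := ζ) (W := W) hyabs
    (by rw [abs_of_nonneg hK0] at hW1; have : 0 ≤ (ε + K + 2) ^ 2 / ζ := by positivity
        linarith) hWp hζ
    (by rw [abs_of_nonneg hK0] at hW1; linarith)
  have h9 : δ * FT / (1 + δ * p) ≤ y + ζ := by
    have h1 : (W:ℝ) * ((δ * FT / (1 + δ * p)) / W) ≤ W * (Real.exp (y / W) - 1) :=
      mul_le_mul_of_nonneg_left (by linarith) hWr.le
    have h2 : (W:ℝ) * ((δ * FT / (1 + δ * p)) / W) = δ * FT / (1 + δ * p) := by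
      field_simp
    linarith
  have h10 : δ * FT ≤ (1 + δ * p) * (ε + ζ) + a * ((1 + δ * p) * (H - H')) := by
    rw [div_le_iff₀ hpos] at h9
    rw [hy] at h9
    linarith
  rw [hHH] at h10
  have h11 : a * (p * ((1 + δ) * Real.log (1 + δ)) - (1 + δ * p) * Real.log (1 + δ * p))
      ≤ a * δ ^ 2 := mul_le_mul_of_nonneg_left hD ha.le
  have hgoal : ∑ x ∈ T, (w x / S) * (f x - a * kW w X x) = FT - a * KT := by
    rw [hFT, hKT, Finset.mul_sum, ← Finset.sum_sub_distrib]
    apply Finset.sum_congr rfl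
    intro x _
    ring
  rw [hgoal, le_div_iff₀ hδ]
  have h12 : (1 + δ * p) * (ε + ζ) ≤ (1 + δ) * (ε + ζ) := by
    apply mul_le_mul_of_nonneg_right _ (by linarith)
    have : δ * p ≤ δ * 1 := mul_le_mul_of_nonneg_left hp1 hδ.le
    linarith
  have h13 : a * δ ^ 2 ≤ (1 + δ) * (a * δ ^ 2) := by
    have : 0 ≤ a * δ ^ 2 := by positivity
    exact le_mul_of_one_le_left this (by linarith)
  have e1 : (FT - a * KT) * δ = δ * FT - a * (δ * KT) := by ring
  have e2 : (1 + δ) * (ε + a * δ ^ 2 + ζ) = (1 + δ) * (ε + ζ) + (1 + δ) * (a * δ ^ 2) := by ring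
  have e3 := mul_add a (δ * KT) (p * ((1 + δ) * Real.log (1 + δ)) -
    (1 + δ * p) * Real.log (1 + δ * p))
  rw [e1, e2]
  rw [e3] at h10
  linarith only [h10, h11, h12, h13]

end Pool.Agent.H92
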