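import Pool.Agent.H92.RamseyI

/-!
Interface for the entropic (ideal) version of the soft potential method (MP_28724c_co).
The set `X` is replaced by a weighted set: weights `w x > 0` on `X`.
-/

open Finset

namespace Pool.Agent.H92

section defs
variable {V : Type*} [DecidableEq V] (G : SimpleGraph V) [DecidableRel G.Adj]

/-- total weight -/
def totW (w : V → ℝ) (X : Finset V) : ℝ := ∑ x ∈ X, w x

/-- entropy of the normalised weights -/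
noncomputable def entW (w : V → ℝ) (X : Finset V) : ℝ :=
  Real.log (totW w X) - (∑ x ∈ X, w x * Real.log (w x)) / totW w X

/-- weighted excess of `y` -/
noncomputable def exW (q : ℝ) (w : V → ℝ) (X : Finset V) (y : V) : ℝ :=
  (∑ x ∈ X, w x * (ind G x y - q)) / totW w X

/-- moment sum -/
noncomputable def PhiW (q : ℝ) (W : ℕ) (w : V → ℝ) (X Z : Finset V) : ℝ :=
  ∑ y ∈ Z, (max (exW G q w X y) 0) ^ W

/-- the entropic soft potential -/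
noncomputable def potW (a q : ℝ) (W : ℕ) (w : V → ℝ) (X Z : Finset V) : ℝ :=
  Real.exp (a * entW w X) * PhiW G q W w X Z

/-- `f_x = W (κ_x - 1)`, `κ_x = (∑_y e(y)^(W-1) (1_{xy} - q)) / ∑_y e(y)^W` -/
noncomputable def fW (q : ℝ) (W : ℕ) (w : V → ℝ) (X Z : Finset V) (x : V) : ℝ :=
  W * ((∑ y ∈ Z, (max (exW G q w X y) 0) ^ (W - 1) * (ind G x y - q)) / PhiW G q W w X Z - 1)

/-- `k_x = log μ_x + H(μ)` -/
noncomputable def kW (w : V → ℝ) (X : Finset V) (x : V) : ℝ :=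
  Real.log (w x / totW w X) + entW w X

end defs

/-- Pointwise certificate (no irregularity term). -/
def CertI (a q L M : ℝ) : Prop :=
  ∃ (J : ℕ) (D0 : ℝ) (t τ1 τ2 τ3 A1 B1 A2 B2 : ℕ → ℝ),
    t 0 = 0 ∧ t J = 1 ∧ 0 < D0 ∧
    (∀ j < J, t j ≤ t (j + 1)) ∧
    (∀ j < J, 0 ≤ τ2 j + τ3 j) ∧
    (∀ j < J, 0 ≤ A1 j ∧ 0 ≤ B1 j ∧ 0 ≤ A2 j ∧ 0 ≤ B2 j) ∧
    (∀ j < J, ∀ r : ℝ, 0 ≤ r → r ≤ 1 → r ^ (1 - a) ≤ A1 j + B1 j * r) ∧
    (∀ j < J, ∀ r : ℝ, 0 ≤ r → r ≤ 1 → r ^ (1 - a) ≤ A2 j + B2 j * r) ∧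
    (∀ j < J, 0 ≤ cA (τ1 j) (τ2 j) (τ3 j) (t j)) ∧
    (∀ j < J, 0 ≤ cA (τ1 j) (τ2 j) (τ3 j) (t (j + 1))) ∧
    (∀ j < J, D0 ≤ cD q L M (τ1 j) (τ2 j) (τ3 j) (A1 j) (B1 j) (A2 j) (B2 j) (t j)) ∧
    (∀ j < J, D0 ≤ cD q L M (τ1 j) (τ2 j) (τ3 j) (A1 j) (B1 j) (A2 j) (B2 j) (t (j + 1)))

/-- STATEMENT (helper92): entropic one-step theorem. -/
def OneStepW : Prop :=
  ∀ (a q L M : ℝ), 0 < a → a ≤ 1 → 0 < q → q < 1 → CertI a q L M →
    ∃ ε2 : ℝ, 0 < ε2 ∧ ∀ K : ℝ, ∃ (W0 : ℕ) (θ δ : ℝ), 2 ≤ W0 ∧ 0 < θ ∧ 0 < δ ∧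
      ∀ (V : Type) [DecidableEq V] (G : SimpleGraph V) [DecidableRel G.Adj]
        (w : V → ℝ) (X Z : Finset V) (W : ℕ), W0 ≤ W → X.Nonempty → (∀ x ∈ X, 0 < w x) →
        0 < PhiW G q W w X Z →
        (∀ x ∈ X, |kW w X x| ≤ K) →
        (∀ T ⊆ X, |∑ x ∈ T, (w x / totW w X) * (fW G q W w X Z x - a * kW w X x)| ≤ ε2) →
        PhiW G q (W + 1) w X Z * PhiW G q (W - 1) w X Z
          ≤ (1 + θ ^ 2) * PhiW G q W w X Z ^ 2 →
        (∀ x ∈ X, (W : ℝ) * (w x / totW w X) * (PhiW G q (W - 1) w X Z / PhiW G q W w X Z) ≤ δ) →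
        (∀ x ∈ X, potW G a q W w (rN G x X) (rN G x Z) ≤ Real.exp (-L) * potW G a q W w X Z) →
        (∀ x ∈ X, potW G a q W w (bN G x X) Z ≤ Real.exp (-M) * potW G a q W w X Z) →
        False

/-- STATEMENT (helper34): Jensen lower bound for the moment sum of a reweighted subset. -/
def JensenPhi : Prop :=
  ∀ (V : Type) [DecidableEq V] (G : SimpleGraph V) [DecidableRel G.Adj]
    (q : ℝ) (w w' : V → ℝ) (X X' Z : Finset V) (W : ℕ), 2 ≤ W → X'.Nonempty → X' ⊆ X →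
    (∀ x ∈ X, 0 < w x) → (∀ x ∈ X', 0 < w' x) → 0 < PhiW G q W w X Z →
    PhiW G q W w X Z *
      (max ((∑ x ∈ X', w' x * (1 + fW G q W w X Z x / W)) / totW w' X') 0) ^ W
      ≤ PhiW G q W w' X' Z

/-- STATEMENT (helper38): if every level piece has much smaller potential than the whole weighted
set then contradiction.  `Q` is the logarithmic gap. -/
def LevelSplit : Prop :=
  ∀ (a β : ℝ), 0 < a → a ≤ 1 → 1 < β → ∀ (J : ℕ) (Q : ℝ), 1 ≤ J → a * Real.log J + 1 < Q →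
    ∃ W0 : ℕ, ∀ (V : Type) [DecidableEq V] (w f : V → ℝ) (X : Finset V) (W : ℕ), W0 ≤ W →
      X.Nonempty → (∀ x ∈ X, 1 ≤ w x ∧ w x ≤ β ^ J) → ∑ x ∈ X, w x * f x = 0 →
      (∀ S ⊆ X, S.Nonempty → ∀ i < J, (∀ x ∈ S, β ^ i ≤ w x ∧ w x ≤ β ^ (i + 1)) →
        Real.exp (a * entW w S) * (max ((∑ x ∈ S, w x * (1 + f x / W)) / totW w S) 0) ^ W
          ≤ Real.exp (-Q) * Real.exp (a * entW w X)) →
      False

/-- STATEMENT (helper60): consequence of near maximality under a tilt by `1 + δ` on `T`. -/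
def TiltBound : Prop :=
  ∀ (a δ ε K ζ : ℝ), 0 < a → a ≤ 1 → 0 < δ → δ ≤ 1 → 0 ≤ ε → 0 < ζ →
    ∃ W0 : ℕ, ∀ (V : Type) [DecidableEq V] (w f : V → ℝ) (X T : Finset V) (W : ℕ), W0 ≤ W →
      X.Nonempty → (∀ x ∈ X, 0 < w x) → (∀ x ∈ X, |kW w X x| ≤ K) → T ⊆ X →
      ∑ x ∈ X, w x * f x = 0 →
      (Real.exp (a * entW (fun x => if x ∈ T then (1 + δ) * w x else w x) X) *
        (max ((∑ x ∈ X, (if x ∈ T then (1 + δ) * w x else w x) * (1 + f x / W)) /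
          totW (fun x => if x ∈ T then (1 + δ) * w x else w x) X) 0) ^ W
          ≤ Real.exp ε * Real.exp (a * entW w X)) →
      ∑ x ∈ T, (w x / totW w X) * (f x - a * kW w X x) ≤ (1 + δ) * (ε + a * δ ^ 2 + ζ) / δ

/-- STATEMENT (helper34): the theorem `T1` with the pointwise certificate. -/
def T1I : Prop :=
  ∀ (a q L M η : ℝ), 0 < a → a ≤ 1 → 0 < q → q < 1 → 0 ≤ L → 0 ≤ M → 0 < η → CertI a q L M →
    ∃ C1 : ℝ, 0 ≤ C1 ∧
      ∀ (V : Type) [DecidableEq V] (G : SimpleGraph V) [DecidableRel G.Adj]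
        (X Z : Finset V) (N k l : ℕ) (E : ℝ),
        X.Nonempty → Z.Nonempty → X.card ≤ N → Z.card ≤ N →
        NoR G k (X ∪ Z) → NoB G l X →
        (∀ j ≤ k, ∀ Z' ⊆ Z, NoR G j Z' → (Z'.card : ℝ) ≤ E * Real.exp (j * L)) →
        (q + η) * X.card * Z.card ≤ ∑ x ∈ X, ∑ y ∈ Z, ind G x y →
        a * Real.log X.card + Real.log Z.card
          ≤ C1 * (1 + Real.sqrt (Real.log N)) + Real.log E + k * L + l * M

end Pool.Agent.H92
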