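import Mathlib

set_option linter.unusedSectionVars false

open Finset

namespace Pool.Agent.H92

/-- Tangent line inequality for `t ↦ (max t 0)^W`. -/
lemma tangent_pow {W : ℕ} (hW : 1 ≤ W) {t0 : ℝ} (h0 : 0 < t0) (t : ℝ) :
    t0 ^ (W - 1) * (t0 + W * (t - t0)) ≤ (max t 0) ^ W := by
  have hpos : 0 < t0 ^ (W - 1) := pow_pos h0 _
  rcases le_or_gt 0 t with ht | ht
  · rw [max_eq_left ht]
    have h1 : (1 : ℝ) + (W : ℝ) * (t / t0 - 1) ≤ (t / t0) ^ W := by
      have := one_add_mul_sub_le_pow (a := t / t0) (by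
        have : 0 ≤ t / t0 := div_nonneg ht h0.le
        linarith) W
      simpa using this
    have h2 : t0 ^ W * (1 + (W : ℝ) * (t / t0 - 1)) ≤ t0 ^ W * (t / t0) ^ W :=
      mul_le_mul_of_nonneg_left h1 (pow_nonneg h0.le _)
    have h3 : t0 ^ W * (t / t0) ^ W = t ^ W := by
      rw [← mul_pow]; congr 1; field_simp
    have h4 : t0 ^ (W - 1) * (t0 + W * (t - t0)) = t0 ^ W * (1 + (W : ℝ) * (t / t0 - 1)) := by
      obtain ⟨m, rfl⟩ : ∃ m, W = m + 1 := ⟨W - 1, by omega⟩
      simp only [Nat.add_sub_cancel, pow_succ]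
      field_simp
    rw [h4]; rw [h3] at h2; exact h2
  · rw [max_eq_right ht.le, zero_pow (by omega)]
    have hW' : (1 : ℝ) ≤ W := by exact_mod_cast hW
    have : t0 + W * (t - t0) ≤ 0 := by nlinarith
    exact mul_nonpos_of_nonneg_of_nonpos hpos.le this

/-- Perspective version: `s * (max (c/s) 0)^W` for `s ≥ 0`. -/
lemma tangent_persp {W : ℕ} (hW : 1 ≤ W) {t0 : ℝ} (h0 : 0 < t0) {s c : ℝ} (hs : 0 ≤ s)
    (hc : s = 0 → c ≤ 0) :
    t0 ^ (W - 1) * ((t0 + W * (1 - t0)) * s + W * (c - s)) ≤ s * (max (c / s) 0) ^ W := by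
  rcases hs.eq_or_lt with h | h
  · have hc' := hc h.symm
    subst h
    simp only [mul_zero, sub_zero, zero_add, zero_mul]
    have : (0:ℝ) ≤ t0 ^ (W - 1) := (pow_pos h0 _).le
    have hW' : (0 : ℝ) ≤ W := by positivity
    have : (W:ℝ) * c ≤ 0 := mul_nonpos_of_nonneg_of_nonpos hW' hc'
    exact mul_nonpos_of_nonneg_of_nonpos (pow_pos h0 _).le this
  · have h1 := tangent_pow hW h0 (c / s)
    have h2 := mul_le_mul_of_nonneg_left h1 h.le
    refine le_trans (le_of_eq ?_) h2
    field_simp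
    ring

section defs

variable {V : Type*} [DecidableEq V] (G : SimpleGraph V) [DecidableRel G.Adj]

/-- red neighbours of `x` in `S` -/
def rN (x : V) (S : Finset V) : Finset V := S.filter (fun z => G.Adj x z)

/-- blue neighbours of `x` in `S` -/
def bN (x : V) (S : Finset V) : Finset V := S.filter (fun z => z ≠ x ∧ ¬ G.Adj x z)

/-- adjacency indicator -/
def ind (x y : V) : ℝ := if G.Adj x y then 1 else 0

/-- total excess -/
def sE (q : ℝ) (S : Finset V) (y : V) : ℝ := ∑ x ∈ S, (ind G x y - q)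

/-- normalised excess -/
noncomputable def ex (q : ℝ) (S : Finset V) (y : V) : ℝ := sE G q S y / S.card

/-- the soft potential -/
noncomputable def pot (a q : ℝ) (W : ℕ) (X Z : Finset V) : ℝ :=
  (X.card : ℝ) ^ a * ∑ y ∈ Z, (max (ex G q X y) 0) ^ W

/-- the set of `y` with positive excess -/
noncomputable def Zp (q : ℝ) (X Z : Finset V) : Finset V := Z.filter (fun y => 0 < ex G q X y)

/-- moment sum -/
noncomputable def Phi (q : ℝ) (W : ℕ) (X Z : Finset V) : ℝ := ∑ y ∈ Zp G q X Z, (ex G q X y) ^ W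

/-- weights -/
noncomputable def rho (q : ℝ) (W : ℕ) (X Z : Finset V) (y : V) : ℝ :=
  (ex G q X y) ^ W / Phi G q W X Z

/-- normalised contribution of `x` -/
noncomputable def kap (q : ℝ) (W : ℕ) (X Z : Finset V) (x : V) : ℝ :=
  ∑ y ∈ Zp G q X Z, rho G q W X Z y * ((ind G x y - q) / ex G q X y)

variable {G}

lemma ind_nonneg (x y : V) : 0 ≤ ind G x y := by unfold ind; split_ifs <;> norm_num

lemma ind_le_one (x y : V) : ind G x y ≤ 1 := by unfold ind; split_ifs <;> norm_num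

lemma ind_comm (x y : V) : ind G x y = ind G y x := by unfold ind; simp [G.adj_comm]

lemma rN_subset (x : V) (S : Finset V) : rN G x S ⊆ S := filter_subset _ _

lemma bN_subset (x : V) (S : Finset V) : bN G x S ⊆ S := filter_subset _ _

lemma sum_split (f : V → ℝ) {x : V} {X : Finset V} (hx : x ∈ X) :
    ∑ z ∈ X, f z = ∑ z ∈ rN G x X, f z + ∑ z ∈ bN G x X, f z + f x := by
  have h1 : X = (rN G x X ∪ bN G x X) ∪ {x} := by
    ext z; simp only [rN, bN, mem_union, mem_filter, mem_singleton]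
    constructor
    · intro hz
      by_cases h : z = x
      · right; exact h
      · left
        by_cases h2 : G.Adj x z
        · left; exact ⟨hz, h2⟩
        · right; exact ⟨hz, h, h2⟩
    · rintro ((⟨h, _⟩ | ⟨h, _⟩) | h)
      · exact h
      · exact h
      · rw [h]; exact hx
  have hd1 : Disjoint (rN G x X) (bN G x X) := by
    rw [Finset.disjoint_left]; intro z hz hz'
    simp only [rN, bN, mem_filter] at hz hz'
    exact hz'.2.2 hz.2
  have hd2 : Disjoint (rN G x X ∪ bN G x X) {x} := by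
    rw [Finset.disjoint_left]; intro z hz hz'
    simp only [rN, bN, mem_filter, mem_union, mem_singleton] at hz hz'
    subst hz'
    rcases hz with hz | hz
    · exact G.loopless.irrefl _ hz.2
    · exact hz.2.1 rfl
  conv_lhs => rw [h1]
  rw [sum_union hd2, sum_union hd1, sum_singleton]

lemma card_split {x : V} {X : Finset V} (hx : x ∈ X) :
    (X.card : ℝ) = (rN G x X).card + (bN G x X).card + 1 := by
  have := sum_split (G := G) (fun _ => (1:ℝ)) hx
  simpa using this

lemma sE_split (q : ℝ) {x : V} {X : Finset V} (hx : x ∈ X) (y : V) :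
    sE G q X y = sE G q (rN G x X) y + sE G q (bN G x X) y + (ind G x y - q) := by
  unfold sE; exact sum_split _ hx

lemma sum_max_eq_Phi (q : ℝ) {W : ℕ} (hW : 1 ≤ W) (X Z : Finset V) :
    ∑ y ∈ Z, (max (ex G q X y) 0) ^ W = Phi G q W X Z := by
  unfold Phi Zp
  rw [Finset.sum_filter]
  apply Finset.sum_congr rfl
  intro y _
  split_ifs with h
  · rw [max_eq_left h.le]
  · rw [max_eq_right (not_lt.mp h), zero_pow (by omega)]

lemma pot_eq (a q : ℝ) {W : ℕ} (hW : 1 ≤ W) (X Z : Finset V) :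
    pot G a q W X Z = (X.card : ℝ) ^ a * Phi G q W X Z := by
  unfold pot; rw [sum_max_eq_Phi q hW]

lemma Phi_nonneg (q : ℝ) (W : ℕ) (X Z : Finset V) : 0 ≤ Phi G q W X Z := by
  unfold Phi Zp
  apply Finset.sum_nonneg
  intro y hy
  exact pow_nonneg (mem_filter.mp hy).2.le _

lemma ex_pos_of_mem {q : ℝ} {X Z : Finset V} {y : V} (hy : y ∈ Zp G q X Z) : 0 < ex G q X y :=
  (mem_filter.mp hy).2

lemma rho_nonneg {q : ℝ} {W : ℕ} {X Z : Finset V} {y : V} (hy : y ∈ Zp G q X Z) :
    0 ≤ rho G q W X Z y :=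
  div_nonneg (pow_nonneg (ex_pos_of_mem hy).le _) (Phi_nonneg _ _ _ _)

lemma rho_sum {q : ℝ} {W : ℕ} {X Z : Finset V} (hΦ : 0 < Phi G q W X Z) :
    ∑ y ∈ Zp G q X Z, rho G q W X Z y = 1 := by
  unfold rho
  rw [← Finset.sum_div]
  exact div_self hΦ.ne'

lemma Phi_mul_rho {q : ℝ} {W : ℕ} {X Z : Finset V} (hΦ : 0 < Phi G q W X Z) (y : V) :
    Phi G q W X Z * rho G q W X Z y = (ex G q X y) ^ W := by
  unfold rho; field_simp

/-- The average of `kap` over `X` is one. -/
lemma kap_sum {q : ℝ} {W : ℕ} {X Z : Finset V} (hΦ : 0 < Phi G q W X Z) (hX : X.Nonempty) :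
    ∑ x ∈ X, kap G q W X Z x = X.card := by
  unfold kap
  rw [Finset.sum_comm]
  have hn : (0:ℝ) < X.card := by exact_mod_cast hX.card_pos
  have : ∀ y ∈ Zp G q X Z, ∑ x ∈ X, rho G q W X Z y * ((ind G x y - q) / ex G q X y)
      = rho G q W X Z y * X.card := by
    intro y hy
    have he := ex_pos_of_mem hy
    rw [← Finset.mul_sum, ← Finset.sum_div]
    congr 1
    have : ∑ x ∈ X, (ind G x y - q) = ex G q X y * X.card := by
      unfold ex sE; field_simp
    rw [this]; field_simp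
  rw [Finset.sum_congr rfl this, ← Finset.sum_mul, rho_sum hΦ, one_mul]

/-- `kap` averaged over a subset. -/
lemma kap_sum_subset {q : ℝ} {W : ℕ} {X Z X' : Finset V} :
    ∑ x ∈ X', kap G q W X Z x
      = ∑ y ∈ Zp G q X Z, rho G q W X Z y * (sE G q X' y / ex G q X y) := by
  unfold kap
  rw [Finset.sum_comm]
  apply Finset.sum_congr rfl
  intro y _
  rw [← Finset.mul_sum, ← Finset.sum_div]; rfl

/-- Lower bound for the potential of a subset, by the tangent inequality. -/
lemma pot_subset_ge {a q : ℝ} {W : ℕ} (hW : 1 ≤ W) {X Z X' : Finset V}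
    (hΦ : 0 < Phi G q W X Z) (hX' : X'.Nonempty) {t0 : ℝ} (h0 : 0 < t0) :
    (X'.card : ℝ) ^ a * (Phi G q W X Z * (t0 ^ (W - 1) *
      (t0 + W * ((∑ x ∈ X', kap G q W X Z x) / X'.card - t0)))) ≤ pot G a q W X' Z := by
  have hs : (0:ℝ) < X'.card := by exact_mod_cast hX'.card_pos
  unfold pot
  apply mul_le_mul_of_nonneg_left _ (Real.rpow_nonneg hs.le _)
  have h1 : ∑ y ∈ Zp G q X Z, (max (ex G q X' y) 0) ^ W
      ≤ ∑ y ∈ Z, (max (ex G q X' y) 0) ^ W := by
    apply Finset.sum_le_sum_of_subset_of_nonneg (filter_subset _ _)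
    intro y _ _
    positivity
  refine le_trans ?_ h1
  have h2 : ∀ y ∈ Zp G q X Z, (ex G q X y) ^ W * (t0 ^ (W - 1) *
      (t0 + W * (ex G q X' y / ex G q X y - t0))) ≤ (max (ex G q X' y) 0) ^ W := by
    intro y hy
    have he := ex_pos_of_mem hy
    have h3 := mul_le_mul_of_nonneg_left (tangent_pow hW h0 (ex G q X' y / ex G q X y))
      (pow_nonneg he.le W)
    refine h3.trans (le_of_eq ?_)
    rw [← mul_pow]
    congr 1
    rw [mul_max_of_nonneg _ _ he.le, mul_zero]
    congr 1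
    field_simp
  refine le_trans (le_of_eq ?_) (Finset.sum_le_sum h2)
  rw [kap_sum_subset]
  have h4 : ∀ y ∈ Zp G q X Z, (ex G q X y) ^ W * (t0 ^ (W - 1) *
      (t0 + W * (ex G q X' y / ex G q X y - t0)))
      = Phi G q W X Z * t0 ^ (W - 1) * ((t0 - W * t0) * rho G q W X Z y
        + W / X'.card * (rho G q W X Z y * (sE G q X' y / ex G q X y))) := by
    intro y hy
    have he := ex_pos_of_mem hy
    rw [← Phi_mul_rho hΦ y]
    have : ex G q X' y = sE G q X' y / X'.card := rfl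
    rw [this]
    field_simp
    ring
  rw [Finset.sum_congr rfl h4, ← Finset.mul_sum, Finset.sum_add_distrib, ← Finset.mul_sum,
    ← Finset.mul_sum, rho_sum hΦ]
  field_simp
  ring

/-- weighted AM-GM in the form we need -/
lemma amgm {a : ℝ} (ha0 : 0 ≤ a) (ha1 : a ≤ 1) {p0 n s : ℝ} (hp : 0 < p0) (hn : 0 ≤ n)
    (hs : 0 ≤ s) : n ^ a * s ^ (1 - a) ≤ (1 - a) * p0 ^ (-a) * s + a * p0 ^ (1 - a) * n := by
  have h := Real.geom_mean_le_arith_mean2_weighted (w₁ := a) (w₂ := 1 - a)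
    (p₁ := p0 ^ (1 - a) * n) (p₂ := p0 ^ (-a) * s) ha0 (by linarith)
    (mul_nonneg (Real.rpow_nonneg hp.le _) hn) (mul_nonneg (Real.rpow_nonneg hp.le _) hs)
    (by ring)
  have h1 : (p0 ^ (1 - a) * n) ^ a * (p0 ^ (-a) * s) ^ (1 - a) = n ^ a * s ^ (1 - a) := by
    rw [Real.mul_rpow (Real.rpow_nonneg hp.le _) hn, Real.mul_rpow (Real.rpow_nonneg hp.le _) hs,
      ← Real.rpow_mul hp.le, ← Real.rpow_mul hp.le]
    have : p0 ^ ((1 - a) * a) * n ^ a * (p0 ^ (-a * (1 - a)) * s ^ (1 - a))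
        = (p0 ^ ((1 - a) * a) * p0 ^ (-a * (1 - a))) * (n ^ a * s ^ (1 - a)) := by ring
    rw [this, ← Real.rpow_add hp]
    have : (1 - a) * a + -a * (1 - a) = 0 := by ring
    rw [this, Real.rpow_zero, one_mul]
  rw [h1] at h
  linarith

/-- Consequence of maximality for subsets (linearised). -/
lemma subset_bound {a q : ℝ} (ha0 : 0 < a) (ha1 : a ≤ 1) {W : ℕ} (hW : 1 ≤ W) {X Z : Finset V}
    (hΦ : 0 < Phi G q W X Z)
    (hmax : ∀ X' ⊆ X, pot G a q W X' Z ≤ pot G a q W X Z)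
    {X' : Finset V} (hsub : X' ⊆ X) {t0 p0 : ℝ} (h0 : 0 < t0) (hp : 0 < p0) :
    ∑ x ∈ X', (W:ℝ) * (kap G q W X Z x - 1) ≤
      (W * t0 - W - t0 + (t0 ^ (W - 1))⁻¹ * ((1 - a) * p0 ^ (-a))) * X'.card
      + (t0 ^ (W - 1))⁻¹ * (a * p0 ^ (1 - a)) * X.card := by
  have hpow : 0 < t0 ^ (W - 1) := pow_pos h0 _
  rcases X'.eq_empty_or_nonempty with rfl | hne
  · simp only [sum_empty, card_empty, Nat.cast_zero, mul_zero, zero_add]
    have := Real.rpow_nonneg hp.le (1 - a)
    positivity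
  have hs : (0:ℝ) < X'.card := by exact_mod_cast hne.card_pos
  have hn : (0:ℝ) ≤ X.card := by positivity
  have h1 := (pot_subset_ge (a := a) hW hΦ hne h0).trans (hmax X' hsub)
  rw [pot_eq a q hW X Z] at h1
  have h2 : (X'.card : ℝ) ^ a * (t0 ^ (W - 1) *
      (t0 + W * ((∑ x ∈ X', kap G q W X Z x) / X'.card - t0))) ≤ (X.card : ℝ) ^ a := by
    have : (Phi G q W X Z) * ((X'.card : ℝ) ^ a * (t0 ^ (W - 1) *
      (t0 + W * ((∑ x ∈ X', kap G q W X Z x) / X'.card - t0))))
      ≤ Phi G q W X Z * (X.card : ℝ) ^ a := by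
      calc _ = (X'.card : ℝ) ^ a * (Phi G q W X Z * (t0 ^ (W - 1) *
      (t0 + W * ((∑ x ∈ X', kap G q W X Z x) / X'.card - t0)))) := by ring
        _ ≤ _ := h1
        _ = _ := by ring
    exact le_of_mul_le_mul_left this hΦ
  have h3 : (X'.card : ℝ) ^ (1 - a) * ((X'.card : ℝ) ^ a * (t0 ^ (W - 1) *
      (t0 + W * ((∑ x ∈ X', kap G q W X Z x) / X'.card - t0))))
      ≤ (X'.card : ℝ) ^ (1 - a) * (X.card : ℝ) ^ a :=
    mul_le_mul_of_nonneg_left h2 (Real.rpow_nonneg hs.le _)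
  have h4 : (X'.card : ℝ) ^ (1 - a) * (X'.card : ℝ) ^ a = X'.card := by
    rw [← Real.rpow_add hs]; simp
  have h5 : (t0 ^ (W - 1)) * (X'.card * (t0 + W * ((∑ x ∈ X', kap G q W X Z x) / X'.card - t0)))
      ≤ (X.card : ℝ) ^ a * (X'.card : ℝ) ^ (1 - a) := by
    calc _ = ((X'.card : ℝ) ^ (1 - a) * (X'.card : ℝ) ^ a) * (t0 ^ (W - 1) *
      (t0 + W * ((∑ x ∈ X', kap G q W X Z x) / X'.card - t0))) := by rw [h4]; ring
      _ = (X'.card : ℝ) ^ (1 - a) * ((X'.card : ℝ) ^ a * (t0 ^ (W - 1) *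
      (t0 + W * ((∑ x ∈ X', kap G q W X Z x) / X'.card - t0)))) := by ring
      _ ≤ _ := h3
      _ = _ := by ring
  have h6 := h5.trans (amgm ha0.le ha1 hp hn hs.le)
  have h7 : X'.card * (t0 + W * ((∑ x ∈ X', kap G q W X Z x) / X'.card - t0))
      ≤ (t0 ^ (W - 1))⁻¹ * ((1 - a) * p0 ^ (-a) * X'.card + a * p0 ^ (1 - a) * X.card) := by
    rw [inv_mul_eq_div, le_div_iff₀ hpow]
    calc _ = _ := mul_comm _ _
      _ ≤ _ := h6
  have h8 : X'.card * (t0 + W * ((∑ x ∈ X', kap G q W X Z x) / X'.card - t0))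
      = W * (∑ x ∈ X', kap G q W X Z x) + (t0 - W * t0) * X'.card := by
    field_simp
    ring
  rw [h8] at h7
  have h9 : ∑ x ∈ X', (W:ℝ) * (kap G q W X Z x - 1)
      = W * (∑ x ∈ X', kap G q W X Z x) - W * X'.card := by
    rw [← Finset.mul_sum, Finset.sum_sub_distrib]; simp; ring
  rw [h9]
  linarith

/-- box lemma -/
lemma box_bound {X : Finset V} {f : V → ℝ} {m ψ n Δ : ℝ} (hΔ : 0 ≤ Δ)
    (h : ∀ X' ⊆ X, ∑ x ∈ X', f x ≤ m * X'.card + ψ * n) {φ : V → ℝ}
    (hφ0 : ∀ x ∈ X, 0 ≤ φ x) (hφ1 : ∀ x ∈ X, φ x ≤ Δ) :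
    ∑ x ∈ X, φ x * f x ≤ m * ∑ x ∈ X, φ x + ψ * n * Δ := by
  have h1 : ∑ x ∈ X, φ x * (f x - m) ≤ ∑ x ∈ X.filter (fun x => m < f x), Δ * (f x - m) := by
    rw [Finset.sum_filter]
    apply Finset.sum_le_sum
    intro x hx
    split_ifs with hlt
    · exact mul_le_mul_of_nonneg_right (hφ1 x hx) (by linarith)
    · exact mul_nonpos_of_nonneg_of_nonpos (hφ0 x hx) (by linarith)
  have h2 := h _ (filter_subset (fun x => m < f x) X)
  have h3 : ∑ x ∈ X.filter (fun x => m < f x), Δ * (f x - m)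
      = Δ * (∑ x ∈ X.filter (fun x => m < f x), f x
        - m * (X.filter (fun x => m < f x)).card) := by
    rw [← Finset.mul_sum, Finset.sum_sub_distrib, Finset.sum_const, nsmul_eq_mul]; ring
  have h4 : Δ * (∑ x ∈ X.filter (fun x => m < f x), f x
        - m * (X.filter (fun x => m < f x)).card) ≤ Δ * (ψ * n) :=
    mul_le_mul_of_nonneg_left (by linarith) hΔ
  have h5 : ∑ x ∈ X, φ x * (f x - m) = ∑ x ∈ X, φ x * f x - m * ∑ x ∈ X, φ x := by
    rw [Finset.mul_sum, ← Finset.sum_sub_distrib]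
    apply Finset.sum_congr rfl; intro x _; ring
  rw [h5] at h1; rw [h3] at h1
  nlinarith

/-- every `kap` is at least `1 - a / W`, in particular nonnegative -/
lemma kap_ge {a q : ℝ} (ha0 : 0 < a) (ha1 : a ≤ 1) {W : ℕ} (hW : 1 ≤ W) {X Z : Finset V}
    (hΦ : 0 < Phi G q W X Z)
    (hmax : ∀ X' ⊆ X, pot G a q W X' Z ≤ pot G a q W X Z) {x : V} (hx : x ∈ X) :
    0 ≤ kap G q W X Z x := by
  have h1 := subset_bound ha0 ha1 hW hΦ hmax (X' := X.erase x) (erase_subset _ _)
    (t0 := 1) (p0 := 1) one_pos one_pos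
  have h2 := kap_sum hΦ ⟨x, hx⟩
  have h3 : ∑ z ∈ X.erase x, (W:ℝ) * (kap G q W X Z z - 1)
      = - (W * (kap G q W X Z x - 1)) := by
    have h4 : ∑ z ∈ X, (W:ℝ) * (kap G q W X Z z - 1) = 0 := by
      rw [← Finset.mul_sum, Finset.sum_sub_distrib, h2]; simp
    rw [← Finset.add_sum_erase _ _ hx] at h4
    linarith
  rw [h3, Finset.card_erase_of_mem hx] at h1
  have hc : 1 ≤ X.card := Finset.card_pos.mpr ⟨x, hx⟩
  rw [Nat.cast_sub hc] at h1
  simp only [one_pow, inv_one, Real.one_rpow, mul_one, one_mul, Nat.cast_one] at h1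
  have hW' : (1:ℝ) ≤ W := by exact_mod_cast hW
  have h5 : (W:ℝ) * (1 - kap G q W X Z x) ≤ a := by linarith
  by_contra hneg
  push Not at hneg
  nlinarith

/-- elementary inequality used for the concentration step -/
lemma conc_ineq {u θ c : ℝ} (hu : 0 < u) (hθ : 0 < θ) (hc : |c| ≤ 1) :
    -(θ / 2 * u + (1 / u - 2 + u) / (2 * θ)) ≤ c * (1 - u) := by
  have hc2 : c ^ 2 ≤ 1 := by
    have := abs_le.mp hc
    nlinarith
  have key : 0 ≤ 2 * θ * u * (c * (1 - u)) + θ ^ 2 * u ^ 2 + (1 - u) ^ 2 := by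
    nlinarith [sq_nonneg ((1 - u) + θ * u * c), mul_nonneg (sq_nonneg (θ * u)) (sub_nonneg.mpr hc2)]
  have h1 : c * (1 - u) + (θ / 2 * u + (1 / u - 2 + u) / (2 * θ))
      = (2 * θ * u * (c * (1 - u)) + θ ^ 2 * u ^ 2 + (1 - u) ^ 2) / (2 * θ * u) := by
    field_simp
    ring
  have h2 : 0 ≤ c * (1 - u) + (θ / 2 * u + (1 / u - 2 + u) / (2 * θ)) := by
    rw [h1]; positivity
  linarith

lemma rho_ex_sum {q : ℝ} {W : ℕ} {X Z : Finset V} :
    ∑ y ∈ Zp G q X Z, rho G q W X Z y * ex G q X y = Phi G q (W + 1) X Z / Phi G q W X Z := by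
  rw [Phi, Finset.sum_div]
  apply Finset.sum_congr rfl
  intro y _
  unfold rho; rw [pow_succ]; ring

lemma rho_inv_sum {q : ℝ} {W : ℕ} (hW : 1 ≤ W) {X Z : Finset V} :
    ∑ y ∈ Zp G q X Z, rho G q W X Z y / ex G q X y
      = Phi G q (W - 1) X Z / Phi G q W X Z := by
  rw [Phi, Finset.sum_div]
  apply Finset.sum_congr rfl
  intro y hy
  have he := ex_pos_of_mem hy
  obtain ⟨m, rfl⟩ : ∃ m, W = m + 1 := ⟨W - 1, by omega⟩
  unfold rho; rw [pow_succ, Nat.add_sub_cancel]; field_simp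

/-- the `rho`-measure of the red neighbourhood is at least `q - θ` for every `x ∈ X` -/
lemma qx_ge {a q : ℝ} (ha0 : 0 < a) (ha1 : a ≤ 1) (hq0 : 0 ≤ q) (hq1 : q ≤ 1)
    {W : ℕ} (hW : 1 ≤ W) {X Z : Finset V}
    (hΦ : 0 < Phi G q W X Z)
    (hmax : ∀ X' ⊆ X, pot G a q W X' Z ≤ pot G a q W X Z) {θ : ℝ} (hθ : 0 < θ)
    (hconc : Phi G q (W + 1) X Z * Phi G q (W - 1) X Z ≤ (1 + θ ^ 2) * Phi G q W X Z ^ 2)
    {x : V} (hx : x ∈ X) :
    q - θ ≤ ∑ y ∈ Zp G q X Z, rho G q W X Z y * ind G x y := by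
  set M := Phi G q (W - 1) X Z / Phi G q W X Z with hM
  have hMsum := rho_inv_sum (G := G) (q := q) hW (X := X) (Z := Z)
  have hEsum := rho_ex_sum (G := G) (q := q) (W := W) (X := X) (Z := Z)
  have hne : (Zp G q X Z).Nonempty := by
    by_contra h
    rw [Finset.not_nonempty_iff_eq_empty] at h
    unfold Phi at hΦ
    rw [h] at hΦ; simp at hΦ
  have hrpos : ∀ y ∈ Zp G q X Z, 0 < rho G q W X Z y := by
    intro y hy
    exact div_pos (pow_pos (ex_pos_of_mem hy) _) hΦ
  have hMpos : 0 < M := by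
    rw [hM, ← hMsum]
    exact Finset.sum_pos (fun y hy => div_pos (hrpos y hy) (ex_pos_of_mem hy)) hne
  have hME : M * (Phi G q (W + 1) X Z / Phi G q W X Z) ≤ 1 + θ ^ 2 := by
    rw [hM, div_mul_div_comm, div_le_iff₀ (by positivity)]
    nlinarith
  have hk := kap_ge ha0 ha1 hW hΦ hmax hx
  -- termwise
  have hterm : ∀ y ∈ Zp G q X Z, rho G q W X Z y * ((ind G x y - q) / ex G q X y) / M
      - rho G q W X Z y * (θ / 2 * (1 / (M * ex G q X y)) +
        (M * ex G q X y - 2 + 1 / (M * ex G q X y)) / (2 * θ))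
      ≤ rho G q W X Z y * (ind G x y - q) := by
    intro y hy
    have he := ex_pos_of_mem hy
    have hu : 0 < 1 / (M * ex G q X y) := by positivity
    have habs : |ind G x y - q| ≤ 1 := by
      have h1 := ind_nonneg (G := G) x y
      have h2 := ind_le_one (G := G) x y
      rw [abs_le]; constructor <;> linarith
    have h1 := conc_ineq hu hθ habs
    have h2 : 1 / (1 / (M * ex G q X y)) = M * ex G q X y := by field_simp
    rw [h2] at h1
    have h3 := mul_le_mul_of_nonneg_left h1 (hrpos y hy).le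
    have h4 : rho G q W X Z y * ((ind G x y - q) * (1 - 1 / (M * ex G q X y)))
        = rho G q W X Z y * (ind G x y - q)
          - rho G q W X Z y * ((ind G x y - q) / ex G q X y) / M := by
      field_simp
    rw [h4] at h3
    linarith
  have hsum := Finset.sum_le_sum hterm
  rw [Finset.sum_sub_distrib, ← Finset.sum_div] at hsum
  have e1 : ∑ y ∈ Zp G q X Z, rho G q W X Z y * ((ind G x y - q) / ex G q X y)
      = kap G q W X Z x := rfl
  have e2 : ∑ y ∈ Zp G q X Z, rho G q W X Z y * (θ / 2 * (1 / (M * ex G q X y)) +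
        (M * ex G q X y - 2 + 1 / (M * ex G q X y)) / (2 * θ))
      = (θ / 2 + 1 / (2 * θ)) * (1 / M) * (∑ y ∈ Zp G q X Z, rho G q W X Z y / ex G q X y)
        + 1 / (2 * θ) * M * (∑ y ∈ Zp G q X Z, rho G q W X Z y * ex G q X y)
        - 1 / θ * (∑ y ∈ Zp G q X Z, rho G q W X Z y) := by
    rw [Finset.mul_sum, Finset.mul_sum, Finset.mul_sum, ← Finset.sum_add_distrib,
      ← Finset.sum_sub_distrib]
    apply Finset.sum_congr rfl
    intro y hy
    have he := ex_pos_of_mem hy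
    field_simp
    ring
  rw [e1, e2, hMsum, hEsum, rho_sum hΦ, ← hM] at hsum
  have e3 : ∑ y ∈ Zp G q X Z, rho G q W X Z y * (ind G x y - q)
      = ∑ y ∈ Zp G q X Z, rho G q W X Z y * ind G x y - q := by
    have : ∀ y ∈ Zp G q X Z, rho G q W X Z y * (ind G x y - q)
        = rho G q W X Z y * ind G x y - rho G q W X Z y * q := by intro y _; ring
    rw [Finset.sum_congr rfl this, Finset.sum_sub_distrib, ← Finset.sum_mul, rho_sum hΦ, one_mul]
  rw [e3] at hsum
  have h5 : (θ / 2 + 1 / (2 * θ)) * (1 / M) * M = θ / 2 + 1 / (2 * θ) := by field_simp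
  rw [h5] at hsum
  have h6 : 1 / (2 * θ) * M * (Phi G q (W + 1) X Z / Phi G q W X Z)
      ≤ 1 / (2 * θ) * (1 + θ ^ 2) := by
    rw [mul_assoc]
    exact mul_le_mul_of_nonneg_left hME (by positivity)
  have h7 : 0 ≤ kap G q W X Z x / M := div_nonneg hk hMpos.le
  have h8 : θ / 2 + 1 / (2 * θ) + 1 / (2 * θ) * (1 + θ ^ 2) - 1 / θ * 1 = θ := by
    field_simp
    ring
  linarith

/-- normalised coordinate of a subset `S` of `X` -/
noncomputable def cc (G : SimpleGraph V) [DecidableRel G.Adj] (q : ℝ) (X S : Finset V) (y : V) : ℝ :=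
  sE G q S y / (X.card * ex G q X y)

lemma child_ineq {a q xh : ℝ} (hxh : 0 ≤ xh) {W : ℕ}
    {X Z S : Finset V} (hX : X.Nonempty)
    (hΦ : 0 < Phi G q W X Z) {i : V → ℝ}
    (h : (S.card : ℝ) ^ a * ∑ y ∈ Zp G q X Z, i y * (max (ex G q S y) 0) ^ W
      ≤ xh * ((X.card : ℝ) ^ a * Phi G q W X Z)) :
    ∑ y ∈ Zp G q X Z, rho G q W X Z y * i y *
      (((S.card : ℝ) / X.card) * (max (cc G q X S y / ((S.card : ℝ) / X.card)) 0) ^ W)
      ≤ xh * ((S.card : ℝ) / X.card) ^ (1 - a) := by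
  have hn : (0:ℝ) < X.card := by exact_mod_cast hX.card_pos
  rcases S.eq_empty_or_nonempty with rfl | hS
  · simp only [card_empty, Nat.cast_zero, zero_div, zero_mul, mul_zero, Finset.sum_const_zero]
    exact mul_nonneg hxh (Real.rpow_nonneg le_rfl _)
  have hs : (0:ℝ) < S.card := by exact_mod_cast hS.card_pos
  have h1 : ∀ y ∈ Zp G q X Z, i y * (max (ex G q S y) 0) ^ W
      = Phi G q W X Z * (rho G q W X Z y * i y *
        (max (cc G q X S y / ((S.card : ℝ) / X.card)) 0) ^ W) := by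
    intro y hy
    have he := ex_pos_of_mem hy
    have h2 : max (ex G q S y) 0
        = ex G q X y * max (cc G q X S y / ((S.card : ℝ) / X.card)) 0 := by
      rw [mul_max_of_nonneg _ _ he.le, mul_zero]
      congr 1
      unfold cc
      rw [show ex G q S y = sE G q S y / S.card from rfl]
      field_simp
    rw [h2, mul_pow, ← Phi_mul_rho hΦ y]
    ring
  rw [Finset.sum_congr rfl h1, ← Finset.mul_sum] at h
  set T := ∑ y ∈ Zp G q X Z, rho G q W X Z y * i y *
        (max (cc G q X S y / ((S.card : ℝ) / X.card)) 0) ^ W with hT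
  have h3 : (S.card : ℝ) ^ a * T ≤ xh * (X.card : ℝ) ^ a := by
    have : Phi G q W X Z * ((S.card : ℝ) ^ a * T) ≤ Phi G q W X Z * (xh * (X.card : ℝ) ^ a) := by
      calc _ = (S.card : ℝ) ^ a * (Phi G q W X Z * T) := by ring
        _ ≤ _ := h
        _ = _ := by ring
    exact le_of_mul_le_mul_left this hΦ
  have h4 : ((S.card : ℝ) / X.card) ^ a * T ≤ xh := by
    rw [Real.div_rpow hs.le hn.le, div_mul_eq_mul_div, div_le_iff₀ (Real.rpow_pos_of_pos hn _)]
    exact h3
  have hr : 0 < (S.card : ℝ) / X.card := div_pos hs hn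
  have h5 : ∑ y ∈ Zp G q X Z, rho G q W X Z y * i y *
      (((S.card : ℝ) / X.card) * (max (cc G q X S y / ((S.card : ℝ) / X.card)) 0) ^ W)
      = ((S.card : ℝ) / X.card) * T := by
    rw [hT, Finset.mul_sum]
    apply Finset.sum_congr rfl
    intro y _; ring
  rw [h5]
  calc ((S.card : ℝ) / X.card) * T
      = ((S.card : ℝ) / X.card) ^ (1 - a) * (((S.card : ℝ) / X.card) ^ a * T) := by
        rw [← mul_assoc, ← Real.rpow_add hr]; simp
    _ ≤ ((S.card : ℝ) / X.card) ^ (1 - a) * xh :=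
        mul_le_mul_of_nonneg_left h4 (Real.rpow_nonneg hr.le _)
    _ = _ := mul_comm _ _

/-- the quantity `g_x` -/
noncomputable def gx (G : SimpleGraph V) [DecidableRel G.Adj] (q : ℝ) (W : ℕ) (X Z : Finset V)
    (x : V) : ℝ :=
  ∑ y ∈ Zp G q X Z, rho G q W X Z y *
    (W * (cc G q X (rN G x X) y - ((rN G x X).card : ℝ) / X.card))

lemma g_lower {a q xh yh : ℝ} (hq0 : 0 ≤ q)
    (hxh : 0 ≤ xh) (hyh : 0 ≤ yh) {W : ℕ} (hW : 1 ≤ W)
    {X Z : Finset V} (hΦ : 0 < Phi G q W X Z) {x : V} (hx : x ∈ X)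
    (hred : pot G a q W (rN G x X) (rN G x Z) ≤ xh * pot G a q W X Z)
    (hblue : pot G a q W (bN G x X) Z ≤ yh * pot G a q W X Z)
    {t1 t2 t3 : ℝ} (ht1 : 0 < t1) (ht2 : 0 < t2) (ht3 : 0 < t3)
    (hc : t3 ^ (W - 1) ≤ t2 ^ (W - 1)) :
    (t2 ^ (W - 1) - t3 ^ (W - 1)) * (t1 + W * (1 - t1)) * (((rN G x X).card : ℝ) / X.card)
        * (∑ y ∈ Zp G q X Z, rho G q W X Z y * ind G x y)
      - (t2 ^ (W - 1) - t3 ^ (W - 1)) * (t1 ^ (W - 1))⁻¹ *
        (xh * (((rN G x X).card : ℝ) / X.card) ^ (1 - a))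
      + t2 ^ (W - 1) * (t2 + W * (1 - t2)) * (((bN G x X).card : ℝ) / X.card)
        * (∑ y ∈ Zp G q X Z, rho G q W X Z y * ind G x y)
      + t3 ^ (W - 1) * (t3 + W * (1 - t3)) * (((bN G x X).card : ℝ) / X.card)
        * (1 - ∑ y ∈ Zp G q X Z, rho G q W X Z y * ind G x y)
      - yh * (((bN G x X).card : ℝ) / X.card) ^ (1 - a)
      - (t2 ^ (W - 1) + t3 ^ (W - 1)) * (W / X.card *
          (Phi G q (W - 1) X Z / Phi G q W X Z))
      ≤ t3 ^ (W - 1) * gx G q W X Z x := by
  have hX : X.Nonempty := ⟨x, hx⟩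
  have hn : (0:ℝ) < X.card := by exact_mod_cast hX.card_pos
  set r : ℝ := ((rN G x X).card : ℝ) / X.card with hr
  set b : ℝ := ((bN G x X).card : ℝ) / X.card with hb
  have hr0 : 0 ≤ r := by positivity
  have hb0 : 0 ≤ b := by positivity
  set c1 := t1 ^ (W - 1) with hc1
  set c2 := t2 ^ (W - 1) with hc2
  set c3 := t3 ^ (W - 1) with hc3
  have hc1p : 0 < c1 := pow_pos ht1 _
  have hc2p : 0 < c2 := pow_pos ht2 _
  have hc3p : 0 < c3 := pow_pos ht3 _
  set qx := ∑ y ∈ Zp G q X Z, rho G q W X Z y * ind G x y with hqx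
  -- red child
  have hI : c1 * ((t1 + W * (1 - t1)) * r * qx +
      ∑ y ∈ Zp G q X Z, rho G q W X Z y * ind G x y * (W * (cc G q X (rN G x X) y - r)))
      ≤ xh * r ^ (1 - a) := by
    have h1 : ((rN G x X).card : ℝ) ^ a * ∑ y ∈ Zp G q X Z,
        ind G x y * (max (ex G q (rN G x X) y) 0) ^ W
        ≤ xh * ((X.card : ℝ) ^ a * Phi G q W X Z) := by
      rw [pot_eq a q hW X Z] at hred
      refine le_trans ?_ hred
      unfold pot
      apply mul_le_mul_of_nonneg_left _ (Real.rpow_nonneg (by positivity) _)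
      have h2 : ∑ y ∈ rN G x Z, (max (ex G q (rN G x X) y) 0) ^ W
          = ∑ y ∈ Z, ind G x y * (max (ex G q (rN G x X) y) 0) ^ W := by
        unfold rN; rw [Finset.sum_filter]
        apply Finset.sum_congr rfl
        intro y _
        unfold ind; split_ifs <;> simp
      rw [h2]
      apply Finset.sum_le_sum_of_subset_of_nonneg (filter_subset _ _)
      intro y _ _
      exact mul_nonneg (ind_nonneg _ _) (by positivity)
    have h3 := child_ineq hxh hX hΦ h1
    refine le_trans ?_ h3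
    have h4 : c1 * ((t1 + W * (1 - t1)) * r * qx +
      ∑ y ∈ Zp G q X Z, rho G q W X Z y * ind G x y * (W * (cc G q X (rN G x X) y - r)))
      = ∑ y ∈ Zp G q X Z, rho G q W X Z y * ind G x y *
        (c1 * ((t1 + W * (1 - t1)) * r + W * (cc G q X (rN G x X) y - r))) := by
      rw [hqx, Finset.mul_sum, ← Finset.sum_add_distrib, Finset.mul_sum]
      apply Finset.sum_congr rfl
      intro y _; ring
    rw [h4]
    apply Finset.sum_le_sum
    intro y hy
    apply mul_le_mul_of_nonneg_left _ (mul_nonneg (rho_nonneg hy) (ind_nonneg _ _))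
    apply tangent_persp hW ht1 hr0
    intro h0
    have h5 : (rN G x X).card = 0 := by
      rw [hr, div_eq_zero_iff] at h0
      rcases h0 with h0 | h0
      · exact_mod_cast h0
      · exact absurd h0 hn.ne'
    rw [Finset.card_eq_zero] at h5
    unfold cc sE
    rw [h5]; simp
  -- blue child
  have hII : c2 * ((t2 + W * (1 - t2)) * b * qx +
      ∑ y ∈ Zp G q X Z, rho G q W X Z y * ind G x y * (W * (cc G q X (bN G x X) y - b)))
      + c3 * ((t3 + W * (1 - t3)) * b * (1 - qx) +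
      ∑ y ∈ Zp G q X Z, rho G q W X Z y * (1 - ind G x y) * (W * (cc G q X (bN G x X) y - b)))
      ≤ yh * b ^ (1 - a) := by
    have h1 : ((bN G x X).card : ℝ) ^ a * ∑ y ∈ Zp G q X Z,
        1 * (max (ex G q (bN G x X) y) 0) ^ W
        ≤ yh * ((X.card : ℝ) ^ a * Phi G q W X Z) := by
      rw [pot_eq a q hW X Z] at hblue
      refine le_trans ?_ hblue
      unfold pot
      apply mul_le_mul_of_nonneg_left _ (Real.rpow_nonneg (by positivity) _)
      simp only [one_mul]
      apply Finset.sum_le_sum_of_subset_of_nonneg (filter_subset _ _)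
      intro y _ _
      positivity
    have h3 := child_ineq hyh hX hΦ h1
    refine le_trans ?_ h3
    have h4 : c2 * ((t2 + W * (1 - t2)) * b * qx +
      ∑ y ∈ Zp G q X Z, rho G q W X Z y * ind G x y * (W * (cc G q X (bN G x X) y - b)))
      + c3 * ((t3 + W * (1 - t3)) * b * (1 - qx) +
      ∑ y ∈ Zp G q X Z, rho G q W X Z y * (1 - ind G x y) * (W * (cc G q X (bN G x X) y - b)))
      = ∑ y ∈ Zp G q X Z, rho G q W X Z y * (ind G x y *
        (c2 * ((t2 + W * (1 - t2)) * b + W * (cc G q X (bN G x X) y - b)))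
        + (1 - ind G x y) *
        (c3 * ((t3 + W * (1 - t3)) * b + W * (cc G q X (bN G x X) y - b)))) := by
      have h1q : (1 - qx) = ∑ y ∈ Zp G q X Z, rho G q W X Z y * (1 - ind G x y) := by
        have : ∀ y ∈ Zp G q X Z, rho G q W X Z y * (1 - ind G x y)
          = rho G q W X Z y - rho G q W X Z y * ind G x y := by intro y _; ring
        rw [Finset.sum_congr rfl this, Finset.sum_sub_distrib, rho_sum hΦ]
      rw [h1q, hqx, Finset.mul_sum, Finset.mul_sum, ← Finset.sum_add_distrib,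
        ← Finset.sum_add_distrib, Finset.mul_sum, Finset.mul_sum, ← Finset.sum_add_distrib]
      apply Finset.sum_congr rfl
      intro y _; ring
    rw [h4]
    apply Finset.sum_le_sum
    intro y hy
    have hz : b = 0 → cc G q X (bN G x X) y ≤ 0 := by
      intro h0
      have h5 : (bN G x X).card = 0 := by
        rw [hb, div_eq_zero_iff] at h0
        rcases h0 with h0 | h0
        · exact_mod_cast h0
        · exact absurd h0 hn.ne'
      rw [Finset.card_eq_zero] at h5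
      unfold cc sE
      rw [h5]; simp
    have e2 := tangent_persp hW ht2 hb0 hz
    have e3 := tangent_persp hW ht3 hb0 hz
    rw [mul_one]
    apply mul_le_mul_of_nonneg_left _ (rho_nonneg hy)
    have i0 := ind_nonneg (G := G) x y
    have i1 := ind_le_one (G := G) x y
    calc _ ≤ ind G x y * (b * (max (cc G q X (bN G x X) y / b) 0) ^ W)
        + (1 - ind G x y) * (b * (max (cc G q X (bN G x X) y / b) 0) ^ W) :=
          add_le_add (mul_le_mul_of_nonneg_left e2 i0)
            (mul_le_mul_of_nonneg_left e3 (by linarith))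
      _ = _ := by ring
  -- relation between the two coordinates
  have hrel : ∀ y ∈ Zp G q X Z, (W:ℝ) * (r - cc G q X (rN G x X) y)
      - W / X.card * (1 / ex G q X y) ≤ W * (cc G q X (bN G x X) y - b) := by
    intro y hy
    have he := ex_pos_of_mem hy
    have h1 : cc G q X (rN G x X) y + cc G q X (bN G x X) y
        + (ind G x y - q) / (X.card * ex G q X y) = 1 := by
      unfold cc
      rw [← add_div, ← add_div, ← sE_split q hx y]
      unfold ex
      field_simp
      have : sE G q X y ≠ 0 := by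
        intro h0; unfold ex at he; rw [h0] at he; simp at he
      field_simp
    have h2 : r + b + 1 / X.card = 1 := by
      rw [hr, hb, ← add_div, ← add_div, ← card_split hx]; field_simp
    have h3 : (ind G x y - q) / (X.card * ex G q X y) ≤ 1 / (X.card * ex G q X y) := by
      apply div_le_div_of_nonneg_right _ (by positivity)
      have := ind_le_one (G := G) x y
      linarith
    have h4 : (1:ℝ) / (X.card * ex G q X y) = 1 / X.card * (1 / ex G q X y) := by field_simp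
    have hW' : (0:ℝ) ≤ W := by positivity
    have h5 : (r - cc G q X (rN G x X) y) - 1 / X.card * (1 / ex G q X y)
        ≤ cc G q X (bN G x X) y - b := by
      have : 0 ≤ (1:ℝ) / X.card := by positivity
      linarith
    calc _ = W * ((r - cc G q X (rN G x X) y) - 1 / X.card * (1 / ex G q X y)) := by ring
      _ ≤ _ := mul_le_mul_of_nonneg_left h5 hW'
  set δ := (W:ℝ) / X.card * (Phi G q (W - 1) X Z / Phi G q W X Z) with hδ
  have hδsum : ∑ y ∈ Zp G q X Z, rho G q W X Z y * (W / X.card * (1 / ex G q X y)) = δ := by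
    rw [hδ, ← rho_inv_sum hW, Finset.mul_sum]
    apply Finset.sum_congr rfl
    intro y _; ring
  have hδterm : ∀ y ∈ Zp G q X Z, 0 ≤ rho G q W X Z y * (W / X.card * (1 / ex G q X y)) := by
    intro y hy
    have he := ex_pos_of_mem hy
    exact mul_nonneg (rho_nonneg hy) (by positivity)
  set G1 := ∑ y ∈ Zp G q X Z, rho G q W X Z y * ind G x y *
    (W * (cc G q X (rN G x X) y - r)) with hG1
  set G2 := ∑ y ∈ Zp G q X Z, rho G q W X Z y * (1 - ind G x y) *
    (W * (cc G q X (rN G x X) y - r)) with hG2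
  set H1 := ∑ y ∈ Zp G q X Z, rho G q W X Z y * ind G x y *
    (W * (cc G q X (bN G x X) y - b)) with hH1
  set H2 := ∑ y ∈ Zp G q X Z, rho G q W X Z y * (1 - ind G x y) *
    (W * (cc G q X (bN G x X) y - b)) with hH2
  have hH1G : -G1 - δ ≤ H1 := by
    rw [hG1, hH1, ← hδsum, ← Finset.sum_neg_distrib, ← Finset.sum_sub_distrib]
    apply Finset.sum_le_sum
    intro y hy
    have e1 := mul_le_mul_of_nonneg_left (hrel y hy)
      (mul_nonneg (rho_nonneg (G := G) (q := q) (W := W) hy) (ind_nonneg (G := G) x y))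
    have e2 := hδterm y hy
    have i1 := ind_le_one (G := G) x y
    nlinarith [mul_nonneg e2 (sub_nonneg.mpr i1)]
  have hH2G : -G2 - δ ≤ H2 := by
    rw [hG2, hH2, ← hδsum, ← Finset.sum_neg_distrib, ← Finset.sum_sub_distrib]
    apply Finset.sum_le_sum
    intro y hy
    have i1 := ind_le_one (G := G) x y
    have i0 := ind_nonneg (G := G) x y
    have e1 := mul_le_mul_of_nonneg_left (hrel y hy)
      (mul_nonneg (rho_nonneg (G := G) (q := q) (W := W) hy) (sub_nonneg.mpr i1))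
    have e2 := hδterm y hy
    nlinarith [mul_nonneg e2 i0]
  have hg : gx G q W X Z x = G1 + G2 := by
    unfold gx
    rw [hG1, hG2, ← Finset.sum_add_distrib]
    apply Finset.sum_congr rfl
    intro y _; ring
  rw [hg]
  -- combine
  have hc23 : 0 ≤ c2 - c3 := by linarith
  have hG1le : G1 ≤ c1⁻¹ * (xh * r ^ (1 - a)) - (t1 + W * (1 - t1)) * r * qx := by
    have : (t1 + W * (1 - t1)) * r * qx + G1 ≤ c1⁻¹ * (xh * r ^ (1 - a)) := by
      rw [inv_mul_eq_div, le_div_iff₀ hc1p, mul_comm]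
      exact hI
    linarith
  have h1 := mul_le_mul_of_nonneg_left hG1le hc23
  have h2 := mul_le_mul_of_nonneg_left hH1G hc2p.le
  have h3 := mul_le_mul_of_nonneg_left hH2G hc3p.le
  nlinarith

/-- the averaging identity -/
lemma gx_sum {q : ℝ} {W : ℕ} {X Z : Finset V} (hΦ : 0 < Phi G q W X Z) :
    ∑ x ∈ X, gx G q W X Z x
      = ∑ x ∈ X, (((rN G x X).card : ℝ) / X.card) * (W * (kap G q W X Z x - 1)) := by
  have h1 : ∀ x ∈ X, gx G q W X Z x
      = ∑ y ∈ Zp G q X Z, rho G q W X Z y * (W * cc G q X (rN G x X) y)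
        - (((rN G x X).card : ℝ) / X.card) * W := by
    intro x _
    unfold gx
    have : ∀ y ∈ Zp G q X Z, rho G q W X Z y *
        (W * (cc G q X (rN G x X) y - ((rN G x X).card : ℝ) / X.card))
        = rho G q W X Z y * (W * cc G q X (rN G x X) y)
          - rho G q W X Z y * ((((rN G x X).card : ℝ) / X.card) * W) := by
      intro y _; ring
    rw [Finset.sum_congr rfl this, Finset.sum_sub_distrib, ← Finset.sum_mul, rho_sum hΦ, one_mul]
  rw [Finset.sum_congr rfl h1, Finset.sum_sub_distrib]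
  have h2 : ∑ x ∈ X, ∑ y ∈ Zp G q X Z, rho G q W X Z y * (W * cc G q X (rN G x X) y)
      = ∑ x ∈ X, (((rN G x X).card : ℝ) / X.card) * (W * kap G q W X Z x) := by
    rw [Finset.sum_comm]
    have h3 : ∀ y ∈ Zp G q X Z, ∑ x ∈ X, rho G q W X Z y * (W * cc G q X (rN G x X) y)
        = ∑ x ∈ X, (((rN G x X).card : ℝ) / X.card) *
          (W * (rho G q W X Z y * ((ind G x y - q) / ex G q X y))) := by
      intro y hy
      have h4 : ∑ x ∈ X, sE G q (rN G x X) y
          = ∑ x ∈ X, ((rN G x X).card : ℝ) * (ind G x y - q) := by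
        unfold sE rN
        simp_rw [Finset.sum_filter]
        rw [Finset.sum_comm]
        apply Finset.sum_congr rfl
        intro x _
        have : ∀ z ∈ X, (if G.Adj z x then ind G x y - q else 0)
            = (if G.Adj x z then (ind G x y - q) else 0) := by
          intro z _; simp [G.adj_comm]
        rw [Finset.sum_congr rfl this, ← Finset.sum_filter, Finset.sum_const, nsmul_eq_mul]
      calc _ = rho G q W X Z y * W / (X.card * ex G q X y) * ∑ x ∈ X, sE G q (rN G x X) y := by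
            rw [Finset.mul_sum]; apply Finset.sum_congr rfl; intro x _; unfold cc; ring
        _ = _ := by
            rw [h4, Finset.mul_sum]; apply Finset.sum_congr rfl; intro x _
            field_simp
    rw [Finset.sum_congr rfl h3, Finset.sum_comm]
    apply Finset.sum_congr rfl
    intro x _
    unfold kap
    rw [Finset.mul_sum, Finset.mul_sum]
  rw [h2, ← Finset.sum_sub_distrib]
  apply Finset.sum_congr rfl
  intro x _; ring

end defs

end Pool.Agent.H92
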