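import Pool.Agent.H92.RamseyI

/-!
Bootstrap part of the Ramsey project MP_28724c_co: from `T1` to `Bootstrap`, `DiagStep`,
and the translation to Ramsey numbers.
-/

set_option linter.unusedSectionVars false

open Finset

namespace Pool.Agent.H92

namespace D

section basics0
variable {V : Type*}

lemma NoR_mono {G : SimpleGraph V} {k : ℕ} {X Y : Finset V} (h : NoR G k X) (hY : Y ⊆ X) :
    NoR G k Y := fun S hS => h S (hS.trans hY)

lemma NoB_mono {G : SimpleGraph V} {k : ℕ} {X Y : Finset V} (h : NoB G k X) (hY : Y ⊆ X) :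
    NoB G k Y := fun S hS => h S (hS.trans hY)

lemma NoR_pos {G : SimpleGraph V} {k : ℕ} {X : Finset V} (h : NoR G k X) : 0 < k := by
  rcases Nat.eq_zero_or_pos k with rfl | hk
  · exfalso
    refine h ∅ (empty_subset _) ?_
    simp [SimpleGraph.isNClique_iff]
  · exact hk

lemma NoB_iff {G : SimpleGraph V} {k : ℕ} {X : Finset V} : NoB G k X ↔ NoR Gᶜ k X := Iff.rfl

lemma NoR_iff {G : SimpleGraph V} {k : ℕ} {X : Finset V} : NoR G k X ↔ NoB Gᶜ k X := by
  unfold NoR NoB
  rw [compl_compl]

lemma NoB_pos {G : SimpleGraph V} {k : ℕ} {X : Finset V} (h : NoB G k X) : 0 < k :=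
  NoR_pos (NoB_iff.1 h)

end basics0

section basics
variable {V : Type*} [DecidableEq V] {G : SimpleGraph V} [DecidableRel G.Adj]

lemma NoR_rN {k : ℕ} {X : Finset V} (h : NoR G k X) {x : V} (hx : x ∈ X) :
    NoR G (k - 1) (rN G x X) := by
  intro S hS hc
  have hk := NoR_pos h
  have h1 : G.IsNClique (k - 1 + 1) (insert x S) := by
    refine hc.insert ?_
    intro b hb
    have := hS hb
    simp only [rN, mem_filter] at this
    exact this.2
  rw [Nat.sub_add_cancel hk] at h1
  refine h _ ?_ h1
  intro y hy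
  rcases mem_insert.1 hy with rfl | hy
  · exact hx
  · exact rN_subset x X (hS hy)

lemma NoB_bN {k : ℕ} {X : Finset V} (h : NoB G k X) {x : V} (hx : x ∈ X) :
    NoB G (k - 1) (bN G x X) := by
  intro S hS hc
  have hk := NoB_pos h
  have h1 : Gᶜ.IsNClique (k - 1 + 1) (insert x S) := by
    refine hc.insert ?_
    intro b hb
    have := hS hb
    simp only [bN, mem_filter] at this
    rw [SimpleGraph.compl_adj]
    exact ⟨fun h => this.2.1 h.symm, this.2.2⟩
  rw [Nat.sub_add_cancel hk] at h1
  refine h _ ?_ h1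
  intro y hy
  rcases mem_insert.1 hy with rfl | hy
  · exact hx
  · exact bN_subset x X (hS hy)

lemma sum_ind (x : V) (X : Finset V) : ∑ y ∈ X, ind G x y = (rN G x X).card := by
  unfold ind rN
  rw [Finset.card_filter]
  push_cast
  rfl

lemma sum_ind_compl (x : V) (X : Finset V) :
    ∑ y ∈ X, ind Gᶜ x y = (bN G x X).card := by
  unfold ind bN
  rw [Finset.card_filter]
  push_cast
  refine Finset.sum_congr rfl fun y _ => ?_
  simp only [SimpleGraph.compl_adj]
  refine if_congr ?_ rfl rfl
  constructor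
  · rintro ⟨h1, h2⟩; exact ⟨fun h => h1 h.symm, h2⟩
  · rintro ⟨h1, h2⟩; exact ⟨fun h => h1 h.symm, h2⟩

lemma sum_ind_add (X : Finset V) :
    ∑ x ∈ X, ∑ y ∈ X, ind G x y + ∑ x ∈ X, ∑ y ∈ X, ind Gᶜ x y
      = (X.card : ℝ) ^ 2 - X.card := by
  have h1 : ∀ x ∈ X, ∑ y ∈ X, ind G x y + ∑ y ∈ X, ind Gᶜ x y = (X.card : ℝ) - 1 := by
    intro x hx
    rw [sum_ind, sum_ind_compl, card_split (G := G) hx]
    ring
  rw [← Finset.sum_add_distrib, Finset.sum_congr rfl h1]
  simp
  ring

end basics

/-- the Erdős–Szekeres bound, pointwise version -/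
lemma es_bound {u v : ℝ} (hu : 0 ≤ u) (hv : 0 ≤ v)
    (h : Real.exp (-u) + Real.exp (-v) ≤ 1) {V : Type*} (G : SimpleGraph V) :
    ∀ (n k l : ℕ) (X : Finset V), k + l = n → NoR G k X → NoB G l X →
      (X.card : ℝ) + 1 ≤ Real.exp (k * u + l * v) := by
  classical
  intro n
  induction n using Nat.strong_induction_on with
  | _ n ih =>
    intro k l X hn hR hB
    have hk := NoR_pos hR
    have hl := NoB_pos hB
    rcases X.eq_empty_or_nonempty with rfl | ⟨x, hx⟩
    · simp only [card_empty, Nat.cast_zero, zero_add]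
      apply Real.one_le_exp
      positivity
    · have h1 := ih (n - 1) (by omega) (k - 1) l (rN G x X) (by omega) (NoR_rN hR hx)
        (NoB_mono hB (rN_subset x X))
      have h2 := ih (n - 1) (by omega) k (l - 1) (bN G x X) (by omega)
        (NoR_mono hR (bN_subset x X)) (NoB_bN hB hx)
      have h3 := card_split (G := G) hx
      have e1 : Real.exp (((k - 1 : ℕ) : ℝ) * u + l * v)
          = Real.exp (k * u + l * v) * Real.exp (-u) := by
        rw [← Real.exp_add]; congr 1
        rw [Nat.cast_sub hk]; push_cast; ring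
      have e2 : Real.exp ((k : ℝ) * u + ((l - 1 : ℕ) : ℝ) * v)
          = Real.exp (k * u + l * v) * Real.exp (-v) := by
        rw [← Real.exp_add]; congr 1
        rw [Nat.cast_sub hl]; push_cast; ring
      rw [e1] at h1
      rw [e2] at h2
      have hpos := Real.exp_pos ((k : ℝ) * u + l * v)
      nlinarith

end D

open D

/-- Erdős–Szekeres lines are good. -/
theorem good_ES {u v : ℝ} (hu : 0 ≤ u) (hv : 0 ≤ v)
    (h : Real.exp (-u) + Real.exp (-v) ≤ 1) : Good u v := by
  intro ε hε
  refine ⟨1, one_pos, ?_⟩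
  intro V _ G X k l hR hB
  have h1 := es_bound hu hv h G (k + l) k l X rfl hR hB
  have h2 : Real.exp (k * u + l * v) ≤ Real.exp (ε * (k + l) + k * u + l * v) := by
    apply Real.exp_le_exp.2
    have : 0 ≤ ε * ((k : ℝ) + l) := by positivity
    linarith
  linarith

namespace D

lemma sqrt_le_lin {y δ : ℝ} (hy : 0 ≤ y) (hδ : 0 < δ) : Real.sqrt y ≤ δ * y + 1 / (4 * δ) := by
  have h1 : Real.sqrt y ^ 2 = y := Real.sq_sqrt hy
  have h2 : 0 ≤ (2 * δ * Real.sqrt y - 1) ^ 2 / (4 * δ) := by positivity
  have h3 : (2 * δ * Real.sqrt y - 1) ^ 2 / (4 * δ)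
      = δ * Real.sqrt y ^ 2 - Real.sqrt y + 1 / (4 * δ) := by
    field_simp; ring
  rw [h3, h1] at h2
  linarith

/-- threshold for the final contradiction -/
lemma thresh {a C1 K : ℝ} (ha : 0 < a) (hC1 : 0 ≤ C1) (hK : 0 ≤ K) :
    ∃ t0 : ℝ, ∀ t, t0 ≤ t → 0 ≤ t →
      C1 * (1 + Real.sqrt (Real.log 2 + K * t)) + Real.log 2 ≤ a * t := by
  set δ : ℝ := a / (2 * (C1 * K + 1)) with hδ
  have hCK : 0 < C1 * K + 1 := by positivity
  have hδ0 : 0 < δ := by positivity
  have hlog : 0 < Real.log 2 := Real.log_pos (by norm_num)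
  set B : ℝ := C1 * (1 + δ * Real.log 2 + 1 / (4 * δ)) + Real.log 2 with hB
  refine ⟨2 * B / a, fun t ht ht0 => ?_⟩
  have h1 : Real.sqrt (Real.log 2 + K * t) ≤ δ * (Real.log 2 + K * t) + 1 / (4 * δ) :=
    sqrt_le_lin (by positivity) hδ0
  have h2 : C1 * (1 + Real.sqrt (Real.log 2 + K * t))
      ≤ C1 * (1 + (δ * (Real.log 2 + K * t) + 1 / (4 * δ))) := by gcongr
  have h3 : C1 * K * δ ≤ a / 2 := by
    rw [hδ]
    rw [mul_div_assoc', div_le_div_iff₀ (by positivity) (by norm_num)]
    nlinarith
  have h4 : C1 * K * δ * t ≤ a / 2 * t := mul_le_mul_of_nonneg_right h3 ht0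
  have h5 : B ≤ a / 2 * t := by
    rw [div_le_iff₀ ha] at ht
    linarith
  have h6 : C1 * (1 + (δ * (Real.log 2 + K * t) + 1 / (4 * δ))) + Real.log 2
      = B + C1 * K * δ * t := by rw [hB]; ring
  linarith

/-- The induction hypothesis: bound for all smaller pairs `(k,l)`. -/
def IHyp {V : Type} (G : SimpleGraph V) {ι : Type} (u v : ι → ℝ) (C ε : ℝ) (n : ℕ) : Prop :=
  ∀ (k l : ℕ) (X : Finset V), k + l < n → NoR G k X → NoB G l X →
    ∀ m, (X.card : ℝ) ≤ C * Real.exp (ε * (k + l) + k * u m + l * v m)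

lemma IHyp.compl {V : Type} {G : SimpleGraph V} {ι : Type} {u v : ι → ℝ} {C ε : ℝ} {n : ℕ}
    (h : IHyp G u v C ε n) : IHyp Gᶜ v u C ε n := by
  intro k l X hn hR hB m
  have h1 : NoB G k X := hR
  have h2 : NoR G l X := NoR_iff.2 hB
  have h3 := h l k X (by omega) h2 h1 m
  refine h3.trans (le_of_eq ?_)
  congr 2; ring

/-- The one-sided contradiction. -/
lemma red_contra (hT : T1) {ι : Type} [Fintype ι] (u v : ι → ℝ) (hu : ∀ i, 0 ≤ u i)
    (hv : ∀ i, 0 ≤ v i) (i : ι) (q η ε : ℝ) (hη : 0 < η) (hε : 0 < ε)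
    (hst : Real.exp (-u i) ≤ q ∨ StepC u v (u i) (v i) q) :
    ∃ C0 : ℝ, ∀ C : ℝ, C0 ≤ C → 1 ≤ C →
      ∀ (V : Type) [DecidableEq V] (G : SimpleGraph V) [DecidableRel G.Adj]
        (X : Finset V) (k l : ℕ), NoR G k X → NoB G l X →
        (∀ m, k * u i + l * v i ≤ k * u m + l * v m) →
        C * Real.exp (ε * (k + l) + k * u i + l * v i) < X.card →
        (X.card : ℝ) ≤ 2 * (C * Real.exp (ε * (k + l) + k * u i + l * v i)) →
        IHyp G u v C ε (k + l) →
        (q + η) * X.card * X.card ≤ ∑ x ∈ X, ∑ y ∈ X, ind G x y → False := by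
  rcases hst with hst | hst
  · refine ⟨0, ?_⟩
    intro C _ hC1 V _ G _ X k l hR hB hmin hlt hle hI hsum
    have hCpos : 0 < C := lt_of_lt_of_le one_pos hC1
    have hk := NoR_pos hR
    have hdeg : ∀ x ∈ X, ∑ y ∈ X, ind G x y ≤ q * X.card := by
      intro x hx
      rw [sum_ind]
      have h1 := hI (k - 1) l (rN G x X) (by omega) (NoR_rN hR hx)
        (NoB_mono hB (rN_subset x X)) i
      have h2 : C * Real.exp (ε * (((k - 1 : ℕ) : ℝ) + l) + ((k - 1 : ℕ) : ℝ) * u i + l * v i)
          = C * Real.exp (ε * (k + l) + k * u i + l * v i) * (Real.exp (-ε) * Real.exp (-u i)) := by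
        rw [mul_assoc, ← Real.exp_add, ← Real.exp_add]
        congr 2
        rw [Nat.cast_sub hk]; push_cast; ring
      rw [h2] at h1
      have h3 : Real.exp (-ε) ≤ 1 := Real.exp_le_one_iff.2 (by linarith)
      have h4 : Real.exp (-ε) * Real.exp (-u i) ≤ q := by
        have := Real.exp_pos (-u i)
        nlinarith
      have h0 : 0 ≤ Real.exp (-ε) * Real.exp (-u i) := by positivity
      calc ((rN G x X).card : ℝ) ≤ _ := h1
        _ ≤ (X.card : ℝ) * (Real.exp (-ε) * Real.exp (-u i)) := by gcongr
        _ ≤ (X.card : ℝ) * q := by gcongr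
        _ = q * X.card := by ring
    have h5 : ∑ x ∈ X, ∑ y ∈ X, ind G x y ≤ q * X.card * X.card := by
      refine (Finset.sum_le_sum hdeg).trans (le_of_eq ?_)
      simp; ring
    have hXpos : (0 : ℝ) < X.card := lt_of_le_of_lt (by positivity) hlt
    have h6 : 0 < η * X.card * X.card := by positivity
    nlinarith
  · obtain ⟨a, L, M, v', w, s, ha, ha1, hq, hq1, hL, hM, hcert, hw, hw1, hwL, hwv, hs, h1, h2⟩ := hst
    obtain ⟨C1, hC1, hT1⟩ := hT a q L M η ha ha1 hq hq1 hL hM hη hcert
    obtain ⟨t0, ht0⟩ := thresh (a := a) (C1 := C1) (K := 1 + (u i + v i) / ε) ha hC1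
      (by have := hu i; have := hv i; positivity)
    refine ⟨Real.exp t0, ?_⟩
    intro C hC0 hC1' V _ G _ X k l hR hB hmin hlt hle hI hsum
    have hCpos : 0 < C := lt_of_lt_of_le one_pos hC1'
    have hXpos : (0 : ℝ) < X.card := lt_of_le_of_lt (by positivity) hlt
    have hXne : X.Nonempty := by
      rw [← Finset.card_pos]; exact_mod_cast hXpos
    have hv'0 : 0 ≤ v' := le_trans (Finset.sum_nonneg fun m _ => mul_nonneg (hw m) (hv m)) hwv
    -- convex combination
    have hcc : ∀ j : ℕ, ∑ m, w m * (j * u m + l * v m) ≤ j * L + l * v' := by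
      intro j
      have e1 : ∑ m, w m * (j * u m + l * v m)
          = j * ∑ m, w m * u m + l * ∑ m, w m * v m := by
        rw [Finset.mul_sum, Finset.mul_sum, ← Finset.sum_add_distrib]
        exact Finset.sum_congr rfl fun m _ => by ring
      rw [e1]
      have hj : (0 : ℝ) ≤ j := by positivity
      have hl : (0 : ℝ) ≤ l := by positivity
      nlinarith [mul_le_mul_of_nonneg_left hwL hj, mul_le_mul_of_nonneg_left hwv hl]
    have hmain := hT1 V G X X X.card k l (2 * C * Real.exp (ε * (k + l) + l * v'))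
      hXne hXne le_rfl le_rfl (by rwa [union_self]) hB ?_ hsum
    · -- final contradiction
      set N : ℝ := (X.card : ℝ) with hN
      set t : ℝ := Real.log C + ε * (k + l) with ht
      have hlogC : 0 ≤ Real.log C := Real.log_nonneg hC1'
      have ht0' : t0 ≤ t := by
        have h3 : t0 ≤ Real.log C := by
          rw [← Real.log_exp t0]
          exact Real.log_le_log (Real.exp_pos _) hC0
        have h4 : 0 ≤ ε * ((k : ℝ) + l) := by positivity
        linarith
      have htn : 0 ≤ t := by
        have h4 : 0 ≤ ε * ((k : ℝ) + l) := by positivity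
        linarith
      have h3 := ht0 t ht0' htn
      -- log N upper
      have hlogN : Real.log N ≤ Real.log 2 + (1 + (u i + v i) / ε) * t := by
        have e1 : Real.log N ≤ Real.log (2 * (C * Real.exp (ε * (k + l) + k * u i + l * v i))) :=
          Real.log_le_log hXpos hle
        rw [Real.log_mul (by norm_num) (by positivity), Real.log_mul (by positivity)
          (by positivity), Real.log_exp] at e1
        have e2 : (k : ℝ) * u i + l * v i ≤ (u i + v i) / ε * t := by
          have f1 : (u i + v i) / ε * (ε * (k + l)) ≤ (u i + v i) / ε * t := by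
            have := hu i
            have := hv i
            apply mul_le_mul_of_nonneg_left _ (by positivity)
            linarith
          have f2 : (u i + v i) / ε * (ε * (k + l)) = (u i + v i) * (k + l) := by
            field_simp
          have f3 : (0 : ℝ) ≤ k * v i := mul_nonneg (by positivity) (hv i)
          have f4 : (0 : ℝ) ≤ l * u i := mul_nonneg (by positivity) (hu i)
          nlinarith
        nlinarith
      have hsqrt : Real.sqrt (Real.log N)
          ≤ Real.sqrt (Real.log 2 + (1 + (u i + v i) / ε) * t) := Real.sqrt_le_sqrt hlogN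
      -- log N lower
      have hlogN2 : Real.log C + (ε * (k + l) + k * u i + l * v i) < Real.log N := by
        have e1 := Real.log_lt_log (by positivity) hlt
        rwa [Real.log_mul (by positivity) (by positivity), Real.log_exp] at e1
      -- log E
      have hlogE : Real.log (2 * C * Real.exp (ε * (k + l) + l * v'))
          = Real.log 2 + Real.log C + (ε * (k + l) + l * v') := by
        rw [Real.log_mul (by positivity) (by positivity), Real.log_mul (by norm_num)
          (by positivity), Real.log_exp]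
      rw [hlogE] at hmain
      -- multipliers
      have hsum2 : (k : ℝ) * L + l * (M + v') ≤ (1 + a) * (k * u i + l * v i) := by
        have e1 : (k : ℝ) * L + k * ∑ m, s m * u m ≤ k * ((1 + a + ∑ m, s m) * u i) := by
          have := mul_le_mul_of_nonneg_left h1 (by positivity : (0:ℝ) ≤ k)
          linarith
        have e2 : (l : ℝ) * (M + v') + l * ∑ m, s m * v m ≤ l * ((1 + a + ∑ m, s m) * v i) := by
          have := mul_le_mul_of_nonneg_left h2 (by positivity : (0:ℝ) ≤ l)
          linarith
        have e3 : (∑ m, s m) * (k * u i + l * v i)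
            ≤ k * ∑ m, s m * u m + l * ∑ m, s m * v m := by
          rw [Finset.sum_mul, Finset.mul_sum, Finset.mul_sum, ← Finset.sum_add_distrib]
          refine Finset.sum_le_sum fun m _ => ?_
          have := mul_le_mul_of_nonneg_left (hmin m) (hs m)
          linarith
        nlinarith
      have h5 : C1 * (1 + Real.sqrt (Real.log N))
          ≤ C1 * (1 + Real.sqrt (Real.log 2 + (1 + (u i + v i) / ε) * t)) := by gcongr
      have h6 : (1 + a) * (Real.log C + (ε * (k + l) + k * u i + l * v i))
          < (1 + a) * Real.log N := by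
        apply mul_lt_mul_of_pos_left hlogN2; linarith
      nlinarith
    · intro j hj Z' hZ' hRZ
      rw [mul_assoc, ← Real.exp_add] 
      rcases Z'.eq_empty_or_nonempty with rfl | hne
      · simp only [card_empty, Nat.cast_zero]; positivity
      have hZpos : (0 : ℝ) < Z'.card := by exact_mod_cast hne.card_pos
      rcases hj.lt_or_eq with hj | rfl
      · have e1 : ∀ m, Real.log Z'.card ≤ Real.log C + ε * (j + l) + (j * u m + l * v m) := by
          intro m
          have f1 := hI j l Z' (by omega) hRZ (NoB_mono hB hZ') m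
          have f2 := Real.log_le_log hZpos f1
          rw [Real.log_mul (by positivity) (by positivity), Real.log_exp] at f2
          linarith
        have e2 : Real.log Z'.card ≤ Real.log C + ε * (j + l) + (j * L + l * v') := by
          have f1 : ∑ m, w m * Real.log Z'.card
              ≤ ∑ m, w m * (Real.log C + ε * (j + l) + (j * u m + l * v m)) :=
            Finset.sum_le_sum fun m _ => mul_le_mul_of_nonneg_left (e1 m) (hw m)
          have f2 : ∑ m, w m * (Real.log C + ε * (j + l) + (j * u m + l * v m))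
              = (∑ m, w m) * (Real.log C + ε * (j + l)) + ∑ m, w m * (j * u m + l * v m) := by
            rw [Finset.sum_mul, ← Finset.sum_add_distrib]
            exact Finset.sum_congr rfl fun m _ => by ring
          rw [← Finset.sum_mul, f2, hw1, one_mul, one_mul] at f1
          linarith [hcc j]
        have e3 : (Z'.card : ℝ) ≤ C * Real.exp (ε * (j + l) + (j * L + l * v')) := by
          rw [← Real.log_le_log_iff hZpos (by positivity), Real.log_mul (by positivity)
            (by positivity), Real.log_exp]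
          linarith
        have e4 : Real.exp (ε * (j + l) + (j * L + l * v'))
            ≤ Real.exp (ε * (k + l) + l * v' + j * L) := by
          apply Real.exp_le_exp.2
          have : (j : ℝ) ≤ k := by exact_mod_cast hj.le
          have := mul_le_mul_of_nonneg_left this hε.le
          nlinarith
        calc (Z'.card : ℝ) ≤ C * Real.exp (ε * (j + l) + (j * L + l * v')) := e3
          _ ≤ C * Real.exp (ε * (k + l) + l * v' + j * L) := by gcongr
          _ ≤ 2 * (C * Real.exp (ε * (k + l) + l * v' + j * L)) := by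
            have : 0 ≤ C * Real.exp (ε * (k + l) + l * v' + j * L) := by positivity
            linarith
          _ = _ := by ring
      · have e1 : (Z'.card : ℝ) ≤ X.card := by exact_mod_cast card_le_card hZ'
        have e2 : (j : ℝ) * u i + l * v i ≤ j * L + l * v' := by
          have f1 : ∑ m, w m * (j * u i + l * v i) ≤ ∑ m, w m * (j * u m + l * v m) :=
            Finset.sum_le_sum fun m _ => mul_le_mul_of_nonneg_left (hmin m) (hw m)
          rw [← Finset.sum_mul, hw1, one_mul] at f1
          linarith [hcc j]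
        have e3 : Real.exp (ε * (j + l) + j * u i + l * v i)
            ≤ Real.exp (ε * (j + l) + l * v' + j * L) := by
          apply Real.exp_le_exp.2; linarith
        calc (Z'.card : ℝ) ≤ X.card := e1
          _ ≤ 2 * (C * Real.exp (ε * (j + l) + j * u i + l * v i)) := hle
          _ ≤ 2 * (C * Real.exp (ε * (j + l) + l * v' + j * L)) := by gcongr
          _ = _ := by ring

end D

namespace D

/-- no violation at level `(k,l)` when all smaller levels are fine -/
lemma no_violation (hT : T1) {ι : Type} [Fintype ι] (u v : ι → ℝ) (hu : ∀ i, 0 ≤ u i)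
    (hv : ∀ i, 0 ≤ v i) (i : ι) (ε : ℝ) (hε : 0 < ε)
    (hcase : Real.exp (-u i) + Real.exp (-v i) ≤ 1 ∨
      ∃ qr qb : ℝ, qr + qb < 1 ∧
        (Real.exp (-u i) ≤ qr ∨ StepC u v (u i) (v i) qr) ∧
        (Real.exp (-v i) ≤ qb ∨ StepC v u (v i) (u i) qb)) :
    ∃ C0 : ℝ, ∀ C : ℝ, C0 ≤ C → 1 ≤ C →
      ∀ (V : Type) (G : SimpleGraph V)
        (X : Finset V) (k l : ℕ), NoR G k X → NoB G l X →
        (∀ m, k * u i + l * v i ≤ k * u m + l * v m) →
        C * Real.exp (ε * (k + l) + k * u i + l * v i) < X.card →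
        (X.card : ℝ) ≤ 2 * (C * Real.exp (ε * (k + l) + k * u i + l * v i)) →
        IHyp G u v C ε (k + l) → False := by
  classical
  rcases hcase with hES | ⟨qr, qb, hq, hred, hblue⟩
  · refine ⟨1 / (1 - Real.exp (-ε)), ?_⟩
    intro C hC0 hC1 V G X k l hR hB hmin hlt hle hI
    have hCpos : 0 < C := lt_of_lt_of_le one_pos hC1
    have hXpos : (0 : ℝ) < X.card := lt_of_le_of_lt (by positivity) hlt
    have hXne : X.Nonempty := by
      rw [← Finset.card_pos]; exact_mod_cast hXpos
    obtain ⟨x, hx⟩ := hXne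
    have hk := NoR_pos hR
    have hl := NoB_pos hB
    have h1 := hI (k - 1) l (rN G x X) (by omega) (NoR_rN hR hx)
        (NoB_mono hB (rN_subset x X)) i
    have h2 := hI k (l - 1) (bN G x X) (by omega)
        (NoR_mono hR (bN_subset x X)) (NoB_bN hB hx) i
    have h3 := card_split (G := G) hx
    have e1 : C * Real.exp (ε * (((k - 1 : ℕ) : ℝ) + l) + ((k - 1 : ℕ) : ℝ) * u i + l * v i)
          = C * Real.exp (ε * (k + l) + k * u i + l * v i) * Real.exp (-ε) * Real.exp (-u i) := by
        rw [mul_assoc, mul_assoc, ← Real.exp_add, ← Real.exp_add]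
        congr 2
        rw [Nat.cast_sub hk]; push_cast; ring
    have e2 : C * Real.exp (ε * ((k : ℝ) + ((l - 1 : ℕ) : ℝ)) + k * u i
          + ((l - 1 : ℕ) : ℝ) * v i)
          = C * Real.exp (ε * (k + l) + k * u i + l * v i) * Real.exp (-ε) * Real.exp (-v i) := by
        rw [mul_assoc, mul_assoc, ← Real.exp_add, ← Real.exp_add]
        congr 2
        rw [Nat.cast_sub hl]; push_cast; ring
    rw [e1] at h1
    rw [e2] at h2
    set B : ℝ := C * Real.exp (ε * (k + l) + k * u i + l * v i) with hBdef
    have hBC : C ≤ B := by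
      have h4 : 1 ≤ Real.exp (ε * (k + l) + k * u i + l * v i) := by
        apply Real.one_le_exp
        have := hu i
        have := hv i
        positivity
      nlinarith
    have hBpos : 0 < B := lt_of_lt_of_le hCpos hBC
    have he : Real.exp (-ε) < 1 := by
      rw [Real.exp_lt_one_iff]; linarith
    have h5 : 1 ≤ C * (1 - Real.exp (-ε)) := by
      rwa [div_le_iff₀ (by linarith)] at hC0
    have h6 : B * Real.exp (-ε) * (Real.exp (-u i) + Real.exp (-v i)) ≤ B * Real.exp (-ε) * 1 := by
      gcongr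
    have h7 : C * (1 - Real.exp (-ε)) ≤ B * (1 - Real.exp (-ε)) := by
      apply mul_le_mul_of_nonneg_right hBC; linarith
    nlinarith
  · set η : ℝ := (1 - qr - qb) / 4 with hη
    have hη0 : 0 < η := by rw [hη]; linarith
    obtain ⟨Cr, hCr⟩ := red_contra hT u v hu hv i qr η ε hη0 hε hred
    obtain ⟨Cb, hCb⟩ := red_contra hT v u hv hu i qb η ε hη0 hε hblue
    refine ⟨max (max Cr Cb) (1 / (2 * η)), ?_⟩
    intro C hC0 hC1 V G X k l hR hB hmin hlt hle hI
    have hCpos : 0 < C := lt_of_lt_of_le one_pos hC1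
    have hC0r : Cr ≤ C := le_trans (le_trans (le_max_left _ _) (le_max_left _ _)) hC0
    have hC0b : Cb ≤ C := le_trans (le_trans (le_max_right _ _) (le_max_left _ _)) hC0
    have hC0η : 1 / (2 * η) ≤ C := le_trans (le_max_right _ _) hC0
    have hXpos : (0 : ℝ) < X.card := lt_of_le_of_lt (by positivity) hlt
    have hBC : C ≤ C * Real.exp (ε * (k + l) + k * u i + l * v i) := by
      have h4 : 1 ≤ Real.exp (ε * (k + l) + k * u i + l * v i) := by
        apply Real.one_le_exp
        have := hu i
        have := hv i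
        positivity
      nlinarith
    by_cases hsr : (qr + η) * X.card * X.card ≤ ∑ x ∈ X, ∑ y ∈ X, ind G x y
    · exact hCr C hC0r hC1 V G X k l hR hB hmin hlt hle hI hsr
    by_cases hsb : (qb + η) * X.card * X.card ≤ ∑ x ∈ X, ∑ y ∈ X, ind Gᶜ x y
    · have harg : ε * ((l : ℝ) + k) + l * v i + k * u i = ε * (k + l) + k * u i + l * v i := by
        ring
      refine hCb C hC0b hC1 V Gᶜ X l k hB (NoR_iff.1 hR) ?_ ?_ ?_ ?_ hsb
      · intro m
        linarith [hmin m]
      · rw [harg]; exact hlt
      · rw [harg]; exact hle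
      · have := hI.compl
        rwa [add_comm k l] at this
    · push Not at hsr hsb
      have h1 := sum_ind_add (G := G) X
      have h2 : (X.card : ℝ) * (2 * η) < 1 := by
        have h3 : (X.card : ℝ) ^ 2 - X.card < (1 - 2 * η) * X.card * X.card := by
          have : (1 - 2 * η) = (qr + η) + (qb + η) := by rw [hη]; ring
          rw [this]; linarith
        nlinarith
      have h3 : 1 / (2 * η) < X.card := lt_of_le_of_lt (hC0η.trans hBC) hlt
      rw [div_lt_iff₀ (by linarith)] at h3
      linarith

end D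

/-- The bootstrap theorem. -/
theorem bootstrap_of_T1 (hT : T1) : Bootstrap := by
  intro ι _ u v hu hv hcase i0 ε hε
  classical
  have hex := fun i => no_violation hT u v hu hv i ε hε (hcase i)
  choose C0 hC0 using hex
  set C : ℝ := 1 + ∑ i, |C0 i| with hC
  have hC1 : 1 ≤ C := by
    have : 0 ≤ ∑ i, |C0 i| := Finset.sum_nonneg fun i _ => abs_nonneg _
    linarith
  have hCi : ∀ i, C0 i ≤ C := by
    intro i
    have h1 : |C0 i| ≤ ∑ i, |C0 i| :=
      Finset.single_le_sum (f := fun i => |C0 i|) (fun i _ => abs_nonneg _) (mem_univ i)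
    have := le_abs_self (C0 i)
    linarith
  have hCpos : 0 < C := lt_of_lt_of_le one_pos hC1
  have hmain : ∀ (V : Type) (G : SimpleGraph V) (n k l : ℕ) (X : Finset V),
      k + l = n → NoR G k X → NoB G l X →
      ∀ m, (X.card : ℝ) ≤ C * Real.exp (ε * (k + l) + k * u m + l * v m) := by
    intro V G n
    induction n using Nat.strong_induction_on with
    | _ n ih =>
      intro k l X hn hR hB m
      by_contra hcon
      push Not at hcon
      have : Nonempty ι := ⟨i0⟩
      obtain ⟨i, hi⟩ := Finite.exists_min (fun i => (k : ℝ) * u i + l * v i)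
      have hI : IHyp G u v C ε (k + l) := by
        intro k' l' X' hkl hR' hB' m'
        exact ih (k' + l') (by omega) k' l' X' rfl hR' hB' m'
      set B : ℝ := C * Real.exp (ε * (k + l) + k * u i + l * v i) with hBdef
      have hBlt : B < X.card := by
        refine lt_of_le_of_lt ?_ hcon
        have : Real.exp (ε * (k + l) + k * u i + l * v i)
            ≤ Real.exp (ε * (k + l) + k * u m + l * v m) := by
          apply Real.exp_le_exp.2
          have := hi m
          linarith
        rw [hBdef]; gcongr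
      have hB1 : 1 ≤ B := by
        have h4 : 1 ≤ Real.exp (ε * (k + l) + k * u i + l * v i) := by
          apply Real.one_le_exp
          have := hu i
          have := hv i
          positivity
        nlinarith
      have hfl : ⌊B⌋₊ + 1 ≤ X.card := by
        have := (Nat.floor_lt (by linarith : 0 ≤ B)).2 hBlt
        omega
      obtain ⟨X0, hX0, hcard⟩ := Finset.exists_subset_card_eq hfl
      have hlt : B < X0.card := by
        rw [hcard]; push_cast; exact Nat.lt_floor_add_one B
      have hle : (X0.card : ℝ) ≤ 2 * B := by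
        rw [hcard]; push_cast
        have := Nat.floor_le (by linarith : 0 ≤ B)
        linarith
      exact hC0 i C (hCi i) hC1 V G X0 k l (NoR_mono hR hX0) (NoB_mono hB hX0) hi hlt hle hI
  refine ⟨C, hCpos, ?_⟩
  intro V _ G X k l hR hB
  exact hmain V G (k + l) k l X rfl hR hB i0

namespace D

lemma good_v_nonneg {u v : ℝ} (h : Good u v) : 0 ≤ v := by
  by_contra hv
  push Not at hv
  obtain ⟨C, hC, hG⟩ := h (-v / 2) (by linarith)
  obtain ⟨l, hl⟩ := exists_nat_gt ((Real.log C - v + 2 * u) / (-v / 2))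
  rw [div_lt_iff₀ (by linarith)] at hl
  have hR : NoR (⊥ : SimpleGraph Unit) 2 ({()} : Finset Unit) := by
    intro S hS hc
    have h1 := card_le_card hS
    have h2 := hc.card_eq
    simp only [card_singleton] at h1
    omega
  have hB : NoB (⊥ : SimpleGraph Unit) (l + 2) ({()} : Finset Unit) := by
    intro S hS hc
    have h1 := card_le_card hS
    have h2 := hc.card_eq
    simp only [card_singleton] at h1
    omega
  have h1 := hG Unit ⊥ {()} 2 (l + 2) hR hB
  simp only [card_singleton, Nat.cast_one, Nat.cast_ofNat, Nat.cast_add] at h1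
  have h2 := Real.log_le_log one_pos h1
  rw [Real.log_mul (by positivity) (by positivity), Real.log_exp, Real.log_one] at h2
  nlinarith

/-- one colour case of the diagonal step -/
lemma diag_half {a q L M v' η C1 ε C' : ℝ} (hC' : 0 < C')
    (hε : 0 < ε)
    (hT1 : ∀ (V : Type) [DecidableEq V] (G : SimpleGraph V) [DecidableRel G.Adj]
        (X Z : Finset V) (N k l : ℕ) (E : ℝ),
        X.Nonempty → Z.Nonempty → X.card ≤ N → Z.card ≤ N →
        NoR G k (X ∪ Z) → NoB G l X →
        (∀ j ≤ k, ∀ Z' ⊆ Z, NoR G j Z' → (Z'.card : ℝ) ≤ E * Real.exp (j * L)) →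
        (q + η) * X.card * Z.card ≤ ∑ x ∈ X, ∑ y ∈ Z, ind G x y →
        a * Real.log X.card + Real.log Z.card
          ≤ C1 * (1 + Real.sqrt (Real.log N)) + Real.log E + k * L + l * M)
    (hG : ∀ (V : Type) [DecidableEq V] (G : SimpleGraph V) (X : Finset V) (k l : ℕ),
      NoR G k X → NoB G l X →
      (X.card : ℝ) ≤ C' * Real.exp (ε * (k + l) + k * L + l * v'))
    (V : Type) [DecidableEq V] (G : SimpleGraph V) [DecidableRel G.Adj]
    (X : Finset V) (k : ℕ) (hX : X.Nonempty) (hR : NoR G k X) (hB : NoB G k X)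
    (hsum : (q + η) * X.card * X.card ≤ ∑ x ∈ X, ∑ y ∈ X, ind G x y) :
    (1 + a) * Real.log X.card ≤ C1 * (1 + Real.sqrt (Real.log X.card)) + Real.log C'
      + 2 * ε * k + k * (L + M + v') := by
  have h1 := hT1 V G X X X.card k k (C' * Real.exp (2 * ε * k + k * v')) hX hX le_rfl le_rfl
    (by rwa [union_self]) hB ?_ hsum
  · rw [Real.log_mul hC'.ne' (by positivity), Real.log_exp] at h1
    linarith
  · intro j hj Z' hZ' hRZ
    have h2 := hG V G Z' j k hRZ (NoB_mono hB hZ')
    rw [mul_assoc, ← Real.exp_add]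
    refine h2.trans ?_
    have : Real.exp (ε * (j + k) + j * L + k * v')
        ≤ Real.exp (2 * ε * k + k * v' + j * L) := by
      apply Real.exp_le_exp.2
      have h3 : (j : ℝ) ≤ k := by exact_mod_cast hj
      have := mul_le_mul_of_nonneg_left h3 hε.le
      linarith
    gcongr

end D

/-- The diagonal step. -/
theorem diagStep_of_T1 (hT : T1) : DiagStep := by
  intro a q L M v' c ha ha1 hq hq2 hL hM hcert hgood hc ε hε
  classical
  have hv'0 : 0 ≤ v' := good_v_nonneg hgood
  have hc0 : 0 ≤ c := by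
    have : 0 ≤ (1 + a) * c := by linarith
    exact nonneg_of_mul_nonneg_right this (by linarith)
  set η : ℝ := (1 / 2 - q) / 2 with hη
  have hη0 : 0 < η := by rw [hη]; linarith
  obtain ⟨C1, hC1, hT1⟩ := hT a q L M η ha ha1 hq (by linarith) hL hM hη0 hcert
  have hlog2 : 0 < Real.log 2 := Real.log_pos (by norm_num)
  -- a choice of the small constants
  set δ : ℝ := ε / (4 * (C1 + 1) * Real.log 2) with hδ
  have hδ0 : 0 < δ := by positivity
  obtain ⟨C', hC', hG⟩ := hgood (ε / 4) (by positivity)
  set K : ℝ := C1 * (1 + 1 / (4 * δ)) + |Real.log C'| with hK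
  have hK0 : 0 ≤ K := by positivity
  refine ⟨Real.exp K + 1 / (2 * η), by positivity, ?_⟩
  intro V _ G X k hR hB
  have hexp1 : 1 ≤ Real.exp ((c + ε) * k) := by
    apply Real.one_le_exp; positivity
  rcases X.eq_empty_or_nonempty with rfl | hX
  · simp only [card_empty, Nat.cast_zero]; positivity
  have hXpos : (0 : ℝ) < X.card := by exact_mod_cast hX.card_pos
  have hX1 : (1 : ℝ) ≤ X.card := by exact_mod_cast hX.card_pos
  by_cases hsmall : (X.card : ℝ) ≤ 1 / (2 * η)
  · have h1 : 0 < Real.exp K := Real.exp_pos _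
    have h2 : 0 < 1 / (2 * η) := by positivity
    nlinarith
  push Not at hsmall
  -- crude bound
  have hesb : (X.card : ℝ) + 1 ≤ Real.exp (k * Real.log 2 + k * Real.log 2) := by
    refine es_bound hlog2.le hlog2.le ?_ G (k + k) k k X rfl hR hB
    rw [Real.exp_neg, Real.exp_log (by norm_num)]; norm_num
  have hlogN : Real.log X.card ≤ 2 * k * Real.log 2 := by
    have h1 := Real.log_le_log hXpos (by linarith : (X.card : ℝ)
      ≤ Real.exp (k * Real.log 2 + k * Real.log 2))
    rw [Real.log_exp] at h1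
    linarith
  have hlogN0 : 0 ≤ Real.log X.card := Real.log_nonneg hX1
  have hsq : C1 * Real.sqrt (Real.log X.card) ≤ ε / 2 * k + C1 * (1 / (4 * δ)) := by
    have h1 := sqrt_le_lin hlogN0 hδ0
    have h2 : δ * Real.log X.card ≤ δ * (2 * k * Real.log 2) :=
      mul_le_mul_of_nonneg_left hlogN hδ0.le
    have h3 : C1 * Real.sqrt (Real.log X.card)
        ≤ C1 * (δ * (2 * k * Real.log 2) + 1 / (4 * δ)) := by
      apply mul_le_mul_of_nonneg_left _ hC1; linarith
    have h4 : C1 * (δ * (2 * k * Real.log 2)) = ε / 2 * k * (C1 / (C1 + 1)) := by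
      rw [hδ]; field_simp; ring
    have h5 : C1 / (C1 + 1) ≤ 1 := by
      rw [div_le_one (by linarith)]; linarith
    have h6 : ε / 2 * k * (C1 / (C1 + 1)) ≤ ε / 2 * k * 1 := by
      apply mul_le_mul_of_nonneg_left h5; positivity
    linarith
  have hkey : (1 + a) * Real.log X.card ≤ C1 * (1 + Real.sqrt (Real.log X.card)) + Real.log C'
      + 2 * (ε / 4) * k + k * (L + M + v') := by
    by_cases hsr : (q + η) * X.card * X.card ≤ ∑ x ∈ X, ∑ y ∈ X, ind G x y
    · exact diag_half hC' (by positivity) hT1 hG V G X k hX hR hB hsr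
    by_cases hsb : (q + η) * X.card * X.card ≤ ∑ x ∈ X, ∑ y ∈ X, ind Gᶜ x y
    · exact diag_half hC' (by positivity) hT1 hG V Gᶜ X k hX hB (NoR_iff.1 hR) hsb
    · exfalso
      push Not at hsr hsb
      have h1 := sum_ind_add (G := G) X
      have h2 : (X.card : ℝ) * (2 * η) < 1 := by
        have h3 : (X.card : ℝ) ^ 2 - X.card < (1 - 2 * η) * X.card * X.card := by
          have : (1 - 2 * η) = (q + η) + (q + η) := by rw [hη]; ring
          rw [this]; linarith
        nlinarith
      rw [div_lt_iff₀ (by linarith)] at hsmall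
      linarith
  have hck : (k : ℝ) * (L + M + v') ≤ (1 + a) * c * k := by
    have := mul_le_mul_of_nonneg_left hc (by positivity : (0:ℝ) ≤ k)
    linarith
  have hfin : (1 + a) * Real.log X.card ≤ K + ε * k + (1 + a) * c * k := by
    have := le_abs_self (Real.log C')
    rw [hK]; linarith
  have hfin2 : Real.log X.card ≤ K + (c + ε) * k := by
    have h1 : K + ε * k ≤ (1 + a) * (K + ε * k) := by
      have : 0 ≤ a * (K + ε * k) := by positivity
      linarith
    have h2 : (1 + a) * Real.log X.card ≤ (1 + a) * (K + (c + ε) * k) := by linarith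
    exact le_of_mul_le_mul_left h2 (by linarith)
  have hfin3 : (X.card : ℝ) ≤ Real.exp K * Real.exp ((c + ε) * k) := by
    rw [← Real.exp_add, ← Real.log_le_iff_le_exp hXpos]
    exact hfin2
  have h2 : 0 < 1 / (2 * η) := by positivity
  nlinarith

/-! ### Ramsey numbers -/

/-- `IsRamsey k n`: every red/blue colouring of the edges of `K_n` (red = the edges of a simple
graph `G` on `Fin n`, blue = the edges of its complement) has a monochromatic `K_k`. -/
def IsRamsey (k n : ℕ) : Prop :=
  ∀ G : SimpleGraph (Fin n),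
    (∃ S : Finset (Fin n), G.IsNClique k S) ∨ (∃ S : Finset (Fin n), Gᶜ.IsNClique k S)

/-- The diagonal Ramsey number `R(k,k)`: the least positive integer `n` such that every two
colouring of the edges of `K_n` has a monochromatic `K_k`. -/
noncomputable def ramseyNumber (k : ℕ) : ℕ := sInf {n | 0 < n ∧ IsRamsey k n}

/-- sanity check: the set in the definition of the Ramsey number is nonempty -/
theorem isRamsey_four_pow (k : ℕ) : IsRamsey k (4 ^ k) := by
  intro G
  by_contra hcon
  push Not at hcon
  obtain ⟨h1, h2⟩ := hcon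
  have hlog2 : 0 < Real.log 2 := Real.log_pos (by norm_num)
  have h3 := es_bound (u := Real.log 2) (v := Real.log 2) hlog2.le hlog2.le
    (by rw [Real.exp_neg, Real.exp_log (by norm_num)]; norm_num) G (k + k) k k univ rfl
    (fun S _ => h1 S) (fun S _ => h2 S)
  have h4 : Real.exp (k * Real.log 2 + k * Real.log 2) = 4 ^ k := by
    rw [← mul_two, mul_assoc, Real.exp_nat_mul, mul_two, Real.exp_add,
      Real.exp_log (by norm_num)]
    norm_num
  rw [h4] at h3
  simp only [card_univ, Fintype.card_fin, Nat.cast_pow, Nat.cast_ofNat] at h3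
  linarith

theorem ramseyNumber_spec (k : ℕ) : 0 < ramseyNumber k ∧ IsRamsey k (ramseyNumber k) :=
  Nat.sInf_mem (s := {n | 0 < n ∧ IsRamsey k n}) ⟨4 ^ k, by positivity, isRamsey_four_pow k⟩

theorem ramseyNumber_le {k n : ℕ} (hn : 0 < n) (h : IsRamsey k n) : ramseyNumber k ≤ n :=
  Nat.sInf_le ⟨hn, h⟩

theorem ramseyNumber_pos (k : ℕ) : 0 < ramseyNumber k := (ramseyNumber_spec k).1

/-- A colouring witnessing `n - 1 < R(k,k)`. -/
theorem exists_of_lt_ramseyNumber {k n : ℕ} (hn : 0 < n) (h : n < ramseyNumber k) :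
    ∃ G : SimpleGraph (Fin n), NoR G k univ ∧ NoB G k univ := by
  have h1 : n ∉ {n | 0 < n ∧ IsRamsey k n} := Nat.notMem_of_lt_sInf h
  have h2 : ¬ IsRamsey k n := fun hh => h1 ⟨hn, hh⟩
  unfold IsRamsey at h2
  push Not at h2
  obtain ⟨G, hG1, hG2⟩ := h2
  exact ⟨G, fun S _ => hG1 S, fun S _ => hG2 S⟩

theorem goodDiag_nonneg {c : ℝ} (h : GoodDiag c) : 0 ≤ c := by
  by_contra hv
  push Not at hv
  obtain ⟨C, hC, hG⟩ := h (-c / 2) (by linarith)
  obtain ⟨l, hl⟩ := exists_nat_gt ((Real.log C + c) / (-c / 2))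
  rw [div_lt_iff₀ (by linarith)] at hl
  have hR : NoR (⊥ : SimpleGraph Unit) (l + 2) ({()} : Finset Unit) := by
    intro S hS hc
    have h1 := card_le_card hS
    have h2 := hc.card_eq
    simp only [card_singleton] at h1
    omega
  have hB : NoB (⊥ : SimpleGraph Unit) (l + 2) ({()} : Finset Unit) := by
    intro S hS hc
    have h1 := card_le_card hS
    have h2 := hc.card_eq
    simp only [card_singleton] at h1
    omega
  have h1 := hG Unit ⊥ {()} (l + 2) hR hB
  simp only [card_singleton, Nat.cast_one, Nat.cast_ofNat, Nat.cast_add] at h1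
  have h2 := Real.log_le_log one_pos h1
  rw [Real.log_mul (by positivity) (by positivity), Real.log_exp, Real.log_one] at h2
  nlinarith

/-- A good line gives a diagonal bound. -/
theorem goodDiag_of_good {u v : ℝ} (h : Good u v) : GoodDiag (u + v) := by
  intro ε hε
  obtain ⟨C, hC, hG⟩ := h (ε / 2) (by positivity)
  refine ⟨C, hC, ?_⟩
  intro V _ G X k hR hB
  refine (hG V G X k k hR hB).trans (le_of_eq ?_)
  congr 2
  ring

/-- The quantitative bound on Ramsey numbers from `GoodDiag`. -/
theorem ramseyNumber_le_of_goodDiag {c : ℝ} (h : GoodDiag c) {ε : ℝ} (hε : 0 < ε) :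
    ∃ C : ℝ, 0 < C ∧ ∀ k : ℕ, (ramseyNumber k : ℝ) ≤ C * Real.exp ((c + ε) * k) := by
  obtain ⟨C, hC, hG⟩ := h ε hε
  have hc := goodDiag_nonneg h
  refine ⟨C + 1, by positivity, ?_⟩
  intro k
  have h1 : 1 ≤ Real.exp ((c + ε) * k) := by
    apply Real.one_le_exp; positivity
  rcases Nat.lt_or_ge 1 (ramseyNumber k) with h2 | h2
  · obtain ⟨G, hR, hB⟩ := exists_of_lt_ramseyNumber (n := ramseyNumber k - 1) (k := k)
      (by omega) (by omega)
    have h3 := hG _ G univ k hR hB
    simp only [card_univ, Fintype.card_fin] at h3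
    rw [Nat.cast_sub (by omega)] at h3
    push_cast at h3
    linarith
  · have h3 : (ramseyNumber k : ℝ) ≤ 1 := by exact_mod_cast h2
    nlinarith

/-- The exponential bound on Ramsey numbers from `GoodDiag`. -/
theorem eventually_ramseyNumber_le_of_goodDiag {c c' : ℝ} (h : GoodDiag c) (hc : c < c') :
    ∀ᶠ k : ℕ in Filter.atTop, (ramseyNumber k : ℝ) ≤ Real.exp (c' * k) := by
  obtain ⟨C, hC, hG⟩ := ramseyNumber_le_of_goodDiag h (ε := (c' - c) / 2) (by linarith)
  obtain ⟨K, hK⟩ := exists_nat_gt (Real.log C / ((c' - c) / 2))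
  rw [div_lt_iff₀ (by linarith)] at hK
  filter_upwards [Filter.eventually_ge_atTop K] with k hk
  refine (hG k).trans ?_
  have h1 : Real.log C ≤ (c' - c) / 2 * k := by
    have : (K : ℝ) ≤ k := by exact_mod_cast hk
    nlinarith
  calc C * Real.exp ((c + (c' - c) / 2) * k)
      = Real.exp (Real.log C) * Real.exp ((c + (c' - c) / 2) * k) := by rw [Real.exp_log hC]
    _ = Real.exp (Real.log C + (c + (c' - c) / 2) * k) := by rw [Real.exp_add]
    _ ≤ Real.exp (c' * k) := by
        apply Real.exp_le_exp.2; linarith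

/-- In particular `R(k,k) ≤ B ^ k` for all large `k` as soon as `c < log B`. -/
theorem eventually_ramseyNumber_le_pow_of_goodDiag {c B : ℝ} (h : GoodDiag c) (hB : 0 < B)
    (hc : c < Real.log B) :
    ∀ᶠ k : ℕ in Filter.atTop, (ramseyNumber k : ℝ) ≤ B ^ k := by
  filter_upwards [eventually_ramseyNumber_le_of_goodDiag h hc] with k hk
  refine hk.trans (le_of_eq ?_)
  rw [mul_comm, Real.exp_nat_mul, Real.exp_log hB]

/-- The limsup form. -/
theorem limsup_log_ramseyNumber_le_of_goodDiag {c : ℝ} (h : GoodDiag c) :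
    Filter.limsup (fun k : ℕ => Real.log (ramseyNumber k) / k) Filter.atTop ≤ c := by
  refine le_of_forall_pos_le_add fun ε hε => ?_
  refine Filter.limsup_le_of_le ?_ ?_
  · refine Filter.isCoboundedUnder_le_of_le Filter.atTop (x := 0) fun k => ?_
    have : (1 : ℝ) ≤ ramseyNumber k := by exact_mod_cast ramseyNumber_pos k
    exact div_nonneg (Real.log_nonneg this) (by positivity)
  · filter_upwards [eventually_ramseyNumber_le_of_goodDiag h (by linarith : c < c + ε),
      Filter.eventually_ge_atTop 1] with k hk hk1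
    have h1 : (0 : ℝ) < ramseyNumber k := by exact_mod_cast ramseyNumber_pos k
    have hk0 : (0 : ℝ) < k := by exact_mod_cast hk1
    rw [div_le_iff₀ hk0]
    have := Real.log_le_log h1 hk
    rwa [Real.log_exp] at this

end Pool.Agent.H92
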