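import Pool.Agent.H92.RamseyB
import Pool.Agent.H92.RamseyC
import Pool.Agent.H92.RamseyD

namespace Pool.Agent.H92

theorem t1 : T1 := t1_of_oneStep oneStep

theorem bootstrap : Bootstrap := bootstrap_of_T1 t1

theorem diagStep : DiagStep := diagStep_of_T1 t1

end Pool.Agent.H92
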