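import Pool.Agent.H92.RamseyA

/-!
Shared definitions (interface) for the Ramsey project MP_28724c_co.
Red = edges of `G`, blue = edges of `Gᶜ`.
-/

open Finset

namespace Pool.Agent.H92

section cliques
variable {V : Type*} (G : SimpleGraph V)

/-- no red clique with exactly `k` vertices inside `X` -/
def NoR (k : ℕ) (X : Finset V) : Prop := ∀ S ⊆ X, ¬ G.IsNClique k S

/-- no blue clique with exactly `k` vertices inside `X` -/
def NoB (k : ℕ) (X : Finset V) : Prop := ∀ S ⊆ X, ¬ Gᶜ.IsNClique k S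

end cliques

/-- the coefficient of `q_x` in the one step inequality -/
noncomputable def cA (τ1 τ2 τ3 r : ℝ) : ℝ :=
  (Real.exp (τ2 + τ3) - 1) * (1 + τ1) * r + Real.exp (τ2 + τ3) * (1 - τ2) * (1 - r)
    - (1 + τ3) * (1 - r)

/-- the limiting lower bound `D(r)` for `g_x` in terms of `r = |N_R(x)|/|X|` -/
noncomputable def cD (q L M τ1 τ2 τ3 A1 B1 A2 B2 r : ℝ) : ℝ :=
  (Real.exp (τ2 + τ3) - 1) * (1 + τ1) * r * q
    - (Real.exp (τ2 + τ3) - 1) * Real.exp (τ1 - L) * (A1 + B1 * r)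
    + Real.exp (τ2 + τ3) * (1 - τ2) * (1 - r) * q
    + (1 + τ3) * (1 - r) * (1 - q)
    - Real.exp (τ3 - M) * (A2 + B2 * (1 - r))

/-- Certificate for the one step inequality (`xhat = exp (-L)`, `yhat = exp (-M)`).
`[0,1]` is cut into the `J` intervals `[t j, t (j+1)]`. -/
def Cert (a q L M : ℝ) : Prop :=
  ∃ (J : ℕ) (D0 : ℝ) (t τ1 τ2 τ3 ν A1 B1 A2 B2 : ℕ → ℝ),
    t 0 = 0 ∧ t J = 1 ∧
    (∀ j < J, t j ≤ t (j + 1)) ∧
    (∀ j < J, 0 ≤ τ2 j + τ3 j) ∧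
    (∀ j < J, 0 ≤ A1 j ∧ 0 ≤ B1 j ∧ 0 ≤ A2 j ∧ 0 ≤ B2 j) ∧
    (∀ j < J, ∀ r : ℝ, 0 ≤ r → r ≤ 1 → r ^ (1 - a) ≤ A1 j + B1 j * r) ∧
    (∀ j < J, ∀ r : ℝ, 0 ≤ r → r ≤ 1 → r ^ (1 - a) ≤ A2 j + B2 j * r) ∧
    (∀ j < J, 0 ≤ cA (τ1 j) (τ2 j) (τ3 j) (t j)) ∧
    (∀ j < J, 0 ≤ cA (τ1 j) (τ2 j) (τ3 j) (t (j + 1))) ∧
    (∀ j < J, D0 + ∑ i ∈ range j, a * (ν i - 1) * (t (i + 1) - t i)
      ≤ cD q L M (τ1 j) (τ2 j) (τ3 j) (A1 j) (B1 j) (A2 j) (B2 j) (t j)) ∧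
    (∀ j < J, D0 + ∑ i ∈ range (j + 1), a * (ν i - 1) * (t (i + 1) - t i)
      ≤ cD q L M (τ1 j) (τ2 j) (τ3 j) (A1 j) (B1 j) (A2 j) (B2 j) (t (j + 1))) ∧
    ∑ i ∈ range J, a * Real.exp (-ν i) * (t (i + 1) - t i) < D0

/-- STATEMENT of the one-step theorem (proved in `RamseyB.lean` as `one_step`) -/
def OneStep : Prop :=
  ∀ (a q L M : ℝ), 0 < a → a ≤ 1 → 0 < q → q < 1 → Cert a q L M →
    ∃ (W0 : ℕ) (θ δ : ℝ), 1 ≤ W0 ∧ 0 < θ ∧ 0 < δ ∧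
      ∀ (V : Type) [DecidableEq V] (G : SimpleGraph V) [DecidableRel G.Adj]
        (X Z : Finset V) (W : ℕ), W0 ≤ W → X.Nonempty → 0 < Phi G q W X Z →
        (∀ X' ⊆ X, pot G a q W X' Z ≤ pot G a q W X Z) →
        Phi G q (W + 1) X Z * Phi G q (W - 1) X Z ≤ (1 + θ ^ 2) * Phi G q W X Z ^ 2 →
        (W : ℝ) / X.card * (Phi G q (W - 1) X Z / Phi G q W X Z) ≤ δ →
        (∀ x ∈ X, pot G a q W (rN G x X) (rN G x Z) ≤ Real.exp (-L) * pot G a q W X Z) →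
        (∀ x ∈ X, pot G a q W (bN G x X) Z ≤ Real.exp (-M) * pot G a q W X Z) →
        False

/-- STATEMENT of the theorem T1 (to be proved in `RamseyC.lean` from `OneStep`).
`C1` depends only on `a,q,L,M,η`. -/
def T1 : Prop :=
  ∀ (a q L M η : ℝ), 0 < a → a ≤ 1 → 0 < q → q < 1 → 0 ≤ L → 0 ≤ M → 0 < η → Cert a q L M →
    ∃ C1 : ℝ, 0 ≤ C1 ∧
      ∀ (V : Type) [DecidableEq V] (G : SimpleGraph V) [DecidableRel G.Adj]
        (X Z : Finset V) (N k l : ℕ) (E : ℝ),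
        X.Nonempty → Z.Nonempty → X.card ≤ N → Z.card ≤ N →
        NoR G k (X ∪ Z) → NoB G l X →
        (∀ j ≤ k, ∀ Z' ⊆ Z, NoR G j Z' → (Z'.card : ℝ) ≤ E * Real.exp (j * L)) →
        (q + η) * X.card * Z.card ≤ ∑ x ∈ X, ∑ y ∈ Z, ind G x y →
        a * Real.log X.card + Real.log Z.card
          ≤ C1 * (1 + Real.sqrt (Real.log N)) + Real.log E + k * L + l * M

/-- `Good u v`: the Ramsey numbers satisfy `R(k,l) ≤ exp (u k + v l + o(k+l))`. -/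
def Good (u v : ℝ) : Prop :=
  ∀ ε : ℝ, 0 < ε → ∃ C : ℝ, 0 < C ∧
    ∀ (V : Type) [DecidableEq V] (G : SimpleGraph V) (X : Finset V) (k l : ℕ),
      NoR G k X → NoB G l X →
      (X.card : ℝ) ≤ C * Real.exp (ε * (k + l) + k * u + l * v)

/-- one-sided step condition for the line `(u0, v0)` relative to a finite family of lines
`(u m, v m)`, with red density parameter `q` -/
def StepC {ι : Type} [Fintype ι] (u v : ι → ℝ) (u0 v0 q : ℝ) : Prop :=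
  ∃ (a L M v' : ℝ) (w s : ι → ℝ),
    0 < a ∧ a ≤ 1 ∧ 0 < q ∧ q < 1 ∧ 0 ≤ L ∧ 0 ≤ M ∧ Cert a q L M ∧
    (∀ m, 0 ≤ w m) ∧ ∑ m, w m = 1 ∧ ∑ m, w m * u m ≤ L ∧ ∑ m, w m * v m ≤ v' ∧
    (∀ m, 0 ≤ s m) ∧
    L + ∑ m, s m * u m ≤ (1 + a + ∑ m, s m) * u0 ∧
    M + v' + ∑ m, s m * v m ≤ (1 + a + ∑ m, s m) * v0

/-- STATEMENT of the bootstrap theorem (to be proved in `RamseyD.lean` from `T1`).
Each line `i` of the family is either an Erdős–Szekeres line, or both of the following hold for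
some `qr + qb < 1`: (red density `≥ qr` case) `exp (-u i) ≤ qr` (so impossible) or a red step
certificate; (blue density `≥ qb` case) `exp (-v i) ≤ qb` (so impossible) or a blue step
certificate (mirror image). -/
def Bootstrap : Prop :=
  ∀ (ι : Type) [Fintype ι] (u v : ι → ℝ), (∀ i, 0 ≤ u i) → (∀ i, 0 ≤ v i) →
    (∀ i, Real.exp (-u i) + Real.exp (-v i) ≤ 1 ∨
      ∃ qr qb : ℝ, qr + qb < 1 ∧
        (Real.exp (-u i) ≤ qr ∨ StepC u v (u i) (v i) qr) ∧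
        (Real.exp (-v i) ≤ qb ∨ StepC v u (v i) (u i) qb)) →
    ∀ i, Good (u i) (v i)

/-- the diagonal Ramsey numbers satisfy `R(k,k) ≤ exp ((c + o(1)) k)` -/
def GoodDiag (c : ℝ) : Prop :=
  ∀ ε : ℝ, 0 < ε → ∃ C : ℝ, 0 < C ∧
    ∀ (V : Type) [DecidableEq V] (G : SimpleGraph V) (X : Finset V) (k : ℕ),
      NoR G k X → NoB G k X → (X.card : ℝ) ≤ C * Real.exp ((c + ε) * k)

/-- STATEMENT of the diagonal step (to be proved in `RamseyD.lean` from `T1`). -/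
def DiagStep : Prop :=
  ∀ (a q L M v' c : ℝ), 0 < a → a ≤ 1 → 0 < q → q < 1 / 2 → 0 ≤ L → 0 ≤ M → Cert a q L M →
    Good L v' → L + M + v' ≤ (1 + a) * c → GoodDiag c

end Pool.Agent.H92
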