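import Pool.Agent.H92.RamseyJ
import Pool.Agent.H92.RamseyC

/-!
RamseyK: the entropic version of the induction (MP_28724c_co).
Author: helper34.
-/

set_option linter.unusedSectionVars false

open Finset

namespace Pool.Agent.H92

section basicW
variable {V : Type*} [DecidableEq V] {G : SimpleGraph V} [DecidableRel G.Adj]

lemma totW_pos {w : V → ℝ} {X : Finset V} (hX : X.Nonempty) (hw : ∀ x ∈ X, 0 < w x) :
    0 < totW w X := sum_pos hw hX

lemma exW_le_one {q : ℝ} (hq : 0 ≤ q) {w : V → ℝ} {X : Finset V} (hw : ∀ x ∈ X, 0 < w x)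
    (y : V) : exW G q w X y ≤ 1 := by
  unfold exW
  rcases X.eq_empty_or_nonempty with h | h
  · subst h; simp
  · rw [div_le_one (totW_pos h hw)]
    unfold totW
    refine sum_le_sum (fun x hx => ?_)
    have h1 := ind_le_one (G := G) x y
    have h2 := hw x hx
    exact mul_le_of_le_one_right h2.le (by linarith)

lemma PhiW_nonneg (q : ℝ) (W : ℕ) (w : V → ℝ) (X Z : Finset V) : 0 ≤ PhiW G q W w X Z :=
  sum_nonneg (fun _ _ => pow_nonneg (le_max_right _ _) _)

lemma PhiW_le_card {q : ℝ} (hq : 0 ≤ q) (W : ℕ) {w : V → ℝ} {X : Finset V}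
    (hw : ∀ x ∈ X, 0 < w x) (Z : Finset V) : PhiW G q W w X Z ≤ Z.card := by
  unfold PhiW
  calc ∑ y ∈ Z, (max (exW G q w X y) 0) ^ W ≤ ∑ _y ∈ Z, (1 : ℝ) := by
        refine sum_le_sum (fun y _ => ?_)
        exact pow_le_one₀ (le_max_right _ _) (max_le (exW_le_one hq hw y) zero_le_one)
    _ = Z.card := by simp

lemma PhiW_succ_le {q : ℝ} (hq : 0 ≤ q) (W : ℕ) {w : V → ℝ} {X : Finset V}
    (hw : ∀ x ∈ X, 0 < w x) (Z : Finset V) :
    PhiW G q (W + 1) w X Z ≤ PhiW G q W w X Z := by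
  unfold PhiW
  refine sum_le_sum (fun y _ => ?_)
  exact pow_le_pow_of_le_one (le_max_right _ _) (max_le (exW_le_one hq hw y) zero_le_one)
    (Nat.le_succ W)

lemma entW_le_log_card {w : V → ℝ} {X : Finset V} (hX : X.Nonempty)
    (hw : ∀ x ∈ X, 0 < w x) : entW w X ≤ Real.log X.card := by
  have hT := totW_pos hX hw
  have hn : (0 : ℝ) < X.card := by exact_mod_cast hX.card_pos
  have key : ∑ x ∈ X, w x * (Real.log (totW w X) - Real.log X.card - Real.log (w x)) ≤ 0 := by
    calc _ ≤ ∑ x ∈ X, (totW w X / X.card - w x) := by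
          refine sum_le_sum (fun x hx => ?_)
          have hx0 := hw x hx
          have h1 := Real.log_le_sub_one_of_pos (x := totW w X / X.card / w x) (by positivity)
          rw [Real.log_div (by positivity) hx0.ne', Real.log_div hT.ne' hn.ne'] at h1
          calc _ ≤ w x * (totW w X / X.card / w x - 1) := mul_le_mul_of_nonneg_left h1 hx0.le
            _ = _ := by field_simp
      _ = 0 := by
          rw [sum_sub_distrib, sum_const, nsmul_eq_mul]
          have : ∑ x ∈ X, w x = totW w X := rfl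
          rw [this]; field_simp; ring
  have h2 : ∑ x ∈ X, w x * (Real.log (totW w X) - Real.log X.card - Real.log (w x)) =
      totW w X * (Real.log (totW w X) - Real.log X.card) - ∑ x ∈ X, w x * Real.log (w x) := by
    simp only [mul_sub]
    rw [sum_sub_distrib, sum_sub_distrib, ← sum_mul, ← sum_mul]
    rfl
  rw [h2] at key
  unfold entW
  have h3 : totW w X * (Real.log (totW w X) - Real.log X.card) ≤
      ∑ x ∈ X, w x * Real.log (w x) := by linarith
  have h4 : Real.log (totW w X) - Real.log X.card ≤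
      (∑ x ∈ X, w x * Real.log (w x)) / totW w X := by
    rw [le_div_iff₀ hT]; linarith
  linarith

lemma entW_nonneg_aux {w : V → ℝ} {X : Finset V} (hX : X.Nonempty)
    (hw : ∀ x ∈ X, 0 < w x) {R : ℝ} (h1 : ∀ x ∈ X, 1 ≤ w x) (hR : ∀ x ∈ X, w x ≤ R) :
    0 ≤ (∑ x ∈ X, w x * Real.log (w x)) / totW w X ∧
    (∑ x ∈ X, w x * Real.log (w x)) / totW w X ≤ Real.log R := by
  have hT := totW_pos hX hw
  constructor
  · apply div_nonneg _ hT.le
    exact sum_nonneg (fun x hx => mul_nonneg (hw x hx).le (Real.log_nonneg (h1 x hx)))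
  · rw [div_le_iff₀ hT]
    unfold totW
    rw [mul_sum]
    refine sum_le_sum (fun x hx => ?_)
    rw [mul_comm]
    exact mul_le_mul_of_nonneg_right (Real.log_le_log (hw x hx) (hR x hx)) (hw x hx).le

lemma kW_bound {w : V → ℝ} {X : Finset V} (hX : X.Nonempty) {R : ℝ}
    (h1 : ∀ x ∈ X, 1 ≤ w x) (hR : ∀ x ∈ X, w x ≤ R) {x : V} (hx : x ∈ X) :
    |kW w X x| ≤ Real.log R := by
  have hw : ∀ x ∈ X, 0 < w x := fun x hx => lt_of_lt_of_le one_pos (h1 x hx)
  have hT := totW_pos hX hw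
  obtain ⟨ha, hb⟩ := entW_nonneg_aux hX hw h1 hR
  have hx0 := hw x hx
  have hlog0 := Real.log_nonneg (h1 x hx)
  have hlogR := Real.log_le_log hx0 (hR x hx)
  have : kW w X x = Real.log (w x) - (∑ x ∈ X, w x * Real.log (w x)) / totW w X := by
    unfold kW entW
    rw [Real.log_div hx0.ne' hT.ne']; ring
  rw [this, abs_le]
  constructor <;> linarith

lemma totW_smul (c : ℝ) (w : V → ℝ) (X : Finset V) :
    totW (fun x => c * w x) X = c * totW w X := by
  unfold totW; rw [mul_sum]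

lemma exW_smul {q : ℝ} {c : ℝ} (hc : 0 < c) (w : V → ℝ) (X : Finset V) (y : V) :
    exW G q (fun x => c * w x) X y = exW G q w X y := by
  unfold exW
  rw [totW_smul]
  have : ∑ x ∈ X, c * w x * (ind G x y - q) = c * ∑ x ∈ X, w x * (ind G x y - q) := by
    rw [mul_sum]; exact sum_congr rfl (fun x _ => by ring)
  rw [this, mul_div_mul_left _ _ hc.ne']

lemma PhiW_smul {q : ℝ} {c : ℝ} (hc : 0 < c) (W : ℕ) (w : V → ℝ) (X Z : Finset V) :
    PhiW G q W (fun x => c * w x) X Z = PhiW G q W w X Z := by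
  unfold PhiW
  exact sum_congr rfl (fun y _ => by rw [exW_smul hc])

lemma entW_smul {c : ℝ} (hc : 0 < c) {w : V → ℝ} {X : Finset V} (hX : X.Nonempty)
    (hw : ∀ x ∈ X, 0 < w x) :
    entW (fun x => c * w x) X = entW w X := by
  have hT := totW_pos hX hw
  unfold entW
  rw [totW_smul, Real.log_mul hc.ne' hT.ne']
  have : ∑ x ∈ X, c * w x * Real.log (c * w x) =
      c * (totW w X * Real.log c + ∑ x ∈ X, w x * Real.log (w x)) := by
    unfold totW
    rw [sum_mul, ← sum_add_distrib, mul_sum]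
    refine sum_congr rfl (fun x hx => ?_)
    rw [Real.log_mul hc.ne' (hw x hx).ne']; ring
  rw [this, mul_div_mul_left _ _ hc.ne']
  field_simp
  ring

lemma potW_smul {a q : ℝ} {c : ℝ} (hc : 0 < c) (W : ℕ) {w : V → ℝ} {X : Finset V}
    (hX : X.Nonempty) (hw : ∀ x ∈ X, 0 < w x) (Z : Finset V) :
    potW G a q W (fun x => c * w x) X Z = potW G a q W w X Z := by
  unfold potW
  rw [entW_smul hc hX hw, PhiW_smul hc]

lemma exp_entW_le {a : ℝ} (ha : 0 ≤ a) {w : V → ℝ} {X : Finset V} (hX : X.Nonempty)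
    (hw : ∀ x ∈ X, 0 < w x) : Real.exp (a * entW w X) ≤ (X.card : ℝ) ^ a := by
  have hn : (0 : ℝ) < X.card := by exact_mod_cast hX.card_pos
  rw [Real.rpow_def_of_pos hn]
  apply Real.exp_le_exp.mpr
  rw [mul_comm]
  exact mul_le_mul_of_nonneg_right (entW_le_log_card hX hw) ha

lemma potW_empty {a q : ℝ} {W : ℕ} (hW : 1 ≤ W) (w : V → ℝ) (Z : Finset V) :
    potW G a q W w ∅ Z = 0 := by
  unfold potW PhiW exW
  have : ∀ y ∈ Z, (max ((∑ x ∈ (∅ : Finset V), w x * (ind G x y - q)) / totW w ∅) 0) ^ W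
      = (0 : ℝ) := by
    intro y _
    rw [sum_empty, zero_div, max_self, zero_pow (by omega)]
  rw [sum_congr rfl this, sum_const_zero, mul_zero]

lemma potW_le {a q : ℝ} (ha : 0 ≤ a) (hq : 0 ≤ q) {W : ℕ} (hW : 1 ≤ W) {w : V → ℝ}
    {X : Finset V} (hw : ∀ x ∈ X, 0 < w x) (Z : Finset V) :
    potW G a q W w X Z ≤ (X.card : ℝ) ^ a * Z.card := by
  rcases X.eq_empty_or_nonempty with h | h
  · subst h
    rw [potW_empty hW]
    positivity
  · unfold potW
    exact mul_le_mul (exp_entW_le ha h hw) (PhiW_le_card hq W hw Z) (PhiW_nonneg _ _ _ _ _)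
      (by positivity)

lemma potW_nonneg (a q : ℝ) (W : ℕ) (w : V → ℝ) (X Z : Finset V) :
    0 ≤ potW G a q W w X Z := by
  unfold potW
  exact mul_nonneg (Real.exp_pos _).le (PhiW_nonneg _ _ _ _ _)

lemma potW_pos_of {a q : ℝ} {W : ℕ} (hW : 1 ≤ W) {w : V → ℝ} {X Z : Finset V}
    (h : 0 < potW G a q W w X Z) : X.Nonempty ∧ 0 < PhiW G q W w X Z := by
  constructor
  · rw [nonempty_iff_ne_empty]
    rintro rfl
    rw [potW_empty hW] at h
    exact lt_irrefl _ h
  · unfold potW at h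
    exact pos_of_mul_pos_right h (Real.exp_pos _).le

/-- `∑ w f = 0` -/
lemma sum_w_fW {q : ℝ} {W : ℕ} (hW : 2 ≤ W) {w : V → ℝ} {X Z : Finset V}
    (hX : X.Nonempty) (hw : ∀ x ∈ X, 0 < w x) (hΦ : 0 < PhiW G q W w X Z) :
    ∑ x ∈ X, w x * fW G q W w X Z x = 0 := by
  have hT := totW_pos hX hw
  have h1 : ∑ x ∈ X, w x * (∑ y ∈ Z, (max (exW G q w X y) 0) ^ (W - 1) * (ind G x y - q)) =
      totW w X * PhiW G q W w X Z := by
    simp only [mul_sum]
    rw [sum_comm]
    unfold PhiW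
    rw [mul_sum]
    refine sum_congr rfl (fun y _ => ?_)
    have h2 : ∑ x ∈ X, w x * ((max (exW G q w X y) 0) ^ (W - 1) * (ind G x y - q)) =
        (max (exW G q w X y) 0) ^ (W - 1) * (totW w X * exW G q w X y) := by
      unfold exW
      rw [mul_div_cancel₀ _ hT.ne', mul_sum]
      exact sum_congr rfl (fun x _ => by ring)
    rw [h2]
    rcases le_or_gt (exW G q w X y) 0 with h | h
    · rw [max_eq_right h, zero_pow (by omega), zero_pow (by omega)]; ring
    · rw [max_eq_left h.le]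
      obtain ⟨n, rfl⟩ : ∃ n, W = n + 1 := ⟨W - 1, by omega⟩
      simp only [Nat.add_sub_cancel, pow_succ]; ring
  have h3 : ∑ x ∈ X, w x * fW G q W w X Z x =
      W * ((∑ x ∈ X, w x * (∑ y ∈ Z, (max (exW G q w X y) 0) ^ (W - 1) * (ind G x y - q)))
        / PhiW G q W w X Z - totW w X) := by
    unfold fW totW
    rw [sum_div, ← sum_sub_distrib, mul_sum]
    exact sum_congr rfl (fun x _ => by ring)
  rw [h3, h1, mul_div_cancel_right₀ _ hΦ.ne', sub_self, mul_zero]

lemma one_add_fW {q : ℝ} {W : ℕ} (hW : 1 ≤ W) (w : V → ℝ) (X Z : Finset V) (x : V) :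
    1 + fW G q W w X Z x / W =
      (∑ y ∈ Z, (max (exW G q w X y) 0) ^ (W - 1) * (ind G x y - q)) / PhiW G q W w X Z := by
  have : (W : ℝ) ≠ 0 := by
    have : (0 : ℝ) < W := by exact_mod_cast hW
    exact this.ne'
  unfold fW
  field_simp
  ring

end basicW

theorem jensenPhi : JensenPhi := by
  intro V _ G _ q w w' X X' Z W hW hX' hXX hw hw' hΦ
  have hT' := totW_pos hX' hw'
  have hT := totW_pos (hX'.mono hXX) hw
  set Φ := PhiW G q W w X Z with hΦdef
  set e : V → ℝ := fun y => max (exW G q w X y) 0 with he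
  set e' : V → ℝ := fun y => max (exW G q w' X' y) 0 with he'
  have hW1 : (0 : ℝ) < W := by
    have : 0 < W := by omega
    exact_mod_cast this
  -- the weighted average
  have hs : (∑ x ∈ X', w' x * (1 + fW G q W w X Z x / W)) / totW w' X' =
      (∑ y ∈ Z, e y ^ (W - 1) * exW G q w' X' y) / Φ := by
    have h1 : ∑ x ∈ X', w' x * (1 + fW G q W w X Z x / W) =
        (∑ y ∈ Z, e y ^ (W - 1) * (totW w' X' * exW G q w' X' y)) / Φ := by
      have h2 : ∀ x ∈ X', w' x * (1 + fW G q W w X Z x / W) =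
          (∑ y ∈ Z, e y ^ (W - 1) * (w' x * (ind G x y - q))) / Φ := by
        intro x _
        rw [one_add_fW (by omega), ← hΦdef, mul_div_assoc', mul_sum]
        congr 1
        exact sum_congr rfl (fun y _ => by ring)
      rw [sum_congr rfl h2, ← sum_div, sum_comm]
      congr 1
      refine sum_congr rfl (fun y _ => ?_)
      rw [← mul_sum]
      congr 1
      unfold exW
      rw [mul_div_cancel₀ _ hT'.ne']
    rw [h1]
    have h3 : ∑ y ∈ Z, e y ^ (W - 1) * (totW w' X' * exW G q w' X' y) =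
        totW w' X' * ∑ y ∈ Z, e y ^ (W - 1) * exW G q w' X' y := by
      rw [mul_sum]; exact sum_congr rfl (fun y _ => by ring)
    rw [h3, mul_div_assoc, mul_div_cancel_left₀ _ hT'.ne']
  rw [hs]
  set Zp := Z.filter (fun y => 0 < exW G q w X y) with hZp
  have hep : ∀ y ∈ Zp, 0 < e y := by
    intro y hy
    rw [hZp, mem_filter] at hy
    exact lt_of_lt_of_le hy.2 (le_max_left _ _)
  have hen : ∀ y ∈ Z, y ∉ Zp → e y = 0 := by
    intro y hy hn
    rw [hZp, mem_filter, not_and, not_lt] at hn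
    exact max_eq_right (hn hy)
  have hsubset : Zp ⊆ Z := filter_subset _ _
  have hΦZ : Φ = ∑ y ∈ Zp, e y ^ W := by
    rw [hΦdef]; unfold PhiW
    symm
    refine sum_subset hsubset (fun y hy hn => ?_)
    have := hen y hy hn
    simp only [he] at this
    simp only [he]
    rw [this, zero_pow (by omega)]
  have hsZ : ∑ y ∈ Z, e y ^ (W - 1) * exW G q w' X' y =
      ∑ y ∈ Zp, e y ^ (W - 1) * exW G q w' X' y := by
    symm
    refine sum_subset hsubset (fun y hy hn => ?_)
    rw [hen y hy hn, zero_pow (by omega), zero_mul]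
  have hle : (∑ y ∈ Z, e y ^ (W - 1) * exW G q w' X' y) / Φ ≤
      ∑ y ∈ Zp, (e y ^ W / Φ) * (e' y / e y) := by
    rw [hsZ, sum_div]
    refine sum_le_sum (fun y hy => ?_)
    have hy0 := hep y hy
    have h1 : (e y ^ W / Φ) * (e' y / e y) = e y ^ (W - 1) * e' y / Φ := by
      obtain ⟨n, rfl⟩ : ∃ n, W = n + 1 := ⟨W - 1, by omega⟩
      simp only [Nat.add_sub_cancel, pow_succ]
      field_simp
    rw [h1]
    apply div_le_div_of_nonneg_right _ hΦ.le
    exact mul_le_mul_of_nonneg_left (le_max_left _ _) (pow_nonneg hy0.le _)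
  have he'0 : ∀ y, 0 ≤ e' y := fun y => le_max_right _ _
  have hmean0 : 0 ≤ ∑ y ∈ Zp, (e y ^ W / Φ) * (e' y / e y) := by
    refine sum_nonneg (fun y hy => ?_)
    have hy0 := hep y hy
    have := he'0 y
    positivity
  have hpm := Real.pow_arith_mean_le_arith_mean_pow Zp (fun y => e y ^ W / Φ)
    (fun y => e' y / e y) (fun y hy => div_nonneg (pow_nonneg (hep y hy).le _) hΦ.le)
    (by rw [← sum_div, ← hΦZ, div_self hΦ.ne'])
    (fun y hy => div_nonneg (he'0 y) (hep y hy).le) W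
  calc Φ * (max ((∑ y ∈ Z, e y ^ (W - 1) * exW G q w' X' y) / Φ) 0) ^ W
      ≤ Φ * (∑ y ∈ Zp, (e y ^ W / Φ) * (e' y / e y)) ^ W :=
        mul_le_mul_of_nonneg_left (pow_le_pow_left₀ (le_max_right _ _) (max_le hle hmean0) W) hΦ.le
    _ ≤ Φ * ∑ y ∈ Zp, (e y ^ W / Φ) * (e' y / e y) ^ W := mul_le_mul_of_nonneg_left hpm hΦ.le
    _ = ∑ y ∈ Zp, e' y ^ W := by
        rw [mul_sum]
        refine sum_congr rfl (fun y hy => ?_)
        have hy0 := hep y hy
        have : e y ^ W ≠ 0 := (pow_pos hy0 _).ne'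
        rw [div_pow]
        field_simp
    _ ≤ ∑ y ∈ Z, e' y ^ W :=
        sum_le_sum_of_subset_of_nonneg hsubset (fun y _ _ => pow_nonneg (he'0 y) _)
    _ = PhiW G q W w' X' Z := rfl


/-- weights of class `j` on `X` -/
def Cls {V : Type} (β : ℝ) (j : ℕ) (w : V → ℝ) (X : Finset V) : Prop :=
  ∀ x ∈ X, 1 ≤ w x ∧ w x ≤ β ^ j

/-- conclusion of `OneStepW` for fixed parameters -/
def StepAtW (a q L M ε2 K : ℝ) (W0 : ℕ) (θ δ : ℝ) : Prop :=
  ∀ (V : Type) [DecidableEq V] (G : SimpleGraph V) [DecidableRel G.Adj]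
    (w : V → ℝ) (X Z : Finset V) (W : ℕ), W0 ≤ W → X.Nonempty → (∀ x ∈ X, 0 < w x) →
    0 < PhiW G q W w X Z →
    (∀ x ∈ X, |kW w X x| ≤ K) →
    (∀ T ⊆ X, |∑ x ∈ T, (w x / totW w X) * (fW G q W w X Z x - a * kW w X x)| ≤ ε2) →
    PhiW G q (W + 1) w X Z * PhiW G q (W - 1) w X Z
      ≤ (1 + θ ^ 2) * PhiW G q W w X Z ^ 2 →
    (∀ x ∈ X, (W : ℝ) * (w x / totW w X) * (PhiW G q (W - 1) w X Z / PhiW G q W w X Z) ≤ δ) →
    (∀ x ∈ X, potW G a q W w (rN G x X) (rN G x Z) ≤ Real.exp (-L) * potW G a q W w X Z) →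
    (∀ x ∈ X, potW G a q W w (bN G x X) Z ≤ Real.exp (-M) * potW G a q W w X Z) →
    False

/-- conclusion of `LevelSplit` for fixed parameters -/
def LevelAt (a β : ℝ) (J : ℕ) (Q : ℝ) (W0 : ℕ) : Prop :=
  ∀ (V : Type) [DecidableEq V] (w f : V → ℝ) (X : Finset V) (W : ℕ), W0 ≤ W →
    X.Nonempty → (∀ x ∈ X, 1 ≤ w x ∧ w x ≤ β ^ J) → ∑ x ∈ X, w x * f x = 0 →
    (∀ S ⊆ X, S.Nonempty → ∀ i < J, (∀ x ∈ S, β ^ i ≤ w x ∧ w x ≤ β ^ (i + 1)) →
      Real.exp (a * entW w S) * (max ((∑ x ∈ S, w x * (1 + f x / W)) / totW w S) 0) ^ W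
        ≤ Real.exp (-Q) * Real.exp (a * entW w X)) →
    False

/-- conclusion of `TiltBound` for fixed parameters -/
def TiltAt (a δ ε K R : ℝ) (W0 : ℕ) : Prop :=
  ∀ (V : Type) [DecidableEq V] (w f : V → ℝ) (X T : Finset V) (W : ℕ), W0 ≤ W →
    X.Nonempty → (∀ x ∈ X, 0 < w x) → (∀ x ∈ X, |kW w X x| ≤ K) → T ⊆ X →
    ∑ x ∈ X, w x * f x = 0 →
    (Real.exp (a * entW (fun x => if x ∈ T then (1 + δ) * w x else w x) X) *
      (max ((∑ x ∈ X, (if x ∈ T then (1 + δ) * w x else w x) * (1 + f x / W)) /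
        totW (fun x => if x ∈ T then (1 + δ) * w x else w x) X) 0) ^ W
        ≤ Real.exp ε * Real.exp (a * entW w X)) →
    ∑ x ∈ T, (w x / totW w X) * (f x - a * kW w X x) ≤ R

lemma sum_mu_kW {V : Type} [DecidableEq V] {w : V → ℝ} {X : Finset V} (hX : X.Nonempty)
    (hw : ∀ x ∈ X, 0 < w x) : ∑ x ∈ X, (w x / totW w X) * kW w X x = 0 := by
  have hT := totW_pos hX hw
  have h1 : ∀ x ∈ X, (w x / totW w X) * kW w X x =
      (w x * Real.log (w x) - w x * ((∑ x ∈ X, w x * Real.log (w x)) / totW w X)) / totW w X := by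
    intro x hx
    unfold kW entW
    rw [Real.log_div (hw x hx).ne' hT.ne']
    field_simp
    ring
  rw [sum_congr rfl h1, ← sum_div, sum_sub_distrib, ← sum_mul]
  have : ∑ x ∈ X, w x = totW w X := rfl
  rw [this, mul_div_cancel₀ _ hT.ne', sub_self, zero_div]

theorem claimW_of_step {a q L M : ℝ} (ha : 0 < a) (ha1 : a ≤ 1) (hq0 : 0 < q)
    (hM : 0 ≤ M) {ε2 K θ δ1 β dl ε ε' τ Q : ℝ} {W0 J : ℕ}
    (hW0 : 2 ≤ W0) (hδ1 : 0 < δ1) (hdl : 0 < dl) (hβ : β = 1 + dl)
    (hK : Real.log (β ^ J) ≤ K)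
    (hstep : StepAtW a q L M ε2 K W0 θ δ1)
    (hlevel : LevelAt a β J Q W0)
    (htilt : TiltAt a dl (ε + τ) K ε2 W0)
    (hJ : 1 ≤ J)
    (hε : 0 ≤ ε) (hε' : 0 < ε') (hτ : 0 < τ) (hθ : Real.exp (ε' + 2 * τ) ≤ 1 + θ ^ 2)
    (hQ : Q ≤ ε * ((J : ℝ) - 1) - τ)
    {m : ℕ} {n0 : ℝ} (hn1 : 1 ≤ n0)
    (hn0 : ((W0 + m : ℕ) : ℝ) * β ^ J * Real.exp (ε' * (m + 1) + τ) / δ1 ≤ n0)
    {V : Type} [DecidableEq V] (G : SimpleGraph V) [DecidableRel G.Adj]
    {X Z : Finset V} {N k : ℕ} {E : ℝ} (hXN : X.card ≤ N) (hZN : Z.card ≤ N)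
    (hm : (N : ℝ) ^ 2 ≤ Real.exp (ε' / 2 * (m : ℝ) ^ 2))
    (hE : ∀ j ≤ k, ∀ Z' ⊆ Z, NoR G j Z' → (Z'.card : ℝ) ≤ E * Real.exp (j * L)) :
    ∀ n k' l' : ℕ, k' + l' ≤ n → k' ≤ k → ∀ X' ⊆ X, ∀ Z' ⊆ Z,
      NoR G k' (X' ∪ Z') → NoB G l' X' → ∀ i ≤ m, ∀ j ≤ J, ∀ w : V → ℝ, Cls β j w X' →
      potW G a q (W0 + (m - i)) w X' Z' ≤
        Real.exp (ε * j + ε' / 2 * (i : ℝ) ^ 2) *
          (n0 ^ a * E * Real.exp (k' * L + l' * M)) := by
  have hβ1 : 1 ≤ β := by rw [hβ]; linarith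
  have hβ0 : 0 < β := by linarith
  intro n
  induction n with
  | zero =>
    intro k' l' hkl _ X' _ Z' _ hR _ i _
    have : k' = 0 := by omega
    subst this
    exact absurd hR (not_NoR_zero _)
  | succ n ih =>
    intro k' l' hkl hk X' hX' Z' hZ' hR hB
    obtain _ | k'' := k'
    · exact absurd hR (not_NoR_zero _)
    obtain _ | l'' := l'
    · exact absurd hB (not_NoB_zero _)
    by_contra hcon
    simp only [not_forall, not_le] at hcon
    obtain ⟨i0, hi0m, j0, hj0, w0, hw0, hv0⟩ := hcon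
    set B : ℝ := n0 ^ a * E * Real.exp ((k'' + 1 : ℕ) * L + (l'' + 1 : ℕ) * M) with hBdef
    have hn0pos : 0 < n0 := lt_of_lt_of_le one_pos hn1
    have hE0 : 0 ≤ E := by
      have h1 := hE (k'' + 1) hk ∅ (empty_subset _) (NoR_mono hR (empty_subset _))
      rw [card_empty, Nat.cast_zero] at h1
      exact nonneg_of_mul_nonneg_left h1 (Real.exp_pos _)
    have hna : 1 ≤ n0 ^ a := Real.one_le_rpow hn1 ha.le
    have hB0 : 0 ≤ B := by
      rw [hBdef]; positivity
    -- class positivity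
    have hcls : ∀ {j : ℕ} {w : V → ℝ} {Y : Finset V}, Cls β j w Y → ∀ x ∈ Y, 0 < w x :=
      fun h x hx => lt_of_lt_of_le one_pos (h x hx).1
    -- the near maximiser
    set S : Set ℝ := {v | ∃ i ≤ m, ∃ j ≤ J, ∃ Y ⊆ X', ∃ w : V → ℝ, Cls β j w Y ∧
      v = potW G a q (W0 + (m - i)) w Y Z' * Real.exp (-(ε * j + ε' / 2 * (i : ℝ) ^ 2))} with hS
    have hexple : ∀ i j : ℕ, Real.exp (-(ε * (j : ℝ) + ε' / 2 * (i : ℝ) ^ 2)) ≤ 1 := by
      intro i j
      apply Real.exp_le_one_iff.mpr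
      have : 0 ≤ ε * (j : ℝ) + ε' / 2 * (i : ℝ) ^ 2 := by positivity
      linarith
    have hSb : BddAbove S := by
      refine ⟨(X'.card : ℝ) ^ a * Z'.card, ?_⟩
      rintro v ⟨i, _, j, _, Y, hY, w, hw, rfl⟩
      calc potW G a q (W0 + (m - i)) w Y Z' * Real.exp (-(ε * j + ε' / 2 * (i : ℝ) ^ 2))
          ≤ potW G a q (W0 + (m - i)) w Y Z' * 1 :=
            mul_le_mul_of_nonneg_left (hexple i j) (potW_nonneg _ _ _ _ _ _)
        _ = potW G a q (W0 + (m - i)) w Y Z' := mul_one _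
        _ ≤ (Y.card : ℝ) ^ a * Z'.card := potW_le ha.le hq0.le (by omega) (hcls hw) _
        _ ≤ (X'.card : ℝ) ^ a * Z'.card := by
            apply mul_le_mul_of_nonneg_right _ (by positivity)
            apply Real.rpow_le_rpow (by positivity) _ ha.le
            exact_mod_cast card_le_card hY
    have hv0S : potW G a q (W0 + (m - i0)) w0 X' Z' *
        Real.exp (-(ε * j0 + ε' / 2 * (i0 : ℝ) ^ 2)) ∈ S :=
      ⟨i0, hi0m, j0, hj0, X', subset_rfl, w0, hw0, rfl⟩
    have hv0B : B < potW G a q (W0 + (m - i0)) w0 X' Z' *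
        Real.exp (-(ε * j0 + ε' / 2 * (i0 : ℝ) ^ 2)) := by
      rw [Real.exp_neg, ← div_eq_mul_inv, lt_div_iff₀ (Real.exp_pos _), mul_comm]
      exact hv0
    have hsB : B < sSup S := lt_of_lt_of_le hv0B (le_csSup hSb hv0S)
    have hs0 : 0 < sSup S := lt_of_le_of_lt hB0 hsB
    have hsτ : Real.exp (-τ) * sSup S < sSup S := by
      have : Real.exp (-τ) < 1 := by rw [Real.exp_lt_one_iff]; linarith
      calc _ < 1 * sSup S := mul_lt_mul_of_pos_right this hs0
        _ = _ := one_mul _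
    obtain ⟨v, hvS, hvgt⟩ := exists_lt_of_lt_csSup ⟨_, hv0S⟩ (max_lt hsB hsτ)
    have hbig' : B < v := lt_of_le_of_lt (le_max_left _ _) hvgt
    have hvτ : Real.exp (-τ) * sSup S < v := lt_of_le_of_lt (le_max_right _ _) hvgt
    have hall : ∀ u ∈ S, u ≤ Real.exp τ * v := by
      intro u hu
      have h1 := le_csSup hSb hu
      have h2 : sSup S ≤ Real.exp τ * v := by
        have h3 : Real.exp τ * (Real.exp (-τ) * sSup S) = sSup S := by
          rw [← mul_assoc, ← Real.exp_add, add_neg_cancel, Real.exp_zero, one_mul]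
        rw [← h3]
        exact mul_le_mul_of_nonneg_left hvτ.le (Real.exp_pos _).le
      exact h1.trans h2
    obtain ⟨j, hj, cl, hcl, Y, hY, w, hw, rfl⟩ := hvS
    have hmax' : ∀ i' ≤ m, ∀ cl' ≤ J, ∀ Y' ⊆ X', ∀ w' : V → ℝ, Cls β cl' w' Y' →
        potW G a q (W0 + (m - i')) w' Y' Z' *
        Real.exp (-(ε * cl' + ε' / 2 * (i' : ℝ) ^ 2)) ≤
        Real.exp τ * (potW G a q (W0 + (m - j)) w Y Z' *
        Real.exp (-(ε * cl + ε' / 2 * (j : ℝ) ^ 2))) := by
      intro i' hi' cl' hcl' Y' hY' w' hw'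
      exact hall _ ⟨i', hi', cl', hcl', Y', hY', w', hw', rfl⟩
    clear hall hvτ hvgt hsτ hs0 hsB hv0B hv0S hSb hv0
    set W : ℕ := W0 + (m - j) with hWdef
    have hW2 : 2 ≤ W := by omega
    have hW1 : 1 ≤ W := by omega
    have hwpos : ∀ x ∈ Y, 0 < w x := hcls hw
    have hpot0 : 0 ≤ potW G a q W w Y Z' := potW_nonneg _ _ _ _ _ _
    have hpotB : B < potW G a q W w Y Z' :=
      lt_of_lt_of_le hbig' (mul_le_of_le_one_right hpot0 (hexple j cl))
    have hpotpos : 0 < potW G a q W w Y Z' := lt_of_le_of_lt hB0 hpotB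
    obtain ⟨hYne, hPhi⟩ := potW_pos_of hW1 hpotpos
    have hT := totW_pos hYne hwpos
    have hZcard : (Z'.card : ℝ) ≤ E * Real.exp ((k'' + 1 : ℕ) * L) :=
      hE (k'' + 1) hk Z' hZ' (NoR_mono hR subset_union_right)
    have hZpos : (1 : ℝ) ≤ Z'.card := by
      have h1 := potW_le (G := G) (a := a) ha.le hq0.le hW1 hwpos Z'
      have h2 : 0 < (Z'.card : ℝ) := by
        by_contra hc
        have h3 : (Z'.card : ℝ) = 0 := le_antisymm (not_lt.mp hc) (by positivity)
        rw [h3, mul_zero] at h1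
        linarith
      exact_mod_cast h2
    have hElM : E * Real.exp ((k'' + 1 : ℕ) * L) ≤
        E * Real.exp ((k'' + 1 : ℕ) * L + (l'' + 1 : ℕ) * M) := by
      apply mul_le_mul_of_nonneg_left _ hE0
      apply Real.exp_le_exp.mpr
      have : 0 ≤ ((l'' + 1 : ℕ) : ℝ) * M := by positivity
      linarith
    -- (1) the set Y is large
    have hYbig : n0 < Y.card := by
      by_contra hc
      rw [not_lt] at hc
      have h1 := potW_le (G := G) (a := a) ha.le hq0.le hW1 hwpos Z'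
      have h2 : (Y.card : ℝ) ^ a ≤ n0 ^ a := Real.rpow_le_rpow (by positivity) hc ha.le
      have h3 : (Y.card : ℝ) ^ a * Z'.card ≤ n0 ^ a * (E * Real.exp ((k'' + 1 : ℕ) * L + (l'' + 1 : ℕ) * M)) :=
        mul_le_mul h2 (hZcard.trans hElM) (by positivity) (by positivity)
      rw [← mul_assoc, ← hBdef] at h3
      linarith
    have hYN : (Y.card : ℝ) ≤ N := by
      exact_mod_cast (card_le_card (hY.trans hX')).trans hXN
    have hZN' : (Z'.card : ℝ) ≤ N := by
      exact_mod_cast (card_le_card hZ').trans hZN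
    have hYpos : (0 : ℝ) < Y.card := by exact_mod_cast hYne.card_pos
    have hN1 : (1 : ℝ) ≤ N := by
      have : (1 : ℝ) ≤ Y.card := by exact_mod_cast hYne.card_pos
      linarith
    -- (2) j < m
    have hjm : j < m := by
      rcases Nat.lt_or_ge j m with h | h
      · exact h
      · exfalso
        have hjm' : j = m := by omega
        have h1 := potW_le (G := G) (a := a) ha.le hq0.le hW1 hwpos Z'
        have h2 : (Y.card : ℝ) ^ a ≤ N := by
          calc (Y.card : ℝ) ^ a ≤ (N : ℝ) ^ a := Real.rpow_le_rpow hYpos.le hYN ha.le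
            _ ≤ (N : ℝ) ^ (1 : ℝ) := Real.rpow_le_rpow_of_exponent_le hN1 ha1
            _ = N := Real.rpow_one _
        have h3 : (Y.card : ℝ) ^ a * Z'.card ≤ N * N :=
          mul_le_mul h2 hZN' (by positivity) (by positivity)
        have h4 : potW G a q W w Y Z' ≤ Real.exp (ε * cl + ε' / 2 * (j : ℝ) ^ 2) := by
          calc _ ≤ _ := h1
            _ ≤ (N : ℝ) * N := h3
            _ = (N : ℝ) ^ 2 := by ring
            _ ≤ Real.exp (ε' / 2 * (j : ℝ) ^ 2) := by rw [hjm']; exact hm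
            _ ≤ _ := by
                apply Real.exp_le_exp.mpr
                have : 0 ≤ ε * (cl : ℝ) := by positivity
                linarith
        have h5 : potW G a q W w Y Z' * Real.exp (-(ε * cl + ε' / 2 * (j : ℝ) ^ 2)) ≤ 1 := by
          rw [Real.exp_neg, ← div_eq_mul_inv]
          exact (div_le_one (Real.exp_pos _)).mpr h4
        have h6 : (1 : ℝ) ≤ B := by
          rw [hBdef, mul_assoc]
          have h7 : (1 : ℝ) ≤ E * Real.exp ((k'' + 1 : ℕ) * L + (l'' + 1 : ℕ) * M) :=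
            hZpos.trans (hZcard.trans hElM)
          calc (1 : ℝ) = 1 * 1 := by ring
            _ ≤ _ := mul_le_mul hna h7 zero_le_one (by positivity)
        linarith
    -- comparison of two configurations at the same level
    have hcmp : ∀ cl' ≤ J, ∀ Y' ⊆ Y, ∀ w' : V → ℝ, Cls β cl' w' Y' →
        potW G a q W w' Y' Z' ≤
          Real.exp (ε * cl' - ε * cl + τ) * potW G a q W w Y Z' := by
      intro cl' hcl' Y' hY' w' hw'
      have h1 := hmax' j hj cl' hcl' Y' (hY'.trans hY) w' hw'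
      have h2 : Real.exp (-(ε * cl' + ε' / 2 * (j : ℝ) ^ 2)) * Real.exp (ε * cl' + ε' / 2 * (j : ℝ) ^ 2) = 1 := by
        rw [← Real.exp_add, neg_add_cancel, Real.exp_zero]
      have h3 : potW G a q W w' Y' Z' = (potW G a q W w' Y' Z' *
          Real.exp (-(ε * cl' + ε' / 2 * (j : ℝ) ^ 2))) * Real.exp (ε * cl' + ε' / 2 * (j : ℝ) ^ 2) := by
        rw [mul_assoc, h2, mul_one]
      rw [h3]
      refine (mul_le_mul_of_nonneg_right h1 (Real.exp_pos _).le).trans (le_of_eq ?_)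
      have h4 : Real.exp (ε * cl' - ε * cl + τ) = Real.exp τ * Real.exp (-(ε * cl + ε' / 2 * (j : ℝ) ^ 2)) *
          Real.exp (ε * cl' + ε' / 2 * (j : ℝ) ^ 2) := by
        rw [← Real.exp_add, ← Real.exp_add]; congr 1; ring
      rw [h4]; ring
    -- Jensen, divided by `Phi`
    have hjen : ∀ cl' ≤ J, ∀ Y' ⊆ Y, Y'.Nonempty → ∀ w' : V → ℝ, Cls β cl' w' Y' →
        Real.exp (a * entW w' Y') * (max ((∑ x ∈ Y', w' x * (1 + fW G q W w Y Z' x / W)) /
          totW w' Y') 0) ^ W ≤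
          Real.exp (ε * cl' - ε * cl + τ) * Real.exp (a * entW w Y) := by
      intro cl' hcl' Y' hY' hY'ne w' hw'
      have h1 := hcmp cl' hcl' Y' hY' w' hw'
      have h2 := jensenPhi V G q w w' Y Y' Z' W hW2 hY'ne hY' hwpos (hcls hw') hPhi
      unfold potW at h1
      have h3 : PhiW G q W w Y Z' * (Real.exp (a * entW w' Y') *
          (max ((∑ x ∈ Y', w' x * (1 + fW G q W w Y Z' x / W)) / totW w' Y') 0) ^ W) ≤
          PhiW G q W w Y Z' * (Real.exp (ε * cl' - ε * cl + τ) * Real.exp (a * entW w Y)) := by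
        calc _ = Real.exp (a * entW w' Y') * (PhiW G q W w Y Z' *
              (max ((∑ x ∈ Y', w' x * (1 + fW G q W w Y Z' x / W)) / totW w' Y') 0) ^ W) := by ring
          _ ≤ Real.exp (a * entW w' Y') * PhiW G q W w' Y' Z' :=
              mul_le_mul_of_nonneg_left h2 (Real.exp_pos _).le
          _ ≤ _ := h1
          _ = _ := by ring
      exact le_of_mul_le_mul_left h3 hPhi
    have hsum0 : ∑ x ∈ Y, w x * fW G q W w Y Z' x = 0 := sum_w_fW hW2 hYne hwpos hPhi
    -- (3) the class is less than J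
    have hclJ : cl < J := by
      rcases Nat.lt_or_ge cl J with h | h
      · exact h
      · exfalso
        have hclJ' : cl = J := by omega
        refine hlevel V w (fW G q W w Y Z') Y W (by omega) hYne (by
          intro x hx; have := hw x hx; rw [hclJ'] at this; exact this) hsum0 ?_
        intro T hTY hTne i hi hTi
        have hβi : 0 < β ^ i := pow_pos hβ0 _
        have hc : 0 < (β ^ i)⁻¹ := inv_pos.mpr hβi
        have hTpos : ∀ x ∈ T, 0 < w x := fun x hx => hwpos x (hTY hx)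
        have hcl1 : Cls β 1 (fun x => (β ^ i)⁻¹ * w x) T := by
          intro x hx
          obtain ⟨h1, h2⟩ := hTi x hx
          dsimp only
          constructor
          · rw [← div_eq_inv_mul, le_div_iff₀ hβi, one_mul]; exact h1
          · rw [← div_eq_inv_mul, div_le_iff₀ hβi, pow_one]
            calc w x ≤ β ^ (i + 1) := h2
              _ = β * β ^ i := by ring
        have h1 := hjen 1 hJ T hTY hTne _ hcl1
        rw [entW_smul hc hTne hTpos, totW_smul] at h1
        have h2 : ∑ x ∈ T, (β ^ i)⁻¹ * w x * (1 + fW G q W w Y Z' x / W) =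
            (β ^ i)⁻¹ * ∑ x ∈ T, w x * (1 + fW G q W w Y Z' x / W) := by
          rw [mul_sum]; exact sum_congr rfl (fun x _ => by ring)
        rw [h2, mul_div_mul_left _ _ hc.ne'] at h1
        refine h1.trans ?_
        apply mul_le_mul_of_nonneg_right _ (Real.exp_pos _).le
        apply Real.exp_le_exp.mpr
        rw [hclJ']
        push_cast
        linarith
    -- (4) the tilt bounds
    have hKb : ∀ x ∈ Y, |kW w Y x| ≤ K := by
      intro x hx
      refine (kW_bound (R := β ^ J) hYne (fun x hx => (hw x hx).1) (fun x hx => ?_) hx).trans hK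
      exact ((hw x hx).2).trans (pow_le_pow_right₀ hβ1 (by omega))
    have hup1 : ∀ T ⊆ Y, ∑ x ∈ T, (w x / totW w Y) * (fW G q W w Y Z' x - a * kW w Y x) ≤ ε2 := by
      intro T hTY
      refine htilt V w (fW G q W w Y Z') Y T W (by omega) hYne hwpos hKb hTY hsum0 ?_
      have hcl1 : Cls β (cl + 1) (fun x => if x ∈ T then (1 + dl) * w x else w x) Y := by
        intro x hx
        obtain ⟨h1, h2⟩ := hw x hx
        have h3 : β ^ cl ≤ β ^ (cl + 1) := pow_le_pow_right₀ hβ1 (by omega)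
        dsimp only
        split_ifs with hxT
        · constructor
          · have h4 : 0 ≤ dl * w x := mul_nonneg hdl.le (by linarith)
            linarith
          · rw [← hβ, pow_succ, mul_comm (β ^ cl) β]
            exact mul_le_mul_of_nonneg_left h2 hβ0.le
        · exact ⟨h1, h2.trans h3⟩
      have h1 := hjen (cl + 1) (by omega) Y subset_rfl hYne _ hcl1
      refine h1.trans (le_of_eq ?_)
      congr 2
      push_cast
      ring
    have htot0 : ∑ x ∈ Y, (w x / totW w Y) * (fW G q W w Y Z' x - a * kW w Y x) = 0 := by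
      have h1 : ∑ x ∈ Y, (w x / totW w Y) * (fW G q W w Y Z' x - a * kW w Y x) =
          (∑ x ∈ Y, w x * fW G q W w Y Z' x) / totW w Y -
            a * ∑ x ∈ Y, (w x / totW w Y) * kW w Y x := by
        rw [sum_div, mul_sum, ← sum_sub_distrib]
        exact sum_congr rfl (fun x _ => by ring)
      rw [h1, hsum0, sum_mu_kW hYne hwpos]; ring
    have habs : ∀ T ⊆ Y, |∑ x ∈ T, (w x / totW w Y) * (fW G q W w Y Z' x - a * kW w Y x)| ≤ ε2 := by
      intro T hTY
      have h1 := hup1 T hTY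
      have h2 := hup1 (Y \ T) sdiff_subset
      have h3 := sum_sdiff (f := fun x => (w x / totW w Y) * (fW G q W w Y Z' x - a * kW w Y x)) hTY
      rw [htot0] at h3
      rw [abs_le]
      constructor
      · linarith
      · exact h1
    -- comparison of moments at neighbouring levels
    have hexpY : 0 < Real.exp (a * entW w Y) := Real.exp_pos _
    have hdown : PhiW G q (W - 1) w Y Z' ≤
        Real.exp (ε' / 2 * (2 * (j : ℝ) + 1) + τ) * PhiW G q W w Y Z' := by
      have h1 := hmax' (j + 1) (by omega) cl hcl Y hY w hw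
      have h2 : W0 + (m - (j + 1)) = W - 1 := by omega
      rw [h2] at h1
      unfold potW at h1
      have h3 : PhiW G q (W - 1) w Y Z' * Real.exp (-(ε * cl + ε' / 2 * ((j + 1 : ℕ) : ℝ) ^ 2)) ≤
          Real.exp τ * (PhiW G q W w Y Z' * Real.exp (-(ε * cl + ε' / 2 * (j : ℝ) ^ 2))) := by
        apply le_of_mul_le_mul_left _ hexpY
        calc _ = _ := by rw [← mul_assoc]
          _ ≤ _ := h1
          _ = _ := by ring
      have h4 : Real.exp (ε' / 2 * (2 * (j : ℝ) + 1) + τ) =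
          Real.exp τ * Real.exp (-(ε * cl + ε' / 2 * (j : ℝ) ^ 2)) *
            Real.exp (ε * cl + ε' / 2 * ((j + 1 : ℕ) : ℝ) ^ 2) := by
        rw [← Real.exp_add, ← Real.exp_add]; congr 1; push_cast; ring
      have h5 : PhiW G q (W - 1) w Y Z' = (PhiW G q (W - 1) w Y Z' *
          Real.exp (-(ε * cl + ε' / 2 * ((j + 1 : ℕ) : ℝ) ^ 2))) *
            Real.exp (ε * cl + ε' / 2 * ((j + 1 : ℕ) : ℝ) ^ 2) := by
        rw [mul_assoc, ← Real.exp_add, neg_add_cancel, Real.exp_zero, mul_one]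
      rw [h4, h5]
      calc _ ≤ (Real.exp τ * (PhiW G q W w Y Z' * Real.exp (-(ε * cl + ε' / 2 * (j : ℝ) ^ 2)))) *
            Real.exp (ε * cl + ε' / 2 * ((j + 1 : ℕ) : ℝ) ^ 2) :=
            mul_le_mul_of_nonneg_right h3 (Real.exp_pos _).le
        _ = _ := by ring
    have hup : PhiW G q (W + 1) w Y Z' ≤
        Real.exp (ε' / 2 * (1 - 2 * (j : ℝ)) + τ) * PhiW G q W w Y Z' := by
      rcases Nat.eq_zero_or_pos j with h0 | h0
      · subst h0
        have h1 := PhiW_succ_le (G := G) hq0.le W hwpos Z'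
        refine h1.trans ?_
        have h2 : (1 : ℝ) ≤ Real.exp (ε' / 2 * (1 - 2 * ((0 : ℕ) : ℝ)) + τ) := by
          apply Real.one_le_exp
          push_cast; linarith
        exact le_mul_of_one_le_left hPhi.le h2
      · have h1 := hmax' (j - 1) (by omega) cl hcl Y hY w hw
        have h2 : W0 + (m - (j - 1)) = W + 1 := by omega
        rw [h2] at h1
        unfold potW at h1
        have h3 : PhiW G q (W + 1) w Y Z' * Real.exp (-(ε * cl + ε' / 2 * ((j - 1 : ℕ) : ℝ) ^ 2)) ≤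
            Real.exp τ * (PhiW G q W w Y Z' * Real.exp (-(ε * cl + ε' / 2 * (j : ℝ) ^ 2))) := by
          apply le_of_mul_le_mul_left _ hexpY
          calc _ = _ := by rw [← mul_assoc]
            _ ≤ _ := h1
            _ = _ := by ring
        have hcast : ((j - 1 : ℕ) : ℝ) = (j : ℝ) - 1 := by
          rw [Nat.cast_sub (by omega : 1 ≤ j)]; simp
        rw [hcast] at h3
        have h4 : Real.exp (ε' / 2 * (1 - 2 * (j : ℝ)) + τ) =
            Real.exp τ * Real.exp (-(ε * cl + ε' / 2 * (j : ℝ) ^ 2)) *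
              Real.exp (ε * cl + ε' / 2 * ((j : ℝ) - 1) ^ 2) := by
          rw [← Real.exp_add, ← Real.exp_add]; congr 1; ring
        have h5 : PhiW G q (W + 1) w Y Z' = (PhiW G q (W + 1) w Y Z' *
            Real.exp (-(ε * cl + ε' / 2 * ((j : ℝ) - 1) ^ 2))) *
              Real.exp (ε * cl + ε' / 2 * ((j : ℝ) - 1) ^ 2) := by
          rw [mul_assoc, ← Real.exp_add, neg_add_cancel, Real.exp_zero, mul_one]
        rw [h4, h5]
        calc _ ≤ (Real.exp τ * (PhiW G q W w Y Z' * Real.exp (-(ε * cl + ε' / 2 * (j : ℝ) ^ 2)))) *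
              Real.exp (ε * cl + ε' / 2 * ((j : ℝ) - 1) ^ 2) :=
              mul_le_mul_of_nonneg_right h3 (Real.exp_pos _).le
          _ = _ := by ring
    -- apply the one step theorem
    refine hstep V G w Y Z' W (by omega) hYne hwpos hPhi hKb habs ?_ ?_ ?_ ?_
    · calc PhiW G q (W + 1) w Y Z' * PhiW G q (W - 1) w Y Z'
          ≤ (Real.exp (ε' / 2 * (1 - 2 * (j : ℝ)) + τ) * PhiW G q W w Y Z') *
            (Real.exp (ε' / 2 * (2 * (j : ℝ) + 1) + τ) * PhiW G q W w Y Z') :=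
            mul_le_mul hup hdown (PhiW_nonneg _ _ _ _ _) (by positivity)
        _ = Real.exp (ε' + 2 * τ) * PhiW G q W w Y Z' ^ 2 := by
            have : Real.exp (ε' + 2 * τ) = Real.exp (ε' / 2 * (1 - 2 * (j : ℝ)) + τ) *
              Real.exp (ε' / 2 * (2 * (j : ℝ) + 1) + τ) := by
              rw [← Real.exp_add]; congr 1; ring
            rw [this]; ring
        _ ≤ (1 + θ ^ 2) * PhiW G q W w Y Z' ^ 2 :=
            mul_le_mul_of_nonneg_right hθ (by positivity)
    · intro x hx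
      have h1 : PhiW G q (W - 1) w Y Z' / PhiW G q W w Y Z' ≤
          Real.exp (ε' / 2 * (2 * (j : ℝ) + 1) + τ) := by
        rw [div_le_iff₀ hPhi]; exact hdown
      have h2 : Real.exp (ε' / 2 * (2 * (j : ℝ) + 1) + τ) ≤ Real.exp (ε' * (m + 1) + τ) := by
        apply Real.exp_le_exp.mpr
        have : (j : ℝ) ≤ m := by exact_mod_cast hjm.le
        have h9 : ε' * (j : ℝ) ≤ ε' * m := mul_le_mul_of_nonneg_left this hε'.le
        linarith
      have h3 : (W : ℝ) ≤ ((W0 + m : ℕ) : ℝ) := by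
        have : W ≤ W0 + m := by omega
        exact_mod_cast this
      have h4 : ((W0 + m : ℕ) : ℝ) * β ^ J * Real.exp (ε' * (m + 1) + τ) ≤ δ1 * Y.card := by
        rw [div_le_iff₀ hδ1] at hn0
        calc _ ≤ n0 * δ1 := hn0
          _ ≤ δ1 * Y.card := by
            rw [mul_comm]; exact mul_le_mul_of_nonneg_left hYbig.le hδ1.le
      have h5 : (Y.card : ℝ) ≤ totW w Y := by
        unfold totW
        calc (Y.card : ℝ) = ∑ _x ∈ Y, (1 : ℝ) := by simp
          _ ≤ _ := sum_le_sum (fun x hx => (hw x hx).1)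
      have h6 : w x ≤ β ^ J := ((hw x hx).2).trans (pow_le_pow_right₀ hβ1 (by omega))
      have h7 : w x / totW w Y ≤ β ^ J / Y.card :=
        div_le_div₀ (pow_nonneg hβ0.le _) h6 hYpos h5
      have h8 : 0 ≤ w x / totW w Y := div_nonneg (hwpos x hx).le hT.le
      calc (W : ℝ) * (w x / totW w Y) * (PhiW G q (W - 1) w Y Z' / PhiW G q W w Y Z')
          ≤ (((W0 + m : ℕ) : ℝ) * (β ^ J / Y.card)) * Real.exp (ε' * (m + 1) + τ) := by
            refine mul_le_mul (mul_le_mul h3 h7 h8 (by positivity)) (h1.trans h2)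
              (div_nonneg (PhiW_nonneg _ _ _ _ _) hPhi.le) (by positivity)
        _ = ((W0 + m : ℕ) : ℝ) * β ^ J * Real.exp (ε' * (m + 1) + τ) / Y.card := by ring
        _ ≤ _ := by rw [div_le_iff₀ hYpos]; exact h4
    · intro x hx
      have hR' : NoR G (k'' + 1) (Y ∪ Z') := NoR_mono hR (union_subset_union_left hY)
      have h1 := ih k'' (l'' + 1) (by omega) (by omega) (rN G x Y)
        ((rN_subset x Y).trans (hY.trans hX')) (rN G x Z') ((rN_subset x Z').trans hZ')
        (NoR_child hx hR') (NoB_mono hB ((rN_subset x Y).trans hY)) j (by omega) cl hcl w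
        (fun z hz => hw z (rN_subset x Y hz))
      have h2 : Real.exp (ε * cl + ε' / 2 * (j : ℝ) ^ 2) * (n0 ^ a * E *
          Real.exp ((k'' : ℝ) * L + ((l'' + 1 : ℕ) : ℝ) * M)) =
          Real.exp (-L) * (Real.exp (ε * cl + ε' / 2 * (j : ℝ) ^ 2) * B) := by
        rw [hBdef]
        have : Real.exp ((k'' : ℝ) * L + ((l'' + 1 : ℕ) : ℝ) * M) =
            Real.exp (-L) * Real.exp (((k'' + 1 : ℕ) : ℝ) * L + ((l'' + 1 : ℕ) : ℝ) * M) := by
          rw [← Real.exp_add]; congr 1; push_cast; ring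
        rw [this]; ring
      rw [h2] at h1
      refine h1.trans ?_
      refine mul_le_mul_of_nonneg_left ?_ (Real.exp_pos _).le
      rw [Real.exp_neg, ← div_eq_mul_inv, lt_div_iff₀ (Real.exp_pos _), mul_comm] at hbig'
      exact hbig'.le
    · intro x hx
      have hR' : NoR G (k'' + 1) (bN G x Y ∪ Z') :=
        NoR_mono hR (union_subset_union_left ((bN_subset x Y).trans hY))
      have h1 := ih (k'' + 1) l'' (by omega) hk (bN G x Y)
        ((bN_subset x Y).trans (hY.trans hX')) Z' hZ'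
        hR' (NoB_child hx (NoB_mono hB hY)) j (by omega) cl hcl w
        (fun z hz => hw z (bN_subset x Y hz))
      have h2 : Real.exp (ε * cl + ε' / 2 * (j : ℝ) ^ 2) * (n0 ^ a * E *
          Real.exp (((k'' + 1 : ℕ) : ℝ) * L + (l'' : ℝ) * M)) =
          Real.exp (-M) * (Real.exp (ε * cl + ε' / 2 * (j : ℝ) ^ 2) * B) := by
        rw [hBdef]
        have : Real.exp (((k'' + 1 : ℕ) : ℝ) * L + (l'' : ℝ) * M) =
            Real.exp (-M) * Real.exp (((k'' + 1 : ℕ) : ℝ) * L + ((l'' + 1 : ℕ) : ℝ) * M) := by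
          rw [← Real.exp_add]; congr 1; push_cast; ring
        rw [this]; ring
      rw [h2] at h1
      refine h1.trans ?_
      refine mul_le_mul_of_nonneg_left ?_ (Real.exp_pos _).le
      rw [Real.exp_neg, ← div_eq_mul_inv, lt_div_iff₀ (Real.exp_pos _), mul_comm] at hbig'
      exact hbig'.le


lemma potW_one {V : Type} [DecidableEq V] {G : SimpleGraph V} [DecidableRel G.Adj]
    (a q : ℝ) (W : ℕ) {X : Finset V} (hX : X.Nonempty) (Z : Finset V) :
    potW G a q W (fun _ => 1) X Z = pot G a q W X Z := by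
  have hn : (0 : ℝ) < X.card := by exact_mod_cast hX.card_pos
  have hT : totW (fun _ : V => (1 : ℝ)) X = X.card := by unfold totW; simp
  have hH : entW (fun _ : V => (1 : ℝ)) X = Real.log X.card := by
    unfold entW
    rw [hT]
    simp
  unfold potW pot PhiW
  rw [hH, Real.rpow_def_of_pos hn, mul_comm a]
  congr 1
  refine sum_congr rfl (fun y _ => ?_)
  unfold exW ex sE
  rw [hT]
  simp only [one_mul]

lemma exists_J {ε : ℝ} (hε : 0 < ε) {a : ℝ} (ha1 : a ≤ 1) :
    ∃ J : ℕ, 1 ≤ J ∧ a * Real.log J + 1 < ε * ((J : ℝ) - 2) := by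
  obtain ⟨n, hn⟩ := exists_nat_ge (3 / ε + 3)
  have h3 : 0 < 3 / ε := by positivity
  have hn1 : (1 : ℝ) ≤ n := by linarith
  have hn0 : (0 : ℝ) < n := by linarith
  refine ⟨n ^ 2, ?_, ?_⟩
  · have : 0 < n := by exact_mod_cast hn0
    exact Nat.one_le_iff_ne_zero.mpr (by positivity)
  · push_cast
    rw [Real.log_pow]
    have h4 : 0 ≤ Real.log n := Real.log_nonneg hn1
    have h5 : Real.log n ≤ n - 1 := Real.log_le_sub_one_of_pos hn0
    have h6 : a * ((2 : ℕ) * Real.log n) ≤ 2 * Real.log n := by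
      push_cast
      have h6b := mul_le_mul_of_nonneg_right ha1 h4
      linarith
    have h7 : 3 + 3 * ε ≤ ε * n := by
      have : ε * (3 / ε + 3) ≤ ε * n := mul_le_mul_of_nonneg_left hn hε.le
      have h8 : ε * (3 / ε + 3) = 3 + 3 * ε := by field_simp
      linarith
    have h9 := mul_le_mul_of_nonneg_right h7 hn0.le
    have h10 := mul_le_mul_of_nonneg_left hn1 hε.le
    linarith

theorem t1I_of (h1 : OneStepW) (h2 : LevelSplit) (h3 : TiltBound) : T1I := by
  intro a q L M η ha ha1 hq0 hq1 hL hM hη hcert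
  obtain ⟨ε2, hε2, hstepK⟩ := h1 a q L M ha ha1 hq0 hq1 hcert
  set dl : ℝ := min 1 (ε2 / 6) with hdldef
  have hdl : 0 < dl := lt_min one_pos (by positivity)
  have hdl1 : dl ≤ 1 := min_le_left _ _
  have hdl2 : dl ≤ ε2 / 6 := min_le_right _ _
  set ε : ℝ := dl * ε2 / 12 with hεdef
  set ζ : ℝ := dl * ε2 / 6 with hζdef
  have hε : 0 < ε := by positivity
  have hζ : 0 < ζ := by positivity
  obtain ⟨J, hJ, hJ2⟩ := exists_J hε ha1
  set β : ℝ := 1 + dl with hβ
  have hβ1 : 1 < β := by linarith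
  set K : ℝ := Real.log (β ^ J) with hK
  obtain ⟨W1, θ, δ1, hW1, hθ, hδ1, hstep⟩ := hstepK K
  obtain ⟨W2, hlevel⟩ := h2 a β ha ha1 hβ1 J (ε * ((J : ℝ) - 2)) hJ hJ2
  have hθ2 : 0 < θ ^ 2 := by positivity
  set ε' : ℝ := Real.log (1 + θ ^ 2) / 2 with hε'def
  have hlog1 : 0 < Real.log (1 + θ ^ 2) := Real.log_pos (by linarith)
  have hε' : 0 < ε' := by positivity
  set τ : ℝ := min ε (ε' / 2) with hτdef
  have hτ : 0 < τ := lt_min hε (by positivity)
  have hτ1 : τ ≤ ε := min_le_left _ _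
  have hτ2 : τ ≤ ε' / 2 := min_le_right _ _
  obtain ⟨W3, htilt⟩ := h3 a dl (ε + τ) K ζ ha ha1 hdl hdl1 (by positivity) hζ
  set W0 : ℕ := max W1 (max W2 W3) with hW0
  have hW0' : 2 ≤ W0 := hW1.trans (le_max_left _ _)
  have hstep' : StepAtW a q L M ε2 K W0 θ δ1 := by
    intro V _ G _ w X Z W hW
    exact hstep V G w X Z W ((le_max_left _ _).trans hW)
  have hlevel' : LevelAt a β J (ε * ((J : ℝ) - 2)) W0 := by
    intro V _ w f X W hW
    exact hlevel V w f X W (((le_max_left _ _).trans (le_max_right _ _)).trans hW)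
  have htilt' : TiltAt a dl (ε + τ) K ε2 W0 := by
    intro V _ w f X T W hW hX hw hk hT hs hc
    refine (htilt V w f X T W (((le_max_right _ _).trans (le_max_right _ _)).trans hW)
      hX hw hk hT hs hc).trans ?_
    rw [div_le_iff₀ hdl]
    have e1 : ε + τ + a * dl ^ 2 + ζ ≤ dl * ε2 / 2 := by
      have e2 : a * dl ^ 2 ≤ dl * (ε2 / 6) := by
        calc a * dl ^ 2 ≤ 1 * dl ^ 2 := mul_le_mul_of_nonneg_right ha1 (by positivity)
          _ = dl * dl := by ring
          _ ≤ _ := mul_le_mul_of_nonneg_left hdl2 hdl.le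
      have e3 : ε + τ ≤ dl * ε2 / 6 := by
        have : ε + τ ≤ 2 * ε := by linarith
        calc _ ≤ _ := this
          _ = _ := by rw [hεdef]; ring
      rw [hζdef]
      linarith
    have e4 : 0 ≤ ε + τ + a * dl ^ 2 + ζ := by positivity
    calc (1 + dl) * (ε + τ + a * dl ^ 2 + ζ) ≤ 2 * (ε + τ + a * dl ^ 2 + ζ) :=
          mul_le_mul_of_nonneg_right (by linarith) e4
      _ ≤ 2 * (dl * ε2 / 2) := by linarith
      _ = ε2 * dl := by ring
  have hθε : Real.exp (ε' + 2 * τ) ≤ 1 + θ ^ 2 := by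
    calc Real.exp (ε' + 2 * τ) ≤ Real.exp (Real.log (1 + θ ^ 2)) := by
          apply Real.exp_le_exp.mpr
          have : Real.log (1 + θ ^ 2) = 2 * ε' := by rw [hε'def]; ring
          linarith
      _ = 1 + θ ^ 2 := Real.exp_log (by linarith)
  have hlogβ : 0 ≤ K := by
    rw [hK]; exact Real.log_nonneg (one_le_pow₀ hβ1.le)
  set B : ℝ := (1 + |Real.log η|) + ε' with hB
  set A : ℝ := W0 * (1 + |Real.log η|) + K + ε' + τ + |Real.log δ1| with hA
  have hB0 : 0 ≤ B := by rw [hB]; positivity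
  have hA0 : 0 ≤ A := by rw [hA]; positivity
  have hsε : 0 < Real.sqrt ε' := Real.sqrt_pos.mpr hε'
  refine ⟨A + B + B * (2 / Real.sqrt ε'), by positivity, ?_⟩
  intro V _ G _ X Z N k l E hX hZ hXN hZN hR hBl hE hd
  have hXc : (1 : ℝ) ≤ X.card := by exact_mod_cast hX.card_pos
  have hZc : (1 : ℝ) ≤ Z.card := by exact_mod_cast hZ.card_pos
  have hN1 : (1 : ℝ) ≤ N := by
    have : (X.card : ℝ) ≤ N := by exact_mod_cast hXN
    linarith
  set lam : ℝ := Real.log N with hlam
  have hlam0 : 0 ≤ lam := Real.log_nonneg hN1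
  set m : ℕ := ⌈2 * Real.sqrt (lam / ε')⌉₊ with hm
  have hmge : 2 * Real.sqrt (lam / ε') ≤ m := Nat.le_ceil _
  have hmle : (m : ℝ) ≤ 1 + 2 / Real.sqrt ε' * Real.sqrt lam := by
    have h1 : (m : ℝ) < 2 * Real.sqrt (lam / ε') + 1 := Nat.ceil_lt_add_one (by positivity)
    have h2 : Real.sqrt (lam / ε') = Real.sqrt lam / Real.sqrt ε' := Real.sqrt_div hlam0 _
    rw [h2] at h1
    have h3 : 2 * (Real.sqrt lam / Real.sqrt ε') = 2 / Real.sqrt ε' * Real.sqrt lam := by ring
    linarith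
  have hmN : (N : ℝ) ^ 2 ≤ Real.exp (ε' / 2 * (m : ℝ) ^ 2) := by
    have h1 : (N : ℝ) ^ 2 = Real.exp (2 * lam) := by
      rw [hlam, mul_comm, Real.exp_mul, Real.exp_log (by linarith)]
      norm_cast
    rw [h1]
    apply Real.exp_le_exp.mpr
    have h2 : (2 * Real.sqrt (lam / ε')) ^ 2 ≤ (m : ℝ) ^ 2 :=
      pow_le_pow_left₀ (by positivity) hmge 2
    rw [mul_pow, Real.sq_sqrt (by positivity)] at h2
    have h3 : ε' / 2 * (2 ^ 2 * (lam / ε')) ≤ ε' / 2 * (m : ℝ) ^ 2 :=
      mul_le_mul_of_nonneg_left h2 (by positivity)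
    have h4 : ε' / 2 * (2 ^ 2 * (lam / ε')) = 2 * lam := by field_simp
    linarith
  set t : ℝ := ((W0 + m : ℕ) : ℝ) * β ^ J * Real.exp (ε' * (m + 1) + τ) / δ1 with ht
  have hWm : (1 : ℝ) ≤ ((W0 + m : ℕ) : ℝ) := by
    have : 1 ≤ W0 + m := by omega
    exact_mod_cast this
  have hβJ : 0 < β ^ J := by positivity
  have htpos : 0 < t := by rw [ht]; positivity
  have hQ : ε * ((J : ℝ) - 2) ≤ ε * ((J : ℝ) - 1) - τ := by linarith
  have hclaim := claimW_of_step ha ha1 hq0 hM hW0' hδ1 hdl hβ le_rfl hstep' hlevel' htilt' hJ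
    hε.le hε' hτ hθε hQ (m := m) (n0 := max 1 t)
    (le_max_left _ _) (le_max_right _ _) G hXN hZN hmN hE (k + l) k l le_rfl le_rfl
    X subset_rfl Z subset_rfl hR hBl 0 (Nat.zero_le _) 0 (Nat.zero_le _) (fun _ => 1)
    (fun x _ => by simp)
  rw [potW_one a q _ hX] at hclaim
  have hlow := pot_ge (a := a) (W := W0 + (m - 0)) hη hX hZ hd
  have hmain := hlow.trans hclaim
  have hk1 : 1 ≤ k := by
    rcases Nat.eq_zero_or_pos k with h0 | h0
    · subst h0; exact absurd hR (not_NoR_zero _)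
    · exact h0
  have hEk : (Z.card : ℝ) ≤ E * Real.exp (k * L) :=
    hE k le_rfl Z subset_rfl (NoR_mono hR subset_union_right)
  have hEpos : 0 < E := by
    have h1 : 0 < E * Real.exp (k * L) := by linarith
    exact pos_of_mul_pos_left h1 (Real.exp_pos _).le
  have hn0 : 0 < max 1 t := lt_of_lt_of_le one_pos (le_max_left _ _)
  have hXa : 0 < (X.card : ℝ) ^ a := Real.rpow_pos_of_pos (by linarith) _
  have hηW : 0 < η ^ (W0 + (m - 0)) := pow_pos hη _
  have hlog := Real.log_le_log (by positivity) hmain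
  rw [Real.log_mul hXa.ne' (by positivity), Real.log_mul (by positivity) hηW.ne',
    Real.log_rpow (by linarith), Real.log_pow, Real.log_mul (by positivity) (by positivity),
    Real.log_exp, Real.log_mul (by positivity) (by positivity),
    Real.log_mul (by positivity) (by positivity), Real.log_exp, Real.log_rpow hn0] at hlog
  have hlogt : Real.log (max 1 t) ≤ (W0 + m) + K + (ε' * (m + 1) + τ) + |Real.log δ1| := by
    rcases le_total 1 t with h1 | h1
    · rw [max_eq_right h1, ht, Real.log_div (by positivity) hδ1.ne',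
        Real.log_mul (by positivity) (by positivity), Real.log_exp,
        Real.log_mul (by positivity) (by positivity), ← hK]
      have h2 := Real.log_le_sub_one_of_pos (lt_of_lt_of_le one_pos hWm)
      have h3 := neg_abs_le (Real.log δ1)
      push_cast at h2 ⊢
      linarith
    · rw [max_eq_left h1, Real.log_one]; positivity
  have hlogt0 : 0 ≤ Real.log (max 1 t) := Real.log_nonneg (le_max_left _ _)
  have h7 : a * Real.log (max 1 t) ≤ (W0 + m) + K + (ε' * (m + 1) + τ) + |Real.log δ1| := by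
    calc a * Real.log (max 1 t) ≤ 1 * Real.log (max 1 t) :=
          mul_le_mul_of_nonneg_right ha1 hlogt0
      _ ≤ _ := by rw [one_mul]; exact hlogt
  have h8 : -(((W0 + (m - 0) : ℕ) : ℝ) * Real.log η) ≤ (W0 + m) * |Real.log η| := by
    have h9 := neg_abs_le (Real.log η)
    have h10 : (0 : ℝ) ≤ (W0 + m : ℝ) := by positivity
    rw [Nat.sub_zero]
    push_cast
    have h9b := mul_le_mul_of_nonneg_left h9 h10
    linarith
  have h11 : A + B * m ≤ (A + B + B * (2 / Real.sqrt ε')) * (1 + Real.sqrt lam) := by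
    have h12 : B * m ≤ B * (1 + 2 / Real.sqrt ε' * Real.sqrt lam) :=
      mul_le_mul_of_nonneg_left hmle hB0
    have h13 : 0 ≤ Real.sqrt lam := Real.sqrt_nonneg _
    have h14 : 0 ≤ B * (2 / Real.sqrt ε') := by positivity
    have h15 : 0 ≤ A * Real.sqrt lam := by positivity
    have h16 : 0 ≤ B * Real.sqrt lam := by positivity
    linarith
  have h17 : A + B * m = (W0 + m) * |Real.log η| +
      ((W0 + m) + K + (ε' * (m + 1) + τ) + |Real.log δ1|) := by
    rw [hA, hB]; ring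
  have e1 : ε * ((0 : ℕ) : ℝ) + ε' / 2 * ((0 : ℕ) : ℝ) ^ 2 = 0 := by simp
  rw [e1] at hlog
  linarith

end Pool.Agent.H92
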