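import Pool.Agent.H92.RamseyN2
import Pool.Agent.H92.RamseyE

/-!
First numerical certificate for the Ramsey project MP_28724c_co:
`R(k,k) ≤ exp ((1.298262 + o(1)) k)`.
-/

namespace Pool.Agent.H92.Num

def m1 : List Iv := [
  ⟨489542, 180207, 168223, 498435, 728144, 659334, 0⟩,
  ⟨502447, 207265, 204013, 491969, 701085, 685271, 62857⟩,
  ⟨514662, 232260, 240390, 489485, 676091, 710499, 129459⟩,
  ⟨526141, 255323, 277119, 491019, 653027, 734944, 200733⟩,
  ⟨536889, 276412, 313658, 496531, 631938, 758348, 276864⟩,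
  ⟨546901, 295797, 349999, 505995, 612554, 780810, 359116⟩,
  ⟨556228, 313411, 385537, 519202, 594939, 802061, 447345⟩,
  ⟨564906, 329648, 420617, 536244, 578703, 822402, 543719⟩,
  ⟨572985, 344416, 454630, 556797, 563935, 841568, 647894⟩,
  ⟨580547, 358076, 488021, 581121, 550275, 859889, 762681⟩,
  ⟨587593, 370668, 520576, 609132, 537683, 877311, 889187⟩,
  ⟨594167, 382231, 552076, 640667, 526120, 893780, 1028334⟩,
  ⟨600311, 392942, 582722, 675984, 515408, 909456, 1183123⟩,
  ⟨606115, 402828, 612337, 714965, 505523, 924298, 1355127⟩,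
  ⟨611615, 412193, 641645, 758840, 496158, 938703, 1552259⟩,
  ⟨616817, 420911, 670087, 807155, 487440, 952427, 1775694⟩,
  ⟨621807, 429137, 698006, 860901, 479214, 965665, 2033971⟩,
  ⟨626579, 437021, 725799, 921642, 471330, 978622, 2340305⟩,
  ⟨631233, 444433, 752902, 989072, 463918, 991054, 2700794⟩,
  ⟨635842, 451790, 780785, 1068577, 456561, 1003643, 3156824⟩,
  ⟨640510, 458959, 808938, 1161647, 449392, 1016155, 3738199⟩,
  ⟨645509, 466344, 839010, 1279100, 442007, 1029306, 4554441⟩,
  ⟨651776, 474339, 872850, 1441273, 434012, 1043853, 5856174⟩,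
  ⟨1000000, 484901, 919729, 1747800, 423450, 1063585, 9000006⟩]

lemma m1_chk : chk 1000000 499999 1601500 769885 568196 m1 = true := by decide +kernel

lemma m1_es : rng (-1601500) && rng (-225138) &&
    decide (expHi (-1601500) + expHi (-225138) ≤ 1000000000000000) = true := by decide +kernel

lemma m1_good : Good (1601500 / 1000000) (225138 / 1000000) := by
  have h := m1_es
  simp only [Bool.and_eq_true, decide_eq_true_eq] at h
  obtain ⟨⟨h1, h2⟩, h3⟩ := h
  have e1 := expHi_spec h1
  have e2 := expHi_spec h2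
  have h3' : (expHi (-1601500) : ℝ) + expHi (-225138) ≤ 1000000000000000 := by exact_mod_cast h3
  refine good_ES (by norm_num) (by norm_num) ?_
  push_cast at e1 e2
  rw [neg_div] at e1 e2
  linarith

theorem goodDiag_m1 : GoodDiag (1298262 / 1000000) := by
  have hc := chk_spec (by norm_num) m1_chk
  push_cast at hc
  rw [show (1000000 : ℝ) / 1000000 = 1 by norm_num] at hc
  exact diagStep 1 (499999 / 1000000) (1601500 / 1000000) (769885 / 1000000)
    (225138 / 1000000) (1298262 / 1000000) (by norm_num) le_rfl (by norm_num) (by norm_num)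
    (by norm_num) (by norm_num) hc m1_good (by norm_num)

end Pool.Agent.H92.Num
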