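import Pool.Agent.H92.RamseyM2
import Pool.Agent.H92.RamseyE

/-!
`R(k,k) ≤ exp ((1.254544 + o(1)) k)` from the family of lines of `RamseyM2.lean`.
-/

namespace Pool.Agent.H92.Num

theorem t1P_cert : T1P Cert := t1

theorem goodDiag_m2 : GoodDiag (1254544 / 1000000) := by
  have h := goodDiag_of_chkDiag (diagStepP_of_T1P t1P_cert) cert_hC
    (good_of_chkFam (bootstrapP_of_T1P t1P_cert) cert_hC FamJ.cert_chk) FamJ.dg_chk
  push_cast at h
  exact h

end Pool.Agent.H92.Num
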