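import Mathlib

set_option autoImplicit false
open MeasureTheory ProbabilityTheory
open scoped ENNReal

namespace Pool.Agent.H92.Rt3

/-- The vertices of the rooted ternary tree: finite words over three letters; the root is the empty
word, the children of `v` are the words `c :: v`. -/
def V : Type := List (Fin 3)

instance : Countable V := inferInstanceAs (Countable (List (Fin 3)))
instance : DecidableEq V := inferInstanceAs (DecidableEq (List (Fin 3)))
/-- Every set of vertices is measurable. -/
instance : MeasurableSpace V := ⊤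
instance : DiscreteMeasurableSpace V := ⟨fun _ => trivial⟩

/-- The root. -/
def root : V := ([] : List (Fin 3))
/-- The child number `c` of `v`. -/
def child (c : Fin 3) (v : V) : V := (c :: v : List (Fin 3))

/-- Two vertices are neighbours when one is a child of the other. -/
def Adj (u w : V) : Prop := (∃ c, w = child c u) ∨ ∃ c, u = child c w

open Classical in
/-- The transition probability of simple random walk: `1` over the number of neighbours of `u` if
`w` is a neighbour of `u`, and `0` otherwise. -/
noncomputable def step (u w : V) : ℝ≥0∞ :=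
  if Adj u w then ((Set.ncard {x | Adj u x} : ℕ) : ℝ≥0∞)⁻¹ else 0

section
variable {Ω : Type*} [MeasurableSpace Ω]

open Classical in
/-- `X` is a simple random walk started at `v`. -/
def IsSRW (P : Measure Ω) (v : V) (X : ℕ → Ω → V) : Prop :=
  (∀ k, Measurable (X k)) ∧ ∀ (m : ℕ) (x : ℕ → V),
    P {ω | ∀ k ≤ m, X k ω = x k} =
      if x 0 = v then ∏ k ∈ Finset.range m, step (x k) (x (k + 1)) else 0

/-- The walks `X v`, one for every vertex `v`, are independent simple random walks, `X v` being
started at `v`. -/
def IndepWalks (P : Measure Ω) (X : V → ℕ → Ω → V) : Prop :=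
  (∀ v, IsSRW P v (X v)) ∧ iIndepFun (fun v ω => fun k => X v k ω) P

end

/-- The frog model driven by the paths `x v`: `(v, k)` is in `state x t` when at time `t` the frog
that started at `v` is awake and has made `k` steps (so that it sits at `x v k`). At time `0` only
the frog of the root is awake. At each time every awake frog makes one step, and the sleeping frogs
of the vertices reached wake up. -/
def state (x : V → ℕ → V) : ℕ → Set (V × ℕ)
  | 0 => {(root, 0)}
  | t + 1 => {p | ∃ v k, (v, k) ∈ state x t ∧ p = (v, k + 1)} ∪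
      {p | p.2 = 0 ∧ (∀ k, (p.1, k) ∉ state x t) ∧ ∃ v k, (v, k) ∈ state x t ∧ x v (k + 1) = p.1}

/-- At time `t` some awake frog is at the root. -/
def RootVisited (x : V → ℕ → V) (t : ℕ) : Prop := ∃ v k, (v, k) ∈ state x t ∧ x v k = root

/-! ### The deterministic part -/

/-- The visits of the frozen statement: pairs (woken frog, number of steps) at the root. -/
def visits (x : V → ℕ → V) : Set (V × ℕ) :=
  {p | (∀ A : Set V, root ∈ A → (∀ v ∈ A, ∀ k, x v k ∈ A) → p.1 ∈ A) ∧ x p.1 p.2 = root}

theorem state_finite (x : V → ℕ → V) (t : ℕ) : (state x t).Finite := by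
  induction t with
  | zero => exact Set.finite_singleton _
  | succ t ih =>
    refine Set.Finite.subset ((ih.image fun p : V × ℕ => (p.1, p.2 + 1)).union
      (ih.image fun p : V × ℕ => (x p.1 (p.2 + 1), 0))) ?_
    rintro ⟨v, k⟩ (⟨w, j, hj, h⟩ | ⟨h0, -, w, j, hj, h⟩)
    · left
      exact ⟨(w, j), hj, h.symm⟩
    · right
      refine ⟨(w, j), hj, ?_⟩
      simp only at h0 h ⊢
      rw [h, h0]

theorem state_add (x : V → ℕ → V) (v : V) (t k : ℕ) (h : (v, 0) ∈ state x t) :
    (v, k) ∈ state x (t + k) := by
  induction k with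
  | zero => exact h
  | succ k ih => exact Or.inl ⟨v, k, ih, rfl⟩

theorem state_zero (x : V → ℕ → V) (v : V) (t : ℕ) : ∀ k, (v, k) ∈ state x t →
    ∃ s, (v, 0) ∈ state x s := by
  induction t with
  | zero =>
    intro k h
    have h' : (v, k) = (root, 0) := h
    rw [Prod.mk.injEq] at h'
    refine ⟨0, ?_⟩
    rw [h'.1]
    exact rfl
  | succ t ih =>
    rintro k (⟨w, j, hj, h⟩ | h)
    · rw [Prod.mk.injEq] at h
      rw [← h.1] at hj
      exact ih j hj
    · obtain ⟨h0, h1, h2⟩ := h
      exact ⟨t + 1, Or.inr ⟨rfl, h1, h2⟩⟩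

theorem woken_awake (x : V → ℕ → V) (hx : ∀ v, x v 0 = v) (v : V)
    (hv : ∀ A : Set V, root ∈ A → (∀ v ∈ A, ∀ k, x v k ∈ A) → v ∈ A) :
    ∃ t, (v, 0) ∈ state x t := by
  refine hv {v | ∃ t, (v, 0) ∈ state x t} ⟨0, rfl⟩ ?_
  rintro v ⟨t, ht⟩ k
  rcases Nat.eq_zero_or_pos k with rfl | hk
  · rw [hx]; exact ⟨t, ht⟩
  · obtain ⟨k, rfl⟩ : ∃ j, k = j + 1 := ⟨k - 1, by omega⟩
    by_cases hw : ∃ j, (x v (k + 1), j) ∈ state x (t + k)
    · obtain ⟨j, hj⟩ := hw
      exact state_zero x _ _ j hj
    · push Not at hw
      exact ⟨t + k + 1, Or.inr ⟨rfl, hw, v, k, state_add x v t k ht, rfl⟩⟩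

theorem infinite_times (x : V → ℕ → V) (hx : ∀ v, x v 0 = v) (h : (visits x).Infinite) :
    {t | RootVisited x t}.Infinite := by
  intro hfin
  apply h
  refine Set.Finite.subset (hfin.biUnion fun t _ => state_finite x t) ?_
  rintro ⟨v, k⟩ ⟨hA, hr⟩
  obtain ⟨t, ht⟩ := woken_awake x hx v hA
  have h1 := state_add x v t k ht
  simp only [Set.mem_iUnion]
  exact ⟨t + k, ⟨v, k, h1, hr⟩, h1⟩

/-! ### Measurability -/

/-- `v` is reached from the root through `n` wakings. -/
def Reach (x : V → ℕ → V) : ℕ → Set V
  | 0 => {root}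
  | n + 1 => {w | ∃ v ∈ Reach x n, ∃ k, x v k = w}

theorem mem_closure (x : V → ℕ → V) (v : V) :
    (∀ A : Set V, root ∈ A → (∀ v ∈ A, ∀ k, x v k ∈ A) → v ∈ A) ↔ ∃ n, v ∈ Reach x n := by
  constructor
  · intro h
    refine h {v | ∃ n, v ∈ Reach x n} ⟨0, rfl⟩ ?_
    rintro v ⟨n, hn⟩ k
    exact ⟨n + 1, v, hn, k, rfl⟩
  · rintro ⟨n, hn⟩ A h0 hA
    induction n generalizing v with
    | zero =>
      have : v = root := hn
      rw [this]; exact h0
    | succ n ih =>
      obtain ⟨w, hw, k, rfl⟩ := hn
      exact hA w (ih w hw) k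

theorem measurable_coord (v : V) (k : ℕ) (w : V) : MeasurableSet {x : V → ℕ → V | x v k = w} := by
  have h : Measurable fun x : V → ℕ → V => x v k := by fun_prop
  exact h (MeasurableSet.singleton w)

theorem measurable_reach (n : ℕ) (v : V) : MeasurableSet {x : V → ℕ → V | v ∈ Reach x n} := by
  induction n generalizing v with
  | zero => exact MeasurableSet.const _
  | succ n ih =>
    have : {x : V → ℕ → V | v ∈ Reach x (n + 1)} =
        ⋃ w : V, ({x | w ∈ Reach x n} ∩ ⋃ k : ℕ, {x : V → ℕ → V | x w k = v}) := by
      ext x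
      simp only [Set.mem_ofPred_eq, Set.mem_iUnion, Set.mem_inter_iff]
      rfl
    rw [this]
    exact MeasurableSet.iUnion fun w => (ih w).inter (MeasurableSet.iUnion fun k =>
      measurable_coord w k v)

theorem measurable_visits : MeasurableSet {x : V → ℕ → V | (visits x).Infinite} := by
  have h1 : ∀ p : V × ℕ, MeasurableSet {x : V → ℕ → V | p ∈ visits x} := by
    intro p
    have : {x : V → ℕ → V | p ∈ visits x} =
        (⋃ n : ℕ, {x | p.1 ∈ Reach x n}) ∩ {x | x p.1 p.2 = root} := by
      ext x
      simp only [visits, Set.mem_ofPred_eq, Set.mem_inter_iff, Set.mem_iUnion, mem_closure]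
    rw [this]
    exact (MeasurableSet.iUnion fun n => measurable_reach n _).inter (measurable_coord _ _ _)
  have h2 : {x : V → ℕ → V | (visits x).Infinite} =
      ⋂ F : Finset (V × ℕ), ⋃ p ∈ {p : V × ℕ | p ∉ F}, {x | p ∈ visits x} := by
    ext x
    simp only [Set.mem_ofPred_eq, Set.mem_iInter, Set.mem_iUnion, exists_prop]
    constructor
    · intro h F
      obtain ⟨p, hp, hpF⟩ := h.exists_notMem_finset F
      exact ⟨p, hpF, hp⟩
    · intro h hfin
      obtain ⟨p, hpF, hp⟩ := h hfin.toFinset
      exact hpF (hfin.mem_toFinset.2 hp)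
  rw [h2]
  exact MeasurableSet.iInter fun F => MeasurableSet.biUnion (Set.to_countable _) fun p _ => h1 p

/-! ### The law of a path -/

/-- The paths that agree with `x` up to time `m`. -/
def cyl (m : ℕ) (x : ℕ → V) : Set (ℕ → V) := {f | ∀ k ≤ m, f k = x k}

/-- All cylinders. -/
def cyls : Set (Set (ℕ → V)) := Set.range fun p : ℕ × (ℕ → V) => cyl p.1 p.2

theorem piSystem_cyls : IsPiSystem cyls := by
  rintro _ ⟨⟨m, x⟩, rfl⟩ _ ⟨⟨n, y⟩, rfl⟩ ⟨f, hf, hg⟩
  refine ⟨(max m n, f), ?_⟩
  ext g
  simp only [cyl, Set.mem_ofPred_eq, Set.mem_inter_iff] at hf hg ⊢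
  constructor
  · intro h
    exact ⟨fun k hk => by rw [h k (by omega), hf k hk], fun k hk => by rw [h k (by omega), hg k hk]⟩
  · rintro ⟨h1, h2⟩ k hk
    rcases le_or_gt k m with hkm | hkm
    · rw [h1 k hkm, hf k hkm]
    · have hkn : k ≤ n := by omega
      rw [h2 k hkn, hg k hkn]

theorem generate_cyls : (MeasurableSpace.pi : MeasurableSpace (ℕ → V)) =
    MeasurableSpace.generateFrom cyls := by
  apply le_antisymm
  · refine iSup_le fun k => ?_
    rintro _ ⟨B, -, rfl⟩
    have : (fun f : ℕ → V => f k) ⁻¹' B =
        ⋃ y ∈ {y : Fin (k + 1) → V | y (Fin.last k) ∈ B},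
          cyl k (fun j => if h : j < k + 1 then y ⟨j, h⟩ else root) := by
      ext f
      simp only [Set.mem_preimage, Set.mem_iUnion, exists_prop, Set.mem_ofPred_eq, cyl]
      constructor
      · intro h
        refine ⟨fun j => f j, h, fun j hj => ?_⟩
        rw [dif_pos (by omega)]
      · rintro ⟨y, hy, h⟩
        have := h k le_rfl
        rw [dif_pos (by omega)] at this
        rw [this]
        exact hy
    rw [this]
    refine MeasurableSet.biUnion (Set.to_countable _) fun y _ => ?_
    exact MeasurableSpace.measurableSet_generateFrom ⟨(k, _), rfl⟩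
  · refine MeasurableSpace.generateFrom_le ?_
    rintro _ ⟨⟨m, x⟩, rfl⟩
    have : cyl m x = ⋂ k ∈ {k : ℕ | k ≤ m}, (fun f : ℕ → V => f k) ⁻¹' {x k} := by
      ext f
      simp [cyl]
    simp only
    rw [this]
    refine MeasurableSet.biInter (Set.to_countable _) fun k _ => ?_
    exact measurable_pi_apply k (MeasurableSet.singleton _)

theorem law_unique {μ ν : Measure (ℕ → V)} [IsProbabilityMeasure μ] [IsProbabilityMeasure ν]
    (h : ∀ m x, μ (cyl m x) = ν (cyl m x)) : μ = ν := by
  refine ext_of_generate_finite cyls generate_cyls piSystem_cyls ?_ (by simp)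
  rintro _ ⟨⟨m, x⟩, rfl⟩
  exact h m x

/-! ### Walks driven by uniform variables -/

/-- One step. -/
def stepFn (x : V) (a : Fin 3 × Fin 4) : V :=
  if x = root then child a.1 root else if a.2 = 0 then List.tail x else child a.1 x

/-- The walk. -/
def walk (v : V) (a : ℕ → Fin 3 × Fin 4) : ℕ → V
  | 0 => v
  | k + 1 => stepFn (walk v a k) (a k)

/-- The uniform measure. -/
noncomputable def U : Measure (Fin 3 × Fin 4) := (PMF.uniformOfFintype (Fin 3 × Fin 4)).toMeasure

instance : IsProbabilityMeasure U := by unfold U; infer_instance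

theorem U_apply (s : Finset (Fin 3 × Fin 4)) : U (s : Set (Fin 3 × Fin 4)) = s.card / 12 := by
  unfold U
  rw [PMF.toMeasure_uniformOfFintype_apply _ (Set.toFinite _).measurableSet]
  simp

theorem child_inj {c d : Fin 3} {v w : V} (h : child c v = child d w) : c = d ∧ v = w := by
  have h' : (c :: v : List (Fin 3)) = (d :: w : List (Fin 3)) := h
  rw [List.cons.injEq] at h'
  exact h'

theorem child_ne_root (c : Fin 3) (v : V) : child c v ≠ root := by
  intro h
  have h' : (c :: v : List (Fin 3)) = [] := h
  exact List.cons_ne_nil _ _ h'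

theorem child_ne_parent (c d : Fin 3) (v : V) : child c (child d v) ≠ v := by
  intro h
  have h' : (c :: (d :: v) : List (Fin 3)).length = (v : List (Fin 3)).length := congrArg List.length h
  simp at h'
  omega

theorem ncard_root : Set.ncard {x | Adj root x} = 3 := by
  have : {x | Adj root x} = Set.range fun c : Fin 3 => child c root := by
    ext x
    simp only [Adj, Set.mem_ofPred_eq, Set.mem_range]
    constructor
    · rintro (⟨c, rfl⟩ | ⟨c, h⟩)
      · exact ⟨c, rfl⟩
      · exact absurd h.symm (child_ne_root c x)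
    · rintro ⟨c, rfl⟩
      exact Or.inl ⟨c, rfl⟩
  rw [this, Set.ncard_range_of_injective fun c d h => (child_inj h).1]
  simp

theorem ncard_child (d : Fin 3) (t : V) : Set.ncard {x | Adj (child d t) x} = 4 := by
  have : {x | Adj (child d t) x} = insert t (Set.range fun c : Fin 3 => child c (child d t)) := by
    ext x
    simp only [Adj, Set.mem_ofPred_eq, Set.mem_insert_iff, Set.mem_range]
    constructor
    · rintro (⟨c, rfl⟩ | ⟨c, h⟩)
      · exact Or.inr ⟨c, rfl⟩
      · exact Or.inl (child_inj h).2.symm
    · rintro (rfl | ⟨c, rfl⟩)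
      · exact Or.inr ⟨d, rfl⟩
      · exact Or.inl ⟨c, rfl⟩
  rw [this, Set.ncard_insert_of_notMem, Set.ncard_range_of_injective fun c d h => (child_inj h).1]
  · simp
  · rintro ⟨c, h⟩
    exact child_ne_parent c d t h

theorem card1 : ∀ c : Fin 3,
    (Finset.univ.filter fun a : Fin 3 × Fin 4 => a.1 = c).card = 4 := by decide
theorem card2 : ∀ c : Fin 3,
    (Finset.univ.filter fun a : Fin 3 × Fin 4 => a.1 = c ∧ a.2 ≠ 0).card = 3 := by decide

theorem step_eq (x y : V) : U {a | stepFn x a = y} = step x y := by
  classical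
  have key : ∀ s : Finset (Fin 3 × Fin 4), {a | stepFn x a = y} = (s : Set (Fin 3 × Fin 4)) →
      U {a | stepFn x a = y} = s.card / 12 := fun s hs => by rw [hs, U_apply]
  by_cases hx : x = root
  · subst hx
    by_cases hy : Adj root y
    · obtain ⟨c, rfl⟩ | ⟨c, h⟩ := hy
      · rw [key (Finset.univ.filter fun a => a.1 = c), step,
          if_pos (show Adj root (child c root) from Or.inl ⟨c, rfl⟩), ncard_root]
        · rw [card1]
          rw [ENNReal.div_eq_inv_mul, ← ENNReal.toReal_eq_toReal_iff' (by finiteness) (by finiteness)]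
          simp
          norm_num
        · ext a
          simp only [stepFn, Set.mem_ofPred_eq, if_true, Finset.coe_filter, Finset.mem_univ,
            true_and]
          constructor
          · intro h; exact (child_inj h).1
          · intro h; rw [h]
      · exact absurd h.symm (child_ne_root c y)
    · rw [step, if_neg hy, key ∅]
      · simp
      · ext a
        simp only [stepFn, Set.mem_ofPred_eq, if_true, Finset.coe_empty, Set.mem_empty_iff_false,
          iff_false]
        intro h
        exact hy (Or.inl ⟨a.1, h.symm⟩)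
  · obtain ⟨d, t, rfl⟩ : ∃ d t, x = child d t := by
      cases x with
      | nil => exact absurd rfl hx
      | cons d t => exact ⟨d, t, rfl⟩
    have htail : List.tail (child d t) = t := rfl
    by_cases hy : Adj (child d t) y
    · rw [step, if_pos hy, ncard_child]
      obtain ⟨c, rfl⟩ | ⟨c, h⟩ := hy
      · rw [key (Finset.univ.filter fun a => a.1 = c ∧ a.2 ≠ 0)]
        · rw [card2]
          rw [ENNReal.div_eq_inv_mul, ← ENNReal.toReal_eq_toReal_iff' (by finiteness) (by finiteness)]
          simp
          norm_num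
        · ext a
          simp only [stepFn, Set.mem_ofPred_eq, if_neg hx, Finset.coe_filter, Finset.mem_univ,
            true_and]
          by_cases h2 : a.2 = 0
          · simp only [h2, if_true, ne_eq, not_true_eq_false, and_false, iff_false]
            intro h
            exact child_ne_parent c d t h.symm
          · simp only [h2, if_false, ne_eq, not_false_eq_true, and_true]
            constructor
            · intro h; exact (child_inj h).1
            · intro h; rw [h]
      · have hyt : y = t := (child_inj h).2.symm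
        subst hyt
        rw [key (Finset.univ.filter fun a => a.2 = 0)]
        · have : (Finset.univ.filter fun a : Fin 3 × Fin 4 => a.2 = 0).card = 3 := by decide
          rw [this]
          rw [ENNReal.div_eq_inv_mul, ← ENNReal.toReal_eq_toReal_iff' (by finiteness) (by finiteness)]
          simp
          norm_num
        · ext a
          simp only [stepFn, Set.mem_ofPred_eq, if_neg hx, Finset.coe_filter, Finset.mem_univ,
            true_and]
          by_cases h2 : a.2 = 0
          · simp only [h2, if_true, iff_true]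
            rfl
          · simp only [h2, if_false, iff_false]
            intro h'
            exact child_ne_parent a.1 d y h'
    · rw [step, if_neg hy, key ∅]
      · simp
      · ext a
        simp only [stepFn, Set.mem_ofPred_eq, if_neg hx, Finset.coe_empty, Set.mem_empty_iff_false,
          iff_false]
        split_ifs with h2
        · intro h
          exact hy (Or.inr ⟨d, by rw [← h]; rfl⟩)
        · intro h
          exact hy (Or.inl ⟨a.1, h.symm⟩)

theorem walk_iff (v : V) (m : ℕ) (x : ℕ → V) (h0 : x 0 = v) (a : ℕ → Fin 3 × Fin 4) :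
    (∀ k ≤ m, walk v a k = x k) ↔ ∀ k < m, stepFn (x k) (a k) = x (k + 1) := by
  induction m with
  | zero =>
    constructor
    · intro _ k hk; omega
    · intro _ k hk
      have : k = 0 := by omega
      subst this
      exact h0.symm
  | succ m ih =>
    constructor
    · intro h k hk
      have h1 := h k (by omega)
      have h2 := h (k + 1) (by omega)
      rw [← h1, ← h2]
      rfl
    · intro h k hk
      have h3 := ih.2 fun k hk => h k (by omega)
      rcases Nat.lt_or_ge k (m + 1) with hk' | hk'
      · exact h3 k (by omega)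
      · have : k = m + 1 := by omega
        subst this
        have h4 := h m (by omega)
        rw [← h4, ← h3 m le_rfl]
        rfl

theorem measurable_walk (v : V) : Measurable (walk v) := by
  refine measurable_pi_iff.2 fun k => ?_
  induction k with
  | zero => exact measurable_const
  | succ k ih =>
    have h : Measurable fun p : V × (Fin 3 × Fin 4) => stepFn p.1 p.2 := Measurable.of_discrete
    exact h.comp (ih.prodMk (measurable_pi_apply k))

theorem measurable_cyl (m : ℕ) (x : ℕ → V) : MeasurableSet (cyl m x) := by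
  have h : MeasurableSet[MeasurableSpace.generateFrom cyls] (cyl m x) :=
    MeasurableSpace.measurableSet_generateFrom ⟨(m, x), rfl⟩
  rw [← generate_cyls] at h
  exact h

open Classical in
theorem walk_law (v : V) (m : ℕ) (x : ℕ → V) :
    (Measure.infinitePi fun _ : ℕ => U) (walk v ⁻¹' cyl m x) =
      if x 0 = v then ∏ k ∈ Finset.range m, step (x k) (x (k + 1)) else 0 := by
  split_ifs with h0
  · have : walk v ⁻¹' cyl m x =
        Set.pi (Finset.range m : Set ℕ) fun k => {a | stepFn (x k) a = x (k + 1)} := by
      ext a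
      simp only [Set.mem_preimage, cyl, Set.mem_ofPred_eq, Set.mem_pi, Finset.coe_range,
        Set.mem_Iio]
      exact walk_iff v m x h0 a
    rw [this, Measure.infinitePi_pi]
    · exact Finset.prod_congr rfl fun k _ => step_eq _ _
    · intro k _
      exact MeasurableSet.of_discrete
  · have : walk v ⁻¹' cyl m x = ∅ := by
      ext a
      simp only [Set.mem_preimage, cyl, Set.mem_ofPred_eq, Set.mem_empty_iff_false, iff_false]
      intro h
      exact h0 (h 0 (Nat.zero_le _)).symm
    rw [this, measure_empty]

/-- The canonical measure. -/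
noncomputable def P0 : Measure (V → ℕ → Fin 3 × Fin 4) :=
  Measure.infinitePi fun _ : V => Measure.infinitePi fun _ : ℕ => U

instance : IsProbabilityMeasure P0 := by unfold P0; infer_instance

/-- The canonical walks. -/
def X0 (v : V) (k : ℕ) (a : V → ℕ → Fin 3 × Fin 4) : V := walk v (a v) k

theorem indepWalks_P0 : IndepWalks P0 X0 := by
  constructor
  · intro v
    constructor
    · intro k
      exact ((measurable_pi_apply k).comp (measurable_walk v)).comp (measurable_pi_apply v)
    · intro m x
      have h1 : {a | ∀ k ≤ m, X0 v k a = x k} =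
          (fun a : V → ℕ → Fin 3 × Fin 4 => a v) ⁻¹' (walk v ⁻¹' cyl m x) := rfl
      rw [h1, ← walk_law v m x, ← Measure.map_apply (measurable_pi_apply v)
        (measurable_walk v (measurable_cyl m x))]
      unfold P0
      rw [Measure.infinitePi_map_eval]
  · exact iIndepFun_infinitePi (P := fun _ : V => Measure.infinitePi fun _ : ℕ => U)
      (X := fun v a => walk v a) fun v => measurable_walk v

theorem transfer {Ω : Type*} [MeasurableSpace Ω] (P : Measure Ω) [IsProbabilityMeasure P]
    (X : V → ℕ → Ω → V) (hX : IndepWalks P X) (R : Set (V → ℕ → V)) (hR : MeasurableSet R)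
    (h0 : ∀ᵐ a ∂P0, (fun v k => X0 v k a) ∈ R) : ∀ᵐ ω ∂P, (fun v k => X v k ω) ∈ R := by
  have m1 : ∀ v, Measurable fun ω k => X v k ω := fun v => measurable_pi_iff.2 (hX.1 v).1
  have m0 : ∀ v, Measurable fun a k => X0 v k a := fun v =>
    measurable_pi_iff.2 (indepWalks_P0.1 v).1
  have mm1 : Measurable fun ω v k => X v k ω := measurable_pi_iff.2 m1
  have mm0 : Measurable fun a v k => X0 v k a := measurable_pi_iff.2 m0
  have hlaw : ∀ v, P.map (fun ω k => X v k ω) = P0.map (fun a k => X0 v k a) := by
    intro v
    have i1 : IsProbabilityMeasure (P.map fun ω k => X v k ω) :=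
      Measure.isProbabilityMeasure_map (m1 v).aemeasurable
    have i0 : IsProbabilityMeasure (P0.map fun a k => X0 v k a) :=
      Measure.isProbabilityMeasure_map (m0 v).aemeasurable
    refine law_unique fun m x => ?_
    rw [Measure.map_apply (m1 v) (measurable_cyl m x), Measure.map_apply (m0 v) (measurable_cyl m x)]
    exact ((hX.1 v).2 m x).trans ((indepWalks_P0.1 v).2 m x).symm
  have hjoint : P.map (fun ω v k => X v k ω) = P0.map (fun a v k => X0 v k a) := by
    rw [hX.2.map_fun_eq_infinitePi_map m1, indepWalks_P0.2.map_fun_eq_infinitePi_map m0]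
    congr 1
    funext v
    exact hlaw v
  have h1 := (ae_map_iff (p := fun x => x ∈ R) mm0.aemeasurable hR).2 h0
  rw [← hjoint] at h1
  exact (ae_map_iff (p := fun x => x ∈ R) mm1.aemeasurable hR).1 h1

theorem start {Ω : Type*} [MeasurableSpace Ω] (P : Measure Ω) [IsProbabilityMeasure P]
    (X : V → ℕ → Ω → V) (hX : IndepWalks P X) : ∀ᵐ ω ∂P, ∀ v, X v 0 ω = v := by
  rw [ae_all_iff]
  intro v
  have h := (hX.1 v).2 0 fun _ => v
  rw [if_pos rfl, Finset.range_zero, Finset.prod_empty] at h
  have hm : MeasurableSet {ω | X v 0 ω = v} := (hX.1 v).1 0 (MeasurableSet.singleton v)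
  have h' : P {ω | X v 0 ω = v} = 1 := by
    rw [← h]
    congr 1
    ext ω
    simp
  rw [← prob_compl_eq_zero_iff hm] at h'
  exact h'

theorem recurrent_of {Ω : Type*} [MeasurableSpace Ω] (P : Measure Ω) [IsProbabilityMeasure P]
    (X : V → ℕ → Ω → V) (hX : IndepWalks P X)
    (h0 : ∀ᵐ a ∂P0, (visits fun v k => X0 v k a).Infinite) :
    ∀ᵐ ω ∂P, {t | RootVisited (fun v k => X v k ω) t}.Infinite := by
  filter_upwards [transfer P X hX _ measurable_visits h0, start P X hX] with ω h1 h2
  exact infinite_times _ h2 h1

theorem P0_single (v : V) (k : ℕ) (c : Fin 3 × Fin 4) :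
    P0 ((fun a : V → ℕ → Fin 3 × Fin 4 => a v k) ⁻¹' {c}) = 1 / 12 := by
  have h1 : (fun a : V → ℕ → Fin 3 × Fin 4 => a v k) ⁻¹' {c} =
      (fun a : V → ℕ → Fin 3 × Fin 4 => a v) ⁻¹' ((fun b : ℕ → Fin 3 × Fin 4 => b k) ⁻¹' {c}) := rfl
  rw [h1, ← Measure.map_apply (measurable_pi_apply v)
    (measurable_pi_apply k (MeasurableSet.singleton c))]
  unfold P0
  rw [Measure.infinitePi_map_eval, ← Measure.map_apply (measurable_pi_apply k)
    (MeasurableSet.singleton c), Measure.infinitePi_map_eval]
  have := U_apply {c}
  simpa using this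

theorem P0_indep : iIndepFun (fun p : V × ℕ => fun a : V → ℕ → Fin 3 × Fin 4 => a p.1 p.2) P0 :=
  iIndepFun_uncurry_infinitePi' (X := fun _ _ a => a) (fun _ : V => fun _ : ℕ => U)
    fun _ _ => measurable_id

end Pool.Agent.H92.Rt3
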